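import Pool.Agent.Lib.MP_51bb46_lc.U.StA
import Pool.Agent.Lib.MP_51bb46_lc.T.Base
import Pool.Agent.Lib.MP_51bb46_lc.T.ExistsT

section

/-!
Constants of the switching step with jumps.
-/

set_option linter.unusedSectionVars false

namespace FrU

/-- bound for `2^(Δ |revealed vertices|)` per live edge -/
def YM (K C₁ C₂ Δ : ℕ) : ℕ := 2 ^ (Δ * (K * (2 + K3c K C₁ C₂ Δ)))

/-- number of new edges per live edge in a segment -/
def JM (K C₁ Δ : ℕ) : ℕ := Δ * (K * (2 + C₁))

/-- weight per live edge -/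
def XM (K C₁ C₂ Δ : ℕ) : ℕ := 2 * YM K C₁ C₂ Δ * 2 ^ JM K C₁ Δ

/-- the condition on the blow-up factor is `WM K C₁ C₂ Δ kk ≤ 2 ^ D` -/
def WM (K C₁ C₂ Δ kk : ℕ) : ℕ :=
  5 * ((1 + 4 * XM K C₁ C₂ Δ) ^ (2 * (Δ + 2)) * ((Δ + 2) * kk))

end FrU
end

section

/-!
Facts on runs with jumps; appending a segment.

PROOFS (inductions on the list).
`RunM_agree`: clear (`st .. .1` does not change at a step without jump).
`RunM_congr`: change of the real assignment: the conditions on `y` are agreements with the assignments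
of the segments on start sets and the patterns on `newI B M ⊆ G.inc M`, `M ⊆ (st ..).1` after the jump
(`Nx_sub`).
`RunM_congr2`: change of the assignment of the current segment near the revealed vertices: `Step_congr`,
`iota_agree` as in `Run_congr` (T/CodeA.lean); `plc G Q p.1 ⊆ De.Md .. p`.
`RunM_congr3`: for a complete list only the agreement on the start set is needed.
`RunM_fam`: an entry uses the family `𝒞 j`, where `j` is the number of jumps before it; for a complete
list `j < njp c`.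
`flag P c'` puts the jump on the last step (the head) of the segment `c'`.
`st_steps`: the state after steps without jumps.  `RunM_append`: first the steps without jump:
`RunM y (c'.map (fun k => (k, none)) ++ c) ys'` by induction on `c'` (`RunM_congr3` at the start), with
`st = (B, UsF B c')`, `segL = totL c'` (as `segL c = 0` for a complete list), `njp` unchanged.  Then the
head gets the jump.
`card_UsF`: as `card_seg` (there is `X`, `X.card ≤ (2 + C₁) totL c`, with `UsF B c ⊆ cl (B ∪ X)`).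
-/

set_option linter.unusedSectionVars false

namespace FrU

open Finset Fr56 FrC FrG FrT
open scoped Classical

/-- a segment with the jump at its end -/
def flag {V E : Type} {Q : ℕ} (P : Finset E) : List (LP V E Q) → List (RM V E Q)
  | [] => []
  | k :: c => (k, some P) :: c.map fun k => (k, none)

section
variable {V E : Type} [Fintype V] [Fintype E] [DecidableEq V] [DecidableEq E]
  {G : Gph V E} {Q K C₁ C₂ m : ℕ} {Fr : Frame G} {v0 : V} {D : ℕ}
  {α : Xt (TE V E Q) D → ZMod 2} {a : TV V Q → FrC.A D} {De : DetM G Q K C₁ C₂ m} {ℓ₀ : ℕ}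
  {𝒞 : ℕ → Set (Cert V E Q D)} {B₀ : Finset V}

private theorem StepT_congr {𝒞' : Set (Cert V E Q D)} {U M : Finset V} {y y' : E → ZMod 2}
    {C : Cert V E Q D} {L P : Finset (TE V E Q)} (hUM : U ⊆ M) (hLM : plc G Q L ⊆ M)
    (h : StepT Fr v0 α a 𝒞' U y C L P) (hy : G.Agree M y y') :
    StepT Fr v0 α a 𝒞' U y' C L P := by
  obtain ⟨hst, hPL, z, t, hz, hb, hf, hm, hpat⟩ := h
  have hy' : G.Agree U y y' := hy.mono hUM
  refine ⟨Step_congr Fr v0 α a hst hy', hPL, z, t, fun e he => ?_, hb, hf, hm, fun e he => ?_⟩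
  · rw [hz e he]
    exact iota_agree G hy' e he
  · have h1 : iota y e = iota y' e :=
      iota_agree G hy e (incT_mono G hLM (mem_incT_plc G he))
    rw [← h1]
    exact hpat e he

theorem RunM_agree {c : List (RM V E Q)} {y ys : E → ZMod 2}
    (h : RunM Fr v0 α a De ℓ₀ 𝒞 B₀ y c ys) : G.Agree (De.st B₀ c).1 y ys := by
  induction c with
  | nil => exact h
  | cons k c ih =>
    obtain ⟨p, o⟩ := k
    cases o with
    | none => exact ih h.1
    | some P => exact h.1

theorem RunM_congr {c : List (RM V E Q)} {y y' ys : E → ZMod 2}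
    (h : RunM Fr v0 α a De ℓ₀ 𝒞 B₀ y c ys) (hy : G.Agree (De.st B₀ c).1 y y') :
    RunM Fr v0 α a De ℓ₀ 𝒞 B₀ y' c ys := by
  induction c generalizing ys with
  | nil => exact Gph.Agree.trans (Gph.Agree.symm hy) h
  | cons k c ih =>
    obtain ⟨p, o⟩ := k
    cases o with
    | none => exact ⟨ih h.1 hy, h.2⟩
    | some P =>
      obtain ⟨hag, ys', hrun, hstep, hok, hℓ, hP, hpat⟩ := h
      refine ⟨Gph.Agree.trans (Gph.Agree.symm hy) hag, ys', ih hrun (Gph.Agree.mono (st_cons1 De B₀ _ c) hy),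
        hstep, hok, hℓ, hP, fun e he => ?_⟩
      have h1 : y e = y' e := by
        refine hy e ?_
        have h2 : e ∈ G.inc (De.Md (De.st B₀ c).2 p) := by
          unfold newI at he
          exact (Finset.mem_filter.1 he).2.1
        have h3 : De.Md (De.st B₀ c).2 p ⊆ (De.st B₀ ((p, some P) :: c)).1 :=
          Nx_sub De _ _ P
        exact h2.imp (fun h => h3 h) fun h => h3 h
      rw [← h1]
      exact hpat e he

theorem RunM_congr2 {c : List (RM V E Q)} {y ys ys' : E → ZMod 2}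
    (h : RunM Fr v0 α a De ℓ₀ 𝒞 B₀ y c ys) (hy : G.Agree (De.st B₀ c).2 ys ys') :
    RunM Fr v0 α a De ℓ₀ 𝒞 B₀ y c ys' := by
  induction c with
  | nil => exact Gph.Agree.trans h hy
  | cons k c ih =>
    obtain ⟨p, o⟩ := k
    cases o with
    | none =>
      obtain ⟨hrun, C, hC⟩ := h
      refine ⟨ih hrun (Gph.Agree.mono (st_cons2 De B₀ _ c) hy), C, ?_⟩
      exact StepT_congr (M := De.Md (De.st B₀ c).2 p) (Md_sub De _ _) (plc_sub_Md De _ _) hC hy
    | some P => exact ⟨Gph.Agree.trans h.1 hy, h.2⟩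

theorem RunM_congr3 {c : List (RM V E Q)} {y ys ys' : E → ZMod 2} (hc : Cpl c)
    (h : RunM Fr v0 α a De ℓ₀ 𝒞 B₀ y c ys) (hy : G.Agree (De.st B₀ c).1 y ys') :
    RunM Fr v0 α a De ℓ₀ 𝒞 B₀ y c ys' := by
  cases c with
  | nil => exact hy
  | cons k c =>
    obtain ⟨p, o⟩ := k
    cases o with
    | none =>
      have h1 : (none : Option (Finset E)).isSome = true := hc
      simp at h1
    | some P => exact ⟨hy, h.2⟩

private theorem RunM_fam_aux {𝒞' : ℕ → Set (Cert V E Q D)} {c : List (RM V E Q)}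
    {y ys : E → ZMod 2} (h : RunM Fr v0 α a De ℓ₀ 𝒞 B₀ y c ys)
    (h𝒞 : ∀ j ≤ njp c, 𝒞 j = 𝒞' j) : RunM Fr v0 α a De ℓ₀ 𝒞' B₀ y c ys := by
  induction c generalizing ys with
  | nil => exact h
  | cons k c ih =>
    obtain ⟨p, o⟩ := k
    cases o with
    | none =>
      have h0 : njp ((p, (none : Option (Finset E))) :: c) = njp c := rfl
      rw [h0] at h𝒞
      obtain ⟨hrun, C, hC⟩ := h
      refine ⟨ih hrun h𝒞, C, ?_⟩
      rw [← h𝒞 (njp c) le_rfl]
      exact hC
    | some P =>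
      have h0 : njp ((p, some P) :: c) = njp c + 1 := rfl
      rw [h0] at h𝒞
      obtain ⟨hag, ys', hrun, ⟨C, hC⟩, hok, hℓ, hP, hpat⟩ := h
      refine ⟨hag, ys', ih hrun fun j hj => h𝒞 j (by omega), ⟨C, ?_⟩, hok, hℓ, hP, hpat⟩
      rw [← h𝒞 (njp c) (by omega)]
      exact hC

theorem RunM_fam {𝒞' : ℕ → Set (Cert V E Q D)} {c : List (RM V E Q)} {y ys : E → ZMod 2}
    (hc : Cpl c) (h : RunM Fr v0 α a De ℓ₀ 𝒞 B₀ y c ys) (h𝒞 : ∀ j < njp c, 𝒞 j = 𝒞' j) :
    RunM Fr v0 α a De ℓ₀ 𝒞' B₀ y c ys := by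
  cases c with
  | nil => exact h
  | cons k c =>
    obtain ⟨p, o⟩ := k
    cases o with
    | none =>
      have h1 : (none : Option (Finset E)).isSome = true := hc
      simp at h1
    | some P =>
      have h0 : njp ((p, some P) :: c) = njp c + 1 := rfl
      rw [h0] at h𝒞
      obtain ⟨hag, ys', hrun, ⟨C, hC⟩, hok, hℓ, hP, hpat⟩ := h
      refine ⟨hag, ys', RunM_fam_aux hrun fun j hj => h𝒞 j (by omega), ⟨C, ?_⟩, hok, hℓ, hP,
        hpat⟩
      rw [← h𝒞 (njp c) (by omega)]
      exact hC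

theorem segL_cpl {c : List (RM V E Q)} (hc : Cpl c) : segL c = 0 := by
  cases c with
  | nil => rfl
  | cons k c =>
    obtain ⟨p, o⟩ := k
    cases o with
    | none =>
      have h1 : (none : Option (Finset E)).isSome = true := hc
      simp at h1
    | some P => rfl

/-- the steps without jumps -/
private def stp {V E : Type} {Q : ℕ} (c : List (LP V E Q)) : List (RM V E Q) :=
  c.map fun k => (k, none)

private theorem stp_cons (k : LP V E Q) (c' : List (LP V E Q)) (c : List (RM V E Q)) :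
    stp (k :: c') ++ c = (k, none) :: (stp c' ++ c) := rfl

private theorem flag_cons (P : Finset E) (k : LP V E Q) (c' : List (LP V E Q))
    (c : List (RM V E Q)) : flag P (k :: c') ++ c = (k, some P) :: (stp c' ++ c) := rfl

private theorem st_steps (De : DetM G Q K C₁ C₂ m) (B₀ : Finset V) (c' : List (LP V E Q))
    (c : List (RM V E Q)) :
    De.st B₀ (stp c' ++ c) = ((De.st B₀ c).1, De.UsF (De.st B₀ c).2 c') := by
  induction c' with
  | nil => rfl
  | cons k c' ih =>
    rw [stp_cons]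
    have h1 : De.st B₀ ((k, none) :: (stp c' ++ c)) =
        ((De.st B₀ (stp c' ++ c)).1, De.Md (De.st B₀ (stp c' ++ c)).2 k) := rfl
    rw [h1, ih]
    rfl

private theorem totR_steps (c' : List (LP V E Q)) (c : List (RM V E Q)) :
    totR (stp c' ++ c) = totR c + totL c' := by
  induction c' with
  | nil => rfl
  | cons k c' ih =>
    rw [stp_cons]
    have h1 : totR ((k, none) :: (stp c' ++ c)) = totR (stp c' ++ c) + k.1.card := rfl
    have h2 : totL (k :: c') = totL c' + k.1.card := rfl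
    rw [h1, ih, h2, Nat.add_assoc]

private theorem njp_steps (c' : List (LP V E Q)) (c : List (RM V E Q)) :
    njp (stp c' ++ c) = njp c := by
  induction c' with
  | nil => rfl
  | cons k c' ih => exact ih

private theorem segL_steps (c' : List (LP V E Q)) (c : List (RM V E Q)) :
    segL (stp c' ++ c) = segL c + totL c' := by
  induction c' with
  | nil => rfl
  | cons k c' ih =>
    rw [stp_cons]
    have h1 : segL ((k, none) :: (stp c' ++ c)) = segL (stp c' ++ c) + k.1.card := rfl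
    have h2 : totL (k :: c') = totL c' + k.1.card := rfl
    rw [h1, ih, h2, Nat.add_assoc]

theorem st_flag (c' : List (LP V E Q)) (hc' : c' ≠ []) (c : List (RM V E Q)) (hc : Cpl c)
    (P : Finset E) :
    De.st B₀ (flag P c' ++ c) = (De.Nx (De.st B₀ c).1 (De.UsF (De.st B₀ c).1 c') P,
      De.Nx (De.st B₀ c).1 (De.UsF (De.st B₀ c).1 c') P) := by
  cases c' with
  | nil => exact absurd rfl hc'
  | cons k c' =>
    rw [flag_cons]
    have h1 : De.st B₀ ((k, some P) :: (stp c' ++ c)) =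
        (De.Nx (De.st B₀ (stp c' ++ c)).1 (De.Md (De.st B₀ (stp c' ++ c)).2 k) P,
          De.Nx (De.st B₀ (stp c' ++ c)).1 (De.Md (De.st B₀ (stp c' ++ c)).2 k) P) := rfl
    rw [h1, st_steps, ← st_cpl De B₀ c hc]
    rfl

theorem totR_flag (c' : List (LP V E Q)) (c : List (RM V E Q)) (P : Finset E) :
    totR (flag P c' ++ c) = totR c + totL c' := by
  cases c' with
  | nil => rfl
  | cons k c' =>
    rw [flag_cons]
    have h1 : totR ((k, some P) :: (stp c' ++ c)) = totR (stp c' ++ c) + k.1.card := rfl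
    have h2 : totL (k :: c') = totL c' + k.1.card := rfl
    rw [h1, totR_steps, h2, Nat.add_assoc]

theorem njp_flag (c' : List (LP V E Q)) (hc' : c' ≠ []) (c : List (RM V E Q)) (P : Finset E) :
    njp (flag P c' ++ c) = njp c + 1 := by
  cases c' with
  | nil => exact absurd rfl hc'
  | cons k c' =>
    rw [flag_cons]
    have h1 : njp ((k, some P) :: (stp c' ++ c)) = njp (stp c' ++ c) + 1 := rfl
    rw [h1, njp_steps]

theorem cpl_flag (c' : List (LP V E Q)) (hc' : c' ≠ []) (c : List (RM V E Q)) (P : Finset E) :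
    Cpl (flag P c' ++ c) := by
  cases c' with
  | nil => exact absurd rfl hc'
  | cons k c' => rfl

private theorem RunM_steps {c : List (RM V E Q)} {y ys ys' : E → ZMod 2} (hc : Cpl c)
    (h : RunM Fr v0 α a De ℓ₀ 𝒞 B₀ y c ys) {c' : List (LP V E Q)}
    (hag : G.Agree (De.st B₀ c).1 y ys')
    (hrun : RunF Fr v0 α a De (𝒞 (njp c)) (De.st B₀ c).1 ys' c') :
    RunM Fr v0 α a De ℓ₀ 𝒞 B₀ y (stp c' ++ c) ys' := by
  induction c' with
  | nil => exact RunM_congr3 hc h hag
  | cons k c' ih =>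
    obtain ⟨hr, C, hC⟩ := hrun
    rw [stp_cons]
    refine ⟨ih hr, C, ?_⟩
    rw [njp_steps, st_steps, ← st_cpl De B₀ c hc]
    exact hC

theorem RunM_append {c : List (RM V E Q)} {y ys ys' ys'' : E → ZMod 2} (hc : Cpl c)
    (h : RunM Fr v0 α a De ℓ₀ 𝒞 B₀ y c ys) {c' : List (LP V E Q)} (hc' : c' ≠ [])
    (hag : G.Agree (De.st B₀ c).1 y ys')
    (hrun : RunF Fr v0 α a De (𝒞 (njp c)) (De.st B₀ c).1 ys' c')
    (hok : Fr.Ok v0 (De.UsF (De.st B₀ c).1 c') ys') (hℓ : ℓ₀ ≤ totL c') {P : Finset E}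
    (hP : P = (newI G (De.st B₀ c).1 (De.UsF (De.st B₀ c).1 c')).filter fun e => y e ≠ ys' e)
    (hag' : G.Agree (De.Nx (De.st B₀ c).1 (De.UsF (De.st B₀ c).1 c') P) y ys'') :
    RunM Fr v0 α a De ℓ₀ 𝒞 B₀ y (flag P c' ++ c) ys'' := by
  have hst := st_flag (De := De) (B₀ := B₀) c' hc' c hc P
  cases c' with
  | nil => exact absurd rfl hc'
  | cons k c' =>
    rw [flag_cons] at hst ⊢
    obtain ⟨hr, C, hC⟩ := hrun
    have hM : De.Md (De.st B₀ (stp c' ++ c)).2 k = De.UsF (De.st B₀ c).1 (k :: c') := by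
      rw [st_steps, ← st_cpl De B₀ c hc]
      rfl
    have hB : (De.st B₀ (stp c' ++ c)).1 = (De.st B₀ c).1 := by
      rw [st_steps]
    refine ⟨?_, ys', RunM_steps hc h hag hr, ⟨C, ?_⟩, ?_, ?_, ?_, ?_⟩
    · rw [hst]
      exact hag'
    · rw [njp_steps, st_steps, ← st_cpl De B₀ c hc]
      exact hC
    · rw [hM]
      exact hok
    · rw [segL_steps, segL_cpl hc, Nat.zero_add]
      exact hℓ
    · rw [hM, hB, hP]
      exact Finset.filter_subset _ _
    · rw [hM, hB]
      intro e he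
      rw [hP, Finset.mem_filter]
      exact ⟨fun h => h.2, fun h => ⟨he, h⟩⟩

theorem UsF_sub (De : DetM G Q K C₁ C₂ m) (B : Finset V) (c : List (LP V E Q)) :
    B ⊆ De.UsF B c := by
  induction c with
  | nil => exact Finset.Subset.refl _
  | cons k c ih => exact ih.trans (Md_sub De _ k)

theorem UsF_cl (De : DetM G Q K C₁ C₂ m) {B : Finset V} (hB : De.cL B = B)
    (c : List (LP V E Q)) : De.cl (De.UsF B c) = De.UsF B c := by
  cases c with
  | nil => exact De.clL B hB
  | cons k c => exact Md_cl De _ k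

theorem UsF_mono (De : DetM G Q K C₁ C₂ m) (B : Finset V) {c c' : List (LP V E Q)}
    (h : c <:+ c') : De.UsF B c ⊆ De.UsF B c' := by
  obtain ⟨t, rfl⟩ := h
  induction t with
  | nil => exact Finset.Subset.refl _
  | cons k t ih => exact ih.trans (Md_sub De _ k)

private theorem exists_UsF (De : DetM G Q K C₁ C₂ m) (B : Finset V) (c : List (LP V E Q)) :
    ∃ X : Finset V, De.UsF B c ⊆ De.cl (B ∪ X) ∧ X.card ≤ (2 + C₁) * totL c := by
  induction c with
  | nil => exact ⟨∅, Finset.subset_union_left.trans (De.ext _), by simp⟩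
  | cons k c ih =>
    obtain ⟨X, hX, hc⟩ := ih
    refine ⟨X ∪ plc G Q k.1 ∪ bsT G (dc G C₁ (De.UsF B c) k.1 k.2), ?_, ?_⟩
    · have h1 : De.UsF B c ∪ plc G Q k.1 ∪ bsT G (dc G C₁ (De.UsF B c) k.1 k.2) ⊆
          De.cl (B ∪ (X ∪ plc G Q k.1 ∪ bsT G (dc G C₁ (De.UsF B c) k.1 k.2))) := by
        refine Finset.union_subset (Finset.union_subset (hX.trans ?_) ?_) ?_
        · refine De.mono _ _ (Finset.union_subset_union (Finset.Subset.refl _) ?_)
          exact Finset.subset_union_left.trans Finset.subset_union_left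
        · exact ((Finset.subset_union_right.trans Finset.subset_union_left).trans
            Finset.subset_union_right).trans (De.ext _)
        · exact (Finset.subset_union_right.trans Finset.subset_union_right).trans (De.ext _)
      have h2 := De.mono _ _ h1
      rw [De.idem] at h2
      exact h2
    · have h3 := card_plc G k.1
      have h4 := (dc_spec (G := G) (C₁ := C₁) (De.UsF B c) k.1 k.2).2.2
      have h5 := Finset.card_union_le (X ∪ plc G Q k.1)
        (bsT G (dc G C₁ (De.UsF B c) k.1 k.2))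
      have h6 := Finset.card_union_le X (plc G Q k.1)
      have h7 : totL (k :: c) = totL c + k.1.card := rfl
      rw [h7, Nat.mul_add, Nat.add_mul 2 C₁ k.1.card]
      omega

theorem card_UsF (De : DetM G Q K C₁ C₂ m) {B : Finset V} (hB : De.cL B = B)
    (c : List (LP V E Q)) (h : (2 + C₁) * totL c ≤ m) :
    (De.UsF B c \ B).card ≤ K * ((2 + C₁) * totL c) := by
  obtain ⟨X, hX, hc⟩ := exists_UsF De B c
  calc (De.UsF B c \ B).card ≤ (De.cl (B ∪ X) \ B).card :=
        Finset.card_le_card (Finset.sdiff_subset_sdiff hX (Finset.Subset.refl _))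
    _ ≤ K * X.card := De.incr B hB X (hc.trans h)
    _ ≤ K * ((2 + C₁) * totL c) := Nat.mul_le_mul_left _ hc

theorem RunF_congr {B : Finset V} {𝒞 : Set (Cert V E Q D)} {y y' : E → ZMod 2}
    {c : List (LP V E Q)} (h : RunF Fr v0 α a De 𝒞 B y c)
    (hy : G.Agree (De.UsF B c) y y') : RunF Fr v0 α a De 𝒞 B y' c := by
  induction c with
  | nil => trivial
  | cons k c ih =>
    obtain ⟨hr, C, hC⟩ := h
    refine ⟨ih hr (Gph.Agree.mono (Md_sub De _ k) hy), C, ?_⟩
    exact StepT_congr (M := De.Md (De.UsF B c) k) (Md_sub De _ _) (plc_sub_Md De _ _) hC hy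

end

end FrU
end

section

/-!
Decision trees: changing the assignment, changing the leaves, sequencing.

PROOFS: inductions on `Dec` (`FrC.Dec`).
`dec_congr`: leaf: `hQ`.  Node: a state `y''` that agrees with `y'` on `U` agrees with `y` on `U`.
`dec_bind`: leaf: the hypothesis at `(U, y)` itself, and `Dec.mono` (`FrC.Dec.mono`: more budget).  Node `N`,
`|N| ≤ n`: for `y'` with `G.Agree U y y'`, `Ok (U ∪ N) y'` apply the induction hypothesis at
`(U ∪ N, y')`; agreement on `U` with `y` follows by transitivity (`Gph.Agree.mono`, `Gph.Agree.trans`),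
`|U ∪ N| + k ≤ |U| + (n + k)`.
`dec_map`: the special case of leaves (or the same induction).
-/

set_option linter.unusedSectionVars false

namespace FrU

open Finset Fr56 FrC FrG FrT
open scoped Classical

section
variable {V E : Type} [Fintype E] [DecidableEq V] {G : Gph V E} {Fr : Frame G} {v0 : V}

theorem dec_congr {Q : Bool → Finset V → (E → ZMod 2) → Prop} {k : ℕ} {U : Finset V}
    {y y' : E → ZMod 2} (h : Dec Fr v0 Q k U y) (hag : G.Agree U y y')
    (hQ : ∀ b, Q b U y → Q b U y') : Dec Fr v0 Q k U y' := by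
  cases h with
  | leaf b h => exact Dec.leaf b (hQ b h)
  | node N hN h => exact Dec.node N hN fun y'' hag' hok => h y'' (hag.trans hag') hok

theorem dec_bind {Q Q' : Bool → Finset V → (E → ZMod 2) → Prop} {k k' : ℕ} {U : Finset V}
    {y : E → ZMod 2} (h : Dec Fr v0 Q k U y) (hok : Fr.Ok v0 U y)
    (hQ : ∀ b U' y', U ⊆ U' → G.Agree U y y' → Fr.Ok v0 U' y' → U'.card ≤ U.card + k →
      Q b U' y' → Dec Fr v0 Q' k' U' y') : Dec Fr v0 Q' (k + k') U y := by
  induction h with
  | @leaf k U y b h =>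
    exact Dec.mono (hQ b U y (Finset.Subset.refl _) (Gph.Agree.refl G _ _) hok (by omega) h)
      (by omega)
  | @node k n U y N hN h ih =>
    rw [Nat.add_assoc]
    refine Dec.node N hN fun y1 hag1 hok1 => ?_
    refine ih y1 hag1 hok1 hok1 fun b U' y' hU hag' hok' hc hq => ?_
    have hcu := Finset.card_union_le U N
    exact hQ b U' y' (Finset.subset_union_left.trans hU)
      (hag1.trans (Gph.Agree.mono Finset.subset_union_left hag')) hok' (by omega) hq

theorem dec_map {Q Q' : Bool → Finset V → (E → ZMod 2) → Prop} {k : ℕ} {U : Finset V}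
    {y : E → ZMod 2} (h : Dec Fr v0 Q k U y) (hok : Fr.Ok v0 U y)
    (hQ : ∀ b U' y', U ⊆ U' → G.Agree U y y' → Fr.Ok v0 U' y' → U'.card ≤ U.card + k →
      Q b U' y' → ∃ b', Q' b' U' y') : Dec Fr v0 Q' k U y := by
  have h' : Dec Fr v0 Q' (k + 0) U y := dec_bind h hok fun b U' y' hU hag hok' hc hq => by
    obtain ⟨b', hb'⟩ := hQ b U' y' hU hag hok' hc hq
    exact Dec.leaf b' hb'
  exact h'

end

end FrU
end

section

section

/-!
The coordinates on which a code (with jumps) depends.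

Compare T/CodeB.lean (the same without jumps).  `s c = De.st B₀ c`.

PROOF of `SSM_mono`: `st_cons2`.
PROOF of `Pth_ScM_congr`: `FrC.Pth_congr`; the support of `De.ScM B₀ c = De.DcM B₀ (c.map toR) + iota (mvs c)`
consists of edges in supports of detours `dc ..` (their endpoints lie over `bsT .. ⊆ De.Md .. ⊆ (s (k :: ..)).2`,
`bsT_sub_Md`, `Md_sub_st`), of edges in supports of `iota (dB ..)` (copies in layer `0` of base edges
with endpoints in `bsV .. ⊆ De.Nx ..`, `bsV_sub_Nx`), and of `iota` of moves (copies in layer `0`, with endpoints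
`(src e, 0)`, `(tgt e, 0)`, `k.1.2.1 e ≠ 0` for some entry `k`).
PROOF of `DcdM_depOn`: induction on `c`; base: the edges in `L₀` have their endpoints over
`plc G Q L₀ ⊆ De.cL (plc G Q L₀)` (`FrC.Tch_congr`); step: the sets grow with `c` (`SSM_mono`), `Pth_ScM_congr`
for the first matched certificate, and `FrC.Tch_congr` for the edges in `k.1.1.1` (`plc_sub_st`).
-/

set_option linter.unusedSectionVars false

namespace FrU

open Finset Fr56 FrC FrG FrT
open scoped Classical

section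
variable {V E : Type} [Fintype V] [Fintype E] [DecidableEq V] [DecidableEq E]
  {G : Gph V E} {Q K C₁ C₂ m : ℕ} (Fr : Frame G) {D : ℕ} (De : DetM G Q K C₁ C₂ m)

/-- the vertices of the tall graph on which a code depends -/
def SSM (B₀ : Finset V) (t0 : V) (c : List (EM V E Q)) : Set (TV V Q) :=
  {v | v.1 ∈ (De.st B₀ (c.map toR)).2 ∨ (v.2 = 0 ∧ (v.1 = t0 ∨
    ∃ k ∈ c, ∃ e, k.1.2.1 e ≠ 0 ∧ (G.src e = v.1 ∨ G.tgt e = v.1)))}

theorem SSM_mono (B₀ : Finset V) (t0 : V) (k : EM V E Q) (c : List (EM V E Q)) :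
    SSM De B₀ t0 c ⊆ SSM De B₀ t0 (k :: c) := by
  rintro v (hv | ⟨hv, h⟩)
  · exact Or.inl (st_cons2 De B₀ (toR k) (c.map toR) hv)
  · refine Or.inr ⟨hv, ?_⟩
    rcases h with h | ⟨k', hk', h⟩
    · exact Or.inl h
    · exact Or.inr ⟨k', List.mem_cons_of_mem _ hk', h⟩

private theorem mem_bsV {f : E → ZMod 2} {v : V} :
    v ∈ bsV G f ↔ ∃ e, f e ≠ 0 ∧ (G.src e = v ∨ G.tgt e = v) := by
  unfold bsV
  simp

private theorem iota_ne {f : E → ZMod 2} {e : TE V E Q} (h : iota f e ≠ 0) :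
    ∃ e0 : E, e = Sum.inl (e0, 0) ∧ f e0 ≠ 0 := by
  rcases e with ⟨e0, l⟩ | p
  · by_cases h5 : l = 0
    · subst h5
      refine ⟨e0, rfl, ?_⟩
      intro h6
      apply h
      show (if (0 : Fin (Q + 1)) = 0 then f e0 else 0) = 0
      rw [if_pos rfl, h6]
    · exfalso
      apply h
      show (if l = 0 then f e0 else 0) = 0
      rw [if_neg h5]
  · exact absurd rfl h

private theorem mvs_ne (c : List (EM V E Q)) {e0 : E} (h : mvs c e0 ≠ 0) :
    ∃ k ∈ c, k.1.2.1 e0 ≠ 0 := by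
  induction c with
  | nil => exact absurd rfl h
  | cons k c ih =>
    by_cases h1 : k.1.2.1 e0 = 0
    · have h2 : mvs c e0 ≠ 0 := by
        intro h3
        apply h
        show mvs c e0 + k.1.2.1 e0 = 0
        rw [h3, h1, add_zero]
      obtain ⟨k', hk', hh⟩ := ih h2
      exact ⟨k', List.mem_cons_of_mem _ hk', hh⟩
    · exact ⟨k, List.mem_cons_self, h1⟩

private theorem DcM_supp (B₀ : Finset V) (t0 : V) (c : List (EM V E Q)) (e : TE V E Q)
    (he : De.DcM B₀ (c.map toR) e ≠ 0) :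
    (G.tall Q).src e ∈ SSM De B₀ t0 c ∧ (G.tall Q).tgt e ∈ SSM De B₀ t0 c := by
  induction c with
  | nil => exact absurd rfl he
  | cons k c ih =>
    by_cases h1 : De.DcM B₀ (c.map toR) e = 0
    · by_cases h2 : dc G C₁ (De.st B₀ (c.map toR)).2 k.1.1.1 k.1.1.2 e = 0
      · obtain ⟨⟨p, mv⟩, o⟩ := k
        cases o with
        | none =>
          exfalso
          apply he
          show De.DcM B₀ (c.map toR) e + dc G C₁ (De.st B₀ (c.map toR)).2 p.1 p.2 e = 0
          rw [h1, zero_add]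
          exact h2
        | some P =>
          have h3 : iota (dB G C₂ (De.st B₀ (c.map toR)).1
              (De.Md (De.st B₀ (c.map toR)).2 p) P) e ≠ 0 := by
            intro h3
            apply he
            show De.DcM B₀ (c.map toR) e + (dc G C₁ (De.st B₀ (c.map toR)).2 p.1 p.2 e +
              iota (dB G C₂ (De.st B₀ (c.map toR)).1
                (De.Md (De.st B₀ (c.map toR)).2 p) P) e) = 0
            rw [h1, h3, zero_add, add_zero]
            exact h2
          obtain ⟨e0, rfl, h4⟩ := iota_ne h3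
          have h5 := bsV_sub_Nx De (De.st B₀ (c.map toR)).1
            (De.Md (De.st B₀ (c.map toR)).2 p) P
          exact ⟨Or.inl (h5 (mem_bsV.2 ⟨e0, h4, Or.inl rfl⟩)),
            Or.inl (h5 (mem_bsV.2 ⟨e0, h4, Or.inr rfl⟩))⟩
      · have h3 : e ∈ univ.filter fun e =>
            dc G C₁ (De.st B₀ (c.map toR)).2 k.1.1.1 k.1.1.2 e ≠ 0 := by
          rw [Finset.mem_filter]
          exact ⟨Finset.mem_univ e, h2⟩
        have h4 : bsT G (dc G C₁ (De.st B₀ (c.map toR)).2 k.1.1.1 k.1.1.2) ⊆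
            (De.st B₀ (toR k :: c.map toR)).2 :=
          (bsT_sub_Md De (De.st B₀ (c.map toR)).2 k.1.1).trans
            (Md_sub_st De B₀ (toR k) (c.map toR))
        refine ⟨Or.inl (h4 ?_), Or.inl (h4 ?_)⟩
        · exact Finset.mem_biUnion.2 ⟨e, h3, by simp⟩
        · exact Finset.mem_biUnion.2 ⟨e, h3, by simp⟩
    · exact ⟨SSM_mono De B₀ t0 k c (ih h1).1, SSM_mono De B₀ t0 k c (ih h1).2⟩

theorem Pth_ScM_congr (B₀ : Finset V) (t0 : V) (c : List (EM V E Q)) {a b : TV V Q → FrC.A D}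
    (h : ∀ v ∈ SSM De B₀ t0 c, a v = b v) :
    Pth (G.tall Q) a (De.ScM B₀ c) = Pth (G.tall Q) b (De.ScM B₀ c) := by
  refine FrC.Pth_congr _ fun e he => ?_
  have h1 : (G.tall Q).src e ∈ SSM De B₀ t0 c ∧ (G.tall Q).tgt e ∈ SSM De B₀ t0 c := by
    by_cases h2 : De.DcM B₀ (c.map toR) e = 0
    · have h3 : iota (mvs c) e ≠ 0 := by
        intro h3
        apply he
        show De.DcM B₀ (c.map toR) e + iota (mvs c) e = 0
        rw [h2, h3, add_zero]
      obtain ⟨e0, rfl, h4⟩ := iota_ne h3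
      obtain ⟨k, hk, h5⟩ := mvs_ne c h4
      exact ⟨Or.inr ⟨rfl, Or.inr ⟨k, hk, e0, h5, Or.inl rfl⟩⟩,
        Or.inr ⟨rfl, Or.inr ⟨k, hk, e0, h5, Or.inr rfl⟩⟩⟩
    · exact DcM_supp De B₀ t0 c e h2
  exact ⟨h _ h1.1, h _ h1.2⟩

theorem DcdM_depOn (𝒞 : ℕ → Set (Cert V E Q D)) (W : Finset (HV (TV V Q) (TE V E Q) D))
    (L₀ : Finset (TE V E Q)) (t0 : V) (β : Xt (TE V E Q) D → ZMod 2) (c : List (EM V E Q)) :
    DepOn (SSM De (De.cL (plc G Q L₀)) t0 c)
      (fun a : TV V Q → FrC.A D => DcdM Fr De 𝒞 W L₀ t0 β a c) := by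
  induction c with
  | nil =>
    intro a b h
    have h4 : plc G Q L₀ ⊆ De.cL (plc G Q L₀) := De.extL _
    show (∀ e ∈ L₀, Tch (G.tall Q) a W e) ↔ ∀ e ∈ L₀, Tch (G.tall Q) b W e
    refine forall₂_congr fun e he => ?_
    have h5 : (G.tall Q).src e ∈ SSM De (De.cL (plc G Q L₀)) t0 [] :=
      Or.inl (h4 (Finset.mem_biUnion.2 ⟨e, he, by simp⟩))
    have h6 : (G.tall Q).tgt e ∈ SSM De (De.cL (plc G Q L₀)) t0 [] :=
      Or.inl (h4 (Finset.mem_biUnion.2 ⟨e, he, by simp⟩))
    exact Tch_congr _ (h _ h5) (h _ h6)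
  | cons k c ih =>
    intro a b h
    have h0 : ∀ v ∈ SSM De (De.cL (plc G Q L₀)) t0 c, a v = b v :=
      fun v hv => h v (SSM_mono De _ t0 k c hv)
    have h1 : DcdM Fr De 𝒞 W L₀ t0 β a c ↔ DcdM Fr De 𝒞 W L₀ t0 β b c := ih a b h0
    have h2 := Pth_ScM_congr De (De.cL (plc G Q L₀)) t0 c h0
    have h3 : ∀ (C : Cert V E Q D), (∀ e ∈ k.1.1.1, Tch (G.tall Q) a (C.1 \ W) e) ↔
        ∀ e ∈ k.1.1.1, Tch (G.tall Q) b (C.1 \ W) e := by
      intro C
      refine forall₂_congr fun e he => ?_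
      have h4 : plc G Q k.1.1.1 ⊆ (De.st (De.cL (plc G Q L₀)) (toR k :: c.map toR)).2 :=
        plc_sub_st De _ (toR k) (c.map toR)
      have h5 : (G.tall Q).src e ∈ SSM De (De.cL (plc G Q L₀)) t0 (k :: c) :=
        Or.inl (h4 (Finset.mem_biUnion.2 ⟨e, he, by simp⟩))
      have h6 : (G.tall Q).tgt e ∈ SSM De (De.cL (plc G Q L₀)) t0 (k :: c) :=
        Or.inl (h4 (Finset.mem_biUnion.2 ⟨e, he, by simp⟩))
      exact Tch_congr _ (h _ h5) (h _ h6)
    show (DcdM Fr De 𝒞 W L₀ t0 β a c ∧ _) ↔ (DcdM Fr De 𝒞 W L₀ t0 β b c ∧ _)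
    rw [h1, h2]
    simp only [h3]

end

end FrU
end

section

/-!
Decoding a sequence of segments (steps and jumps), with moves of the violated vertex.

PROOF of `decodeM`.  Compare `FrT.decodeT` (T/DecodeT.lean, T/DecodeA.lean), the case without jumps.
Let `B₀ = De.B0 a W`, `s c' = De.st B₀ c'`, `U = (s c).1 = (s c).2` (`st_cpl`), `n = c.length`; time of an
entry `k` in `c = c2 ++ k :: c1` is `c1.length`.  `N₀ = (cov (G.tall Q) a W).card`;
`U.card ≤ K (2 N₀ + K3c * totR c)` by `card_st` with `G₀ = plc G Q (cov ..)`, `G₀.card ≤ 2 N₀`.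
(1) From the run choose certificates `Cs i` and assignments `Ys i` for all times `i < n`, such that for
each suffix `k :: c'` of `c`, with `i = c'.length`: `StepT Fr v0 α a (𝒞 (njp c')) (s c').2 (Ys i) (Cs i) k.1.1 k.1.2`,
and `G.Agree (s c').1 y (Ys i)`; if `k.2 = none` then (`c` complete, so there is a next entry) `Ys (i + 1) = Ys i`
for the next entry; if `k.2 = some P` then `Fr.Ok v0 (De.Md (s c').2 k.1) (Ys i)`,
`P ⊆ newI ..`, and `e ∈ P ↔ y e ≠ Ys i e` for `e ∈ newI (s c').1 (De.Md (s c').2 k.1)`.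
Consequence (induction along the segment, `st_cons2`): for every suffix `k :: c'` the assignment
`Ys i` is `Ok` for `De.Md (s c').2 k.1` (a subset of the revealed set at the end of the segment).
(2) Blocks `i / ℓ` and vertices `ts i` free for `U` and for `G.nbh (Unc G Q (Cs i).1)`, moves `γs i`: as in
`decodeT`, with the sets `N b = U ∪ G.nbh (Unc G Q W) ∪ ⋃ G.nbh (Unc G Q ((Cs i).1 \ W))`;
`Unc G Q (Cs i).1 ⊆ Unc G Q W ∪ Unc G Q ((Cs i).1 \ W)`, so `N b` contains `G.nbh (Unc G Q (Cs i).1)`;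
`|N b| ≤ K (2 N₀ + K3c totR c) + (1 + Δ) (2 |W|) + ℓ (1 + Δ) (2 k)`.
(3) The code: `mk [] = []`, `mk (k :: c') = ((k.1, (γs c'.length, ts (c'.length + 1))), k.2) :: mk c'`;
`(mk c').map toR = c'`, `mvs (mk c') = ∑_(i < c'.length) γs i`, `tvM t0 (mk c') = ts c'.length`.
(4) Detours exist: for each suffix `k :: c'`: `∃ d, DcOk G C₁ (s c').2 k.1.1 k.1.2 d` as in `exists_dc`
(T/DecodeA.lean), with `Ys i` (`Ok` for `De.Md (s c').2 k.1` by (1)) in the place of `y` and the closed set
`(s c').2` (`st_cl`); so `dc_pattern` applies.  For a jump `k.2 = some P`, `B = (s c').1`,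
`M = De.Md (s c').2 k.1`: `∃ f, DbOk G C₂ B M P f`: let `ty` be the violated vertex of `y` (free for `U ⊇ M`) and
`t'` that of `Ys i` (free for `M`), `γ` the path of `Fr.conn M ty t'`; `y + Ys i + γ` is closed, zero on
`G.inc B` (agreement in (1)), and on `G.inc M` equal to `y + Ys i`; by `detB` (`B` is strongly closed, hence
closed) for `L = newI G B M` there is a small `f'` with the same values on `newI`.
Consequence: `dB G C₂ B M P e = y e + Ys i e` for all `e ∈ G.inc M` (on `newI` by the pattern, on `G.inc B`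
both sides are `0`).
(5) KEY: let `c = c2 ++ c'` where `c2 ≠ []` and let `k` be the entry after `c'` (so `k :: c'` is a suffix),
`i = c'.length`.  Then for `e ∈ incT G Q (s c').2`:
`(De.DcM B₀ c + De.DcM B₀ c') e = iota (y + Ys i) e`.
And for `e ∈ incT G Q (De.Md (s c').2 k.1)`:
`(De.DcM B₀ c + De.DcM B₀ c') e = iota (y + Ys i) e + dc G C₁ (s c').2 k.1.1 k.1.2 e`.
The second implies the first (`dc` vanishes on `incT G Q (s c').2`, `Md_sub`).  Proof of the second by
induction on `c2` from the inner side: if `k.2 = none` then `De.DcM (k :: c') = De.DcM c' + dc`, `(s (k :: c')).2 =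
Md (s c').2 k.1`, the list `k :: c'` is followed by another entry with the same `Ys`, and the first statement
holds for `k :: c'`.  If `k.2 = some P` then `De.DcM (k :: c') = De.DcM c' + dc + iota (dB ..)`, and
`De.DcM c + De.DcM (k :: c')` vanishes on `incT G Q (s (k :: c')).1 ⊇ incT G Q M` by `DcM_zero`; and
`iota (dB ..) = iota (y + Ys i)` on `incT G Q M` by (4) (for edges outside layer `0` both are `0`).
(6) Let `yh` be given and `β = α + Pth a (iota yh + De.DcM B₀ c)`.  For a suffix `k :: c'`, `i = c'.length`,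
`x = iota yh + De.DcM B₀ c + De.ScM B₀ (mk c')`: by (5) and since `yh` agrees with `y` on `G.inc U` and the
moves vanish there: `x = iota (Ys i)` on `incT G Q (s c').2` and `x = z` on `k.1.1` (`z` the witness in `StepT`),
`bd x = pt (v0, 0) + pt (ts i, 0)`.  The rest is as in `decodeT`: `Match`, minimality of the index,
`Free`.  The live paths of the edges `e ∈ k.1.1` touch `(Cs i).1 \ W`: they touch `(Cs i).1`, and not `W`, since
otherwise `e ∈ cov (G.tall Q) a W`, so `e ∈ incT G Q B₀ ⊆ incT G Q (s c').2`, a contradiction to `Step`.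
Base: all edges in `cov (G.tall Q) a W` touch `W`.
-/

set_option linter.unusedSectionVars false

namespace FrU

open Finset Fr56 FrC FrG FrT
open scoped Classical

private theorem suffix_ind {ι : Type} {c : List ι} {p : List ι → Prop} (h0 : p c)
    (h1 : ∀ k l, (k :: l) <:+ c → p (k :: l) → p l) : ∀ l, l <:+ c → p l := by
  intro l hl
  obtain ⟨t, ht⟩ := hl
  induction t using List.reverseRecOn generalizing l with
  | nil =>
    rw [List.nil_append] at ht
    rw [ht]
    exact h0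
  | append_singleton t k ih =>
    have h2 : t ++ (k :: l) = c := by rw [← ht]; simp
    exact h1 k l ⟨t, h2⟩ (ih (k :: l) h2)

section
variable {V E : Type} [Fintype V] [Fintype E] [DecidableEq V] [DecidableEq E]
  {G : Gph V E} {Q K C₁ C₂ m : ℕ} (Fr : Frame G) (v0 : V) {D : ℕ}
  (α : Xt (TE V E Q) D → ZMod 2) (a : TV V Q → FrC.A D) (De : DetM G Q K C₁ C₂ m)

private theorem zm2 : ∀ p q r : ZMod 2, (p ≠ 0 ↔ q ≠ r) → r + p = q := by decide

private theorem zm3 : ∀ p q r : ZMod 2, (p ≠ 0 ↔ q ≠ r) → p = q + r := by decide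

private theorem zm4 : ∀ p q d f : ZMod 2, p + (q + (d + f)) = 0 → p + q = f + d := by decide

private theorem zm5 : ∀ p q d f : ZMod 2, p + (q + d) = f → p + q = f + d := by decide

/-- the code with moves `γs` and violated vertices `ts` -/
private def mkM (γs : ℕ → E → ZMod 2) (ts : ℕ → V) : List (RM V E Q) → List (EM V E Q)
  | [] => []
  | k :: c => ((k.1, (γs c.length, ts (c.length + 1))), k.2) :: mkM γs ts c

private theorem mkM_map (γs : ℕ → E → ZMod 2) (ts : ℕ → V) (c : List (RM V E Q)) :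
    (mkM γs ts c).map toR = c := by
  induction c with
  | nil => rfl
  | cons k c ih =>
    rw [mkM, List.map_cons, ih]
    rfl

private theorem mkM_tv (γs : ℕ → E → ZMod 2) (ts : ℕ → V) (c : List (RM V E Q)) :
    tvM (ts 0) (mkM γs ts c) = ts c.length := by
  cases c with
  | nil => rfl
  | cons k c => rfl

private theorem mkM_mvs (γs : ℕ → E → ZMod 2) (ts : ℕ → V) (c : List (RM V E Q)) :
    mvs (mkM γs ts c) = ∑ i ∈ range c.length, γs i := by
  induction c with
  | nil => rfl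
  | cons k c ih => rw [mkM, mvs, ih, List.length_cons, Finset.sum_range_succ]

private theorem mkM_nmv {γs : ℕ → E → ZMod 2} {ts : ℕ → V} {ℓ : ℕ}
    (h : ∀ i, i / ℓ = (i + 1) / ℓ → γs i = 0 ∧ ts (i + 1) = ts i) (c : List (RM V E Q)) :
    nmvM (ts 0) (mkM γs ts c) ≤ c.length / ℓ := by
  induction c with
  | nil => simp [mkM, nmvM]
  | cons k c ih =>
    rw [mkM, nmvM, mkM_tv, List.length_cons]
    by_cases h1 : c.length / ℓ = (c.length + 1) / ℓ
    · obtain ⟨h2, h3⟩ := h _ h1
      rw [if_pos ⟨h2, h3⟩, ← h1, add_zero]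
      exact ih
    · have h2 : c.length / ℓ ≤ (c.length + 1) / ℓ := Nat.div_le_div_right (Nat.le_succ _)
      split_ifs
      · omega
      · omega

private theorem mkM_mem {γs : ℕ → E → ZMod 2} {ts : ℕ → V} {c : List (RM V E Q)}
    {x : EM V E Q} (hx : x ∈ mkM γs ts c) :
    ∃ (k : RM V E Q) (c' : List (RM V E Q)), (k :: c') <:+ c ∧
      x = ((k.1, (γs c'.length, ts (c'.length + 1))), k.2) := by
  induction c with
  | nil => simp [mkM] at hx
  | cons k c ih =>
    rw [mkM, List.mem_cons] at hx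
    rcases hx with hx | hx
    · exact ⟨k, c, List.suffix_refl _, hx⟩
    · obtain ⟨k', c', h1, h2⟩ := ih hx
      exact ⟨k', c', h1.trans (List.suffix_cons k c), h2⟩

private theorem card_block (n ℓ b : ℕ) (hℓ : 0 < ℓ) :
    ((range n).filter fun i => i / ℓ = b).card ≤ ℓ := by
  have h1 : ((range n).filter fun i => i / ℓ = b) ⊆ Finset.Ico (b * ℓ) (b * ℓ + ℓ) := by
    intro i hi
    rw [Finset.mem_filter] at hi
    obtain ⟨_, hi⟩ := hi
    rw [Finset.mem_Ico]
    have h2 := Nat.div_add_mod i ℓ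
    have h3 := Nat.mod_lt i hℓ
    rw [hi, mul_comm] at h2
    omega
  refine (Finset.card_le_card h1).trans ?_
  rw [Nat.card_Ico]
  omega

/-- there is a detour with the pattern of the step -/
private theorem exists_dc' {𝒞 : Set (Cert V E Q D)} {U M : Finset V} {Y : E → ZMod 2}
    {L P : Finset (TE V E Q)} {C : Cert V E Q D} (hU : De.cl U = U) (hUM : U ⊆ M)
    (hLM : plc G Q L ⊆ M) (hst : StepT Fr v0 α a 𝒞 U Y C L P) (hok : Fr.Ok v0 M Y)
    (hm : M.card ≤ Fr.m) : ∃ c, DcOk G C₁ U L P c := by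
  obtain ⟨hst1, hPL, z, t, hz, hbz, hft, -, hpat⟩ := hst
  obtain ⟨-, -, -, hL, -⟩ := hst1
  obtain ⟨ty, hby, hfy⟩ := hok
  have hLcov : L ⊆ cov (G.tall Q) a C.1 := by
    intro e he
    rw [cov, Finset.mem_filter]
    exact ⟨Finset.mem_univ _, ((hL e).1 he).1⟩
  have hS1 : U ∪ plc G Q L ⊆ M := Finset.union_subset hUM hLM
  have hS2 : U ∪ plc G Q L ⊆ U ∪ plc G Q (cov (G.tall Q) a C.1) :=
    Finset.union_subset_union_right (plc_mono G hLcov)
  obtain ⟨γ, hγ1, hγ2⟩ := Fr.conn (U ∪ plc G Q L) t ty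
    ((Finset.card_le_card hS1).trans hm) (Fr.anti hS2 hft) (Fr.anti hS1 hfy)
  have hγ3 : ∀ e ∈ incT G Q (U ∪ plc G Q L), (iota γ : TE V E Q → ZMod 2) e = 0 :=
    fun e he => iota_eq_zero G hγ2 e he
  have hbd : (G.tall Q).bd (z + iota Y + iota γ) = 0 := by
    rw [Gph.bd_add, Gph.bd_add, hbz, bd_iota_path G Y v0 ty hby, bd_iota_path G γ t ty hγ1]
    funext p
    simp only [Pi.add_apply, Pi.zero_apply]
    have h2 : ∀ x : ZMod 2, x + x = 0 := fun x => CharTwo.add_self_eq_zero x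
    linear_combination h2 (pt (v0, 0) p) + h2 (pt (t, 0) p) + h2 (pt (ty, 0) p)
  have hzero : ∀ e ∈ incT G Q U, (z + iota Y + iota γ : TE V E Q → ZMod 2) e = 0 := by
    intro e he
    have h1 := hz e he
    have h2 := hγ3 e (incT_mono G Finset.subset_union_left he)
    simp only [Pi.add_apply]
    rw [h1, h2, add_zero]
    exact CharTwo.add_self_eq_zero _
  obtain ⟨c, hc1, hc2, hc3, hc4⟩ := De.det U hU L
    (fun e he => ((hL e).1 he).2) (z + iota Y + iota γ) hbd hzero
  refine ⟨c, hc1, hc2, fun e he => ?_, hc4⟩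
  have h3 : e ∈ incT G Q (U ∪ plc G Q L) :=
    incT_mono G Finset.subset_union_right (mem_incT_plc G he)
  rw [hc3 e he, hpat e he]
  simp only [Pi.add_apply]
  rw [hγ3 e h3, add_zero]
  exact not_congr CharTwo.add_eq_zero.symm

/-- there is a closed chain with the pattern of the jump -/
private theorem exists_db {B M : Finset V} {P : Finset E} {y Y : E → ZMod 2}
    (hB : De.cl B = B) (hBM : B ⊆ M) (hm : M.card ≤ Fr.m) (hy : Fr.Ok v0 M y)
    (hY : Fr.Ok v0 M Y) (hag : G.Agree B y Y)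
    (hP : ∀ e ∈ newI G B M, (e ∈ P ↔ y e ≠ Y e)) : ∃ f, DbOk G C₂ B M P f := by
  obtain ⟨ty, hby, hfy⟩ := hy
  obtain ⟨t', hbt, hft⟩ := hY
  obtain ⟨γ, hγ1, hγ2⟩ := Fr.conn M ty t' hm hfy hft
  have hbd : G.bd (y + Y + γ) = 0 := by
    rw [Gph.bd_add, Gph.bd_add, hby, hbt, hγ1]
    funext p
    simp only [Pi.add_apply, Pi.zero_apply]
    have h2 : ∀ x : ZMod 2, x + x = 0 := fun x => CharTwo.add_self_eq_zero x
    linear_combination h2 (pt v0 p) + h2 (pt ty p) + h2 (pt t' p)
  have hzero : ∀ e ∈ G.inc B, (y + Y + γ) e = 0 := by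
    intro e he
    simp only [Pi.add_apply]
    rw [hag e he, hγ2 e (Gph.inc_mono G hBM he), add_zero]
    exact CharTwo.add_self_eq_zero _
  obtain ⟨f, hf1, hf2, hf3, hf4⟩ := De.detB B hB (newI G B M) (y + Y + γ) hbd hzero
  refine ⟨f, hf1, hf2, fun e he => ?_, hf4⟩
  have he' : e ∈ G.inc M := by
    unfold newI at he
    exact (Finset.mem_filter.1 he).2.1
  rw [hf3 e he, hP e he]
  simp only [Pi.add_apply]
  rw [hγ2 e he', add_zero]
  exact not_congr CharTwo.add_eq_zero.symm

/-- the canonical closed chain of the jump near the revealed set -/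
private theorem dB_eq {B M : Finset V} {P : Finset E} {y Y : E → ZMod 2}
    (hex : ∃ f, DbOk G C₂ B M P f) (hag : G.Agree B y Y)
    (hP : ∀ e ∈ newI G B M, (e ∈ P ↔ y e ≠ Y e)) : G.Agree M (dB G C₂ B M P) (y + Y) := by
  intro e he
  by_cases heB : e ∈ G.inc B
  · rw [(dB_spec (G := G) (C₂ := C₂) B M P).2.1 e heB, Pi.add_apply, hag e heB]
    exact (CharTwo.add_self_eq_zero _).symm
  · have he' : e ∈ newI G B M := by
      unfold newI
      exact Finset.mem_filter.2 ⟨Finset.mem_univ _, he, heB⟩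
    have h1 := dB_pattern (C₂ := C₂) B M P hex e he'
    rw [Pi.add_apply]
    exact zm3 _ _ _ (h1.symm.trans (hP e he'))

/-- the assignment of the segment of the last entry -/
private theorem RunM_cons {ℓ₀ : ℕ} {𝒞 : ℕ → Set (Cert V E Q D)} {B₀ : Finset V}
    {y ys : E → ZMod 2} {k : RM V E Q} {c : List (RM V E Q)}
    (h : RunM Fr v0 α a De ℓ₀ 𝒞 B₀ y (k :: c) ys) :
    ∃ ys', RunM Fr v0 α a De ℓ₀ 𝒞 B₀ y c ys' ∧
      (∃ C, StepT Fr v0 α a (𝒞 (njp c)) (De.st B₀ c).2 ys' C k.1.1 k.1.2) ∧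
      (k.2 = none → ys' = ys) ∧
      ∀ P, k.2 = some P → Fr.Ok v0 (De.Md (De.st B₀ c).2 k.1) ys' ∧
        P ⊆ newI G (De.st B₀ c).1 (De.Md (De.st B₀ c).2 k.1) ∧
        ∀ e ∈ newI G (De.st B₀ c).1 (De.Md (De.st B₀ c).2 k.1), (e ∈ P ↔ y e ≠ ys' e) := by
  obtain ⟨p, o⟩ := k
  cases o with
  | none =>
    obtain ⟨h1, h2⟩ := h
    exact ⟨ys, h1, h2, fun _ => rfl, fun P hP => absurd hP (by simp)⟩
  | some P =>
    obtain ⟨-, ys', h1, h2, h3, -, h4, h5⟩ := h
    refine ⟨ys', h1, h2, fun h0 => absurd h0 (by simp), fun P' hP' => ?_⟩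
    obtain rfl : P = P' := by simpa using hP'
    exact ⟨h3, h4, h5⟩

private theorem exists_dataM {ℓ₀ : ℕ} {𝒞 : ℕ → Set (Cert V E Q D)} {B₀ : Finset V}
    {y : E → ZMod 2} (c : List (RM V E Q)) : ∀ ys : E → ZMod 2,
    RunM Fr v0 α a De ℓ₀ 𝒞 B₀ y c ys →
    ∃ (Cs : ℕ → Cert V E Q D) (Ys : ℕ → E → ZMod 2),
      (∀ (k : RM V E Q) (c' : List (RM V E Q)), (k :: c') <:+ c →
        StepT Fr v0 α a (𝒞 (njp c')) (De.st B₀ c').2 (Ys c'.length) (Cs c'.length) k.1.1 k.1.2 ∧
        G.Agree (De.st B₀ c').1 y (Ys c'.length) ∧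
        ∀ P, k.2 = some P → Fr.Ok v0 (De.Md (De.st B₀ c').2 k.1) (Ys c'.length) ∧
          P ⊆ newI G (De.st B₀ c').1 (De.Md (De.st B₀ c').2 k.1) ∧
          ∀ e ∈ newI G (De.st B₀ c').1 (De.Md (De.st B₀ c').2 k.1),
            (e ∈ P ↔ y e ≠ Ys c'.length e)) ∧
      (∀ (k₂ k : RM V E Q) (c' : List (RM V E Q)), (k₂ :: k :: c') <:+ c → k.2 = none →
        Ys (c'.length + 1) = Ys c'.length) ∧
      ∀ (k : RM V E Q) (c' : List (RM V E Q)), c = k :: c' → k.2 = none → Ys c'.length = ys := by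
  induction c with
  | nil =>
    intro ys _
    refine ⟨fun _ => (∅, 0), fun _ => 0, fun k c' hk => ?_, fun k₂ k c' hk => ?_,
      fun k c' hk => ?_⟩
    · exact absurd (List.suffix_nil.1 hk) (List.cons_ne_nil _ _)
    · exact absurd (List.suffix_nil.1 hk) (List.cons_ne_nil _ _)
    · exact absurd hk.symm (List.cons_ne_nil _ _)
  | cons k₀ c ih =>
    intro ys h
    obtain ⟨ys', h1, ⟨C, hC⟩, h2, h3⟩ := RunM_cons Fr v0 α a De h
    obtain ⟨Cs, Ys, hd, hch, hhd⟩ := ih ys' h1
    have hlt : ∀ (k : RM V E Q) (c' : List (RM V E Q)), (k :: c') <:+ c →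
        c'.length ≠ c.length := by
      intro k c' hk
      have := hk.length_le
      rw [List.length_cons] at this
      omega
    refine ⟨Function.update Cs c.length C, Function.update Ys c.length ys',
      fun k c' hk => ?_, fun k₂ k c' hk hn => ?_, fun k c' hk hn => ?_⟩
    · rcases List.suffix_cons_iff.1 hk with hk | hk
      · obtain ⟨rfl, rfl⟩ := List.cons.inj hk
        rw [Function.update_self, Function.update_self]
        exact ⟨hC, RunM_agree h1, h3⟩
      · rw [Function.update_of_ne (hlt k c' hk), Function.update_of_ne (hlt k c' hk)]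
        exact hd k c' hk
    · rcases List.suffix_cons_iff.1 hk with hk | hk
      · obtain ⟨rfl, rfl⟩ := List.cons.inj hk
        rw [List.length_cons, Function.update_self, Function.update_of_ne (by omega)]
        exact (hhd k c' rfl hn).symm
      · have e1 : c'.length ≠ c.length := by
          have := hk.length_le
          rw [List.length_cons, List.length_cons] at this
          omega
        have e2 : c'.length + 1 ≠ c.length := by
          have := hk.length_le
          rw [List.length_cons, List.length_cons] at this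
          omega
        rw [Function.update_of_ne e1, Function.update_of_ne e2]
        exact hch k₂ k c' hk hn
    · obtain ⟨rfl, rfl⟩ := List.cons.inj hk
      rw [Function.update_self]
      exact h2 hn

/-- **decoding** -/
theorem decodeM (SF : SFrame Fr) {Δ k ℓ ℓ₀ : ℕ} (hdeg : G.Deg Δ)
    {W : Finset (HV (TV V Q) (TE V E Q) D)} {𝒞 : ℕ → Set (Cert V E Q D)}
    (h𝒞 : ∀ j, ∀ C ∈ 𝒞 j, W ⊆ C.1 ∧ (C.1 \ W).card ≤ k) (hℓ : 0 < ℓ)
    (c : List (RM V E Q)) (y ys : E → ZMod 2)
    (hrun : RunM Fr v0 α a De ℓ₀ 𝒞 (De.B0 a W) y c ys) (hc : Cpl c)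
    (hok : Fr.Ok v0 (De.st (De.B0 a W) c).1 y)
    (hm : 2 * (cov (G.tall Q) a W).card + K3c K C₁ C₂ Δ * totR c ≤ m)
    (hm' : (2 + C₁) * totR c ≤ m)
    (hmF : K * (2 * (cov (G.tall Q) a W).card + K3c K C₁ C₂ Δ * totR c) +
      2 * (1 + Δ) * (W.card + ℓ * k) ≤ Fr.m) :
    ∃ (t0 : V) (c' : List (EM V E Q)), c'.map toR = c ∧ (∀ k ∈ c', k ∈ entM V E Q SF.Γ) ∧
      AdmM Fr De (De.B0 a W) t0 c' ∧ nmvM t0 c' ≤ c.length / ℓ ∧
      ∀ yh : E → ZMod 2, G.bd yh = pt v0 + pt t0 → G.Agree (De.st (De.B0 a W) c).2 y yh →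
        DcdM Fr De 𝒞 W (cov (G.tall Q) a W) t0
          (α + Pth (G.tall Q) a (iota yh + De.DcM (De.B0 a W) c)) a c' := by
  classical
  have hB₀ : De.cL (De.B0 a W) = De.B0 a W := De.idemL _
  have hcov : plc G Q (cov (G.tall Q) a W) ⊆ De.B0 a W := De.extL _
  have hB0def : De.cL (plc G Q (cov (G.tall Q) a W)) = De.B0 a W := rfl
  generalize De.B0 a W = B₀ at hB₀ hcov hB0def hrun hok ⊢
  have hcl : (De.st B₀ c).1 = (De.st B₀ c).2 := st_cpl De B₀ c hc
  rw [hcl] at hok
  set U : Finset V := (De.st B₀ c).2 with hU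
  set n : ℕ := c.length with hn
  -- (1)
  obtain ⟨Cs, Ys, hdat, hch, -⟩ := exists_dataM Fr v0 α a De c ys hrun
  have hC𝒞 : ∀ i, i < n → ∃ j, Cs i ∈ 𝒞 j := by
    intro i hi
    have hd : c.drop (n - (i + 1)) <:+ c := List.drop_suffix _ _
    have hl : (c.drop (n - (i + 1))).length = i + 1 := by
      rw [List.length_drop]
      omega
    obtain ⟨k0, c0, h0⟩ : ∃ k0 c0, c.drop (n - (i + 1)) = k0 :: c0 := by
      cases hc : c.drop (n - (i + 1)) with
      | nil => rw [hc] at hl; simp at hl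
      | cons k0 c0 => exact ⟨k0, c0, rfl⟩
    rw [h0] at hd hl
    have hl' : c0.length = i := by simpa using hl
    have h1 := (hdat k0 c0 hd).1
    rw [hl'] at h1
    exact ⟨_, h1.1.1⟩
  have hUcard0 : U.card ≤ K * (2 * (cov (G.tall Q) a W).card + K3c K C₁ C₂ Δ * totR c) := by
    have h1 := card_plc G (cov (G.tall Q) a W)
    refine (card_st De hdeg hB0def c ?_ hm').trans (Nat.mul_le_mul_left _ ?_)
    · omega
    · omega
  -- (2)
  set N : ℕ → Finset V := fun b => U ∪ G.nbh (Unc G Q W) ∪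
    ((range n).filter fun i => i / ℓ = b).biUnion
    (fun i => G.nbh (Unc G Q ((Cs i).1 \ W))) with hN
  have hNcard : ∀ b, (N b).card ≤ Fr.m := by
    intro b
    have h1 : (N b).card ≤ U.card + (G.nbh (Unc G Q W)).card +
        ∑ i ∈ (range n).filter (fun i => i / ℓ = b), (G.nbh (Unc G Q ((Cs i).1 \ W))).card :=
      (Finset.card_union_le _ _).trans
        (Nat.add_le_add (Finset.card_union_le _ _) Finset.card_biUnion_le)
    have h2 : ∑ i ∈ (range n).filter (fun i => i / ℓ = b),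
        (G.nbh (Unc G Q ((Cs i).1 \ W))).card ≤
        ∑ _i ∈ (range n).filter (fun i => i / ℓ = b), (1 + Δ) * (2 * k) := by
      apply Finset.sum_le_sum
      intro i hi
      refine (card_nbh G hdeg _).trans (Nat.mul_le_mul_left _ ?_)
      refine (card_Unc G _).trans (Nat.mul_le_mul_left _ ?_)
      obtain ⟨j, hj⟩ := hC𝒞 i (Finset.mem_range.1 (Finset.mem_filter.1 hi).1)
      exact (h𝒞 j _ hj).2
    rw [Finset.sum_const, smul_eq_mul] at h2
    have h3 : ((range n).filter fun i => i / ℓ = b).card * ((1 + Δ) * (2 * k)) ≤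
        ℓ * ((1 + Δ) * (2 * k)) := Nat.mul_le_mul_right _ (card_block n ℓ b hℓ)
    have h4 : (G.nbh (Unc G Q W)).card ≤ (1 + Δ) * (2 * W.card) :=
      (card_nbh G hdeg _).trans (Nat.mul_le_mul_left _ (card_Unc G _))
    calc (N b).card ≤ K * (2 * (cov (G.tall Q) a W).card + K3c K C₁ C₂ Δ * totR c) +
          ((1 + Δ) * (2 * W.card) + ℓ * ((1 + Δ) * (2 * k))) := by omega
      _ = K * (2 * (cov (G.tall Q) a W).card + K3c K C₁ C₂ Δ * totR c) +
          2 * (1 + Δ) * (W.card + ℓ * k) := by ring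
      _ ≤ Fr.m := hmF
  choose vb hvb using fun b => SF.ne (N b) (hNcard b)
  have hUN : ∀ b, U ⊆ N b := fun b => Finset.subset_union_left.trans Finset.subset_union_left
  have hUcard : U.card ≤ Fr.m := (Finset.card_le_card (hUN 0)).trans (hNcard 0)
  set ts : ℕ → V := fun i => vb (i / ℓ) with hts
  have hSF : ∀ i, SF.SFree U (ts i) := fun i => SF.anti (hUN _) (hvb _)
  have hfree : ∀ i, i < n → Fr.Free (U ∪ G.nbh (Unc G Q (Cs i).1)) (ts i) := by
    intro i hi
    refine Fr.anti ?_ (SF.free (hvb (i / ℓ)))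
    apply Finset.union_subset (hUN _)
    have hsp : Unc G Q (Cs i).1 ⊆ Unc G Q W ∪ Unc G Q ((Cs i).1 \ W) := by
      intro v hv
      unfold Unc at hv ⊢
      rw [Finset.mem_biUnion] at hv
      obtain ⟨p, hp, hvp⟩ := hv
      rw [Finset.mem_union, Finset.mem_biUnion, Finset.mem_biUnion]
      by_cases hpW : p ∈ W
      · exact Or.inl ⟨p, hpW, hvp⟩
      · exact Or.inr ⟨p, Finset.mem_sdiff.2 ⟨hp, hpW⟩, hvp⟩
    have hbu : G.nbh (Unc G Q ((Cs i).1 \ W)) ⊆ N (i / ℓ) := by
      intro v hv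
      refine Finset.mem_union_right _ (Finset.mem_biUnion.2 ⟨i, ?_, hv⟩)
      rw [Finset.mem_filter, Finset.mem_range]
      exact ⟨hi, rfl⟩
    have hbw : G.nbh (Unc G Q W) ⊆ N (i / ℓ) :=
      Finset.subset_union_right.trans Finset.subset_union_left
    intro v hv
    rw [mem_nbh'] at hv
    rcases hv with hv | ⟨e, ⟨h1, h2⟩ | ⟨h1, h2⟩⟩
    · rcases Finset.mem_union.1 (hsp hv) with h3 | h3
      · exact hbw ((mem_nbh' G _ _).2 (Or.inl h3))
      · exact hbu ((mem_nbh' G _ _).2 (Or.inl h3))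
    · rcases Finset.mem_union.1 (hsp h2) with h3 | h3
      · exact hbw ((mem_nbh' G _ _).2 (Or.inr ⟨e, Or.inl ⟨h1, h3⟩⟩))
      · exact hbu ((mem_nbh' G _ _).2 (Or.inr ⟨e, Or.inl ⟨h1, h3⟩⟩))
    · rcases Finset.mem_union.1 (hsp h2) with h3 | h3
      · exact hbw ((mem_nbh' G _ _).2 (Or.inr ⟨e, Or.inr ⟨h1, h3⟩⟩))
      · exact hbu ((mem_nbh' G _ _).2 (Or.inr ⟨e, Or.inr ⟨h1, h3⟩⟩))
  -- (3)
  have hγex : ∀ i, ∃ γ : E → ZMod 2, γ ∈ insert 0 SF.Γ ∧ G.bd γ = pt (ts i) + pt (ts (i + 1)) ∧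
      (∀ e ∈ G.inc U, γ e = 0) ∧ (i / ℓ = (i + 1) / ℓ → γ = 0) := by
    intro i
    by_cases h : i / ℓ = (i + 1) / ℓ
    · refine ⟨0, Finset.mem_insert_self _ _, ?_, fun _ _ => rfl, fun _ => rfl⟩
      have h1 : ts (i + 1) = ts i := by
        simp only [hts]
        rw [← h]
      rw [Gph.bd_zero, h1, add_self2]
    · obtain ⟨γ, h1, h2, h3⟩ := SF.conn U (ts i) (ts (i + 1)) hUcard (hSF i) (hSF (i + 1))
      exact ⟨γ, Finset.mem_insert_of_mem h1, h2, h3, fun h4 => absurd h4 h⟩
  choose γs hγ1 hγ2 hγ3 hγ4 using hγex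
  have hbdσ : ∀ i, G.bd (∑ j ∈ range i, γs j) = pt (ts 0) + pt (ts i) := by
    intro i
    induction i with
    | zero => rw [Finset.sum_range_zero, Gph.bd_zero, add_self2]
    | succ i ih =>
      rw [Finset.sum_range_succ, Gph.bd_add, ih, hγ2]
      have h1 : (pt (ts 0) + pt (ts i) + (pt (ts i) + pt (ts (i + 1))) : V → ZMod 2) =
          pt (ts 0) + pt (ts (i + 1)) + (pt (ts i) + pt (ts i)) := by abel
      rw [h1, add_self2, add_zero]
  have hσ0 : ∀ i, ∀ e ∈ G.inc U, (∑ j ∈ range i, γs j) e = 0 := by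
    intro i e he
    rw [Finset.sum_apply]
    exact Finset.sum_eq_zero fun j _ => hγ3 j e he
  -- the suffixes
  have hsub : ∀ c', c' <:+ c → (De.st B₀ c').2 ⊆ U := fun c' h => (st_mono De B₀ h).2
  have hlen : ∀ (k : RM V E Q) (c' : List (RM V E Q)), (k :: c') <:+ c → c'.length < n := by
    intro k c' h
    have h1 := h.length_le
    rw [List.length_cons] at h1
    omega
  have htail : ∀ (k : RM V E Q) (c' : List (RM V E Q)), (k :: c') <:+ c → c' <:+ c :=
    fun k c' h => (List.suffix_cons k c').trans h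
  have hMd : ∀ (k : RM V E Q) (c' : List (RM V E Q)), (k :: c') <:+ c →
      De.Md (De.st B₀ c').2 k.1 ⊆ U :=
    fun k c' h => (Md_sub_st De B₀ k c').trans (hsub _ h)
  have hst2 : ∀ (k : RM V E Q) (c' : List (RM V E Q)), k.2 = none →
      (De.st B₀ (k :: c')).2 = De.Md (De.st B₀ c').2 k.1 := by
    intro k c' h
    obtain ⟨p, o⟩ := k
    obtain rfl : o = none := h
    rfl
  -- all assignments are correct
  have hokY : ∀ (k : RM V E Q) (c' : List (RM V E Q)), (k :: c') <:+ c →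
      Fr.Ok v0 (De.Md (De.st B₀ c').2 k.1) (Ys c'.length) := by
    have key : ∀ l, l <:+ c → ∀ (k : RM V E Q) (c' : List (RM V E Q)), l = k :: c' →
        Fr.Ok v0 (De.Md (De.st B₀ c').2 k.1) (Ys c'.length) := by
      refine suffix_ind ?_ ?_
      · intro k c' h
        have h1 : k.2.isSome = true := by
          rw [h] at hc
          exact hc
        obtain ⟨P, hP⟩ := Option.isSome_iff_exists.1 h1
        exact ((hdat k c' (h ▸ List.suffix_refl _)).2.2 P hP).1
      · intro k₂ l hl ih k c' hlk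
        subst hlk
        cases ho : k.2 with
        | some P => exact ((hdat k c' (htail _ _ hl)).2.2 P ho).1
        | none =>
          have h1 := ih k₂ (k :: c') rfl
          rw [List.length_cons, hch k₂ k c' hl ho] at h1
          refine h1.mono ?_
          rw [← hst2 k c' ho]
          exact Md_sub De _ _
    exact fun k c' h => key _ h k c' rfl
  -- detours exist
  have hdc : ∀ (k : RM V E Q) (c' : List (RM V E Q)), (k :: c') <:+ c →
      ∃ d, DcOk G C₁ (De.st B₀ c').2 k.1.1 k.1.2 d := by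
    intro k c' h
    exact exists_dc' Fr v0 α a De (st_cl De hB₀ c') (Md_sub De _ _) (plc_sub_Md De _ _)
      (hdat k c' h).1 (hokY k c' h) ((Finset.card_le_card (hMd k c' h)).trans hUcard)
  -- the main identity
  have hkey : ∀ (k : RM V E Q) (c' : List (RM V E Q)), (k :: c') <:+ c →
      ∀ e ∈ incT G Q (De.Md (De.st B₀ c').2 k.1), (De.DcM B₀ c + De.DcM B₀ c') e =
        iota (y + Ys c'.length) e + dc G C₁ (De.st B₀ c').2 k.1.1 k.1.2 e := by
    have hsome : ∀ (k : RM V E Q) (c' : List (RM V E Q)), (k :: c') <:+ c → ∀ P,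
        k.2 = some P → ∀ e ∈ incT G Q (De.Md (De.st B₀ c').2 k.1),
        (De.DcM B₀ c + De.DcM B₀ c') e =
        iota (y + Ys c'.length) e + dc G C₁ (De.st B₀ c').2 k.1.1 k.1.2 e := by
      intro k c' h P hP e he
      obtain ⟨-, hag, hd⟩ := hdat k c' h
      obtain ⟨hd1, hd2, hd3⟩ := hd P hP
      have hex : ∃ f, DbOk G C₂ (De.st B₀ c').1 (De.Md (De.st B₀ c').2 k.1) P f :=
        exists_db Fr v0 De (De.clL _ (st_clL De hB₀ c'))
          ((st_sub De B₀ c').trans (Md_sub De _ _))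
          ((Finset.card_le_card (hMd k c' h)).trans hUcard) (hok.mono (hMd k c' h)) hd1 hag hd3
      have h1 : iota (dB G C₂ (De.st B₀ c').1 (De.Md (De.st B₀ c').2 k.1) P) e =
          iota (y + Ys c'.length) e := iota_agree G (dB_eq hex hag hd3) e he
      obtain ⟨p, o⟩ := k
      obtain rfl : o = some P := hP
      obtain ⟨c2, hc2⟩ := h
      have h2 := DcM_zero De B₀ c2 ((p, some P) :: c') e
        (incT_mono G (Nx_sub De (De.st B₀ c').1 (De.Md (De.st B₀ c').2 p) P) he)
      rw [hc2] at h2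
      have h3 : De.DcM B₀ ((p, some P) :: c') = De.DcM B₀ c' +
        (dc G C₁ (De.st B₀ c').2 p.1 p.2 +
          iota (dB G C₂ (De.st B₀ c').1 (De.Md (De.st B₀ c').2 p) P)) := rfl
      rw [h3] at h2
      simp only [Pi.add_apply] at h2 ⊢
      rw [← h1]
      exact zm4 _ _ _ _ h2
    have key : ∀ l, l <:+ c → ∀ (k : RM V E Q) (c' : List (RM V E Q)), l = k :: c' →
        ∀ e ∈ incT G Q (De.Md (De.st B₀ c').2 k.1), (De.DcM B₀ c + De.DcM B₀ c') e =
        iota (y + Ys c'.length) e + dc G C₁ (De.st B₀ c').2 k.1.1 k.1.2 e := by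
      refine suffix_ind ?_ ?_
      · intro k c' h
        have h1 : k.2.isSome = true := by
          rw [h] at hc
          exact hc
        obtain ⟨P, hP⟩ := Option.isSome_iff_exists.1 h1
        exact hsome k c' (h ▸ List.suffix_refl _) P hP
      · intro k₂ l hl ih k c' hlk
        subst hlk
        cases ho : k.2 with
        | some P => exact hsome k c' (htail _ _ hl) P ho
        | none =>
          intro e he
          rw [← hst2 k c' ho] at he
          have h1 := ih k₂ (k :: c') rfl e (incT_mono G (Md_sub De _ _) he)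
          rw [List.length_cons, hch k₂ k c' hl ho,
            (dc_spec (G := G) (C₁ := C₁) (De.st B₀ (k :: c')).2 k₂.1.1 k₂.1.2).2.1 e he,
            add_zero] at h1
          obtain ⟨p, o⟩ := k
          obtain rfl : o = none := ho
          have h3 : De.DcM B₀ ((p, none) :: c') = De.DcM B₀ c' +
            dc G C₁ (De.st B₀ c').2 p.1 p.2 := rfl
          rw [h3] at h1
          simp only [Pi.add_apply] at h1 ⊢
          exact zm5 _ _ _ _ h1
    exact fun k c' h => key _ h k c' rfl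
  refine ⟨ts 0, mkM γs ts c, mkM_map γs ts c, ?_, ⟨?_, ?_, ?_⟩, ?_, ?_⟩
  · intro x hx
    obtain ⟨k, c', h1, rfl⟩ := mkM_mem hx
    obtain ⟨⟨_, _, _, hL, hLne⟩, hPL, _⟩ := (hdat k c' h1).1
    unfold entM ents
    rw [Finset.mem_product, Finset.mem_product, Finset.mem_product]
    refine ⟨⟨?_, hγ1 _, Finset.mem_univ _⟩, Finset.mem_univ _⟩
    rw [Finset.mem_filter]
    exact ⟨Finset.mem_univ _, hLne, hPL⟩
  · -- `AdmSM`
    have key : ∀ c', c' <:+ c → AdmSM De B₀ (ts 0) (mkM γs ts c') := by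
      intro c'
      induction c' with
      | nil => intro _; exact trivial
      | cons k c' ih =>
        intro h
        obtain ⟨⟨⟨_, _, _, hL, hLne⟩, hPL, _⟩, -, hd⟩ := hdat k c' h
        refine ⟨ih (htail k c' h), hLne, hPL, ?_, ?_, ?_⟩
        · intro e he
          rw [mkM_map]
          exact ((hL e).1 he).2
        · rw [mkM_tv]
          exact hγ2 _
        · intro P hP
          rw [mkM_map]
          exact (hd P hP).2.1
    exact key c (List.suffix_refl c)
  · rw [mkM_map]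
    exact SF.free (hSF 0)
  · intro x hx e he
    rw [mkM_map] at he
    obtain ⟨k, c', h1, rfl⟩ := mkM_mem hx
    exact hγ3 _ e he
  · refine mkM_nmv ?_ c
    intro i hi
    refine ⟨hγ4 i hi, ?_⟩
    simp only [hts]
    rw [← hi]
  · intro yh hyh hyh'
    have key : ∀ c', c' <:+ c → DcdM Fr De 𝒞 W (cov (G.tall Q) a W) (ts 0)
        (α + Pth (G.tall Q) a (iota yh + De.DcM B₀ c)) a (mkM γs ts c') := by
      intro c'
      induction c' with
      | nil =>
        intro _ e he
        exact (Finset.mem_filter.1 he).2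
      | cons k c' ih =>
        intro h
        have hst := (hdat k c' h).1
        obtain ⟨⟨hC, hP, hmin, hL, hLne⟩, hPL, z, t, hz1, hz2, hz3, hz4, hz5⟩ := hst
        set i : ℕ := c'.length with hi
        have hin : i < n := hlen k c' h
        have hUs : (De.st B₀ c').2 ⊆ U := hsub c' (htail k c' h)
        set σ : E → ZMod 2 := ∑ j ∈ range i, γs j with hσ
        set x : TE V E Q → ZMod 2 := iota yh + De.DcM B₀ c + De.ScM B₀ (mkM γs ts c') with hx
        have hβ : α + Pth (G.tall Q) a (iota yh + De.DcM B₀ c) +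
            Pth (G.tall Q) a (De.ScM B₀ (mkM γs ts c')) = α + Pth (G.tall Q) a x := by
          rw [add_assoc, ← FrC.Pth_add]
        have hx' : x = iota (yh + σ) + (De.DcM B₀ c + De.DcM B₀ c') := by
          rw [hx, DetM.ScM, mkM_map, mkM_mvs, iota_add]
          abel
        have hσe : ∀ e ∈ incT G Q U, iota (yh + σ) e = iota y e := by
          intro e he
          rw [iota_add, Pi.add_apply, iota_eq_zero G (hσ0 i) e he, add_zero]
          exact (iota_agree G hyh' e he).symm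
        have hxbd : (G.tall Q).bd x = pt (v0, 0) + pt (ts i, 0) := by
          rw [hx', Gph.bd_add, Gph.bd_add, bd_DcM, bd_DcM, add_zero, add_zero]
          apply bd_iota_path
          rw [Gph.bd_add, hyh, hbdσ]
          have h1 : (pt v0 + pt (ts 0) + (pt (ts 0) + pt (ts i)) : V → ZMod 2) =
              pt v0 + pt (ts i) + (pt (ts 0) + pt (ts 0)) := by abel
          rw [h1, add_self2, add_zero]
        have hxM : ∀ e ∈ incT G Q (De.Md (De.st B₀ c').2 k.1),
            x e = iota (Ys i) e + dc G C₁ (De.st B₀ c').2 k.1.1 k.1.2 e := by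
          intro e he
          rw [hx', Pi.add_apply, hσe e (incT_mono G (hMd k c' h) he), hkey k c' h e he,
            iota_add, Pi.add_apply, ← add_assoc, ← add_assoc, CharTwo.add_self_eq_zero, zero_add]
        have hx1 : ∀ e ∈ incT G Q (De.st B₀ c').2, x e = iota (Ys i) e := by
          intro e he
          rw [hxM e (incT_mono G (Md_sub De _ _) he),
            (dc_spec (G := G) (C₁ := C₁) (De.st B₀ c').2 k.1.1 k.1.2).2.1 e he, add_zero]
        have hx2 : ∀ e ∈ k.1.1, x e = z e := by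
          intro e he
          have he1 : e ∈ incT G Q (De.Md (De.st B₀ c').2 k.1) :=
            incT_mono G (plc_sub_Md De _ _) (mem_incT_plc G he)
          rw [hxM e he1]
          have h3 := dc_pattern (C₁ := C₁) (De.st B₀ c').2 k.1.1 k.1.2 (hdc k c' h) e he
          exact zm2 _ _ _ (h3.symm.trans (hz5 e he))
        refine ⟨ih (htail k c' h), Cs i, ⟨?_, ?_, ?_, ?_⟩, ?_⟩
        · rw [mkM_map]
          exact hC
        · rw [mkM_map, mkM_tv, hB0def]
          exact Fr.anti (Finset.union_subset_union hUs (Finset.Subset.refl _)) (hfree i hin)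
        · rw [hB0def, hβ]
          intro u hu
          rw [← hz4 u hu, Pi.add_apply, Pi.add_apply]
          congr 1
          unfold FrC.Pth
          by_cases hlive : live (G.tall Q) a u
          · rw [if_pos hlive, if_pos hlive]
            by_cases hue : u.e ∈ incT G Q (De.st B₀ c').2
            · rw [hx1 _ hue, hz1 _ hue]
            · exact hx2 _ ((hL u.e).2 ⟨⟨u, rfl, hlive, hu⟩, hue⟩)
          · rw [if_neg hlive, if_neg hlive]
        · intro C' hC' hP' hM'
          rw [hB0def, hβ] at hM'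
          rw [mkM_map] at hC'
          rw [mkM_map, mkM_tv, hB0def] at hP'
          by_contra hcon
          push Not at hcon
          apply hmin C' hC' hcon
          refine ⟨x, ts i, hx1, hxbd, ?_, hM'⟩
          apply Fr.anti _ hP'
          apply Finset.union_subset
          · exact Finset.subset_union_left
          · exact (plc_cov_subset G a _).trans Finset.subset_union_right
        · intro e he
          obtain ⟨⟨u, hue, hlive, hu⟩, heU⟩ := (hL e).1 he
          have hnW : u ∉ ((G.tall Q).blow D).inc W := by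
            intro hW
            apply heU
            have h1 : e ∈ cov (G.tall Q) a W := by
              rw [cov, Finset.mem_filter]
              exact ⟨Finset.mem_univ _, u, hue, hlive, hW⟩
            exact incT_mono G (hcov.trans ((B0_sub_st De B₀ c').trans (st_sub De B₀ c')))
              (mem_incT_plc G h1)
          refine ⟨u, hue, hlive, ?_⟩
          rcases hu with hu | hu
          · exact Or.inl (Finset.mem_sdiff.2 ⟨hu, fun h' => hnW (Or.inl h')⟩)
          · exact Or.inr (Finset.mem_sdiff.2 ⟨hu, fun h' => hnW (Or.inr h')⟩)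
    exact key c (List.suffix_refl c)

end

end FrU
end

section

/-!
The weighted sum over all codes (with jumps).

Compare `FrT.sumT` (T/CodeP.lean), the same without jumps; copy its structure (`admT_tail`, `sum_mv`,
`sum_pat`, `sum_ents`, `step_codes` are private there).  `B₀ = De.cL (plc G Q L₀)`, `s c = De.st B₀ (c.map toR)`,
`J = JM K C₁ Δ`.

PROOF.  Induction on `n`.  `n = 0`: `lst' s 0 = {[]}`, `totR [] = 0`, `nmvM = 0`, `jw [] = 0`,
`DcdM [] = ∀ e ∈ L₀, Tch ..`.
Step (`sum_lst'_succ`): `AdmM (k :: c)` implies `AdmM c` (`st_cons2`, `Fr.anti`, `Gph.inc_mono`) and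
`totR ((k :: c).map toR) ≤ R'` implies the same for `c`.  It suffices: for `c` with `AdmM c`
`∑_(k ∈ entM, AdmM (k :: c), totR ≤ R') x^|k.1.1.1| lam^mv g k * pr (a (t0, 0) = w ∧ DcdM (k :: c))
≤ (1/2) pr (a (t0, 0) = w ∧ DcdM c)`, where `mv = 0` if `k.1.2.1 = 0 ∧ k.1.2.2 = tvM t0 c`, otherwise `1`,
and `g k = (1/2)^(J * (jw ((k :: c).map toR) - jw (c.map toR)))`, i.e. `g k = 1` if `k.2 = none` and
`g k = (1/2)^(J * (segL (c.map toR) + |k.1.1.1|))` if `k.2 = some P`.
Apply `peel_sum` with `ι = EM V E Q`, `s` the filtered `entM`, these weights, `q = 1/2`,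
`S = SSM De B₀ t0 c`, `T k = {v | ∃ e ∈ k.1.1.1, (G.tall Q).src e = v ∨ (G.tall Q).tgt e = v}`,
`P a = (a (t0, 0) = w ∧ DcdM c)`, `R a C = Act (𝒞 (njp (c.map toR))) .. C`,
`F k C a = ∀ e ∈ k.1.1.1, Tch (G.tall Q) a (C.1 \ W) e`.
 Disjointness of `S` and `T k`: as in T/CodeP (by `AdmE`: `e ∉ incT G Q (s c).2`; `plc k.1.1.1 ⊆ (s (k :: c)).2`
 (`plc_sub_st`); `t0` is free for that set; moves of entries of `c` vanish on `G.inc (s (k :: c)).2`).
 `P` depends on `S`: `DcdM_depOn`, `(t0, 0) ∈ S`.  `R`: `Pth_ScM_congr`.  Uniqueness: `idx_inj` and minimality.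
 The bound: for `C ∈ 𝒞 _`, `|C.1 \ W| ≤ kk`.  The sum over `k = ((p, g), o)` with the filter (all terms
 nonnegative): for fixed `p = (L, P)`, `g`: the sum over `o` of `g k` (over the admissible ones) is at most `2`:
 `o = none` gives `1`; `o = some P'` is admissible only if `P' ⊆ N := newI G (s c).1 (De.Md (s c).2 p)`, and
 `|N| ≤ Δ |De.Md (s c).2 p \ (s c).1| ≤ Δ K (2 + C₁) (segL c + |L|) = J (segL c + |L|)` by `card_newI`,
 `card_seg_Md` (`B₀` is strongly closed by `idemL`; `segL c + |L| ≤ totR (k :: c) ≤ R'`, `hR'`), so there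
 are at most `2^(J (segL c + |L|))` of them.  The sum over `g` is at most `2` (`sum_mv`), the sum over
 `P ⊆ L` gives `2^|L|`; so the total is at most
 `4 * ∑_(L ≠ ∅) (2 x)^|L| pr (∀ e ∈ L, Tch ..) ≤ 4 * (1/2) * ∑_(L ≠ ∅) (4 x)^|L| pr (..) ≤ 2 * (1/4) = 1/2`
 by `sum_Tch_le` for `G.tall Q`, `Δ + 2`, `4 x` and the set `C.1 \ W` (condition `hW`).
-/

set_option linter.unusedSectionVars false

namespace FrU

open Finset Fr56 FrC FrG FrT
open scoped Classical

section
variable {V E : Type} [Fintype V] [Fintype E] [DecidableEq V] [DecidableEq E]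
  {G : Gph V E} {Q K C₁ C₂ m : ℕ} (Fr : Frame G) {D : ℕ} (De : DetM G Q K C₁ C₂ m)

private theorem admM_tail {B₀ : Finset V} (t0 : V) {k : EM V E Q} {c : List (EM V E Q)}
    (h : AdmM Fr De B₀ t0 (k :: c)) : AdmM Fr De B₀ t0 c := by
  refine ⟨h.1.1, Fr.anti (st_cons2 De B₀ (toR k) (c.map toR)) h.2.1, ?_⟩
  intro k' hk' e he
  exact h.2.2 k' (List.mem_cons_of_mem _ hk') e
    (G.inc_mono (st_cons2 De B₀ (toR k) (c.map toR)) he)

/-- indicator of a nontrivial move -/
private noncomputable def mvM (t0 : V) (c : List (EM V E Q)) (g : (E → ZMod 2) × V) : ℕ :=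
  if g.1 = 0 ∧ g.2 = tvM t0 c then 0 else 1

/-- the weight of the jump -/
private noncomputable def gwM (J : ℕ) (c : List (EM V E Q)) (l : ℕ) : Option (Finset E) → ℝ
  | none => 1
  | some _ => (1 / 2) ^ (J * (segL (c.map toR) + l))

private theorem gwM_nonneg (J : ℕ) (c : List (EM V E Q)) (l : ℕ) (o : Option (Finset E)) :
    0 ≤ gwM J c l o := by
  cases o with
  | none => exact zero_le_one
  | some P => exact pow_nonneg (by norm_num) _

private theorem jw_cons (J : ℕ) (k : EM V E Q) (c : List (EM V E Q)) :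
    ((1 : ℝ) / 2) ^ (J * jw ((k :: c).map toR)) =
      (1 / 2) ^ (J * jw (c.map toR)) * gwM J c k.1.1.1.card k.2 := by
  obtain ⟨q, _ | P⟩ := k
  · have h1 : jw ((((q, none) : EM V E Q) :: c).map toR) = jw (c.map toR) := rfl
    have h2 : gwM J c q.1.1.card (none : Option (Finset E)) = 1 := rfl
    rw [h1]
    show _ = _ * gwM J c q.1.1.card (none : Option (Finset E))
    rw [h2, mul_one]
  · have h1 : jw ((((q, some P) : EM V E Q) :: c).map toR) =
        jw (c.map toR) + (segL (c.map toR) + q.1.1.card) := rfl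
    have h2 : gwM J c q.1.1.card (some P) = (1 / 2) ^ (J * (segL (c.map toR) + q.1.1.card)) := rfl
    rw [h1]
    show _ = _ * gwM J c q.1.1.card (some P)
    rw [h2, Nat.mul_add, pow_add]

private theorem sum_opt {Δ : ℕ} (hdeg : G.Deg Δ) {B₀ : Finset V} (hB₀ : De.cL B₀ = B₀) (t0 : V)
    (c : List (EM V E Q)) (R' : ℕ) (hR' : (2 + C₁) * R' ≤ m) (q : LM V E Q) :
    ∑ o : Option (Finset E), (if AdmM Fr De B₀ t0 ((q, o) :: c) ∧
        totR ((((q, o) : EM V E Q) :: c).map toR) ≤ R' then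
          gwM (JM K C₁ Δ) c q.1.1.card o else 0) ≤ 2 := by
  rw [Fintype.sum_option]
  by_cases hR : totR (c.map toR) + q.1.1.card ≤ R'
  · have h1 : (if AdmM Fr De B₀ t0 ((q, none) :: c) ∧
        totR ((((q, none) : EM V E Q) :: c).map toR) ≤ R' then
          gwM (JM K C₁ Δ) c q.1.1.card (none : Option (Finset E)) else 0) ≤ 1 := by
      split_ifs
      · exact le_refl _
      · exact zero_le_one
    set N : Finset E := newI G (De.st B₀ (c.map toR)).1 (De.Md (De.st B₀ (c.map toR)).2 q.1) with hN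
    set a : ℕ := JM K C₁ Δ * (segL (c.map toR) + q.1.1.card) with ha
    have hseg : segL (c.map toR) ≤ totR (c.map toR) := by
      have := jw_add_segL (c.map toR)
      omega
    have hm : (2 + C₁) * (segL (c.map toR) + q.1.1.card) ≤ m :=
      le_trans (Nat.mul_le_mul_left _ (by omega)) hR'
    have hcard : N.card ≤ a := by
      have h2 := card_newI hdeg (De.st B₀ (c.map toR)).1 (De.Md (De.st B₀ (c.map toR)).2 q.1)
      have h3 := card_seg_Md De hB₀ (c.map toR) q.1 hm
      refine h2.trans (le_trans (Nat.mul_le_mul_left _ h3) (le_of_eq ?_))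
      rw [ha]
      unfold JM
      ring
    have h2 : ∑ P : Finset E, (if AdmM Fr De B₀ t0 ((q, some P) :: c) ∧
        totR ((((q, some P) : EM V E Q) :: c).map toR) ≤ R' then
          gwM (JM K C₁ Δ) c q.1.1.card (some P) else 0) ≤ 1 := by
      calc ∑ P : Finset E, (if AdmM Fr De B₀ t0 ((q, some P) :: c) ∧
            totR ((((q, some P) : EM V E Q) :: c).map toR) ≤ R' then
              gwM (JM K C₁ Δ) c q.1.1.card (some P) else 0)
          ≤ ∑ P : Finset E, (if P ∈ N.powerset then ((1 : ℝ) / 2) ^ a else 0) := by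
            refine Finset.sum_le_sum fun P _ => ?_
            by_cases hA : AdmM Fr De B₀ t0 ((q, some P) :: c) ∧
              totR ((((q, some P) : EM V E Q) :: c).map toR) ≤ R'
            · have hP : P ∈ N.powerset :=
                Finset.mem_powerset.2 (hA.1.1.2.2.2.2.2 P rfl)
              rw [if_pos hA, if_pos hP]
              exact le_refl _
            · rw [if_neg hA]
              split_ifs
              · exact pow_nonneg (by norm_num) _
              · exact le_refl _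
        _ = ((2 : ℝ) ^ N.card) * (1 / 2) ^ a := by
            rw [← Finset.sum_filter, Finset.filter_mem_eq_inter, Finset.univ_inter,
              Finset.sum_const, Finset.card_powerset, nsmul_eq_mul]
            push_cast
            ring
        _ ≤ (2 : ℝ) ^ a * (1 / 2) ^ a := by
            refine mul_le_mul_of_nonneg_right ?_ (pow_nonneg (by norm_num) _)
            exact pow_le_pow_right₀ (by norm_num) hcard
        _ = 1 := by
            rw [← mul_pow]
            norm_num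
    linarith
  · have h1 : ∀ o : Option (Finset E), (if AdmM Fr De B₀ t0 ((q, o) :: c) ∧
        totR ((((q, o) : EM V E Q) :: c).map toR) ≤ R' then
          gwM (JM K C₁ Δ) c q.1.1.card o else 0) = 0 := by
      intro o
      rw [if_neg]
      rintro ⟨-, h⟩
      exact hR h
    rw [h1 none, Finset.sum_congr rfl fun P _ => h1 (some P), Finset.sum_const_zero, add_zero]
    norm_num

private theorem sum_mvM (t0 : V) (c : List (EM V E Q)) (Γ : Finset (E → ZMod 2)) (lam : ℝ)
    (hlam0 : 0 ≤ lam) (hlam : lam * ((Γ.card + 1) * Fintype.card V) ≤ 1) :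
    ∑ g ∈ (insert 0 Γ) ×ˢ (univ : Finset V), lam ^ mvM t0 c g ≤ 2 := by
  have h1 : ∀ g ∈ (insert 0 Γ) ×ˢ (univ : Finset V),
      lam ^ mvM t0 c g ≤ (if g = (0, tvM t0 c) then 1 else 0) + lam := by
    intro g _
    unfold mvM
    by_cases h : g.1 = 0 ∧ g.2 = tvM t0 c
    · rw [if_pos h, if_pos (Prod.ext h.1 h.2), pow_zero]
      linarith
    · rw [if_neg h, pow_one]
      have : (0 : ℝ) ≤ if g = (0, tvM t0 c) then 1 else 0 := by split_ifs <;> norm_num
      linarith
  have h2 : ∑ g ∈ (insert 0 Γ) ×ˢ (univ : Finset V),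
      (if g = (0, tvM t0 c) then (1 : ℝ) else 0) ≤ 1 := by
    rw [Finset.sum_ite_eq']
    split_ifs <;> norm_num
  have h3 : (((insert 0 Γ) ×ˢ (univ : Finset V)).card : ℝ) ≤ (Γ.card + 1) * Fintype.card V := by
    rw [Finset.card_product, Nat.cast_mul, Finset.card_univ]
    apply mul_le_mul_of_nonneg_right _ (Nat.cast_nonneg _)
    exact_mod_cast Finset.card_insert_le 0 Γ
  calc ∑ g ∈ (insert 0 Γ) ×ˢ (univ : Finset V), lam ^ mvM t0 c g
      ≤ ∑ g ∈ (insert 0 Γ) ×ˢ (univ : Finset V), ((if g = (0, tvM t0 c) then 1 else 0) + lam) :=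
        Finset.sum_le_sum h1
    _ = (∑ g ∈ (insert 0 Γ) ×ˢ (univ : Finset V), (if g = (0, tvM t0 c) then (1 : ℝ) else 0)) +
          (((insert 0 Γ) ×ˢ (univ : Finset V)).card : ℝ) * lam := by
        rw [Finset.sum_add_distrib, Finset.sum_const, nsmul_eq_mul]
    _ ≤ 1 + ((Γ.card + 1) * Fintype.card V) * lam := by
        have := mul_le_mul_of_nonneg_right h3 hlam0
        linarith
    _ ≤ 2 := by nlinarith

private theorem sum_patM (x : ℝ) (f : Finset (TE V E Q) → ℝ) :
    ∑ p ∈ univ.filter (fun p : LP V E Q => p.1.Nonempty ∧ p.2 ⊆ p.1), x ^ p.1.card * f p.1 =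
      ∑ L ∈ (univ : Finset (Finset (TE V E Q))).filter (fun L => L.Nonempty),
        (2 * x) ^ L.card * f L := by
  rw [Finset.sum_filter, Finset.sum_filter, Fintype.sum_prod_type]
  refine Finset.sum_congr rfl fun L _ => ?_
  by_cases hL : L.Nonempty
  · rw [if_pos hL]
    have h1 : ∀ P : Finset (TE V E Q),
        (if L.Nonempty ∧ P ⊆ L then x ^ L.card * f L else 0) =
          if P ∈ L.powerset then x ^ L.card * f L else 0 := by
      intro P
      by_cases hP : P ⊆ L
      · rw [if_pos ⟨hL, hP⟩, if_pos (Finset.mem_powerset.2 hP)]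
      · rw [if_neg fun h => hP h.2, if_neg fun h => hP (Finset.mem_powerset.1 h)]
    rw [Finset.sum_congr rfl fun P _ => h1 P, ← Finset.sum_filter, Finset.filter_mem_eq_inter,
      Finset.univ_inter, Finset.sum_const, Finset.card_powerset, nsmul_eq_mul]
    push_cast
    ring
  · rw [if_neg hL]
    refine Finset.sum_eq_zero fun P _ => ?_
    rw [if_neg fun h => hL h.1]

private theorem sum_entsM {Δ kk : ℕ} (hl : G.NoLoop) (hD : 0 < D) (hdeg : G.Deg Δ)
    (Γ : Finset (E → ZMod 2)) (x : ℝ) (hx : 0 ≤ x)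
    (hW : 5 * ((1 + 4 * x) ^ (2 * (Δ + 2)) * ((Δ + 2) * kk)) ≤ (2 : ℝ) ^ D)
    (lam : ℝ) (hlam0 : 0 ≤ lam) (hlam : lam * ((Γ.card + 1) * Fintype.card V) ≤ 1)
    (t0 : V) (c : List (EM V E Q)) (W : Finset (HV (TV V Q) (TE V E Q) D)) (hWc : W.card ≤ kk) :
    ∑ q ∈ ents V E Q Γ, (x ^ q.1.1.card * lam ^ mvM t0 c q.2) *
      pr (fun a : TV V Q → FrC.A D => ∀ e ∈ q.1.1, Tch (G.tall Q) a W e) ≤ 1 / 4 := by
  have h1 := sum_mvM t0 c Γ lam hlam0 hlam
  have h2 : ∑ L ∈ (univ : Finset (Finset (TE V E Q))).filter (fun L => L.Nonempty),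
      (4 * x) ^ L.card * pr (fun a : TV V Q → FrC.A D => ∀ e ∈ L, Tch (G.tall Q) a W e) ≤
        1 / 4 := by
    refine sum_Tch_le (G.tall Q) (noLoop_tall G hl) hD (Δ := Δ + 2) (by omega) (deg_tall G hdeg)
      (4 * x) (by linarith) W ?_
    have h3 : (W.card : ℝ) ≤ kk := by exact_mod_cast hWc
    refine le_trans ?_ hW
    push_cast
    have h4 : (0 : ℝ) ≤ (1 + 4 * x) ^ (2 * (Δ + 2)) := by positivity
    have h5 : ((Δ : ℝ) + 2) * W.card ≤ (Δ + 2) * kk :=
      mul_le_mul_of_nonneg_left h3 (by positivity)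
    have h6 := mul_le_mul_of_nonneg_left h5 h4
    linarith
  have h2' : ∑ L ∈ (univ : Finset (Finset (TE V E Q))).filter (fun L => L.Nonempty),
      (2 * x) ^ L.card * pr (fun a : TV V Q → FrC.A D => ∀ e ∈ L, Tch (G.tall Q) a W e) ≤
        1 / 8 := by
    have h3 : ∑ L ∈ (univ : Finset (Finset (TE V E Q))).filter (fun L => L.Nonempty),
        (2 * x) ^ L.card * pr (fun a : TV V Q → FrC.A D => ∀ e ∈ L, Tch (G.tall Q) a W e) ≤
      ∑ L ∈ (univ : Finset (Finset (TE V E Q))).filter (fun L => L.Nonempty),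
        (1 / 2) * ((4 * x) ^ L.card *
          pr (fun a : TV V Q → FrC.A D => ∀ e ∈ L, Tch (G.tall Q) a W e)) := by
      refine Finset.sum_le_sum fun L hL => ?_
      rw [← mul_assoc]
      refine mul_le_mul_of_nonneg_right ?_ (pr_nonneg _)
      have hL1 : 1 ≤ L.card := Finset.card_pos.2 (Finset.mem_filter.1 hL).2
      have h4 : (4 * x) ^ L.card = (2 * x) ^ L.card * 2 ^ L.card := by
        rw [← mul_pow]
        congr 1
        ring
      rw [h4]
      have h5 : (2 : ℝ) ≤ 2 ^ L.card := by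
        calc (2 : ℝ) = 2 ^ 1 := (pow_one _).symm
          _ ≤ 2 ^ L.card := pow_le_pow_right₀ (by norm_num) hL1
      have h6 : (0 : ℝ) ≤ (2 * x) ^ L.card := by positivity
      nlinarith
    rw [← Finset.mul_sum] at h3
    linarith
  have h3 : ∑ q ∈ ents V E Q Γ, (x ^ q.1.1.card * lam ^ mvM t0 c q.2) *
      pr (fun a : TV V Q → FrC.A D => ∀ e ∈ q.1.1, Tch (G.tall Q) a W e) =
      (∑ p ∈ univ.filter (fun p : LP V E Q => p.1.Nonempty ∧ p.2 ⊆ p.1),
        x ^ p.1.card * pr (fun a : TV V Q → FrC.A D => ∀ e ∈ p.1, Tch (G.tall Q) a W e)) *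
      ∑ g ∈ (insert 0 Γ) ×ˢ (univ : Finset V), lam ^ mvM t0 c g := by
    unfold ents
    rw [Finset.sum_product, Finset.sum_mul_sum]
    refine Finset.sum_congr rfl fun p _ => Finset.sum_congr rfl fun g _ => ?_
    ring
  rw [h3, sum_patM x (fun L => pr (fun a : TV V Q → FrC.A D => ∀ e ∈ L, Tch (G.tall Q) a W e))]
  calc _ ≤ (1 / 8 : ℝ) * 2 := by
        refine mul_le_mul h2' h1 ?_ (by norm_num)
        exact Finset.sum_nonneg fun g _ => pow_nonneg hlam0 _
    _ = 1 / 4 := by norm_num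

private theorem sum_entM {Δ kk : ℕ} (hl : G.NoLoop) (hD : 0 < D) (hdeg : G.Deg Δ)
    (Γ : Finset (E → ZMod 2)) (x : ℝ) (hx : 0 ≤ x)
    (hW : 5 * ((1 + 4 * x) ^ (2 * (Δ + 2)) * ((Δ + 2) * kk)) ≤ (2 : ℝ) ^ D)
    (lam : ℝ) (hlam0 : 0 ≤ lam) (hlam : lam * ((Γ.card + 1) * Fintype.card V) ≤ 1)
    {B₀ : Finset V} (hB₀ : De.cL B₀ = B₀) (R' : ℕ) (hR' : (2 + C₁) * R' ≤ m)
    (t0 : V) (c : List (EM V E Q)) (W : Finset (HV (TV V Q) (TE V E Q) D)) (hWc : W.card ≤ kk) :
    ∑ k ∈ (entM V E Q Γ).filter (fun k => AdmM Fr De B₀ t0 (k :: c) ∧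
        totR ((k :: c).map toR) ≤ R'),
      (x ^ k.1.1.1.card * lam ^ mvM t0 c k.1.2 * gwM (JM K C₁ Δ) c k.1.1.1.card k.2) *
      pr (fun a : TV V Q → FrC.A D => ∀ e ∈ k.1.1.1, Tch (G.tall Q) a W e) ≤ 1 / 2 := by
  rw [Finset.sum_filter]
  unfold entM
  rw [Finset.sum_product]
  have h1 : ∀ q ∈ ents V E Q Γ, ∑ o : Option (Finset E),
      (if AdmM Fr De B₀ t0 ((q, o) :: c) ∧ totR ((((q, o) : EM V E Q) :: c).map toR) ≤ R' then
        (x ^ q.1.1.card * lam ^ mvM t0 c q.2 * gwM (JM K C₁ Δ) c q.1.1.card o) *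
          pr (fun a : TV V Q → FrC.A D => ∀ e ∈ q.1.1, Tch (G.tall Q) a W e) else 0) ≤
      2 * ((x ^ q.1.1.card * lam ^ mvM t0 c q.2) *
        pr (fun a : TV V Q → FrC.A D => ∀ e ∈ q.1.1, Tch (G.tall Q) a W e)) := by
    intro q _
    set A : ℝ := (x ^ q.1.1.card * lam ^ mvM t0 c q.2) *
        pr (fun a : TV V Q → FrC.A D => ∀ e ∈ q.1.1, Tch (G.tall Q) a W e) with hA
    have hA0 : 0 ≤ A := mul_nonneg (mul_nonneg (pow_nonneg hx _) (pow_nonneg hlam0 _)) (pr_nonneg _)
    have h2 := mul_le_mul_of_nonneg_right (sum_opt Fr De hdeg hB₀ t0 c R' hR' q) hA0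
    refine le_trans (le_of_eq ?_) h2
    rw [Finset.sum_mul]
    refine Finset.sum_congr rfl fun o _ => ?_
    split_ifs
    · rw [hA]
      ring
    · ring
  refine le_trans (Finset.sum_le_sum h1) ?_
  rw [← Finset.mul_sum]
  have h2 := sum_entsM hl hD hdeg Γ x hx hW lam hlam0 hlam t0 c W hWc
  linarith

private theorem step_codesM {Δ kk : ℕ} (hl : G.NoLoop) (hD : 0 < D) (hdeg : G.Deg Δ)
    (𝒞 : ℕ → Set (Cert V E Q D)) (W : Finset (HV (TV V Q) (TE V E Q) D))
    (h𝒞 : ∀ j, ∀ C ∈ 𝒞 j, (C.1 \ W).card ≤ kk) (Γ : Finset (E → ZMod 2)) (x : ℝ) (hx : 0 ≤ x)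
    (hW : 5 * ((1 + 4 * x) ^ (2 * (Δ + 2)) * ((Δ + 2) * kk)) ≤ (2 : ℝ) ^ D)
    (lam : ℝ) (hlam0 : 0 ≤ lam) (hlam : lam * ((Γ.card + 1) * Fintype.card V) ≤ 1)
    (L₀ : Finset (TE V E Q)) (t0 : V) (β : Xt (TE V E Q) D → ZMod 2) (w : FrC.A D) (R' : ℕ)
    (hR' : (2 + C₁) * R' ≤ m) (c : List (EM V E Q)) :
    ∑ k ∈ (entM V E Q Γ).filter (fun k => AdmM Fr De (De.cL (plc G Q L₀)) t0 (k :: c) ∧
        totR ((k :: c).map toR) ≤ R'),
      (x ^ k.1.1.1.card * lam ^ mvM t0 c k.1.2 * gwM (JM K C₁ Δ) c k.1.1.1.card k.2) *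
        pr (fun a : TV V Q → FrC.A D => (a (t0, 0) = w ∧ DcdM Fr De 𝒞 W L₀ t0 β a c) ∧
          ∃ C, Act G (𝒞 (njp (c.map toR)))
            (fun C => Fr.Free ((De.st (De.cL (plc G Q L₀)) (c.map toR)).2 ∪ G.nbh (Unc G Q C.1))
              (tvM t0 c)) (β + Pth (G.tall Q) a (De.ScM (De.cL (plc G Q L₀)) c)) C ∧
            ∀ e ∈ k.1.1.1, Tch (G.tall Q) a (C.1 \ W) e) ≤
      (1 / 2) * pr (fun a : TV V Q → FrC.A D => a (t0, 0) = w ∧
        DcdM Fr De 𝒞 W L₀ t0 β a c) := by
  have hB₀ : De.cL (De.cL (plc G Q L₀)) = De.cL (plc G Q L₀) := De.idemL _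
  refine peel_sum (I := TV V Q) (A := FrC.A D) (C := Cert V E Q D) (ι := EM V E Q)
    (S := SSM De (De.cL (plc G Q L₀)) t0 c)
    (T := fun k => {v | ∃ e ∈ k.1.1.1, (G.tall Q).src e = v ∨ (G.tall Q).tgt e = v})
    ((entM V E Q Γ).filter (fun k => AdmM Fr De (De.cL (plc G Q L₀)) t0 (k :: c) ∧
        totR ((k :: c).map toR) ≤ R'))
    (fun k => x ^ k.1.1.1.card * lam ^ mvM t0 c k.1.2 * gwM (JM K C₁ Δ) c k.1.1.1.card k.2)
    (fun k _ => mul_nonneg (mul_nonneg (pow_nonneg hx _) (pow_nonneg hlam0 _))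
      (gwM_nonneg _ _ _ _)) ?_
    (fun a => a (t0, 0) = w ∧ DcdM Fr De 𝒞 W L₀ t0 β a c)
    (fun a C => Act G (𝒞 (njp (c.map toR)))
      (fun C => Fr.Free ((De.st (De.cL (plc G Q L₀)) (c.map toR)).2 ∪ G.nbh (Unc G Q C.1))
        (tvM t0 c)) (β + Pth (G.tall Q) a (De.ScM (De.cL (plc G Q L₀)) c)) C)
    (fun k C a => ∀ e ∈ k.1.1.1, Tch (G.tall Q) a (C.1 \ W) e) (1 / 2) (by norm_num)
    ?_ ?_ ?_ ?_ ?_
  · intro k hk
    have hA : AdmM Fr De (De.cL (plc G Q L₀)) t0 (k :: c) := (Finset.mem_filter.1 hk).2.1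
    rw [Set.disjoint_left]
    rintro v hv ⟨e, he, hev⟩
    have h1 : e ∉ incT G Q (De.st (De.cL (plc G Q L₀)) (c.map toR)).2 := hA.1.2.2.2.1 e he
    have h2 : v.1 ∈ (De.st (De.cL (plc G Q L₀)) ((k :: c).map toR)).2 := by
      have h4 := plc_sub_st De (De.cL (plc G Q L₀)) (toR k) (c.map toR)
      apply h4
      rcases hev with h | h
      · exact Finset.mem_biUnion.2 ⟨e, he, by rw [← h]; simp⟩
      · exact Finset.mem_biUnion.2 ⟨e, he, by rw [← h]; simp⟩
    rcases hv with hv | ⟨_, hv | ⟨k', hk', e', he', hve'⟩⟩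
    · apply h1
      rcases hev with h | h
      · exact Or.inl (by rw [h]; exact hv)
      · exact Or.inr (by rw [h]; exact hv)
    · exact Fr.disj hA.2.1 (hv ▸ h2)
    · apply he'
      refine hA.2.2 k' (List.mem_cons_of_mem _ hk') e' ?_
      rcases hve' with h | h
      · exact Or.inl (by rw [h]; exact h2)
      · exact Or.inr (by rw [h]; exact h2)
  · intro a b hab
    have h1 : a (t0, 0) = b (t0, 0) := hab _ (Or.inr ⟨rfl, Or.inl rfl⟩)
    have h2 := DcdM_depOn Fr De 𝒞 W L₀ t0 β c a b hab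
    simp only
    rw [h1]
    exact and_congr Iff.rfl h2
  · intro C a b hab
    simp only
    rw [Pth_ScM_congr De (De.cL (plc G Q L₀)) t0 c hab]
  · intro a C C' h h'
    apply idx_inj
    exact le_antisymm (h.2.2.2 C' h'.1 h'.2.1 h'.2.2.1) (h'.2.2.2 C h.1 h.2.1 h.2.2.1)
  · intro k _ C a b hab
    simp only
    refine forall_congr' fun e => forall_congr' fun he => ?_
    exact Tch_congr (G.tall Q) (hab _ ⟨e, he, Or.inl rfl⟩) (hab _ ⟨e, he, Or.inr rfl⟩)
  · rintro C ⟨a, ha⟩
    exact sum_entM Fr De hl hD hdeg Γ x hx hW lam hlam0 hlam hB₀ R' hR' t0 c (C.1 \ W)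
      (h𝒞 _ C ha.1)

/-- **weighted sum over all codes of length `n`** -/
theorem sumM {Δ kk : ℕ} (hl : G.NoLoop) (hD : 0 < D) (hdeg : G.Deg Δ)
    (𝒞 : ℕ → Set (Cert V E Q D)) (W : Finset (HV (TV V Q) (TE V E Q) D))
    (h𝒞 : ∀ j, ∀ C ∈ 𝒞 j, (C.1 \ W).card ≤ kk) (Γ : Finset (E → ZMod 2)) (x : ℝ) (hx : 0 ≤ x)
    (hW : 5 * ((1 + 4 * x) ^ (2 * (Δ + 2)) * ((Δ + 2) * kk)) ≤ (2 : ℝ) ^ D)
    (lam : ℝ) (hlam0 : 0 ≤ lam) (hlam : lam * ((Γ.card + 1) * Fintype.card V) ≤ 1)
    (L₀ : Finset (TE V E Q)) (t0 : V) (β : Xt (TE V E Q) D → ZMod 2) (w : FrC.A D) (R' n : ℕ)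
    (hR' : (2 + C₁) * R' ≤ m) :
    ∑ c ∈ (lst' (entM V E Q Γ) n).filter
        (fun c => AdmM Fr De (De.cL (plc G Q L₀)) t0 c ∧ totR (c.map toR) ≤ R'),
      x ^ totR (c.map toR) * lam ^ nmvM t0 c * (1 / 2) ^ (JM K C₁ Δ * jw (c.map toR)) *
        pr (fun a : TV V Q → FrC.A D => a (t0, 0) = w ∧ DcdM Fr De 𝒞 W L₀ t0 β a c) ≤
      (1 / 2) ^ n * pr (fun a : TV V Q → FrC.A D =>
        a (t0, 0) = w ∧ ∀ e ∈ L₀, Tch (G.tall Q) a W e) := by
  set B₀ : Finset V := De.cL (plc G Q L₀) with hB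
  set J : ℕ := JM K C₁ Δ with hJ
  induction n with
  | zero =>
    have h0 : lst' (entM V E Q Γ) 0 = {[]} := rfl
    rw [h0, Finset.sum_filter, Finset.sum_singleton, pow_zero, one_mul]
    split_ifs
    · have e1 : totR (([] : List (EM V E Q)).map toR) = 0 := rfl
      have e2 : nmvM t0 ([] : List (EM V E Q)) = 0 := rfl
      have e3 : jw (([] : List (EM V E Q)).map toR) = 0 := rfl
      rw [e1, e2, e3, pow_zero, pow_zero, Nat.mul_zero, pow_zero, one_mul, one_mul, one_mul]
      exact pr_mono fun a ha => ha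
    · exact pr_nonneg _
  | succ n ih =>
    rw [Finset.sum_filter, sum_lst'_succ]
    rw [Finset.sum_filter] at ih
    have key : ∀ c ∈ lst' (entM V E Q Γ) n,
        (∑ k ∈ entM V E Q Γ, if AdmM Fr De B₀ t0 (k :: c) ∧ totR ((k :: c).map toR) ≤ R' then
          x ^ totR ((k :: c).map toR) * lam ^ nmvM t0 (k :: c) *
            (1 / 2) ^ (J * jw ((k :: c).map toR)) *
            pr (fun a : TV V Q → FrC.A D => a (t0, 0) = w ∧
              DcdM Fr De 𝒞 W L₀ t0 β a (k :: c)) else 0) ≤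
        (1 / 2) * (if AdmM Fr De B₀ t0 c ∧ totR (c.map toR) ≤ R' then
          x ^ totR (c.map toR) * lam ^ nmvM t0 c * (1 / 2) ^ (J * jw (c.map toR)) *
            pr (fun a : TV V Q → FrC.A D => a (t0, 0) = w ∧
              DcdM Fr De 𝒞 W L₀ t0 β a c) else 0) := by
      intro c _
      by_cases hc : AdmM Fr De B₀ t0 c ∧ totR (c.map toR) ≤ R'
      · rw [if_pos hc, ← Finset.sum_filter]
        have h1 := step_codesM Fr De hl hD hdeg 𝒞 W h𝒞 Γ x hx hW lam hlam0 hlam L₀ t0 β w R' hR' c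
        rw [← hB, ← hJ] at h1
        have h2 : ∀ k ∈ (entM V E Q Γ).filter (fun k => AdmM Fr De B₀ t0 (k :: c) ∧
            totR ((k :: c).map toR) ≤ R'),
            x ^ totR ((k :: c).map toR) * lam ^ nmvM t0 (k :: c) *
              (1 / 2) ^ (J * jw ((k :: c).map toR)) *
              pr (fun a : TV V Q → FrC.A D => a (t0, 0) = w ∧
                DcdM Fr De 𝒞 W L₀ t0 β a (k :: c)) ≤
            (x ^ totR (c.map toR) * lam ^ nmvM t0 c * (1 / 2) ^ (J * jw (c.map toR))) *
              ((x ^ k.1.1.1.card * lam ^ mvM t0 c k.1.2 * gwM J c k.1.1.1.card k.2) *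
              pr (fun a : TV V Q → FrC.A D => (a (t0, 0) = w ∧ DcdM Fr De 𝒞 W L₀ t0 β a c) ∧
                ∃ C, Act G (𝒞 (njp (c.map toR)))
                  (fun C => Fr.Free ((De.st B₀ (c.map toR)).2 ∪ G.nbh (Unc G Q C.1))
                    (tvM t0 c)) (β + Pth (G.tall Q) a (De.ScM B₀ c)) C ∧
                  ∀ e ∈ k.1.1.1, Tch (G.tall Q) a (C.1 \ W) e)) := by
          intro k _
          have e1 : totR ((k :: c).map toR) = totR (c.map toR) + k.1.1.1.card := rfl
          have e2 : nmvM t0 (k :: c) = nmvM t0 c + mvM t0 c k.1.2 := rfl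
          rw [jw_cons J k c, e1, e2, pow_add, pow_add]
          have h3 : pr (fun a : TV V Q → FrC.A D => a (t0, 0) = w ∧
                DcdM Fr De 𝒞 W L₀ t0 β a (k :: c)) ≤
              pr (fun a : TV V Q → FrC.A D => (a (t0, 0) = w ∧ DcdM Fr De 𝒞 W L₀ t0 β a c) ∧
                ∃ C, Act G (𝒞 (njp (c.map toR)))
                  (fun C => Fr.Free ((De.st B₀ (c.map toR)).2 ∪ G.nbh (Unc G Q C.1))
                    (tvM t0 c)) (β + Pth (G.tall Q) a (De.ScM B₀ c)) C ∧
                  ∀ e ∈ k.1.1.1, Tch (G.tall Q) a (C.1 \ W) e) :=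
            pr_mono fun a ha => ⟨⟨ha.1, ha.2.1⟩, ha.2.2⟩
          have h4 : (0 : ℝ) ≤ (x ^ totR (c.map toR) * lam ^ nmvM t0 c *
              (1 / 2) ^ (J * jw (c.map toR))) *
              (x ^ k.1.1.1.card * lam ^ mvM t0 c k.1.2 * gwM J c k.1.1.1.card k.2) :=
            mul_nonneg (by positivity)
              (mul_nonneg (mul_nonneg (pow_nonneg hx _) (pow_nonneg hlam0 _)) (gwM_nonneg _ _ _ _))
          have h5 := mul_le_mul_of_nonneg_left h3 h4
          refine le_trans (le_of_eq ?_) (h5.trans (le_of_eq ?_))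
          · ring
          · ring
        refine le_trans (Finset.sum_le_sum h2) ?_
        rw [← Finset.mul_sum]
        have h6 : (0 : ℝ) ≤ x ^ totR (c.map toR) * lam ^ nmvM t0 c *
            (1 / 2) ^ (J * jw (c.map toR)) := by positivity
        refine le_trans (mul_le_mul_of_nonneg_left h1 h6) (le_of_eq ?_)
        ring
      · rw [if_neg hc, mul_zero]
        refine le_of_eq (Finset.sum_eq_zero fun k _ => ?_)
        rw [if_neg]
        rintro ⟨h, h'⟩
        apply hc
        refine ⟨admM_tail Fr De t0 h, le_trans ?_ h'⟩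
        have e1 : totR ((k :: c).map toR) = totR (c.map toR) + k.1.1.1.card := rfl
        rw [e1]
        exact Nat.le_add_right _ _
    refine le_trans (Finset.sum_le_sum key) ?_
    rw [← Finset.mul_sum, pow_succ]
    have h7 := mul_le_mul_of_nonneg_left ih (by norm_num : (0 : ℝ) ≤ 1 / 2)
    refine le_trans h7 (le_of_eq ?_)
    ring

end

end FrU
end
end
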