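import Pool.Agent.Lib.MP_51bb46_lc.U.CodeMP

section

/-!
Simulating a decision tree of the blow-up.

PROOF of `dec_sim`.  As `FrC.dec_old_aux` (C/SwitchB.lean), by induction on `hdec`; the set of revealed
vertices is exactly `plc G Q (cov (G.tall Q) a W)`.  Leaf: `W' = W`.  Node `N`, `|N| ≤ n`: reveal
`plc G Q (cov (G.tall Q) a N)`, at most `2 (Δ + 2) n` vertices; `cov (W ∪ N) = cov W ∪ cov N` and
`plc (L ∪ L') = plc L ∪ plc L'` (`plc_cov_union`), so the new set is `plc G Q (cov (G.tall Q) a (W ∪ N))`.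
`Ok` in the blow-up by `FrC.ok_up` with `hcov`: an edge `inl (e, 0)` whose path touches `W ∪ N` is in `cov`, so
`e ∈ G.inc (plc ..)` (`FrC.mem_incT_plc`, `FrC.inl_mem_incT`); cardinality: `2 (Δ + 2) T' + 2 T' ≤ Fr.m`.
-/

set_option linter.unusedSectionVars false

namespace FrU

open Finset Fr56 FrC FrG FrT
open scoped Classical

section
variable {V E : Type} [Fintype V] [Fintype E] [DecidableEq V] [DecidableEq E]
  {G : Gph V E} {Fr : Frame G} {v0 : V} {Q D : ℕ} {hQ : 0 < Q} {hD : 0 < D} {w0 : FrC.A D}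
  {α : Xt (TE V E Q) D → ZMod 2} {a : TV V Q → FrC.A D}

private theorem mem_cov' {W : Finset (HV (TV V Q) (TE V E Q) D)} {e : TE V E Q} :
    e ∈ cov (G.tall Q) a W ↔ Tch (G.tall Q) a W e := by
  unfold cov
  rw [Finset.mem_filter]
  exact ⟨fun h => h.2, fun h => ⟨Finset.mem_univ _, h⟩⟩

private theorem tch_union {W N : Finset (HV (TV V Q) (TE V E Q) D)} {e : TE V E Q} :
    Tch (G.tall Q) a (W ∪ N) e ↔ Tch (G.tall Q) a W e ∨ Tch (G.tall Q) a N e := by
  constructor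
  · rintro ⟨u, hue, hul, hui⟩
    rcases hui with h1 | h1
    · rcases Finset.mem_union.1 h1 with h2 | h2
      · exact Or.inl ⟨u, hue, hul, Or.inl h2⟩
      · exact Or.inr ⟨u, hue, hul, Or.inl h2⟩
    · rcases Finset.mem_union.1 h1 with h2 | h2
      · exact Or.inl ⟨u, hue, hul, Or.inr h2⟩
      · exact Or.inr ⟨u, hue, hul, Or.inr h2⟩
  · rintro (⟨u, hue, hul, hui⟩ | ⟨u, hue, hul, hui⟩)
    · exact ⟨u, hue, hul, Gph.inc_mono _ Finset.subset_union_left hui⟩
    · exact ⟨u, hue, hul, Gph.inc_mono _ Finset.subset_union_right hui⟩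

private theorem cov_union' (W N : Finset (HV (TV V Q) (TE V E Q) D)) :
    cov (G.tall Q) a (W ∪ N) = cov (G.tall Q) a W ∪ cov (G.tall Q) a N := by
  ext e
  rw [Finset.mem_union, mem_cov', mem_cov', mem_cov', tch_union]

private theorem cov_empty' :
    cov (G.tall Q) a (∅ : Finset (HV (TV V Q) (TE V E Q) D)) = ∅ := by
  ext e
  rw [mem_cov']
  constructor
  · rintro ⟨u, _, _, hui⟩
    rcases hui with h1 | h1
    · exact absurd h1 (Finset.notMem_empty _)
    · exact absurd h1 (Finset.notMem_empty _)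
  · intro h
    exact absurd h (Finset.notMem_empty _)

theorem plc_cov_empty : plc G Q (cov (G.tall Q) a ∅) = ∅ := by
  rw [cov_empty', plc, Finset.biUnion_empty]

theorem plc_cov_union (W N : Finset (HV (TV V Q) (TE V E Q) D)) :
    plc G Q (cov (G.tall Q) a (W ∪ N)) =
      plc G Q (cov (G.tall Q) a W) ∪ plc G Q (cov (G.tall Q) a N) := by
  rw [cov_union', plc, plc, plc, Finset.union_biUnion]

theorem card_plc_cov {Δ : ℕ} (hdeg : G.Deg Δ) (W : Finset (HV (TV V Q) (TE V E Q) D)) :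
    (plc G Q (cov (G.tall Q) a W)).card ≤ 2 * (Δ + 2) * W.card := by
  have h1 := card_plc G (cov (G.tall Q) a W)
  have h2 := card_cov (G.tall Q) (Δ := Δ + 2) (by omega) (deg_tall G hdeg) a W
  calc (plc G Q (cov (G.tall Q) a W)).card ≤ 2 * (cov (G.tall Q) a W).card := h1
    _ ≤ 2 * ((Δ + 2) * W.card) := Nat.mul_le_mul_left 2 h2
    _ = 2 * (Δ + 2) * W.card := by ring

theorem plc_cov_mono {W W' : Finset (HV (TV V Q) (TE V E Q) D)} (h : W ⊆ W') :
    plc G Q (cov (G.tall Q) a W) ⊆ plc G Q (cov (G.tall Q) a W') := by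
  rw [← Finset.union_eq_right.2 h, plc_cov_union]
  exact Finset.subset_union_left

/-- chains with the same values on the live edges touching `W` have the same lifts near `W` -/
theorem agree_of_cov {W : Finset (HV (TV V Q) (TE V E Q) D)} {z z' : TE V E Q → ZMod 2}
    (h : ∀ e ∈ cov (G.tall Q) a W, z e = z' e) :
    ((G.tall Q).blow D).Agree W (α + Pth (G.tall Q) a z) (α + Pth (G.tall Q) a z') := by
  intro u hu
  simp only [Pi.add_apply]
  congr 1
  unfold FrC.Pth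
  by_cases hl : live (G.tall Q) a u
  · rw [if_pos hl, if_pos hl]
    exact h u.e (mem_cov'.2 ⟨u, rfl, hl, hu⟩)
  · rw [if_neg hl, if_neg hl]

private theorem hcov_plc (W : Finset (HV (TV V Q) (TE V E Q) D)) (e : E)
    (he : Tch (G.tall Q) a W (Sum.inl (e, 0))) :
    e ∈ G.inc (plc G Q (cov (G.tall Q) a W)) :=
  (inl_mem_incT G).1 (mem_incT_plc G (mem_cov'.2 he))

theorem agree_of_plc {W : Finset (HV (TV V Q) (TE V E Q) D)} {y y' : E → ZMod 2}
    (h : G.Agree (plc G Q (cov (G.tall Q) a W)) y y') :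
    ((G.tall Q).blow D).Agree W (α + Pth (G.tall Q) a (iota y))
      (α + Pth (G.tall Q) a (iota y')) :=
  x_agree α a (hcov_plc W) h

/-- **simulation of a decision tree of the blow-up** -/
theorem dec_sim (hα : ((G.tall Q).blow D).bd α = FrC.pt (HV.cen (v0, 0) w0) +
      FrC.pt (FrC.ctr a (v0, 0))) {Δ T' : ℕ} (hdeg : G.Deg Δ)
    {Q' : Bool → Finset (HV (TV V Q) (TE V E Q) D) → (Xt (TE V E Q) D → ZMod 2) → Prop}
    (hm : 2 * (Δ + 2) * T' + 2 * T' ≤ Fr.m) {n : ℕ}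
    {W : Finset (HV (TV V Q) (TE V E Q) D)} {x : Xt (TE V E Q) D → ZMod 2}
    (hdec : Dec (Fr.blow Q D hQ hD) (HV.cen (v0, 0) w0) Q' n W x) :
    ∀ y : E → ZMod 2, x = α + Pth (G.tall Q) a (iota y) →
      Fr.Ok v0 (plc G Q (cov (G.tall Q) a W)) y → W.card + n ≤ T' →
      Dec Fr v0 (fun _ U y' => ∃ W' : Finset (HV (TV V Q) (TE V E Q) D), W'.card ≤ T' ∧
          U = plc G Q (cov (G.tall Q) a W') ∧ ∃ b, Q' b W' (α + Pth (G.tall Q) a (iota y')))
        (2 * (Δ + 2) * n) (plc G Q (cov (G.tall Q) a W)) y := by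
  induction hdec with
  | @leaf k W x b h =>
    intro y hx hok hW
    rw [hx] at h
    exact Dec.leaf b ⟨W, by omega, rfl, b, h⟩
  | @node m n W x N hN h ih =>
    intro y hx hok hW
    have e1 : 2 * (Δ + 2) * (n + m) = 2 * (Δ + 2) * n + 2 * (Δ + 2) * m := by ring
    rw [e1]
    have hN2 : (plc G Q (cov (G.tall Q) a N)).card ≤ 2 * (Δ + 2) * n :=
      (card_plc_cov hdeg N).trans (Nat.mul_le_mul_left _ hN)
    refine Dec.node (plc G Q (cov (G.tall Q) a N)) hN2 ?_
    intro y' hag hok'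
    have hcW : (W ∪ N).card ≤ W.card + N.card := Finset.card_union_le _ _
    rw [← plc_cov_union] at hok' ⊢
    have hc1 : (plc G Q (cov (G.tall Q) a (W ∪ N))).card ≤ 2 * (Δ + 2) * T' :=
      (card_plc_cov hdeg (W ∪ N)).trans (Nat.mul_le_mul_left _ (by omega))
    refine ih (α + Pth (G.tall Q) a (iota y')) ?_ ?_ y' rfl hok' (by omega)
    · rw [hx]
      exact agree_of_plc hag
    · exact ok_up Fr v0 α a hQ hD hα (hcov_plc (W ∪ N)) (by omega) hok'

end

end FrU
end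

section

/-!
Running decision trees of the blow-up along a possible continuation.

PROOF of `poss_run`.  Induction on `hdec`.
Leaf `b`: `W' = W`, `z' = z`, `t' = t`.  `Ok` for `Z ∪ W = Z`: the violated vertex `ctr a (t, 0)` is free in the blow-up
by `FrC.emb_free` with the sets `U ∪ plc G Q (cov (G.tall Q) a Z)` and `Z` (`hcov`: an edge `inl (e, 0)` whose path
touches `Z` is in `cov (G.tall Q) a Z`, so `e ∈ G.inc (plc ..)`), the boundary by `bd_Pth_path` (compare
`FrC.ok_up` in C/CertA.lean).  Cardinality: `|plc ..| ≤ 2 (Δ + 2) |Z|` (`card_plc_cov`).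
Node `N`, `|N| ≤ n`: by `Fr.ne` there is `t1` free for `U ∪ plc G Q (cov (G.tall Q) a (Z ∪ N))`, and by `Fr.conn` a path
`γ` from `t` to `t1` vanishing on `G.inc (U ∪ plc G Q (cov (G.tall Q) a Z))`.  Let `z1 = z + iota γ`; `z1 = z` on
`incT G Q (U ∪ plc ..)` (`FrC.iota_eq_zero`), which contains `incT G Q U` and `cov (G.tall Q) a Z`
(`FrC.mem_incT_plc`).  `x1 = α + Pth a z1` agrees with `x` near `Z ⊇ W` (`agree_of_cov`) and is `Ok` for
`Z ∪ N ⊇ W ∪ N` (as above).  Apply the induction hypothesis for `W ∪ N ⊆ Z ∪ N`, `x1`, `z1`, `t1`.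

PROOF of `poss_certs`.  `C ∈ certs`: there is `q ∈ L` with `|C.1| ≤ T' + k`, `Ok C.1 C.2`, `S'.Q q.2 q.1 C.1 C.2`.
Let `z, t` be the witness of `Poss C U y`, `Z = C.1 ∪ W`.  As `plc G Q (cov (G.tall Q) a W) ⊆ U`,
`U ∪ plc G Q (cov (G.tall Q) a Z) = U ∪ plc G Q (cov (G.tall Q) a C.1)` (`plc_cov_union`), so `t` is free for it.
The tree at `(W, α + Pth a z)`: by `dec_congr` from the tree at `(W, p)`, `p = α + Pth a (iota y)`: `z = iota y` on
`cov (G.tall Q) a W` (contained in `incT G Q U`); for the leaves `S'.mono` with `U = U' = W` and the `Ok` of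
`α + Pth a z` for `Z ⊇ W` (as in the leaf case of `poss_run`).
`poss_run` gives `W', z', t', b`.  `x' = α + Pth a z'` agrees with `C.2` near `C.1` (`Match` for `z`, and `z' = z` on
`cov Z ⊇ cov C.1`, `agree_of_cov`), so by `S'.mono` `S'.Q q.2 q.1 (Z ∪ W') x'` and `S'.Q q.2 b (Z ∪ W') x'`
(`|Z ∪ W'| = |C.1 ∪ W'| ≤ 2 (T' + k) ≤ cap'`), and by `S'.uniq` `b = q.1`.  Put `C' = (W', x')`:
it is in `certW` (`q ∈ L`, `W ⊆ W'`, `|W' \ W| ≤ k`; `x' = p` on `inc W` as `z' = iota y` on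
`cov W ⊆ incT G Q U`), and it is possible with the witness `z', t'` (`Fr.anti`).

PROOF of `poss_old`.  `poss_run` with `Q' = S'.Q f`, `Z = W`, `z = iota y`, `t` the violated vertex of `y` (free for
`U = U ∪ plc (cov W)`; `bd_iota_path`); `C' = (W', α + Pth a z')`, `q = (b, f)`.

PROOF of `certW_congr`: `p` only enters through its values on `inc W`.
PROOF of `certW_sub`: clear (`|C.1| ≤ |W| + |C.1 \ W|`).
PROOF of `mem_lst`: induction on `f` (`Fm.subs`, `Fm.self_mem_subs`).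
-/

set_option linter.unusedSectionVars false

namespace FrU

open Finset Fr56 FrC FrG FrT
open scoped Classical

section
variable {X : Type}

private theorem mem_piece {Φ' : Set (Fm X)} {f : Fm X} {q : Bool × Fm X} {b : Bool}
    (ih : q ∈ lst Φ' f → q.2 ∈ Φ' ∧ q.2 ∈ f.subs)
    (h : q ∈ if f ∈ Φ' then [(b, f)] else lst Φ' f) : q.2 ∈ Φ' ∧ q.2 ∈ f.subs := by
  by_cases hf : f ∈ Φ'
  · rw [if_pos hf, List.mem_singleton] at h
    subst h
    exact ⟨hf, Fm.self_mem_subs _⟩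
  · rw [if_neg hf] at h
    exact ih h

theorem mem_lst {Φ' : Set (Fm X)} {f : Fm X} {q : Bool × Fm X} (h : q ∈ lst Φ' f) :
    q.2 ∈ Φ' ∧ q.2 ∈ f.subs := by
  induction f with
  | var x =>
    simp [lst] at h
  | neg f ih =>
    rw [lst] at h
    obtain ⟨h1, h2⟩ := ih h
    exact ⟨h1, List.mem_cons_of_mem _ h2⟩
  | and f g ihf ihg =>
    rw [lst] at h
    rcases List.mem_append.1 h with h1 | h1
    · obtain ⟨h2, h3⟩ := mem_piece ihf h1
      exact ⟨h2, List.mem_cons_of_mem _ (List.mem_append_left _ h3)⟩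
    · obtain ⟨h2, h3⟩ := mem_piece ihg h1
      exact ⟨h2, List.mem_cons_of_mem _ (List.mem_append_right _ h3)⟩
  | or f g ihf ihg =>
    rw [lst] at h
    rcases List.mem_append.1 h with h1 | h1
    · obtain ⟨h2, h3⟩ := mem_piece ihf h1
      exact ⟨h2, List.mem_cons_of_mem _ (List.mem_append_left _ h3)⟩
    · obtain ⟨h2, h3⟩ := mem_piece ihg h1
      exact ⟨h2, List.mem_cons_of_mem _ (List.mem_append_right _ h3)⟩

theorem mem_lstW {Φ' : Set (Fm X)} {f : Fm X} {q : Bool × Fm X} (h : q ∈ lstW Φ' f) :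
    q.2 ∈ Φ' ∧ q.2 ∈ f.subs := by
  unfold lstW at h
  by_cases hf : f ∈ Φ'
  · rw [if_pos hf] at h
    rcases List.mem_cons.1 h with h1 | h1
    · subst h1
      exact ⟨hf, Fm.self_mem_subs _⟩
    · rw [List.mem_singleton] at h1
      subst h1
      exact ⟨hf, Fm.self_mem_subs _⟩
  · rw [if_neg hf] at h
    exact mem_lst h

end

section
variable {V E : Type} [Fintype V] [Fintype E] [DecidableEq V] [DecidableEq E]
  {G : Gph V E} {Fr : Frame G} {v0 : V} {Q D : ℕ} {hQ : 0 < Q} {hD : 0 < D} {w0 : FrC.A D}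
  {α : Xt (TE V E Q) D → ZMod 2} {a : TV V Q → FrC.A D}

private theorem mem_covP {W : Finset (HV (TV V Q) (TE V E Q) D)} {e : TE V E Q} :
    e ∈ cov (G.tall Q) a W ↔ Tch (G.tall Q) a W e := by
  unfold cov
  rw [Finset.mem_filter]
  exact ⟨fun h => h.2, fun h => ⟨Finset.mem_univ _, h⟩⟩

private theorem cov_monoP {W W' : Finset (HV (TV V Q) (TE V E Q) D)} (h : W ⊆ W') :
    cov (G.tall Q) a W ⊆ cov (G.tall Q) a W' := by
  intro e he
  rw [mem_covP] at he ⊢
  obtain ⟨u, hue, hul, hui⟩ := he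
  exact ⟨u, hue, hul, Gph.inc_mono _ h hui⟩

/-- states of the blow-up from possible continuations -/
private theorem ok_z (hα : ((G.tall Q).blow D).bd α = FrC.pt (HV.cen (v0, 0) w0) +
      FrC.pt (FrC.ctr a (v0, 0))) {Δ : ℕ} (hdeg : G.Deg Δ)
    {Z : Finset (HV (TV V Q) (TE V E Q) D)} {U : Finset V} {z : TE V E Q → ZMod 2} {t : V}
    (hb : (G.tall Q).bd z = FrC.pt (v0, 0) + FrC.pt (t, 0))
    (hf : Fr.Free (U ∪ plc G Q (cov (G.tall Q) a Z)) t)
    (hc : U.card + (2 * (Δ + 2) + 2) * Z.card ≤ Fr.m) :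
    (Fr.blow Q D hQ hD).Ok (HV.cen (v0, 0) w0) Z (α + Pth (G.tall Q) a z) := by
  have hc' : (U ∪ plc G Q (cov (G.tall Q) a Z)).card + 2 * Z.card ≤ Fr.m := by
    have h1 := Finset.card_union_le U (plc G Q (cov (G.tall Q) a Z))
    have h2 := card_plc_cov (G := G) (a := a) hdeg Z
    have e1 : (2 * (Δ + 2) + 2) * Z.card = 2 * (Δ + 2) * Z.card + 2 * Z.card := by ring
    omega
  refine ⟨ctr a (t, 0), ?_, emb_free Fr a _ Z t hD hc' hf ?_⟩
  · rw [Gph.bd_add, hα, bd_Pth_path _ hD a z (v0, 0) (t, 0) hb,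
      add_assoc, ← add_assoc (FrC.pt (ctr a (v0, 0))), add_self2, zero_add]
  · intro e he
    exact G.inc_mono Finset.subset_union_right
      ((inl_mem_incT G).1 (mem_incT_plc G (mem_covP.2 he)))

/-- **running a decision tree of the blow-up along a possible continuation** -/
theorem poss_run (hα : ((G.tall Q).blow D).bd α = FrC.pt (HV.cen (v0, 0) w0) +
      FrC.pt (FrC.ctr a (v0, 0))) {Δ n : ℕ} (hdeg : G.Deg Δ)
    {Q' : Bool → Finset (HV (TV V Q) (TE V E Q) D) → (Xt (TE V E Q) D → ZMod 2) → Prop}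
    {W : Finset (HV (TV V Q) (TE V E Q) D)} {x : Xt (TE V E Q) D → ZMod 2}
    (hdec : Dec (Fr.blow Q D hQ hD) (HV.cen (v0, 0) w0) Q' n W x) :
    ∀ (Z : Finset (HV (TV V Q) (TE V E Q) D)) (U : Finset V) (y : E → ZMod 2)
      (z : TE V E Q → ZMod 2) (t : V), W ⊆ Z → x = α + Pth (G.tall Q) a z →
      (∀ e ∈ incT G Q U, z e = iota y e) → (G.tall Q).bd z = FrC.pt (v0, 0) + FrC.pt (t, 0) →
      Fr.Free (U ∪ plc G Q (cov (G.tall Q) a Z)) t →
      U.card + (2 * (Δ + 2) + 2) * (Z.card + n) ≤ Fr.m →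
      ∃ (W' : Finset (HV (TV V Q) (TE V E Q) D)) (z' : TE V E Q → ZMod 2) (t' : V) (b : Bool),
        W ⊆ W' ∧ (W' \ W).card ≤ n ∧ (∀ e ∈ incT G Q U, z' e = iota y e) ∧
        (∀ e ∈ cov (G.tall Q) a Z, z' e = z e) ∧
        (G.tall Q).bd z' = FrC.pt (v0, 0) + FrC.pt (t', 0) ∧
        Fr.Free (U ∪ plc G Q (cov (G.tall Q) a (Z ∪ W'))) t' ∧
        (Fr.blow Q D hQ hD).Ok (HV.cen (v0, 0) w0) (Z ∪ W') (α + Pth (G.tall Q) a z') ∧
        Q' b W' (α + Pth (G.tall Q) a z') := by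
  induction hdec with
  | @leaf k W x b h =>
    intro Z U y z t hWZ hx hz hb hf hc
    have hZW : Z ∪ W = Z := Finset.union_eq_left.2 hWZ
    refine ⟨W, z, t, b, Finset.Subset.refl _, ?_, hz, fun _ _ => rfl, hb, ?_, ?_, ?_⟩
    · rw [Finset.sdiff_self, Finset.card_empty]
      exact Nat.zero_le _
    · rw [hZW]
      exact hf
    · rw [hZW]
      refine ok_z hα hdeg hb hf (le_trans (Nat.add_le_add_left (Nat.mul_le_mul_left _ ?_) _) hc)
      exact Nat.le_add_right _ _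
    · rw [← hx]
      exact h
  | @node m n W x N hN h ih =>
    intro Z U y z t hWZ hx hz hb hf hc
    have hcZN : (Z ∪ N).card ≤ Z.card + N.card := Finset.card_union_le _ _
    have hc1 : U.card + (2 * (Δ + 2) + 2) * (Z ∪ N).card ≤ Fr.m :=
      le_trans (Nat.add_le_add_left (Nat.mul_le_mul_left _ (by omega)) _) hc
    have hc2 : U.card + (2 * (Δ + 2) + 2) * ((Z ∪ N).card + m) ≤ Fr.m :=
      le_trans (Nat.add_le_add_left (Nat.mul_le_mul_left _ (by omega)) _) hc
    have hsub : U ∪ plc G Q (cov (G.tall Q) a Z) ⊆ U ∪ plc G Q (cov (G.tall Q) a (Z ∪ N)) :=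
      Finset.union_subset_union (Finset.Subset.refl _) (plc_cov_mono Finset.subset_union_left)
    have hcard1 : (U ∪ plc G Q (cov (G.tall Q) a (Z ∪ N))).card ≤ Fr.m := by
      have h1 := Finset.card_union_le U (plc G Q (cov (G.tall Q) a (Z ∪ N)))
      have h2 := card_plc_cov (G := G) (a := a) hdeg (Z ∪ N)
      have e1 : (2 * (Δ + 2) + 2) * (Z ∪ N).card =
          2 * (Δ + 2) * (Z ∪ N).card + 2 * (Z ∪ N).card := by ring
      omega
    obtain ⟨t1, ht1⟩ := Fr.ne _ hcard1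
    obtain ⟨γ, hγ, hγ0⟩ := Fr.conn (U ∪ plc G Q (cov (G.tall Q) a Z)) t t1
      ((Finset.card_le_card hsub).trans hcard1) hf (Fr.anti hsub ht1)
    have hz1 : ∀ e ∈ incT G Q (U ∪ plc G Q (cov (G.tall Q) a Z)), (z + iota γ : TE V E Q → ZMod 2) e = z e := by
      intro e he
      rw [Pi.add_apply, iota_eq_zero G hγ0 e he, add_zero]
    have hzU : ∀ e ∈ incT G Q U, (z + iota γ : TE V E Q → ZMod 2) e = iota y e := by
      intro e he
      rw [hz1 e (incT_mono G Finset.subset_union_left he), hz e he]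
    have hzZ : ∀ e ∈ cov (G.tall Q) a Z, (z + iota γ : TE V E Q → ZMod 2) e = z e := by
      intro e he
      exact hz1 e (incT_mono G Finset.subset_union_right (mem_incT_plc G he))
    have hb1 : (G.tall Q).bd (z + iota γ) = FrC.pt (v0, 0) + FrC.pt (t1, 0) := by
      rw [Gph.bd_add, hb, bd_iota_path G γ t t1 hγ, add_assoc,
        ← add_assoc (FrC.pt (t, 0)), add_self2, zero_add]
    have hag : ((G.tall Q).blow D).Agree W x (α + Pth (G.tall Q) a (z + iota γ)) := by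
      rw [hx]
      exact agree_of_cov (fun e he => (hzZ e (cov_monoP hWZ he)).symm)
    have hok1 : (Fr.blow Q D hQ hD).Ok (HV.cen (v0, 0) w0) (Z ∪ N)
        (α + Pth (G.tall Q) a (z + iota γ)) := ok_z hα hdeg hb1 ht1 hc1
    obtain ⟨W', z', t', b, h1, h2, h3, h4, h5, h6, h7, h8⟩ :=
      ih (α + Pth (G.tall Q) a (z + iota γ)) hag
        (Frame.Ok.mono (Finset.union_subset_union hWZ (Finset.Subset.refl _)) hok1)
        (Z ∪ N) U y (z + iota γ) t1 (Finset.union_subset_union hWZ (Finset.Subset.refl _)) rfl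
        hzU hb1 ht1 hc2
    have hNW' : N ⊆ W' := Finset.subset_union_right.trans h1
    have hZN : Z ∪ N ∪ W' = Z ∪ W' := by
      rw [Finset.union_assoc, Finset.union_eq_right.2 hNW']
    rw [hZN] at h6 h7
    refine ⟨W', z', t', b, Finset.subset_union_left.trans h1, ?_, h3, ?_, h5, h6, h7, h8⟩
    · have h9 : W' \ W ⊆ (W' \ (W ∪ N)) ∪ N := by
        intro u hu
        rw [Finset.mem_sdiff] at hu
        by_cases huN : u ∈ N
        · exact Finset.mem_union_right _ huN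
        · refine Finset.mem_union_left _ (Finset.mem_sdiff.2 ⟨hu.1, fun h' => ?_⟩)
          rcases Finset.mem_union.1 h' with h' | h'
          · exact hu.2 h'
          · exact huN h'
      have h10 := Finset.card_le_card h9
      have h11 := Finset.card_union_le (W' \ (W ∪ N)) N
      omega
    · intro e he
      rw [h4 e (cov_monoP Finset.subset_union_left he), hzZ e he]

variable {X : Type} {Φ' : Set (Fm X)} {cap' : ℕ}
  (S' : Valn (Fr.blow Q D hQ hD) (HV.cen (v0, 0) w0) X Φ' cap')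

theorem certW_congr {W : Finset (HV (TV V Q) (TE V E Q) D)} {p p' : Xt (TE V E Q) D → ZMod 2}
    (h : ((G.tall Q).blow D).Agree W p p') (k : ℕ) (L : List (Bool × Fm X)) :
    certW S' W p k L = certW S' W p' k L := by
  unfold certW
  ext C
  constructor
  · rintro ⟨q, hq, h1, h2, h3, h4, h5⟩
    exact ⟨q, hq, h1, h2, fun u hu => (h3 u hu).trans (h u hu), h4, h5⟩
  · rintro ⟨q, hq, h1, h2, h3, h4, h5⟩
    exact ⟨q, hq, h1, h2, fun u hu => (h3 u hu).trans (h u hu).symm, h4, h5⟩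

theorem certW_sub {T' : ℕ} {W : Finset (HV (TV V Q) (TE V E Q) D)} (hW : W.card ≤ T')
    (p : Xt (TE V E Q) D → ZMod 2) (k : ℕ) (L : List (Bool × Fm X)) :
    certW S' W p k L ⊆ certs S' (T' + k) L := by
  rintro C ⟨q, hq, h1, h2, h3, h4, h5⟩
  refine ⟨q, hq, ?_, h4, h5⟩
  have h6 := Finset.card_le_card_sdiff_add_card (s := C.1) (t := W)
  omega

/-- the certificate found by `poss_run` -/
private theorem cert_run {k : ℕ}
    {W : Finset (HV (TV V Q) (TE V E Q) D)} {U : Finset V} {y : E → ZMod 2}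
    (hWU : plc G Q (cov (G.tall Q) a W) ⊆ U) {L : List (Bool × Fm X)} {q : Bool × Fm X}
    (hq : q ∈ L) {Z W' : Finset (HV (TV V Q) (TE V E Q) D)} {z' : TE V E Q → ZMod 2} {t' : V}
    (h1 : W ⊆ W') (h2 : (W' \ W).card ≤ k) (h3 : ∀ e ∈ incT G Q U, z' e = iota y e)
    (h5 : (G.tall Q).bd z' = FrC.pt (v0, 0) + FrC.pt (t', 0))
    (h6 : Fr.Free (U ∪ plc G Q (cov (G.tall Q) a (Z ∪ W'))) t')
    (h7 : (Fr.blow Q D hQ hD).Ok (HV.cen (v0, 0) w0) (Z ∪ W') (α + Pth (G.tall Q) a z'))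
    (h8 : S'.Q q.2 q.1 W' (α + Pth (G.tall Q) a z')) :
    ∃ C' ∈ certW S' W (α + Pth (G.tall Q) a (iota y)) k L, Poss Fr v0 α a C' U y := by
  refine ⟨(W', α + Pth (G.tall Q) a z'), ⟨q, hq, h1, h2, ?_, ?_, h8⟩, z', t', h3, h5, ?_, ?_⟩
  · intro u hu
    refine agree_of_cov (W := W) (fun e he => ?_) u hu
    exact h3 e (incT_mono G hWU (mem_incT_plc G he))
  · exact Frame.Ok.mono Finset.subset_union_right h7
  · exact Fr.anti (Finset.union_subset_union (Finset.Subset.refl _)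
      (plc_cov_mono Finset.subset_union_right)) h6
  · intro u _
    rfl

/-- a possible certificate for an old formula gives one that extends the leaf of the common tree -/
theorem poss_certs (hα : ((G.tall Q).blow D).bd α = FrC.pt (HV.cen (v0, 0) w0) +
      FrC.pt (FrC.ctr a (v0, 0))) {Δ k T' : ℕ} (hdeg : G.Deg Δ) (hk : 2 * (T' + k) ≤ cap')
    {W : Finset (HV (TV V Q) (TE V E Q) D)} (hW : W.card ≤ T') {U : Finset V} {y : E → ZMod 2}
    (hWU : plc G Q (cov (G.tall Q) a W) ⊆ U) {L : List (Bool × Fm X)}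
    (hL : ∀ q ∈ L, q.2 ∈ Φ' ∧ Dec (Fr.blow Q D hQ hD) (HV.cen (v0, 0) w0) (S'.Q q.2) k W
      (α + Pth (G.tall Q) a (iota y)))
    (hm : U.card + (2 * (Δ + 2) + 2) * (2 * (T' + k)) ≤ Fr.m) (C : Cert V E Q D)
    (hC : C ∈ certs S' (T' + k) L) (hP : Poss Fr v0 α a C U y) :
    ∃ C' ∈ certW S' W (α + Pth (G.tall Q) a (iota y)) k L, Poss Fr v0 α a C' U y := by
  obtain ⟨q, hq, hCc, hCok, hCQ⟩ := hC
  obtain ⟨z, t, hz, hb, hf, hM⟩ := hP
  obtain ⟨hqΦ, hdec⟩ := hL q hq
  have hf1 : Fr.Free (U ∪ plc G Q (cov (G.tall Q) a (C.1 ∪ W))) t := by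
    rw [plc_cov_union, Finset.union_comm (plc G Q (cov (G.tall Q) a C.1)),
      ← Finset.union_assoc, Finset.union_eq_left.2 hWU]
    exact hf
  have hcZ : (C.1 ∪ W).card ≤ C.1.card + W.card := Finset.card_union_le _ _
  have hm1 : U.card + (2 * (Δ + 2) + 2) * ((C.1 ∪ W).card + k) ≤ Fr.m :=
    le_trans (Nat.add_le_add_left (Nat.mul_le_mul_left _ (by omega)) _) hm
  have hm2 : U.card + (2 * (Δ + 2) + 2) * (C.1 ∪ W).card ≤ Fr.m :=
    le_trans (Nat.add_le_add_left (Nat.mul_le_mul_left _ (by omega)) _) hm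
  have hok1 : (Fr.blow Q D hQ hD).Ok (HV.cen (v0, 0) w0) (C.1 ∪ W)
      (α + Pth (G.tall Q) a z) := ok_z hα hdeg hb hf1 hm2
  have hag : ((G.tall Q).blow D).Agree W (α + Pth (G.tall Q) a (iota y))
      (α + Pth (G.tall Q) a z) :=
    agree_of_cov (fun e he => (hz e (incT_mono G hWU (mem_incT_plc G he))).symm)
  have hdec1 : Dec (Fr.blow Q D hQ hD) (HV.cen (v0, 0) w0) (S'.Q q.2) k W
      (α + Pth (G.tall Q) a z) := by
    refine dec_congr hdec hag ?_
    intro b hbq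
    exact S'.mono q.2 hqΦ b W W _ _ (Finset.Subset.refl _) (by omega) hbq hag
      (Frame.Ok.mono Finset.subset_union_right hok1)
  obtain ⟨W', z', t', b, h1, h2, h3, h4, h5, h6, h7, h8⟩ :=
    poss_run hα hdeg hdec1 (C.1 ∪ W) U y z t Finset.subset_union_right rfl hz hb hf1 hm1
  have hcW' : W'.card ≤ T' + k := by
    have h9 := Finset.card_le_card_sdiff_add_card (s := W') (t := W)
    omega
  have hcap : (C.1 ∪ W ∪ W').card ≤ cap' := by
    rw [Finset.union_assoc, Finset.union_eq_right.2 h1]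
    have h9 := Finset.card_union_le C.1 W'
    omega
  have hagC : ((G.tall Q).blow D).Agree C.1 C.2 (α + Pth (G.tall Q) a z') := by
    intro u hu
    rw [← hM u hu]
    refine agree_of_cov (W := C.1) (fun e he => ?_) u hu
    exact (h4 e (cov_monoP Finset.subset_union_left he)).symm
  have hQ1 : S'.Q q.2 q.1 (C.1 ∪ W ∪ W') (α + Pth (G.tall Q) a z') :=
    S'.mono q.2 hqΦ q.1 C.1 _ C.2 _ (Finset.subset_union_left.trans Finset.subset_union_left)
      hcap hCQ hagC h7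
  have hQ2 : S'.Q q.2 b (C.1 ∪ W ∪ W') (α + Pth (G.tall Q) a z') :=
    S'.mono q.2 hqΦ b W' _ _ _ Finset.subset_union_right hcap h8 (fun _ _ => rfl) h7
  have hbq : b = q.1 := by
    by_contra hne
    have h9 := S'.uniq q.2 hqΦ _ _ hcap h7
    cases hb' : b <;> cases hq' : q.1
    · rw [hb', hq'] at hne
      exact hne rfl
    · rw [hb'] at hQ2
      rw [hq'] at hQ1
      exact h9 hQ1 hQ2
    · rw [hb'] at hQ2
      rw [hq'] at hQ1
      exact h9 hQ2 hQ1
    · rw [hb', hq'] at hne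
      exact hne rfl
  rw [hbq] at h8
  exact cert_run S' hWU hq h1 h2 h3 h5 h6 h7 h8

/-- at each state some certificate for one of the two values of an old formula is possible -/
theorem poss_old (hα : ((G.tall Q).blow D).bd α = FrC.pt (HV.cen (v0, 0) w0) +
      FrC.pt (FrC.ctr a (v0, 0))) {Δ k T' : ℕ} (hdeg : G.Deg Δ)
    {W : Finset (HV (TV V Q) (TE V E Q) D)} (hW : W.card ≤ T') {U : Finset V} {y : E → ZMod 2}
    (hWU : plc G Q (cov (G.tall Q) a W) ⊆ U) (hok : Fr.Ok v0 U y) {f : Fm X}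
    (hf : Dec (Fr.blow Q D hQ hD) (HV.cen (v0, 0) w0) (S'.Q f) k W
      (α + Pth (G.tall Q) a (iota y)))
    (hm : U.card + (2 * (Δ + 2) + 2) * (T' + k) ≤ Fr.m) :
    ∃ C' ∈ certW S' W (α + Pth (G.tall Q) a (iota y)) k [(true, f), (false, f)],
      Poss Fr v0 α a C' U y := by
  obtain ⟨t, ht, hfree⟩ := hok
  have hf1 : Fr.Free (U ∪ plc G Q (cov (G.tall Q) a W)) t := by
    rw [Finset.union_eq_left.2 hWU]
    exact hfree
  have hm1 : U.card + (2 * (Δ + 2) + 2) * (W.card + k) ≤ Fr.m :=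
    le_trans (Nat.add_le_add_left (Nat.mul_le_mul_left _ (by omega)) _) hm
  obtain ⟨W', z', t', b, h1, h2, h3, h4, h5, h6, h7, h8⟩ :=
    poss_run hα hdeg hf W U y (iota y) t (Finset.Subset.refl _) rfl (fun _ _ => rfl)
      (bd_iota_path G y v0 t ht) hf1 hm1
  have hb : (b, f) ∈ [(true, f), (false, f)] := by
    cases b
    · exact List.mem_cons_of_mem _ (List.mem_singleton.2 rfl)
    · exact List.mem_cons_self
  exact cert_run S' hWU hb h1 h2 h3 h5 h6 h7 h8

end

end FrU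
end
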