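import Pool.Agent.Lib.MP_51bb46_lc.U.Defs
import Pool.Agent.Lib.MP_51bb46_lc.U.CodeMP
import Pool.Agent.Lib.MP_51bb46_lc.T.NumT
import Pool.Agent.Lib.MP_51bb46_lc.U.PossA
import Pool.Agent.Lib.MP_51bb46_lc.T.ExistsT

section

/-!
A weak and a strong closure operator of an expanding graph.

PROOF.  Let `n = |V|`, `Ψ1 W = 2 H |cut W| - |W|`, `P1 = 2 H Δ m` (strong operator `cL`), and
`Ψ2 W = 4 H |cut W| - |W|`, `P2 = 16 H Δ m` (weak operator `cl`).  Each operator is built as in
`FrT.exists_clo` (T/CloA.lean): candidates for `U` are the `W ⊇ U` with `2 |W| ≤ n`, `Ψ W ≤ P`; the closure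
is the union of all candidates with the least value of `Ψ` (then it is itself such a set, the largest
one), and `univ` if there is no candidate.  The strong one is the construction of `exists_clo` for
`(H, m)`, the weak one that for `(2 H, 4 m)` (`Expd G (2 H)` follows from `Expd G H`; condition
`16 (2 H) Δ (4 m) = 128 H Δ m ≤ n`), so all single laws (`ext mono idem empty card small exp`, and
`extL monoL idemL cardL`) are those of `exists_clo`, as `2 H Δ ≤ 4 H Δ`.

Facts for a strongly closed `U ≠ univ`: `2 |U| ≤ n`, `Ψ1 U ≤ P1`, `|U| ≤ Ψ1 U`, and for `W ⊋ U` with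
`2 |W| ≤ n` we have `Ψ1 W > Ψ1 U` (if `Ψ1 W ≤ P1` then `W` is a candidate for `U`, and `U` is the largest
minimizer; otherwise `Ψ1 W > P1 ≥ Ψ1 U`), i.e. `2 H (|cut W| - |cut U|) > |W| - |U|`.

`clL`: let `cL U = U`.  If `U = univ` then `cl univ = univ` by ext.  Otherwise
`Ψ2 U = 2 Ψ1 U + |U| ≤ 3 P1 ≤ P2`, so `U` is a weak candidate for `U`, and for a weak candidate
`W ⊋ U`: `Ψ2 W - Ψ2 U = 4 H (|cut W| - |cut U|) - (|W| - |U|) > |W| - |U| > 0`.  So `U` is the only weak
minimizer, `cl U = U`.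

`incr`: `U = univ` is trivial.  Otherwise `Ψ2 (U ∪ X) ≤ Ψ2 U + 4 H Δ |X| ≤ 6 H Δ m + 4 H Δ m ≤ P2`
(`|cut (U ∪ X)| ≤ |cut U| + Δ |X|`) and `2 |U ∪ X| ≤ 2 (2 H Δ m + m) ≤ n`, so `U ∪ X` is a candidate for
itself, and `M = cl (U ∪ X)` is a minimizer: `Ψ2 M ≤ Ψ2 (U ∪ X) ≤ Ψ2 U + 4 H Δ |X|`, `2 |M| ≤ n`.  By the
fact above (with `≥` if `M = U`) `2 H (|cut M| - |cut U|) ≥ |M| - |U|`, so
`Ψ2 M - Ψ2 U ≥ 2 (|M| - |U|) - (|M| - |U|) = |M \ U|`.  Hence `|M \ U| ≤ 4 H Δ |X|`.
(The private lemmas of T/CloA.lean, in particular `clo_abs`, may be copied and extended.)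
-/

set_option linter.unusedSectionVars false

namespace FrU

open Finset Fr56 FrC FrG FrT
open scoped Classical

section
variable {V E : Type} [Fintype V] [Fintype E] [DecidableEq V] [DecidableEq E]

/-- the cut function is submodular -/
private theorem cut_submod (G : Gph V E) (W W' : Finset V) :
    (cut G (W ∪ W')).card + (cut G (W ∩ W')).card ≤ (cut G W).card + (cut G W').card := by
  unfold FrT.cut
  simp only [card_filter]
  rw [← sum_add_distrib, ← sum_add_distrib]
  refine sum_le_sum fun e _ => ?_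
  by_cases h1 : G.src e ∈ W <;> by_cases h2 : G.tgt e ∈ W <;> by_cases h3 : G.src e ∈ W' <;>
    by_cases h4 : G.tgt e ∈ W' <;> simp [h1, h2, h3, h4]

/-- abstract closure operators from submodular functions -/
private theorem clo_abs (Ψ : Finset V → ℤ) (P0 : ℤ) (n : ℕ)
    (sub : ∀ W W' : Finset V, Ψ (W ∪ W') + Ψ (W ∩ W') ≤ Ψ W + Ψ W')
    (pos : ∀ W : Finset V, 2 * W.card ≤ n → (W.card : ℤ) ≤ Ψ W) (h8 : 8 * P0 ≤ n)
    (h0 : Ψ ∅ ≤ 0) (hP : 0 ≤ P0) :
    ∃ cl : Finset V → Finset V, (∀ U, U ⊆ cl U) ∧ (∀ U U', U ⊆ U' → cl U ⊆ cl U') ∧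
      (∀ U, cl (cl U) = cl U) ∧ cl ∅ = ∅ ∧
      (∀ U : Finset V, 2 * U.card ≤ n → Ψ U ≤ P0 → 2 * (cl U).card ≤ n ∧ Ψ (cl U) ≤ Ψ U) ∧
      ∀ W : Finset V, cl W = W → W ≠ univ → 2 * W.card ≤ n ∧ Ψ W ≤ P0 ∧
        ∀ A : Finset V, 2 * (W ∪ A).card ≤ n → W ∪ A ≠ W → Ψ W < Ψ (W ∪ A) := by
  -- candidates
  obtain ⟨Cand, hCand⟩ : ∃ Cand : Finset V → Finset V → Prop,
      ∀ U W, Cand U W ↔ (U ⊆ W ∧ 2 * W.card ≤ n ∧ Ψ W ≤ P0) := ⟨_, fun _ _ => Iff.rfl⟩
  obtain ⟨Mn, hMn⟩ : ∃ Mn : Finset V → Finset V → Prop,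
      ∀ U W, Mn U W ↔ (Cand U W ∧ ∀ W', Cand U W' → Ψ W ≤ Ψ W') := ⟨_, fun _ _ => Iff.rfl⟩
  -- (d)
  have hd : ∀ U U' W W', U ⊆ U' → Mn U W → Cand U' W' →
      Cand U' (W ∪ W') ∧ Ψ (W ∪ W') ≤ Ψ W' := by
    intro U U' W W' hU hW hW'
    obtain ⟨hc, hmin⟩ := (hMn _ _).1 hW
    obtain ⟨hc1, hc2, hc3⟩ := (hCand _ _).1 hc
    obtain ⟨hd1, hd2, hd3⟩ := (hCand _ _).1 hW'
    have e1 := pos W hc2
    have e2 := pos W' hd2
    have e3 : (W ∪ W').card ≤ W.card + W'.card := card_union_le _ _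
    have e4 : 2 * (W ∪ W').card ≤ n := by omega
    have e5 : (W ∩ W').card ≤ W.card := card_le_card inter_subset_left
    have e6 : 2 * (W ∩ W').card ≤ n := by omega
    have e7 := sub W W'
    have e8 : Ψ W ≤ Ψ (W ∩ W') := by
      by_contra hcon
      push Not at hcon
      have : Cand U (W ∩ W') :=
        (hCand _ _).2 ⟨subset_inter hc1 (hU.trans hd1), e6, by omega⟩
      exact absurd (hmin _ this) (by omega)
    have e9 : Ψ (W ∪ W') ≤ Ψ W' := by omega
    exact ⟨(hCand _ _).2 ⟨hd1.trans subset_union_right, e4, by omega⟩, e9⟩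
  -- minimizers exist
  have hb : ∀ U, (∃ W, Cand U W) → ∃ W, Mn U W ∧ ∀ W', Mn U W' → W' ⊆ W := by
    intro U hU
    have hne : (univ.filter (Cand U)).Nonempty := by
      obtain ⟨W, hW⟩ := hU
      exact ⟨W, by simpa using hW⟩
    obtain ⟨W1, hW1, hW1m⟩ := exists_min_image (univ.filter (Cand U)) Ψ hne
    have hm1 : Mn U W1 := (hMn _ _).2 ⟨by simpa using hW1, fun W' hW' => hW1m W' (by simpa using hW')⟩
    have hne2 : (univ.filter (Mn U)).Nonempty := ⟨W1, by simpa using hm1⟩
    obtain ⟨W2, hW2, hW2m⟩ := exists_max_image (univ.filter (Mn U)) Finset.card hne2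
    have hm2 : Mn U W2 := by simpa using hW2
    refine ⟨W2, hm2, fun W' hW' => ?_⟩
    obtain ⟨hc, hle⟩ := hd U U W2 W' Subset.rfl hm2 ((hMn _ _).1 hW').1
    have hm3 : Mn U (W2 ∪ W') :=
      (hMn _ _).2 ⟨hc, fun W'' hW'' => hle.trans (((hMn _ _).1 hW').2 _ hW'')⟩
    have hcard := hW2m (W2 ∪ W') (by simpa using hm3)
    have heq : W2 = W2 ∪ W' := eq_of_subset_of_card_le subset_union_left hcard
    rw [heq]
    exact subset_union_right
  obtain ⟨cl, hcl1, hcl2⟩ : ∃ cl : Finset V → Finset V,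
      (∀ U, (∃ W, Cand U W) → Mn U (cl U) ∧ ∀ W', Mn U W' → W' ⊆ cl U) ∧
      (∀ U, (¬ ∃ W, Cand U W) → cl U = univ) := by
    refine ⟨fun U => if h : ∃ W, Cand U W then (hb U h).choose else univ, ?_, ?_⟩
    · intro U h
      simp only [h, dite_true]
      exact (hb U h).choose_spec
    · intro U h
      simp only [h, dite_false]
  have hext : ∀ U, U ⊆ cl U := by
    intro U
    by_cases h : ∃ W, Cand U W
    · exact ((hCand _ _).1 ((hMn _ _).1 (hcl1 U h).1).1).1
    · rw [hcl2 U h]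
      exact subset_univ _
  have hidem : ∀ U, cl (cl U) = cl U := by
    intro U
    by_cases h : ∃ W, Cand U W
    · have hW := (hcl1 U h).1
      obtain ⟨hc, hmin⟩ := (hMn _ _).1 hW
      obtain ⟨hc1, hc2, hc3⟩ := (hCand _ _).1 hc
      have hself : Cand (cl U) (cl U) := (hCand _ _).2 ⟨Subset.rfl, hc2, hc3⟩
      have h2 : ∃ W, Cand (cl U) W := ⟨_, hself⟩
      obtain ⟨hm2, _⟩ := hcl1 (cl U) h2
      obtain ⟨hk, hkm⟩ := (hMn _ _).1 hm2
      obtain ⟨hk1, hk2, hk3⟩ := (hCand _ _).1 hk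
      refine Subset.antisymm ((hcl1 U h).2 _ ((hMn _ _).2 ⟨(hCand _ _).2 ⟨hc1.trans hk1, hk2, hk3⟩, ?_⟩))
        hk1
      intro W' hW'
      exact (hkm _ hself).trans (hmin _ hW')
    · have h1 := hcl2 U h
      have := hext (cl U)
      rw [h1] at this ⊢
      exact Subset.antisymm (subset_univ _) this
  refine ⟨cl, hext, ?_, hidem, ?_, ?_, ?_⟩
  · -- mono
    intro U U' hU
    by_cases h' : ∃ W, Cand U' W
    · have h : ∃ W, Cand U W := by
        obtain ⟨W, hW⟩ := h'
        obtain ⟨a, b, c⟩ := (hCand _ _).1 hW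
        exact ⟨W, (hCand _ _).2 ⟨hU.trans a, b, c⟩⟩
      obtain ⟨hm', hbig'⟩ := hcl1 U' h'
      obtain ⟨hm, _⟩ := hcl1 U h
      obtain ⟨hc', hmin'⟩ := (hMn _ _).1 hm'
      obtain ⟨hc, hle⟩ := hd U U' (cl U) (cl U') hU hm hc'
      have hm3 : Mn U' (cl U ∪ cl U') :=
        (hMn _ _).2 ⟨hc, fun W'' hW'' => hle.trans (hmin' _ hW'')⟩
      exact subset_union_left.trans (hbig' _ hm3)
    · rw [hcl2 U' h']
      exact subset_univ _
  · -- empty
    have hce : Cand ∅ ∅ := (hCand _ _).2 ⟨Subset.rfl, by simp, by omega⟩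
    obtain ⟨hm, _⟩ := hcl1 ∅ ⟨_, hce⟩
    obtain ⟨hc, hmin⟩ := (hMn _ _).1 hm
    obtain ⟨_, hc2, _⟩ := (hCand _ _).1 hc
    have h1 := pos _ hc2
    have h2 := hmin _ hce
    have h3 : (cl ∅).card = 0 := by omega
    exact card_eq_zero.1 h3
  · -- card
    intro U hU1 hU2
    have hcu : Cand U U := (hCand _ _).2 ⟨Subset.rfl, hU1, hU2⟩
    obtain ⟨hm, _⟩ := hcl1 U ⟨_, hcu⟩
    obtain ⟨hc, hmin⟩ := (hMn _ _).1 hm
    exact ⟨((hCand _ _).1 hc).2.1, hmin _ hcu⟩
  · intro W hW hWu
    have hs : ∃ W', Cand W W' := by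
      by_contra hcon
      exact hWu (hW.symm.trans (hcl2 W hcon))
    obtain ⟨hm, hbig⟩ := hcl1 W hs
    rw [hW] at hm hbig
    obtain ⟨hc, hmin⟩ := (hMn _ _).1 hm
    obtain ⟨hc1, hc2, hc3⟩ := (hCand _ _).1 hc
    refine ⟨hc2, hc3, ?_⟩
    intro A hA hne
    by_contra hcon
    push Not at hcon
    have hcA : Cand W (W ∪ A) := (hCand _ _).2 ⟨subset_union_left, hA, by omega⟩
    have hmA : Mn W (W ∪ A) := (hMn _ _).2 ⟨hcA, fun W'' hW'' => hcon.trans (hmin _ hW'')⟩
    exact hne (Subset.antisymm (hbig _ hmA) subset_union_left)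

/-- closure operators with two more facts -/
private theorem exists_clo2 (G : Gph V E) {Δ H m : ℕ} (hdeg : G.Deg Δ) (hH : 1 ≤ H) (hΔ : 1 ≤ Δ)
    (hexp : Expd G H) (hm : 16 * H * Δ * m ≤ Fintype.card V) :
    ∃ c : Clo G (2 * H * Δ) (2 * H) m,
      (∀ U : Finset V, 2 * U.card ≤ Fintype.card V →
        (2 * H * (cut G U).card - U.card : ℤ) ≤ 2 * H * Δ * m →
        2 * (c.cl U).card ≤ Fintype.card V ∧
          (2 * H * (cut G (c.cl U)).card - (c.cl U).card : ℤ) ≤ 2 * H * (cut G U).card - U.card) ∧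
      ∀ W : Finset V, c.cl W = W → W ≠ univ → 2 * W.card ≤ Fintype.card V ∧
        (2 * H * (cut G W).card - W.card : ℤ) ≤ 2 * H * Δ * m ∧
        ∀ A : Finset V, 2 * (W ∪ A).card ≤ Fintype.card V → W ∪ A ≠ W →
          (2 * H * (cut G W).card - W.card : ℤ) <
            2 * H * (cut G (W ∪ A)).card - (W ∪ A).card := by
  set n := Fintype.card V with hn
  have hpos : ∀ W : Finset V, 2 * W.card ≤ n →
      (W.card : ℤ) ≤ 2 * H * (cut G W).card - W.card := by
    intro W hW
    have h1 := hexp W hW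
    have h2 : (W.card : ℤ) ≤ H * (cut G W).card := by exact_mod_cast h1
    linarith
  have hPΨ : ∀ U : Finset V, (2 * H * (cut G U).card - U.card : ℤ) ≤ 2 * H * Δ * U.card := by
    intro U
    have h1 := card_cut_le G hdeg U
    have h2 : ((cut G U).card : ℤ) ≤ Δ * U.card := by exact_mod_cast h1
    have h3 : (2 * H * (cut G U).card : ℤ) ≤ 2 * H * (Δ * U.card) :=
      mul_le_mul_of_nonneg_left h2 (by positivity)
    have h4 : (0 : ℤ) ≤ U.card := by positivity
    nlinarith
  obtain ⟨cl, hext, hmono, hidem, hempty, hcard, hbig⟩ :=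
    clo_abs (V := V) (fun W => 2 * H * (cut G W).card - W.card) (2 * H * Δ * m) n
      (by
        intro W W'
        have h1 := cut_submod G W W'
        have h2 : (W ∪ W').card + (W ∩ W').card = W.card + W'.card := card_union_add_card_inter _ _
        have h1' : ((cut G (W ∪ W')).card + (cut G (W ∩ W')).card : ℤ) ≤
          (cut G W).card + (cut G W').card := by exact_mod_cast h1
        have h2' : ((W ∪ W').card + (W ∩ W').card : ℤ) = W.card + W'.card := by exact_mod_cast h2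
        have h3 : (2 * H * ((cut G (W ∪ W')).card + (cut G (W ∩ W')).card) : ℤ) ≤
          2 * H * ((cut G W).card + (cut G W').card) :=
          mul_le_mul_of_nonneg_left h1' (by positivity)
        linarith)
      hpos
      (by
        have : ((16 * H * Δ * m : ℕ) : ℤ) ≤ (n : ℤ) := by exact_mod_cast hm
        push_cast at this
        linarith)
      (by simp [FrT.cut])
      (by positivity)
  have hsm : ∀ U : Finset V, U.card ≤ m → 2 * U.card ≤ n ∧
      (2 * H * (cut G U).card - U.card : ℤ) ≤ 2 * H * Δ * m := by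
    intro U hU
    constructor
    · have h1 : m ≤ H * Δ * m := Nat.le_mul_of_pos_left m (Nat.mul_pos hH hΔ)
      have h2 : 16 * H * Δ * m = 16 * (H * Δ * m) := by ring
      omega
    · refine (hPΨ U).trans ?_
      have : (U.card : ℤ) ≤ m := by exact_mod_cast hU
      exact mul_le_mul_of_nonneg_left this (by positivity)
  have h8 : (16 * H * Δ * m : ℤ) ≤ n := by exact_mod_cast hm
  refine ⟨⟨cl, hext, hmono, hidem, hempty, ?_, ?_, ?_⟩, hcard, hbig⟩
  · intro U hU
    obtain ⟨h1, h2⟩ := hcard U (hsm U hU).1 (hsm U hU).2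
    have h3 := hpos _ h1
    have h4 := hPΨ U
    have h5 : ((cl U).card : ℤ) ≤ 2 * H * Δ * U.card := h3.trans (h2.trans h4)
    exact_mod_cast h5
  · intro W hW hWu
    obtain ⟨h1, h2, _⟩ := hbig W hW hWu
    have h3 := (hpos _ h1).trans h2
    have h4 : (8 * W.card : ℤ) ≤ n := by linarith
    exact_mod_cast h4
  · intro W hW hWu A hA hA2
    obtain ⟨h1, h2, h3⟩ := hbig W hW hWu
    have hb1 : cut G (W ∪ A) ⊆ cut G W ∪ btw G ∅ A (univ \ (W ∪ A)) := by
      intro e he
      simp only [FrT.cut, FrT.btw, mem_filter, mem_univ, true_and, mem_union, mem_sdiff, notMem_empty,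
        not_false_eq_true] at he ⊢
      tauto
    have hb2 : cut G A ⊆ cut G W ∪ btw G ∅ A (univ \ (W ∪ A)) := by
      intro e he
      have hd : ∀ v ∈ A, v ∉ W := fun v hv => disjoint_left.1 hA hv
      have hds := hd (G.src e)
      have hdt := hd (G.tgt e)
      simp only [FrT.cut, FrT.btw, mem_filter, mem_univ, true_and, mem_union, mem_sdiff, notMem_empty,
        not_false_eq_true] at he ⊢
      tauto
    set b := (btw G ∅ A (univ \ (W ∪ A))).card with hb
    have hc1 : (cut G (W ∪ A)).card ≤ (cut G W).card + b :=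
      (card_le_card hb1).trans (card_union_le _ _)
    have hc2 : (cut G A).card ≤ (cut G W).card + b :=
      (card_le_card hb2).trans (card_union_le _ _)
    rcases A.eq_empty_or_nonempty with rfl | hAne
    · simp
    have hcA : 0 < A.card := card_pos.2 hAne
    have hcu : (W ∪ A).card = W.card + A.card := card_union_of_disjoint hA.symm
    by_cases hcase : 2 * (W ∪ A).card ≤ n
    · have hne : W ∪ A ≠ W := by
        intro h
        have := congrArg card h
        omega
      have h4 : (2 * H * (cut G W).card - W.card : ℤ) <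
        2 * H * (cut G (W ∪ A)).card - (W ∪ A).card := h3 A hcase hne
      have h5 : (2 * H * (cut G (W ∪ A)).card : ℤ) ≤ 2 * H * ((cut G W).card + b) := by
        refine mul_le_mul_of_nonneg_left ?_ (by positivity)
        exact_mod_cast hc1
      have h6 : ((W ∪ A).card : ℤ) = W.card + A.card := by exact_mod_cast hcu
      have h7 : (A.card : ℤ) ≤ 2 * H * b := by
        rw [h6] at h4
        linarith
      exact_mod_cast h7
    · have h4 : (A.card : ℤ) ≤ H * (cut G A).card := by exact_mod_cast hexp A hA2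
      have h5 : (H * (cut G A).card : ℤ) ≤ H * ((cut G W).card + b) := by
        refine mul_le_mul_of_nonneg_left ?_ (by positivity)
        exact_mod_cast hc2
      have h6 : (W.card : ℤ) ≤ H * (cut G W).card := by exact_mod_cast hexp W h1
      have h7 : (W.card : ℤ) ≤ 2 * H * (cut G W).card - W.card := hpos W h1
      have h8' : (n : ℤ) < 2 * (W.card + A.card) := by
        rw [hcu] at hcase
        push Not at hcase
        exact_mod_cast hcase
      have h9 : (2 * H * (cut G W).card - W.card : ℤ) ≤ 2 * H * Δ * m := h2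
      have h10 : (A.card : ℤ) ≤ 2 * H * b := by
        have h11 : (0 : ℤ) ≤ H * b := by positivity
        nlinarith
      exact_mod_cast h10


end

/-- **two closure operators** -/
theorem exists_cloM {V E : Type} [Fintype V] [Fintype E] [DecidableEq V] [DecidableEq E]
    (G : Gph V E) {Δ H m : ℕ} (hdeg : G.Deg Δ) (hH : 1 ≤ H) (hΔ : 1 ≤ Δ)
    (hexp : Expd G H) (hm : 256 * H * Δ * m ≤ Fintype.card V) :
    Nonempty (CloM G (4 * H * Δ) (4 * H) m) := by
  have hk : 256 * H * Δ * m = 256 * (H * Δ * m) := by ring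
  have hmk : m ≤ H * Δ * m := Nat.le_mul_of_pos_left m (Nat.mul_pos hH hΔ)
  obtain ⟨c1, -, hb1⟩ := exists_clo2 G (m := m) hdeg hH hΔ hexp (by
    have : 16 * H * Δ * m = 16 * (H * Δ * m) := by ring
    omega)
  obtain ⟨c2, ha2, -⟩ := exists_clo2 G (H := 2 * H) (m := 4 * m) hdeg (by omega) hΔ
    (fun A hA => (hexp A hA).trans (Nat.mul_le_mul_right _ (by omega))) (by
    have : 16 * (2 * H) * Δ * (4 * m) = 128 * (H * Δ * m) := by ring
    omega)
  set n := Fintype.card V with hn
  have hnz : (256 * (H * Δ * m) : ℤ) ≤ n := by exact_mod_cast (hk ▸ hm)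
  have hmz : (m : ℤ) ≤ H * Δ * m := by exact_mod_cast hmk
  have hpz : (0 : ℤ) ≤ H * Δ * m := by positivity
  -- facts for strongly closed sets
  have key : ∀ U, c1.cl U = U → U ≠ univ → 2 * U.card ≤ n ∧ (U.card : ℤ) ≤ 2 * (H * Δ * m) ∧
      (4 * H * (cut G U).card - U.card : ℤ) ≤ 6 * (H * Δ * m) ∧
      ∀ M : Finset V, U ⊆ M → 2 * M.card ≤ n → M ≠ U →
        (2 * H * (cut G U).card - U.card : ℤ) < 2 * H * (cut G M).card - M.card := by
    intro U hU hne
    obtain ⟨h1, h2, h3⟩ := hb1 U hU hne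
    have h4 : (U.card : ℤ) ≤ H * (cut G U).card := by exact_mod_cast hexp U h1
    refine ⟨h1, by nlinarith, by nlinarith, fun M hM hM2 hMU => ?_⟩
    have h5 : U ∪ M = M := union_eq_right.2 hM
    have h6 := h3 M (by rw [h5]; exact hM2) (by rw [h5]; exact hMU)
    rwa [h5] at h6
  refine ⟨{ cl := c2.cl, ext := c2.ext, mono := c2.mono, idem := c2.idem, empty := c2.empty,
            card := ?_, small := c2.small, exp := ?_, cL := c1.cl, extL := c1.ext,
            monoL := c1.mono, idemL := c1.idem, cardL := ?_, clL := ?_, incr := ?_ }⟩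
  · intro U hU
    have h := c2.card U (by omega)
    have h2 : 2 * (2 * H) * Δ * U.card = 4 * H * Δ * U.card := by ring
    omega
  · intro W h1 h2 A h3 h4
    have h := c2.exp W h1 h2 A h3 h4
    have h5 : 2 * (2 * H) * (btw G ∅ A (univ \ (W ∪ A))).card =
      4 * H * (btw G ∅ A (univ \ (W ∪ A))).card := by ring
    omega
  · intro U hU
    refine (c1.card U hU).trans (Nat.mul_le_mul_right _ (Nat.mul_le_mul_right _ (by omega)))
  · intro U hU
    by_cases hu : U = univ
    · subst hu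
      exact Subset.antisymm (subset_univ _) (c2.ext _)
    · obtain ⟨h1, h2, h3, h4⟩ := key U hU hu
      obtain ⟨h5, h6⟩ := ha2 U h1 (by push_cast; nlinarith)
      by_contra hne
      have h7 := h4 (c2.cl U) (c2.ext U) h5 hne
      have h8 : (U.card : ℤ) ≤ (c2.cl U).card := by exact_mod_cast card_le_card (c2.ext U)
      push_cast at h6
      nlinarith
  · intro U hU X hX
    by_cases hu : U = univ
    · subst hu
      have : c2.cl (univ ∪ X) \ (univ : Finset V) = ∅ := sdiff_eq_empty_iff_subset.2 (subset_univ _)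
      rw [this]
      simp
    · obtain ⟨h1, h2, h3, h4⟩ := key U hU hu
      have hXz : (X.card : ℤ) ≤ m := by exact_mod_cast hX
      have hcu : (cut G (U ∪ X)).card ≤ (cut G U).card + Δ * X.card := by
        have e1 := cut_submod G U X
        have e2 := card_cut_le G hdeg X
        omega
      have hcuz : ((cut G (U ∪ X)).card : ℤ) ≤ (cut G U).card + Δ * X.card := by
        exact_mod_cast hcu
      have hUX : (U ∪ X).card ≤ U.card + X.card := card_union_le _ _
      have hUX2 : U.card ≤ (U ∪ X).card := card_le_card subset_union_left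
      have hUXz : (U.card : ℤ) ≤ (U ∪ X).card := by exact_mod_cast hUX2
      have hc4 : (4 * H * (cut G (U ∪ X)).card : ℤ) ≤
          4 * H * ((cut G U).card + Δ * X.card) :=
        mul_le_mul_of_nonneg_left hcuz (by positivity)
      have hX4 : (H * Δ * X.card : ℤ) ≤ H * Δ * m :=
        mul_le_mul_of_nonneg_left hXz (by positivity)
      have hP2 : (4 * H * (cut G (U ∪ X)).card - (U ∪ X).card : ℤ) ≤
          (4 * H * (cut G U).card - U.card) + 4 * (H * Δ * X.card) := by
        have : (4 * H * ((cut G U).card + Δ * X.card) : ℤ) =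
          4 * H * (cut G U).card + 4 * (H * Δ * X.card) := by ring
        linarith
      have hcd : 2 * (U ∪ X).card ≤ n := by
        have e1 : (2 * (U ∪ X).card : ℤ) ≤ n := by
          have e2 : ((U ∪ X).card : ℤ) ≤ U.card + X.card := by exact_mod_cast hUX
          linarith
        exact_mod_cast e1
      obtain ⟨h5, h6⟩ := ha2 (U ∪ X) hcd (by
        push_cast
        have e1 : (2 * (2 * (H : ℤ)) * Δ * (4 * m) : ℤ) = 16 * (H * Δ * m) := by ring
        have e2 : (2 * (2 * (H : ℤ)) * (cut G (U ∪ X)).card : ℤ) =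
          4 * H * (cut G (U ∪ X)).card := by ring
        rw [e1, e2]
        linarith)
      have hsub : U ⊆ c2.cl (U ∪ X) := subset_union_left.trans (c2.ext _)
      have h7 : (2 * H * (cut G U).card - U.card : ℤ) ≤
          2 * H * (cut G (c2.cl (U ∪ X))).card - (c2.cl (U ∪ X)).card := by
        by_cases hMU : c2.cl (U ∪ X) = U
        · rw [hMU]
        · exact (h4 _ hsub h5 hMU).le
      have h8 : (c2.cl (U ∪ X) \ U).card = (c2.cl (U ∪ X)).card - U.card :=
        card_sdiff_of_subset hsub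
      have h9 : U.card ≤ (c2.cl (U ∪ X)).card := card_le_card hsub
      have h10 : (((c2.cl (U ∪ X)).card : ℤ) - U.card) ≤ 4 * (H * Δ * X.card) := by
        push_cast at h6
        have e2 : (2 * (2 * (H : ℤ)) * (cut G (c2.cl (U ∪ X))).card : ℤ) =
          4 * H * (cut G (c2.cl (U ∪ X))).card := by ring
        have e3 : (2 * (2 * (H : ℤ)) * (cut G (U ∪ X)).card : ℤ) =
          4 * H * (cut G (U ∪ X)).card := by ring
        rw [e2, e3] at h6
        linarith
      have h11 : (((c2.cl (U ∪ X) \ U).card : ℕ) : ℤ) ≤ 4 * H * Δ * X.card := by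
        rw [h8, Nat.cast_sub h9]
        linarith
      exact_mod_cast h11

end FrU
end

section

/-!
Closure operators of a product.

Let `CP : CloM P K H m`, `CY : CloM Y K' H' m'`, `c = |Λ|`, and let `A` be such that `c ≤ A (m' + 1)`,
`K' m' < c / 2`.  Put `G = prodG P Y`.  Define
`full0 U = {v | CY.cl (fibU U v) = univ}`, `F U = CP.cl (full0 U)`,
`clP U = {(v, l) | v ∈ F U ∨ l ∈ CY.cl (fibU U v)}`, and `clLP` in the same way with `cL` in the place
of `cl` (both times).

PROOFS.  `fibU (clP U) v` is `univ` if `v ∈ F U` and `CY.cl (fibU U v)` otherwise (in the latter case it is not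
`univ`, since `full0 U ⊆ F U`).  So `fullU (clP U) = F U`, and `clP U` is `PClosed` (`CY.cl univ = univ`
by ext).  Conversely if `U` is `PClosed` then `full0 U = fullU U`, `F U = fullU U`, `clP U = U`.  So:
ext, mono, idem, empty (`CY.cl ∅ = ∅ ≠ univ` as `0 < c`).
card: if `|fibU U v| ≤ m'` then `|CY.cl (fibU U v)| ≤ K' |fibU U v| ≤ K' m' < c`, so `v ∉ full0 U`; hence
`(m' + 1) |full0 U| ≤ |U|` (as `∑_v |fibU U v| = |U|`) and `|full0 U| ≤ m`, so
`c |F U| ≤ A (m' + 1) K |full0 U| ≤ A K |U|`.  For `v ∉ F U`: `|CY.cl (fibU U v)| ≤ K' |fibU U v|` if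
`|fibU U v| ≤ m'`, and `≤ c ≤ A |fibU U v|` otherwise.  Together `|clP U| ≤ (A K + A + K') |U|`.  The same
for `clLP`.
clL: let `clLP U = U`.  As above for `cL`: `CY.cL (fibU U v) = fibU U v` for all `v` and
`CP.cL (fullU U) = fullU U`; so both are weakly closed by `clL`, and `clP U = U`.
incr: let `clLP U = U`, `|X| ≤ m`, and let `Xv = fibU X v`.  If `v ∉ fullU U` then `fibU U v` is closed and
`≠ univ`, so `8 |fibU U v| ≤ c` (`small`).  If moreover `|Xv| ≤ m'` then
`|CY.cl (fibU U v ∪ Xv) \ fibU U v| ≤ K' |Xv| ≤ K' m' < c / 2`, so this closure is not `univ`.  So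
`full0 (U ∪ X) = fullU U ∪ N` where `(m' + 1) |N| ≤ |X|`, and `CP.cl (fullU U ∪ N) \ fullU U` has at most
`K |N|` elements (`incr` for `CP`; `|N| ≤ m`).  The new vertices over this set are at most
`c K |N| ≤ A K |X|`; over the other `v`: at most `K' |Xv|` if `|Xv| ≤ m'`, at most `c ≤ A |Xv|` if
`|Xv| > m'`.
-/

set_option linter.unusedSectionVars false

namespace FrU

open Finset Fr56 FrC FrG FrT
open scoped Classical

/-! ### auxiliary lemmas -/

section
variable {V Λ : Type} [Fintype V] [DecidableEq V] [Fintype Λ] [DecidableEq Λ]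

private noncomputable def full0 (f : Finset Λ → Finset Λ) (U : Finset (V × Λ)) : Finset V :=
  univ.filter fun v => f (fibU U v) = univ

private noncomputable def clPr (g : Finset V → Finset V) (f : Finset Λ → Finset Λ)
    (U : Finset (V × Λ)) : Finset (V × Λ) :=
  univ.filter fun p => p.1 ∈ g (full0 f U) ∨ p.2 ∈ f (fibU U p.1)

private theorem mem_fibU {U : Finset (V × Λ)} {v : V} {l : Λ} : l ∈ fibU U v ↔ (v, l) ∈ U := by
  unfold fibU
  simp

private theorem mem_fullU {U : Finset (V × Λ)} {v : V} : v ∈ fullU U ↔ fibU U v = univ := by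
  unfold fullU
  simp

private theorem mem_full0 {f : Finset Λ → Finset Λ} {U : Finset (V × Λ)} {v : V} :
    v ∈ full0 f U ↔ f (fibU U v) = univ := by
  unfold full0
  simp

private theorem mem_clPr {g : Finset V → Finset V} {f : Finset Λ → Finset Λ}
    {U : Finset (V × Λ)} {v : V} {l : Λ} :
    (v, l) ∈ clPr g f U ↔ v ∈ g (full0 f U) ∨ l ∈ f (fibU U v) := by
  unfold clPr
  simp

private theorem fibU_mono {U U' : Finset (V × Λ)} (h : U ⊆ U') (v : V) :
    fibU U v ⊆ fibU U' v := fun _ hl => mem_fibU.2 (h (mem_fibU.1 hl))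

private theorem card_eq_fib (U : Finset (V × Λ)) : U.card = ∑ v, (fibU U v).card := by
  rw [Finset.card_eq_sum_card_fiberwise (f := fun p : V × Λ => p.1) (t := univ)
    (fun _ _ => mem_univ _)]
  refine Finset.sum_congr rfl fun v _ => ?_
  have : (U.filter fun p => p.1 = v) = (fibU U v).map ⟨fun l => (v, l), fun a b h => by
      simpa using h⟩ := by
    ext ⟨a, l⟩
    simp only [mem_filter, mem_map, Function.Embedding.coeFn_mk, mem_fibU, Prod.mk.injEq]
    constructor
    · rintro ⟨h1, h2⟩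
      exact ⟨l, h2 ▸ h1, h2.symm, rfl⟩
    · rintro ⟨b, h1, h2, h3⟩
      subst h2
      subst h3
      exact ⟨h1, rfl⟩
  rw [this, card_map]

variable {g : Finset V → Finset V} {f : Finset Λ → Finset Λ}

private theorem f_univ (hf : ∀ W, W ⊆ f W) : f univ = univ :=
  Finset.eq_univ_of_forall fun l => hf _ (mem_univ l)

private theorem fib_clPr_of_mem {U : Finset (V × Λ)} {v : V} (h : v ∈ g (full0 f U)) :
    fibU (clPr g f U) v = univ :=
  Finset.eq_univ_of_forall fun _ => mem_fibU.2 (mem_clPr.2 (Or.inl h))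

private theorem fib_clPr_of_not_mem {U : Finset (V × Λ)} {v : V} (h : v ∉ g (full0 f U)) :
    fibU (clPr g f U) v = f (fibU U v) := by
  ext l
  rw [mem_fibU, mem_clPr]
  constructor
  · rintro (h1 | h1)
    · exact absurd h1 h
    · exact h1
  · exact Or.inr

private theorem full0_clPr (hg : ∀ W, W ⊆ g W) (hf : ∀ W, W ⊆ f W) (hfi : ∀ W, f (f W) = f W)
    (U : Finset (V × Λ)) : full0 f (clPr g f U) = g (full0 f U) := by
  ext v
  rw [mem_full0]
  by_cases h : v ∈ g (full0 f U)
  · rw [fib_clPr_of_mem h, f_univ hf]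
    simp [h]
  · rw [fib_clPr_of_not_mem h, hfi]
    constructor
    · intro h1
      exact hg _ (mem_full0.2 h1)
    · intro h1
      exact absurd h1 h

private theorem fullU_clPr (hg : ∀ W, W ⊆ g W)
    (U : Finset (V × Λ)) : fullU (clPr g f U) = g (full0 f U) := by
  ext v
  rw [mem_fullU]
  by_cases h : v ∈ g (full0 f U)
  · rw [fib_clPr_of_mem h]
    simp [h]
  · rw [fib_clPr_of_not_mem h]
    constructor
    · intro h1
      exact hg _ (mem_full0.2 h1)
    · intro h1
      exact absurd h1 h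

private theorem clPr_ext (hf : ∀ W, W ⊆ f W) (U : Finset (V × Λ)) : U ⊆ clPr g f U := by
  rintro ⟨v, l⟩ h
  exact mem_clPr.2 (Or.inr (hf _ (mem_fibU.2 h)))

private theorem full0_mono (hf : ∀ W W', W ⊆ W' → f W ⊆ f W') {U U' : Finset (V × Λ)}
    (h : U ⊆ U') : full0 f U ⊆ full0 f U' := by
  intro v hv
  rw [mem_full0] at hv ⊢
  refine Finset.eq_univ_of_forall fun l => ?_
  have h1 := hf _ _ (fibU_mono h v)
  rw [hv] at h1
  exact h1 (mem_univ l)

private theorem clPr_mono (hg : ∀ W W', W ⊆ W' → g W ⊆ g W') (hf : ∀ W W', W ⊆ W' → f W ⊆ f W')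
    {U U' : Finset (V × Λ)} (h : U ⊆ U') : clPr g f U ⊆ clPr g f U' := by
  rintro ⟨v, l⟩ hv
  rw [mem_clPr] at hv ⊢
  rcases hv with hv | hv
  · exact Or.inl (hg _ _ (full0_mono hf h) hv)
  · exact Or.inr (hf _ _ (fibU_mono h v) hv)

private theorem clPr_idem (hg : ∀ W, W ⊆ g W) (hgi : ∀ W, g (g W) = g W) (hf : ∀ W, W ⊆ f W)
    (hfi : ∀ W, f (f W) = f W) (U : Finset (V × Λ)) :
    clPr g f (clPr g f U) = clPr g f U := by
  ext ⟨v, l⟩
  rw [mem_clPr, mem_clPr, full0_clPr hg hf hfi, hgi]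
  by_cases h : v ∈ g (full0 f U)
  · simp [h]
  · rw [fib_clPr_of_not_mem h, hfi]

private theorem fixed_fib (hf : ∀ W, W ⊆ f W)
    {U : Finset (V × Λ)} (hU : clPr g f U = U) (v : V) : f (fibU U v) = fibU U v := by
  by_cases h : v ∈ g (full0 f U)
  · have h1 := fib_clPr_of_mem h
    rw [hU] at h1
    rw [h1, f_univ hf]
  · have h1 := fib_clPr_of_not_mem h
    rw [hU] at h1
    exact h1.symm

private theorem fixed_full (hg : ∀ W, W ⊆ g W) (hgi : ∀ W, g (g W) = g W)
    {U : Finset (V × Λ)} (hU : clPr g f U = U) : g (fullU U) = fullU U := by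
  have h1 := fullU_clPr (f := f) hg U
  rw [hU] at h1
  rw [h1, hgi]

private theorem card_sum_bound {A m' K' : ℕ} (hA : Fintype.card Λ ≤ A * (m' + 1)) {a b : ℕ}
    (hb : b ≤ Fintype.card Λ) (h : a ≤ m' → b ≤ K' * a) : b ≤ (A + K') * a := by
  rcases Nat.lt_or_ge m' a with h1 | h1
  · calc b ≤ A * (m' + 1) := hb.trans hA
      _ ≤ A * a := Nat.mul_le_mul_left _ h1
      _ ≤ (A + K') * a := Nat.mul_le_mul_right _ (Nat.le_add_right _ _)
  · exact (h h1).trans (Nat.mul_le_mul_right _ (Nat.le_add_left _ _))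

private theorem clPr_card {K m K' m' A : ℕ}
    (hgc : ∀ W : Finset V, W.card ≤ m → (g W).card ≤ K * W.card)
    (hfc : ∀ W : Finset Λ, W.card ≤ m' → (f W).card ≤ K' * W.card)
    (hA : Fintype.card Λ ≤ A * (m' + 1))
    (hK : 2 * (K' * m') < Fintype.card Λ) {U : Finset (V × Λ)} (hU : U.card ≤ m) :
    (clPr g f U).card ≤ (A * K + A + K') * U.card := by
  have h0 : (m' + 1) * (full0 f U).card ≤ U.card := by
    rw [card_eq_fib U, mul_comm]
    calc (full0 f U).card * (m' + 1) = ∑ v ∈ full0 f U, (m' + 1) := by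
          rw [Finset.sum_const, smul_eq_mul]
      _ ≤ ∑ v ∈ full0 f U, (fibU U v).card := by
          refine Finset.sum_le_sum fun v hv => ?_
          rw [mem_full0] at hv
          by_contra hcon
          push Not at hcon
          have h1 : (fibU U v).card ≤ m' := by omega
          have h2 := hfc _ h1
          rw [hv, card_univ] at h2
          have h3 : K' * (fibU U v).card ≤ K' * m' := Nat.mul_le_mul_left _ h1
          omega
      _ ≤ ∑ v, (fibU U v).card :=
          Finset.sum_le_sum_of_subset (subset_univ _)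
  have h1 : (full0 f U).card ≤ m := by
    refine le_trans ?_ (h0.trans hU)
    exact Nat.le_mul_of_pos_left _ (Nat.succ_pos _)
  have h2 : Fintype.card Λ * (g (full0 f U)).card ≤ A * K * U.card := by
    calc Fintype.card Λ * (g (full0 f U)).card
        ≤ (A * (m' + 1)) * (K * (full0 f U).card) := Nat.mul_le_mul hA (hgc _ h1)
      _ = A * K * ((m' + 1) * (full0 f U).card) := by ring
      _ ≤ A * K * U.card := Nat.mul_le_mul_left _ h0
  have h3 : (clPr g f U).card ≤
      ∑ v, ((if v ∈ g (full0 f U) then Fintype.card Λ else 0) +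
        (A + K') * (fibU U v).card) := by
    rw [card_eq_fib (clPr g f U)]
    refine Finset.sum_le_sum fun v _ => ?_
    split_ifs with h
    · exact le_trans (card_le_univ _) (Nat.le_add_right _ _)
    · rw [fib_clPr_of_not_mem h, zero_add]
      exact card_sum_bound hA (card_le_univ _) (hfc _)
  refine h3.trans ?_
  rw [Finset.sum_add_distrib, ← Finset.mul_sum, ← card_eq_fib U, Finset.sum_ite_mem, univ_inter,
    Finset.sum_const, smul_eq_mul, mul_comm (card _)]
  calc Fintype.card Λ * (g (full0 f U)).card + (A + K') * U.card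
      ≤ A * K * U.card + (A + K') * U.card := Nat.add_le_add_right h2 _
    _ = (A * K + A + K') * U.card := by ring

end

section
variable {V E Λ F : Type} [Fintype V] [Fintype E] [DecidableEq V] [DecidableEq E]
  [Fintype Λ] [Fintype F] [DecidableEq Λ] [DecidableEq F]
  {P : Gph V E} {Y : Gph Λ F} {K H m K' H' m' : ℕ}

/-- **closure operators of a product** -/
theorem exists_cloP (CP : CloM P K H m) (CY : CloM Y K' H' m') {A : ℕ}
    (hc : 0 < Fintype.card Λ) (hA : Fintype.card Λ ≤ A * (m' + 1))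
    (hK : 2 * (K' * m') < Fintype.card Λ) :
    ∃ (cl cL : Finset (V × Λ) → Finset (V × Λ)),
      (∀ U, U ⊆ cl U) ∧ (∀ U U', U ⊆ U' → cl U ⊆ cl U') ∧ (∀ U, cl (cl U) = cl U) ∧ cl ∅ = ∅ ∧
      (∀ U, U.card ≤ m → (cl U).card ≤ (A * K + A + K') * U.card) ∧
      (∀ U, cl U = U → PClosed CP.toClo CY.toClo U) ∧
      (∀ U, U ⊆ cL U) ∧ (∀ U U', U ⊆ U' → cL U ⊆ cL U') ∧ (∀ U, cL (cL U) = cL U) ∧
      (∀ U, U.card ≤ m → (cL U).card ≤ (A * K + A + K') * U.card) ∧
      (∀ U, cL U = U → cl U = U) ∧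
      (∀ U, cL U = U → ∀ X : Finset (V × Λ), X.card ≤ m →
        (cl (U ∪ X) \ U).card ≤ (A * K + A + K') * X.card) := by
  refine ⟨clPr CP.cl CY.cl, clPr CP.cL CY.cL, clPr_ext CY.ext, fun U U' h =>
    clPr_mono CP.mono CY.mono h, clPr_idem CP.ext CP.idem CY.ext CY.idem, ?_,
    fun U hU => clPr_card CP.card CY.card hA hK hU, ?_, clPr_ext CY.extL, fun U U' h =>
    clPr_mono CP.monoL CY.monoL h, clPr_idem CP.extL CP.idemL CY.extL CY.idemL,
    fun U hU => clPr_card CP.cardL CY.cardL hA hK hU, ?_, ?_⟩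
  · -- empty
    have h1 : ∀ v : V, fibU (∅ : Finset (V × Λ)) v = ∅ := by
      intro v
      ext l
      rw [mem_fibU]
      simp
    have hne : (∅ : Finset Λ) ≠ univ := by
      intro h
      rw [← card_univ, ← h, card_empty] at hc
      exact lt_irrefl _ hc
    have h2 : full0 CY.cl (∅ : Finset (V × Λ)) = ∅ := by
      ext v
      rw [mem_full0, h1, CY.empty]
      simp [hne]
    ext ⟨v, l⟩
    rw [mem_clPr, h2, CP.empty, h1, CY.empty]
    simp
  · -- closed sets
    intro U hU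
    exact ⟨fixed_full CP.ext CP.idem hU, fixed_fib CY.ext hU⟩
  · -- strongly closed sets are closed
    intro U hU
    have h1 : ∀ v, CY.cl (fibU U v) = fibU U v := fun v =>
      CY.clL _ (fixed_fib CY.extL hU v)
    have h2 : CP.cl (fullU U) = fullU U := CP.clL _ (fixed_full CP.extL CP.idemL hU)
    have h3 : full0 CY.cl U = fullU U := by
      ext v
      rw [mem_full0, mem_fullU, h1]
    ext ⟨v, l⟩
    rw [mem_clPr, h3, h2, h1, mem_fullU, mem_fibU]
    constructor
    · rintro (h | h)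
      · rw [← mem_fibU, h]
        exact mem_univ l
      · exact h
    · exact Or.inr
  · -- increments
    intro U hU X hX
    have h1 : ∀ v, CY.cL (fibU U v) = fibU U v := fixed_fib CY.extL hU
    have h2 : CP.cL (fullU U) = fullU U := fixed_full CP.extL CP.idemL hU
    have hfib : ∀ v, fibU (U ∪ X) v = fibU U v ∪ fibU X v := by
      intro v
      ext l
      rw [mem_fibU, mem_union, mem_union, mem_fibU, mem_fibU]
    set N : Finset V := full0 CY.cl (U ∪ X) \ fullU U with hN
    have hNv : ∀ v ∈ N, m' + 1 ≤ (fibU X v).card := by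
      intro v hv
      rw [hN, mem_sdiff, mem_full0, mem_fullU, hfib] at hv
      by_contra hcon
      push Not at hcon
      have h3 : (fibU X v).card ≤ m' := by omega
      have h4 := CY.incr _ (h1 v) _ h3
      rw [hv.1] at h4
      have h5 := CY.small _ (CY.clL _ (h1 v)) hv.2
      have h6 : (univ \ fibU U v : Finset Λ).card = Fintype.card Λ - (fibU U v).card := by
        rw [card_sdiff_of_subset (subset_univ _), card_univ]
      have h7 : K' * (fibU X v).card ≤ K' * m' := Nat.mul_le_mul_left _ h3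
      omega
    have hNc : (m' + 1) * N.card ≤ X.card := by
      rw [card_eq_fib X, mul_comm]
      calc N.card * (m' + 1) = ∑ v ∈ N, (m' + 1) := by
            rw [Finset.sum_const, smul_eq_mul]
        _ ≤ ∑ v ∈ N, (fibU X v).card := Finset.sum_le_sum hNv
        _ ≤ ∑ v, (fibU X v).card := Finset.sum_le_sum_of_subset (subset_univ _)
    have hNm : N.card ≤ m :=
      le_trans (Nat.le_mul_of_pos_left _ (Nat.succ_pos _)) (hNc.trans hX)
    set G' : Finset V := CP.cl (fullU U ∪ N) with hG'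
    have hsub : CP.cl (full0 CY.cl (U ∪ X)) ⊆ G' := by
      refine CP.mono _ _ fun v hv => ?_
      by_cases h : v ∈ fullU U
      · exact mem_union_left _ h
      · exact mem_union_right _ (mem_sdiff.2 ⟨hv, h⟩)
    have hinc : (G' \ fullU U).card ≤ K * N.card := CP.incr _ h2 _ hNm
    have hmain : (clPr CP.cl CY.cl (U ∪ X) \ U).card ≤
        ∑ v, ((if v ∈ G' \ fullU U then Fintype.card Λ else 0) +
          (A + K') * (fibU X v).card) := by
      rw [card_eq_fib (clPr CP.cl CY.cl (U ∪ X) \ U)]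
      refine Finset.sum_le_sum fun v _ => ?_
      have hd : fibU (clPr CP.cl CY.cl (U ∪ X) \ U) v =
          fibU (clPr CP.cl CY.cl (U ∪ X)) v \ fibU U v := by
        ext l
        rw [mem_fibU, mem_sdiff, mem_sdiff, mem_fibU, mem_fibU]
      rw [hd]
      split_ifs with h
      · exact le_trans (card_le_univ _) (Nat.le_add_right _ _)
      · rw [zero_add]
        by_cases hv : v ∈ fullU U
        · rw [mem_fullU.1 hv, Finset.sdiff_eq_empty_iff_subset.2 (subset_univ _), card_empty]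
          exact Nat.zero_le _
        · have hv' : v ∉ CP.cl (full0 CY.cl (U ∪ X)) := fun h3 =>
            h (mem_sdiff.2 ⟨hsub h3, hv⟩)
          rw [fib_clPr_of_not_mem hv', hfib]
          exact card_sum_bound hA (card_le_univ _) (CY.incr _ (h1 v) _)
    refine hmain.trans ?_
    rw [Finset.sum_add_distrib, ← Finset.mul_sum, ← card_eq_fib X, Finset.sum_ite_mem, univ_inter,
      Finset.sum_const, smul_eq_mul, mul_comm (card _)]
    have h2' : Fintype.card Λ * (G' \ fullU U).card ≤ A * K * X.card := by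
      calc Fintype.card Λ * (G' \ fullU U).card
          ≤ (A * (m' + 1)) * (K * N.card) := Nat.mul_le_mul hA hinc
        _ = A * K * ((m' + 1) * N.card) := by ring
        _ ≤ A * K * X.card := Nat.mul_le_mul_left _ hNc
    calc Fintype.card Λ * (G' \ fullU U).card + (A + K') * X.card
        ≤ A * K * X.card + (A + K') * X.card := Nat.add_le_add_right h2' _
      _ = (A * K + A + K') * X.card := by ring

/-- degrees in a product -/
theorem deg_prod {Δ Δ' : ℕ} (h : P.Deg Δ) (h' : Y.Deg Δ') : (prodG P Y).Deg (Δ + Δ') := by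
  rintro ⟨v, l⟩
  have hsub : (prodG P Y).star (v, l) ⊆
      (P.star v).image (fun e => (Sum.inl (e, l) : (E × Λ) ⊕ (V × F))) ∪
        (Y.star l).image (fun e => (Sum.inr (v, e) : (E × Λ) ⊕ (V × F))) := by
    intro x hx
    unfold Gph.star at hx
    rw [mem_filter] at hx
    rcases x with ⟨e, l'⟩ | ⟨v', e⟩
    · refine mem_union_left _ (mem_image.2 ⟨e, ?_, ?_⟩)
      · unfold Gph.star
        rw [mem_filter]
        refine ⟨mem_univ _, ?_⟩
        rcases hx.2 with h1 | h1
        · exact Or.inl (congrArg Prod.fst h1)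
        · exact Or.inr (congrArg Prod.fst h1)
      · have h2 : l' = l := by
          rcases hx.2 with h1 | h1
          · exact congrArg Prod.snd h1
          · exact congrArg Prod.snd h1
        rw [h2]
    · refine mem_union_right _ (mem_image.2 ⟨e, ?_, ?_⟩)
      · unfold Gph.star
        rw [mem_filter]
        refine ⟨mem_univ _, ?_⟩
        rcases hx.2 with h1 | h1
        · exact Or.inl (congrArg Prod.snd h1)
        · exact Or.inr (congrArg Prod.snd h1)
      · have h2 : v' = v := by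
          rcases hx.2 with h1 | h1
          · exact congrArg Prod.fst h1
          · exact congrArg Prod.fst h1
        rw [h2]
  refine (card_le_card hsub).trans ((card_union_le _ _).trans ?_)
  exact Nat.add_le_add (card_image_le.trans (h v)) (card_image_le.trans (h' l))

theorem noLoop_prod (h : P.NoLoop) (h' : Y.NoLoop) : (prodG P Y).NoLoop := by
  rintro (⟨e, l⟩ | ⟨v, e⟩)
  · intro h1
    exact h e (congrArg Prod.fst h1)
  · intro h1
    exact h' e (congrArg Prod.snd h1)

end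

end FrU
end

section

/-!
Frames and valuations of an embedding of graphs.

Let `Em : Emb G G' c`; `prj '' W` is `W.image Em.prj`, `fibE Em U = {v' | prj v' ∈ U}`.

PROOFS.
`embFrame`: `anti`: the image is monotone.  `disj`: `t ∈ W` gives `prj t ∈ W.image prj`.  `ne`: for `|W| ≤ m` the image
has at most `m` elements, let `s` be free for it; then `base s` is free: `prj (base s) = s`.  `conn`: for
`t = base (prj t)`, `t' = base (prj t')` let `γ` be a path of `Fr` from `prj t` to `prj t'` avoiding the image;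
`Em.ext γ` has the boundary `pt t + pt t'` (`bd_ext`: at `v'` it is `G.bd γ (prj v')` if `v' = base (prj v')`,
otherwise `0`; compare values at `v'`: `v' = t` iff `v' = base (prj v')` and `prj v' = prj t`), and it vanishes
on the edges touching `W` by `ext_zero` with `U = W.image prj`.
`embSFrame`: the same with `SF.conn`.
`ok_emb`: as for `conn`; `(fibE Em U).image prj ⊆ U`, `Fr.anti`.
`agree_emb`: `Em.ext y = Em.ext y'` on the edges touching `fibE Em U`: apply `ext_zero` to `y + y'` (zero on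
`G.inc U`) and `ext_add`; `ZMod 2`.
`card_fibE`: `fib_card`.
`dec_emb`: induction on the tree: a node `N` of the tree in `G'` is simulated by `N.image prj`.

`kills_emb`.  Given the data for `embFrame`, `Φ = {f | (∃ A ∈ Ls, f ∈ A.subs) ∧ lev B f ≤ i0}`, a valuation `S'` with
`cap'`, `(c ρ) (T + ℓ) ≤ cap' ≤ Fr.m`.  Define `S : Valn Fr v0 X Φ (cap' / c)` by
`S.Q f b U y = S'.Q f b (fibE Em U) (Em.ext y)`.  Laws: from those of `S'` with `card_fibE`
(`|fibE U| ≤ c |U| ≤ c (cap' / c) ≤ cap'`), `agree_emb`, `ok_emb`.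
`CDcds S Ls T ℓ`: for `A ∈ Ls`, `Ok ∅ y`: `Ok ∅ (ext y)`, the tree of `S'` at `(∅, ext y)`, simulated by `dec_emb` (outer
tree), and at its leaf `(U, y')` with `U = W'.image prj` the inner trees `Dec (S'.Q f) ℓ W' (ext y')` are
simulated by `dec_emb` again (from `(W'.image prj, y')`); at a leaf of the inner tree `S'.Q f b W'' (ext y'')`
with `W'' ⊆ fibE (W''.image prj)`, `S'.mono` gives `S'.Q f b (fibE ..) (ext y'')` (cardinality
`≤ c (T + ℓ) ≤ cap'`, `Ok` by `ok_emb`; `dec_map`).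
The axioms: `AndOf.mono`; for `f ∈ F.subs`, `F ∈ Ls`, `lev B f ≤ i0`, `S'.True' (T + ℓ) f` we need `S.True' (T + ℓ) f`: let
`|U| ≤ T + ℓ`, `Ok U y`, `S'.Q f false (fibE U) (ext y)`.  The formula `f` is decided by `S'`: `dec_bind` of the
two trees gives `Dec (embFrame ..) .. (S'.Q f) (T + ℓ) ∅ x` for all `Ok ∅ x`; `Dec.run` (C/FrameA.lean) at
the revealed set `fibE U` (`Ok (fibE U) (ext y)`, `|fibE U| + (T + ℓ) ≤ (c + 1) (T + ℓ) ≤ c ρ (T + ℓ) ≤ Fr.m` as
`2 ≤ ρ`, `1 ≤ c`) gives `W'`, `|W'| ≤ T + ℓ`, `y'` that agrees with `ext y` on `fibE U`, `Ok (fibE U ∪ W') y'`,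
`S'.Q f b W' y'`.  By `S'.True' (T + ℓ) f` `b = true`; by `S'.mono` both values hold at `fibE U ∪ W'`, which
contradicts `S'.uniq`.
Finally apply `hkill` to `S`: `ρ (T + ℓ) ≤ cap' / c` (`Nat.le_div_iff_mul_le`).
-/

set_option linter.unusedSectionVars false

namespace FrU

open Finset Fr56 FrC FrG FrT
open scoped Classical

section
variable {V E V' E' : Type} [Fintype V] [Fintype E] [DecidableEq V] [Fintype V'] [Fintype E']
  [DecidableEq V'] {G : Gph V E} {G' : Gph V' E'} {c : ℕ} (Fr : Frame G) (v0 : V)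
  (Em : Emb G G' c)

private theorem pt_app {V : Type} [DecidableEq V] (v u : V) :
    FrC.pt v u = if u = v then 1 else 0 := by
  simp only [FrC.pt, Pi.single_apply]

private theorem emb_eq_base {t v' : V'} (ht : t = Em.base (Em.prj t)) :
    v' = t ↔ v' = Em.base (Em.prj v') ∧ Em.prj v' = Em.prj t := by
  constructor
  · rintro rfl
    exact ⟨ht, rfl⟩
  · rintro ⟨h1, h2⟩
    rw [h1, h2, ← ht]

/-- the boundary of the extension of a path -/
private theorem emb_bd {t t' : V'} (ht : t = Em.base (Em.prj t)) (ht' : t' = Em.base (Em.prj t'))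
    {γ : E → ZMod 2} (hγ : G.bd γ = pt (Em.prj t) + pt (Em.prj t')) :
    G'.bd (Em.ext γ) = pt t + pt t' := by
  funext v'
  rw [Em.bd_ext, hγ]
  simp only [Pi.add_apply, pt_app]
  by_cases hv : v' = Em.base (Em.prj v')
  · have h1 : v' = t ↔ Em.prj v' = Em.prj t :=
      (emb_eq_base Em ht).trans ⟨fun h => h.2, fun h => ⟨hv, h⟩⟩
    have h2 : v' = t' ↔ Em.prj v' = Em.prj t' :=
      (emb_eq_base Em ht').trans ⟨fun h => h.2, fun h => ⟨hv, h⟩⟩
    simp only [if_pos hv, h1, h2]
  · have h1 : ¬ v' = t := fun h => hv ((emb_eq_base Em ht).1 h).1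
    have h2 : ¬ v' = t' := fun h => hv ((emb_eq_base Em ht').1 h).1
    rw [if_neg hv, if_neg h1, if_neg h2, add_zero]

/-- the extension of a chain that vanishes near the projection of `W` vanishes near `W` -/
private theorem emb_zero {W : Finset V'} {γ : E → ZMod 2}
    (h0 : ∀ e ∈ G.inc (W.image Em.prj), γ e = 0) : ∀ e ∈ G'.inc W, Em.ext γ e = 0 := by
  rintro e (he | he)
  · exact Em.ext_zero γ _ h0 e (Or.inl (Finset.mem_image_of_mem _ he))
  · exact Em.ext_zero γ _ h0 e (Or.inr (Finset.mem_image_of_mem _ he))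

/-- the frame of an embedding: the free vertices are the base vertices of free vertices -/
def embFrame : Frame G' where
  m := Fr.m
  Free W t := t = Em.base (Em.prj t) ∧ Fr.Free (W.image Em.prj) (Em.prj t)
  anti := by
    rintro U U' t hU ⟨h1, h2⟩
    exact ⟨h1, Fr.anti (Finset.image_subset_image hU) h2⟩
  disj := by
    rintro U t ⟨_, h2⟩ ht
    exact Fr.disj h2 (Finset.mem_image_of_mem _ ht)
  ne := by
    intro U hU
    obtain ⟨s, hs⟩ := Fr.ne (U.image Em.prj) (Finset.card_image_le.trans hU)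
    exact ⟨Em.base s, by rw [Em.prj_base], by rw [Em.prj_base]; exact hs⟩
  conn := by
    rintro U t t' hU ⟨h1, h2⟩ ⟨h1', h2'⟩
    obtain ⟨γ, hγ, h0⟩ := Fr.conn _ _ _ (Finset.card_image_le.trans hU) h2 h2'
    exact ⟨Em.ext γ, emb_bd Em h1 h1' hγ, emb_zero Em h0⟩

/-- special vertices of an embedding -/
noncomputable def embSFrame [DecidableEq E'] {Fr : Frame G} (SF : SFrame Fr) :
    SFrame (embFrame Fr Em) where
  Γ := SF.Γ.image Em.ext
  SFree W t := t = Em.base (Em.prj t) ∧ SF.SFree (W.image Em.prj) (Em.prj t)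
  anti := by
    rintro U U' t hU ⟨h1, h2⟩
    exact ⟨h1, SF.anti (Finset.image_subset_image hU) h2⟩
  free := by
    rintro U t ⟨h1, h2⟩
    exact ⟨h1, SF.free h2⟩
  ne := by
    intro U hU
    obtain ⟨s, hs⟩ := SF.ne (U.image Em.prj) (Finset.card_image_le.trans hU)
    exact ⟨Em.base s, by rw [Em.prj_base], by rw [Em.prj_base]; exact hs⟩
  conn := by
    rintro U t t' hU ⟨h1, h2⟩ ⟨h1', h2'⟩
    obtain ⟨γ, hΓ, hγ, h0⟩ := SF.conn _ _ _ (Finset.card_image_le.trans hU) h2 h2'
    exact ⟨Em.ext γ, Finset.mem_image_of_mem _ hΓ, emb_bd Em h1 h1' hγ, emb_zero Em h0⟩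

/-- the vertices over `U` -/
def fibE (U : Finset V) : Finset V' := univ.filter fun v' => Em.prj v' ∈ U

theorem card_fibE (U : Finset V) : (fibE Em U).card ≤ c * U.card := by
  have h : fibE Em U ⊆ U.biUnion fun v => univ.filter fun v' => Em.prj v' = v := by
    intro v' hv'
    simp only [fibE, Finset.mem_filter, Finset.mem_univ, true_and] at hv'
    simp only [Finset.mem_biUnion, Finset.mem_filter, Finset.mem_univ, true_and]
    exact ⟨_, hv', rfl⟩
  refine (Finset.card_le_card h).trans ?_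
  rw [mul_comm]
  exact Finset.card_biUnion_le_card_mul _ _ _ fun v _ => Em.fib_card v

private theorem mem_fibE {U : Finset V} {v' : V'} : v' ∈ fibE Em U ↔ Em.prj v' ∈ U := by
  simp [fibE]

private theorem fibE_mono {U U' : Finset V} (h : U ⊆ U') : fibE Em U ⊆ fibE Em U' := fun _ hv =>
  (mem_fibE Em).2 (h ((mem_fibE Em).1 hv))

private theorem sub_fibE (W : Finset V') : W ⊆ fibE Em (W.image Em.prj) := fun _ hv =>
  (mem_fibE Em).2 (Finset.mem_image_of_mem _ hv)

private theorem image_fibE (U : Finset V) : (fibE Em U).image Em.prj ⊆ U := by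
  intro v hv
  obtain ⟨v', hv', rfl⟩ := Finset.mem_image.1 hv
  exact (mem_fibE Em).1 hv'

theorem ok_emb {U : Finset V} {y : E → ZMod 2} (h : Fr.Ok v0 U y) :
    (embFrame Fr Em).Ok (Em.base v0) (fibE Em U) (Em.ext y) := by
  obtain ⟨t, ht, hf⟩ := h
  have hb : ∀ v, Em.base v = Em.base (Em.prj (Em.base v)) := fun v => by rw [Em.prj_base]
  refine ⟨Em.base t, emb_bd Em (hb v0) (hb t) (by rw [Em.prj_base, Em.prj_base]; exact ht),
    hb t, ?_⟩
  rw [Em.prj_base]
  exact Fr.anti (image_fibE Em U) hf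

theorem agree_emb {U : Finset V} {y y' : E → ZMod 2} (h : G.Agree U y y') :
    G'.Agree (fibE Em U) (Em.ext y) (Em.ext y') := by
  intro e he
  have h0 : ∀ e ∈ G.inc U, (y + y') e = 0 := by
    intro e he
    rw [Pi.add_apply, h e he]
    exact CharTwo.add_self_eq_zero _
  have h1 : Em.ext (y + y') e = 0 := by
    refine Em.ext_zero (y + y') U h0 e ?_
    rcases he with he | he
    · exact Or.inl ((mem_fibE Em).1 he)
    · exact Or.inr ((mem_fibE Em).1 he)
  rw [Em.ext_add, Pi.add_apply] at h1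
  exact CharTwo.add_eq_zero.1 h1

private theorem dec_imp {Q Q' : Bool → Finset V → (E → ZMod 2) → Prop} {k : ℕ} {U : Finset V}
    {y : E → ZMod 2} (h : Dec Fr v0 Q k U y) (hQ : ∀ b U' y', Q b U' y' → Q' b U' y') :
    Dec Fr v0 Q' k U y := by
  induction h with
  | leaf b h => exact Dec.leaf b (hQ _ _ _ h)
  | node N hN h ih => exact Dec.node N hN ih

/-- simulation of trees -/
theorem dec_emb {Q' : Bool → Finset V' → (E' → ZMod 2) → Prop} {n : ℕ} {W : Finset V'}
    {x : E' → ZMod 2} (hdec : Dec (embFrame Fr Em) (Em.base v0) Q' n W x) :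
    ∀ y : E → ZMod 2, x = Em.ext y → Fr.Ok v0 (W.image Em.prj) y →
      Dec Fr v0 (fun _ U y' => ∃ W' : Finset V', W'.card ≤ W.card + n ∧ U = W'.image Em.prj ∧
        ∃ b, Q' b W' (Em.ext y')) n (W.image Em.prj) y := by
  induction hdec with
  | @leaf k U x b h =>
    rintro y rfl -
    exact Dec.leaf b ⟨U, by omega, rfl, b, h⟩
  | @node k n U x N hN h ih =>
    rintro y rfl -
    refine Dec.node (N.image Em.prj) (Finset.card_image_le.trans hN) fun y1 hag hok => ?_
    have hUN : U.image Em.prj ∪ N.image Em.prj = (U ∪ N).image Em.prj :=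
      (Finset.image_union _ _).symm
    have hag' : G'.Agree U (Em.ext y) (Em.ext y1) := (agree_emb Em hag).mono (sub_fibE Em U)
    rw [hUN] at hok ⊢
    have hok' : (embFrame Fr Em).Ok (Em.base v0) (U ∪ N) (Em.ext y1) :=
      (ok_emb Fr v0 Em hok).mono (sub_fibE Em (U ∪ N))
    refine dec_imp Fr v0 (ih (Em.ext y1) hag' hok' y1 rfl hok) ?_
    rintro b U' y' ⟨W', hW', h1, h2⟩
    refine ⟨W', ?_, h1, h2⟩
    have := Finset.card_union_le U N
    omega

/-- **transfer to a larger graph** -/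
theorem kills_emb [DecidableEq E'] {j T ℓ ρ r k t : ℕ} (hc : 1 ≤ c) (hρ : 2 ≤ ρ)
    (hkill : KillsM Fr v0 j T ℓ ρ r k t) :
    KillsM (embFrame Fr Em) (Em.base v0) j T ℓ (c * ρ) r k t := by
  intro X B Ls i0 cap S' hB hLs hk hcap hcapm hD R hR hRr Ax hAx b hb hbr τ π hπ hlast hall
  have hcapm' : cap ≤ Fr.m := hcapm
  have hdiv : c * (cap / c) ≤ cap := Nat.mul_div_le cap c
  have hcf : ∀ U : Finset V, U.card ≤ cap / c → (fibE Em U).card ≤ cap := fun U hU =>
    (card_fibE Em U).trans ((Nat.mul_le_mul_left c hU).trans hdiv)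
  have hbig : (c + 1) * (T + ℓ) ≤ cap := by
    refine (Nat.mul_le_mul_right (T + ℓ) ?_).trans hcap
    calc c + 1 ≤ c * 2 := by omega
      _ ≤ c * ρ := Nat.mul_le_mul_left c hρ
  have hbig' : (c + 1) * (T + ℓ) = c * (T + ℓ) + (T + ℓ) := by ring
  let S : Valn Fr v0 X {f | (∃ A ∈ Ls, f ∈ A.subs) ∧ lev B f ≤ i0} (cap / c) :=
    { Q := fun f b U y => S'.Q f b (fibE Em U) (Em.ext y)
      mono := fun f hf b U U' y y' hU hc' hQ ha ho =>
        S'.mono f hf b _ _ _ _ (fibE_mono Em hU) (hcf U' hc') hQ (agree_emb Em ha)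
          (ok_emb Fr v0 Em ho)
      uniq := fun f hf U y hc' ho h1 h2 =>
        S'.uniq f hf _ _ (hcf U hc') (ok_emb Fr v0 Em ho) h1 h2
      neg := fun f hf hf' b b' U y hc' ho h1 h2 =>
        S'.neg f hf hf' b b' _ _ (hcf U hc') (ok_emb Fr v0 Em ho) h1 h2
      and := fun f g hf hg hfg b b' b'' U y hc' ho h1 h2 h3 =>
        S'.and f g hf hg hfg b b' b'' _ _ (hcf U hc') (ok_emb Fr v0 Em ho) h1 h2 h3
      or := fun f g hf hg hfg b b' b'' U y hc' ho h1 h2 h3 =>
        S'.or f g hf hg hfg b b' b'' _ _ (hcf U hc') (ok_emb Fr v0 Em ho) h1 h2 h3 }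
  have hSQ : ∀ f b U y, S.Q f b U y = S'.Q f b (fibE Em U) (Em.ext y) := fun _ _ _ _ => rfl
  have hSD : CDcds S Ls T ℓ := by
    intro A hA y hy
    have h0 : (embFrame Fr Em).Ok (Em.base v0) ∅ (Em.ext y) :=
      (ok_emb Fr v0 Em hy).mono (Finset.empty_subset _)
    have h1 := dec_emb Fr v0 Em (hD A hA (Em.ext y) h0) y rfl (by rw [Finset.image_empty]; exact hy)
    rw [Finset.image_empty] at h1
    refine dec_map h1 hy ?_
    rintro b' U y' - - hok - ⟨W', hW', rfl, b1, hb1⟩
    refine ⟨true, fun f hf hfΦ => ?_⟩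
    refine dec_map (dec_emb Fr v0 Em (hb1 f hf hfΦ) y' rfl hok) hok ?_
    rintro b2 U2 y2 - - hok2 - ⟨W2, hW2, rfl, b3, hb3⟩
    refine ⟨b3, ?_⟩
    rw [hSQ]
    refine S'.mono f hfΦ b3 W2 _ _ _ (sub_fibE Em W2) ?_ hb3 (Gph.Agree.refl G' _ _)
      (ok_emb Fr v0 Em hok2)
    rw [Finset.card_empty] at hW'
    have h3 : (W2.image Em.prj).card ≤ T + ℓ := Finset.card_image_le.trans (by omega)
    have h4 := (card_fibE Em (W2.image Em.prj)).trans (Nat.mul_le_mul_left c h3)
    omega
  refine hkill X B Ls i0 (cap / c) S hB hLs hk ?_ ((Nat.div_le_self cap c).trans hcapm') hSD R hR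
    hRr Ax (fun F hF hFs => (hAx F hF hFs).mono fun f hfs h => ⟨h.1, fun U y hU hy hQ => ?_⟩)
    b hb hbr τ π hπ hlast hall
  · rw [Nat.le_div_iff_mul_le (by omega)]
    calc ρ * (T + ℓ) * c = c * ρ * (T + ℓ) := by ring
      _ ≤ cap := hcap
  · have hfΦ : f ∈ {f | (∃ A ∈ Ls, f ∈ A.subs) ∧ lev B f ≤ i0} := ⟨⟨F, hFs, hfs⟩, h.1⟩
    rw [hSQ] at hQ
    have hokU := ok_emb Fr v0 Em hy
    have hok0 : (embFrame Fr Em).Ok (Em.base v0) ∅ (Em.ext y) := hokU.mono (Finset.empty_subset _)
    have hdec : Dec (embFrame Fr Em) (Em.base v0) (S'.Q f) (T + ℓ) ∅ (Em.ext y) :=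
      dec_bind (hD F hFs (Em.ext y) hok0) hok0 fun _ _ _ _ _ _ _ hq => hq f hfs hfΦ
    have hcU : (fibE Em U).card ≤ c * (T + ℓ) :=
      (card_fibE Em U).trans (Nat.mul_le_mul_left c hU)
    have hue : fibE Em U ∪ ∅ = fibE Em U := Finset.union_empty _
    obtain ⟨W', x', b', -, hW', hag, hok', hq'⟩ := hdec.run (fibE Em U)
      (by rw [hue]; exact hokU)
      (by rw [hue]; change _ ≤ Fr.m; omega)
    rw [hue] at hag
    rw [Finset.card_empty, Nat.zero_add] at hW'
    have hcard : (fibE Em U ∪ W').card ≤ cap := by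
      have := Finset.card_union_le (fibE Em U) W'
      omega
    have hb' : b' = true := by
      cases b' with
      | true => rfl
      | false => exact absurd hq' (h.2 W' x' hW' (hok'.mono Finset.subset_union_right))
    subst hb'
    exact S'.uniq f hfΦ _ _ hcard hok'
      (S'.mono f hfΦ true _ _ _ _ Finset.subset_union_right hcard hq' (Gph.Agree.refl G' _ _) hok')
      (S'.mono f hfΦ false _ _ _ _ Finset.subset_union_left hcard hQ hag hok')

/-- monotonicity in `ρ` -/
theorem kills_mono_rho {j T ℓ ρ ρ' r k t : ℕ} (h : KillsM Fr v0 j T ℓ ρ r k t) (hρ : ρ ≤ ρ') :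
    KillsM Fr v0 j T ℓ ρ' r k t := by
  intro X B Ls i0 cap S hB hLs hk hcap hcapm hD R hR hRr Ax hAx b hb hbr τ π hπ hlast hall
  exact h X B Ls i0 cap S hB hLs hk ((Nat.mul_le_mul_right _ hρ).trans hcap) hcapm hD R hR hRr Ax
    hAx b hb hbr τ π hπ hlast hall

end

end FrU
end

section

/-!
Counting the pairs of a leaf of the old common tree and the families of certificates used there.

PROOF of `card_small_sets`: `n = 0`: only `∅`.  `n + 1`: every set `s` with `|s| ≤ n + 1` is `∅` or `insert i s'` with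
`|s'| ≤ n`: the set of these `s` is contained in the image of `(sets with ≤ n elements) × Option ι` under
`(s', none) ↦ s'`, `(s', some i) ↦ insert i s'`.

PROOF of `exists_Ps`.  For `A ∈ Ls`, `W`, and a set `φ` of edges of the blow-up let `p_φ u = if u ∈ φ then 1 else 0` and
`fam A W φ = A.subs.toFinset.image (fun f => certW S' W p_φ k (lstW Φ' f))`.  `Ps` is the set of all
`(W, fam A W φ)` with `A ∈ Ls`, `|W| ≤ T'`, `φ` contained in the set of the edges in `((G.tall Q).blow D).inc W`, which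
has at most `2 (Δ + 2) |W|` elements (`FrC.deg_blow` for `G.tall Q` and `Δ + 2`: `FrC.deg_tall`, `FrC.noLoop_tall`;
`FrC.card_inc_le`).  For a general `p` the family is that of `φ = {u ∈ inc W | p u ≠ 0}` (`certW_congr`:
`p_φ = p` on `inc W`, values in `ZMod 2`).  Cardinality: `Finset.card_biUnion_le` / `Finset.card_image_le`
for a product or sigma over `A`, `W`, `φ`, with `2^|inc W| ≤ 2^(2 (Δ + 2) T')`.
-/

set_option linter.unusedSectionVars false

namespace FrU

open Finset Fr56 FrC FrG FrT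
open scoped Classical

theorem card_small_sets {ι : Type} [Fintype ι] (n : ℕ) :
    ((univ : Finset (Finset ι)).filter fun s => s.card ≤ n).card ≤ (Fintype.card ι + 1) ^ n := by
  induction n with
  | zero =>
    have h : ((univ : Finset (Finset ι)).filter fun s => s.card ≤ 0) = {∅} := by
      ext s
      simp
    rw [h, Finset.card_singleton, pow_zero]
  | succ n ih =>
    have hsub : ((univ : Finset (Finset ι)).filter fun s => s.card ≤ n + 1) ⊆
        (((univ : Finset (Finset ι)).filter fun s => s.card ≤ n) ×ˢ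
          (univ : Finset (Option ι))).image
          (fun q => match q.2 with
            | none => q.1
            | some i => insert i q.1) := by
      intro s hs
      have hs' : s.card ≤ n + 1 := (Finset.mem_filter.1 hs).2
      rw [Finset.mem_image]
      rcases s.eq_empty_or_nonempty with h0 | ⟨i, hi⟩
      · refine ⟨(∅, none), ?_, h0.symm⟩
        rw [Finset.mem_product]
        exact ⟨Finset.mem_filter.2 ⟨Finset.mem_univ _, by simp⟩, Finset.mem_univ _⟩
      · refine ⟨(s.erase i, some i), ?_, ?_⟩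
        · rw [Finset.mem_product]
          refine ⟨Finset.mem_filter.2 ⟨Finset.mem_univ _, ?_⟩, Finset.mem_univ _⟩
          show (s.erase i).card ≤ n
          rw [Finset.card_erase_of_mem hi]
          omega
        · show insert i (s.erase i) = s
          exact Finset.insert_erase hi
    refine (Finset.card_le_card hsub).trans (Finset.card_image_le.trans ?_)
    rw [Finset.card_product, Finset.card_univ, Fintype.card_option, pow_succ]
    exact Nat.mul_le_mul_right _ ih

section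
variable {V E : Type} [Fintype V] [Fintype E] [DecidableEq V] [DecidableEq E]
  {G : Gph V E} {Fr : Frame G} {v0 : V} {Q D : ℕ} {hQ : 0 < Q} {hD : 0 < D} {w0 : FrC.A D}
  {X : Type} {Φ' : Set (Fm X)} {cap' : ℕ}
  (S' : Valn (Fr.blow Q D hQ hD) (HV.cen (v0, 0) w0) X Φ' cap')

theorem exists_Ps (hl : G.NoLoop) {Δ : ℕ} (hdeg : G.Deg Δ) (Ls : Finset (Fm X)) (T' k k₀ : ℕ)
    (hk₀ : ∀ A ∈ Ls, A.subs.toFinset.card ≤ 2 ^ k₀) :
    ∃ Ps : Finset (Finset (HV (TV V Q) (TE V E Q) D) × Finset (Set (Cert V E Q D))),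
      Ps.card ≤ Ls.card * ((Fintype.card (HV (TV V Q) (TE V E Q) D) + 1) ^ T' *
        2 ^ (2 * (Δ + 2) * T')) ∧
      (∀ r ∈ Ps, r.1.card ≤ T' ∧ r.2.card ≤ 2 ^ k₀ ∧
        ∀ 𝒞 ∈ r.2, ∀ C ∈ 𝒞, r.1 ⊆ C.1 ∧ (C.1 \ r.1).card ≤ k) ∧
      ∀ A ∈ Ls, ∀ W : Finset (HV (TV V Q) (TE V E Q) D), W.card ≤ T' →
        ∀ p : Xt (TE V E Q) D → ZMod 2, ∃ r ∈ Ps, r.1 = W ∧
          ∀ f ∈ A.subs, certW S' W p k (lstW Φ' f) ∈ r.2 := by
  set H := (G.tall Q).blow D with hH
  set incF : Finset (HV (TV V Q) (TE V E Q) D) → Finset (Xt (TE V E Q) D) :=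
    fun W => univ.filter fun e => e ∈ H.inc W with hincF
  set pf : Finset (Xt (TE V E Q) D) → Xt (TE V E Q) D → ZMod 2 :=
    fun φ u => if u ∈ φ then 1 else 0 with hpf
  set fam : Fm X → Finset (HV (TV V Q) (TE V E Q) D) → Finset (Xt (TE V E Q) D) →
      Finset (Set (Cert V E Q D)) :=
    fun A W φ => A.subs.toFinset.image fun f => certW S' W (pf φ) k (lstW Φ' f) with hfam
  have hinc : ∀ W : Finset (HV (TV V Q) (TE V E Q) D), (incF W).card ≤ 2 * (Δ + 2) * W.card := by
    intro W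
    exact FrC.card_inc_le H
      (FrC.deg_blow (G.tall Q) (FrC.noLoop_tall G hl) (by omega) (FrC.deg_tall G hdeg)) W
  set Ps : Finset (Finset (HV (TV V Q) (TE V E Q) D) × Finset (Set (Cert V E Q D))) :=
    Ls.biUnion fun A => ((univ : Finset (Finset (HV (TV V Q) (TE V E Q) D))).filter
      fun W => W.card ≤ T').biUnion fun W => (incF W).powerset.image fun φ => (W, fam A W φ)
    with hPs
  have hmem : ∀ r, r ∈ Ps ↔ ∃ A ∈ Ls, ∃ W : Finset (HV (TV V Q) (TE V E Q) D), W.card ≤ T' ∧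
      ∃ φ, φ ⊆ incF W ∧ (W, fam A W φ) = r := by
    intro r
    constructor
    · intro hr
      obtain ⟨A, hA, hr⟩ := Finset.mem_biUnion.1 hr
      obtain ⟨W, hW, hr⟩ := Finset.mem_biUnion.1 hr
      obtain ⟨φ, hφ, hr⟩ := Finset.mem_image.1 hr
      exact ⟨A, hA, W, (Finset.mem_filter.1 hW).2, φ, Finset.mem_powerset.1 hφ, hr⟩
    · rintro ⟨A, hA, W, hW, φ, hφ, hr⟩
      exact Finset.mem_biUnion.2 ⟨A, hA, Finset.mem_biUnion.2
        ⟨W, Finset.mem_filter.2 ⟨Finset.mem_univ _, hW⟩,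
          Finset.mem_image.2 ⟨φ, Finset.mem_powerset.2 hφ, hr⟩⟩⟩
  refine ⟨Ps, ?_, ?_, ?_⟩
  · refine Finset.card_biUnion_le_card_mul _ _ _ fun A _ => ?_
    refine (Finset.card_biUnion_le_card_mul _ _ (2 ^ (2 * (Δ + 2) * T')) fun W hW => ?_).trans
      (Nat.mul_le_mul_right _ (card_small_sets _))
    refine Finset.card_image_le.trans ?_
    rw [Finset.card_powerset]
    exact Nat.pow_le_pow_right (by norm_num)
      ((hinc W).trans (Nat.mul_le_mul_left _ (Finset.mem_filter.1 hW).2))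
  · intro r hr
    obtain ⟨A, hA, W, hW, φ, hφ, rfl⟩ := (hmem r).1 hr
    refine ⟨hW, Finset.card_image_le.trans (hk₀ A hA), ?_⟩
    intro 𝒞 h𝒞 C hC
    obtain ⟨f, _, rfl⟩ := Finset.mem_image.1 h𝒞
    obtain ⟨q, _, h1, h2, _⟩ := hC
    exact ⟨h1, h2⟩
  · intro A hA W hW p
    set φ : Finset (Xt (TE V E Q) D) := (incF W).filter fun u => p u ≠ 0 with hφ
    refine ⟨(W, fam A W φ), (hmem _).2 ⟨A, hA, W, hW, φ, Finset.filter_subset _ _, rfl⟩, rfl, ?_⟩
    intro f hf
    have hag : H.Agree W p (pf φ) := by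
      intro u hu
      have hu' : u ∈ incF W := Finset.mem_filter.2 ⟨Finset.mem_univ _, hu⟩
      have h01 : ∀ x : ZMod 2, x ≠ 0 → x = 1 := by decide
      show p u = if u ∈ φ then 1 else 0
      by_cases h : p u = 0
      · have hn : u ∉ φ := by
          intro h'
          rw [hφ, Finset.mem_filter] at h'
          exact h'.2 h
        rw [if_neg hn, h]
      · rw [if_pos (Finset.mem_filter.2 ⟨hu', h⟩)]
        exact h01 _ h
    rw [certW_congr S' hag k (lstW Φ' f)]
    exact Finset.mem_image.2 ⟨f, List.mem_toFinset.2 hf, rfl⟩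

end

end FrU
end

section

/-!
The probability of a fixed code (with jumps).

PROOF of `pr_codeM`.  Exactly as `FrT.pr_codeT` (T/CodeC.lean, copy the proof), with
`W := (De.st B₀ (c.map toR)).2` in the place of `De.Us (c.map Prod.fst)`, `B₀ = De.cL (plc G Q L₀)`, and
`De.DcM B₀ (c.map toR)` in the place of `De.Dc (c.map Prod.fst)` (`bd_DcM` in the place of `bd_Dc`).  The
condition `hA` is only used for `Fr.Free W t0`.
-/

set_option linter.unusedSectionVars false

namespace FrU

open Finset Fr56 FrC FrG FrT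
open scoped Classical

section
variable {V E : Type} [Fintype V] [Fintype E] [DecidableEq V] [DecidableEq E]
  {G : Gph V E} {Q K C₁ C₂ m : ℕ} (Fr : Frame G) (v0 : V) {D : ℕ} (De : DetM G Q K C₁ C₂ m)

/-- the probability of a fixed code -/
theorem pr_codeM {Δ : ℕ} (hD : 0 < D) (hdeg : G.Deg Δ) (𝒞 : ℕ → Set (Cert V E Q D))
    (Wc : Finset (HV (TV V Q) (TE V E Q) D)) (L₀ : Finset (TE V E Q)) (w0 : FrC.A D) (t0 : V)
    (c : List (EM V E Q)) (hA : AdmM Fr De (De.cL (plc G Q L₀)) t0 c)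
    (hm : (De.st (De.cL (plc G Q L₀)) (c.map toR)).2.card ≤ Fr.m) :
    pr (fun q : Om (G.tall Q) (HV.cen (v0, 0) w0 : HV (TV V Q) (TE V E Q) D) (v0, 0) =>
      ∃ y : E → ZMod 2, Fr.Ok v0 (De.st (De.cL (plc G Q L₀)) (c.map toR)).2 y ∧
        ∀ yh : E → ZMod 2, G.bd yh = pt v0 + pt t0 →
          G.Agree (De.st (De.cL (plc G Q L₀)) (c.map toR)).2 y yh →
          DcdM Fr De 𝒞 Wc L₀ t0 (q.1.1 + Pth (G.tall Q) q.1.2
            (iota yh + De.DcM (De.cL (plc G Q L₀)) (c.map toR))) q.1.2 c) ≤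
      2 ^ (Δ * (De.st (De.cL (plc G Q L₀)) (c.map toR)).2.card) *
        pr (fun q : Om (G.tall Q) (HV.cen (v0, 0) w0 : HV (TV V Q) (TE V E Q) D) (t0, 0) =>
          DcdM Fr De 𝒞 Wc L₀ t0 q.1.1 q.1.2 c) := by
  set W := (De.st (De.cL (plc G Q L₀)) (c.map toR)).2 with hW
  set p : ℝ := pr (fun q : Om (G.tall Q) (HV.cen (v0, 0) w0 : HV (TV V Q) (TE V E Q) D) (t0, 0) =>
          DcdM Fr De 𝒞 Wc L₀ t0 q.1.1 q.1.2 c) with hp
  have hp0 : 0 ≤ p := pr_nonneg _
  set I : Finset E := univ.filter fun e => e ∈ G.inc W with hI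
  -- the event for a given pattern
  set Ev : Finset E → Om (G.tall Q) (HV.cen (v0, 0) w0 : HV (TV V Q) (TE V E Q) D) (v0, 0) → Prop :=
    fun φ q => ∃ y : E → ZMod 2, Fr.Ok v0 W y ∧ (∀ e ∈ G.inc W, (y e ≠ 0 ↔ e ∈ φ)) ∧
        ∀ yh : E → ZMod 2, G.bd yh = pt v0 + pt t0 → G.Agree W y yh →
        DcdM Fr De 𝒞 Wc L₀ t0 (q.1.1 + Pth (G.tall Q) q.1.2 (iota yh + De.DcM (De.cL (plc G Q L₀)) (c.map toR)))
          q.1.2 c with hEv
  have hcover : pr (fun q : Om (G.tall Q) (HV.cen (v0, 0) w0 : HV (TV V Q) (TE V E Q) D) (v0, 0) =>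
      ∃ y : E → ZMod 2, Fr.Ok v0 W y ∧
        ∀ yh : E → ZMod 2, G.bd yh = pt v0 + pt t0 → G.Agree W y yh →
        DcdM Fr De 𝒞 Wc L₀ t0 (q.1.1 + Pth (G.tall Q) q.1.2 (iota yh + De.DcM (De.cL (plc G Q L₀)) (c.map toR)))
          q.1.2 c) ≤
      pr (fun q => ∃ φ ∈ I.powerset, Ev φ q) := by
    apply pr_mono
    rintro q ⟨y, hok, hy⟩
    refine ⟨univ.filter fun e => e ∈ G.inc W ∧ y e ≠ 0, ?_, y, hok, ?_, hy⟩
    · rw [Finset.mem_powerset]
      intro e he
      rw [Finset.mem_filter] at he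
      rw [hI, Finset.mem_filter]
      exact ⟨Finset.mem_univ _, he.2.1⟩
    · intro e he
      rw [Finset.mem_filter]
      constructor
      · intro h
        exact ⟨Finset.mem_univ _, he, h⟩
      · intro h
        exact h.2.2
  have hone : ∀ φ : Finset E, pr (Ev φ) ≤ p := by
    intro φ
    by_cases hex : ∃ yh : E → ZMod 2, G.bd yh = pt v0 + pt t0 ∧ ∀ e ∈ G.inc W, (yh e ≠ 0 ↔ e ∈ φ)
    swap
    · refine le_trans (pr_mono (Q := fun _ => False) fun q hq => ?_)
        (by rw [pr_false]; exact hp0)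
      obtain ⟨y, ⟨s, hs, hsf⟩, hpat, _⟩ := hq
      apply hex
      obtain ⟨γ, hγ, hγ0⟩ := Fr.conn W s t0 hm hsf hA.2.1
      refine ⟨y + γ, ?_, ?_⟩
      · rw [Gph.bd_add, hs, hγ]
        have := add_self2 (pt s : V → ZMod 2)
        calc pt v0 + pt s + (pt s + pt t0) = pt v0 + (pt s + pt s) + pt t0 := by abel
          _ = pt v0 + pt t0 := by rw [this, add_zero]
      · intro e he
        rw [Pi.add_apply, hγ0 e he, add_zero]
        exact hpat e he
    obtain ⟨yh, hyh, hpat⟩ := hex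
    have hbz : (G.tall Q).bd (iota yh + De.DcM (De.cL (plc G Q L₀)) (c.map toR)) = pt (v0, 0) + pt (t0, 0) := by
      rw [Gph.bd_add, bd_iota_path G yh v0 t0 hyh, bd_DcM, add_zero]
    have hshift := pr_Om_shift (G.tall Q) hD
      (HV.cen (v0, 0) w0 : HV (TV V Q) (TE V E Q) D) (v0, 0) (t0, 0)
      (iota yh + De.DcM (De.cL (plc G Q L₀)) (c.map toR)) hbz (fun β a => DcdM Fr De 𝒞 Wc L₀ t0 β a c)
    rw [hp, ← hshift]
    apply pr_mono
    rintro q ⟨y, _, hy, hall⟩
    refine hall yh hyh fun e he => ?_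
    have h1 := (hy e he).trans (hpat e he).symm
    have h2 : ∀ a b : ZMod 2, (a ≠ 0 ↔ b ≠ 0) → a = b := by decide
    exact h2 _ _ h1
  refine hcover.trans ((pr_exists_le I.powerset Ev).trans ?_)
  refine (Finset.sum_le_sum fun φ _ => hone φ).trans ?_
  rw [Finset.sum_const, nsmul_eq_mul, Finset.card_powerset]
  refine mul_le_mul_of_nonneg_right ?_ hp0
  push_cast
  exact pow_le_pow_right₀ (by norm_num) (card_inc_le G hdeg W)

end

end FrU
end
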