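import Pool.Agent.Lib.MP_51bb46_lc.T.FinalT

/-!
Program U (namespace `FrU`): number of lines against line size.  Definitions.

Two closure operators (a weak one `cl` and a strong one `cL`), products of graphs, embeddings of
graphs, detours with jumps, and the multi-switching process (codes are lists, the head of a list is
the LAST step).
-/

set_option linter.unusedSectionVars false

namespace FrU

open Finset Fr56 FrC FrG FrT
open scoped Classical

/-! ### closures -/

section
variable {V E : Type}

/-- A weak closure operator `cl` (`Clo`: outside a closed set the graph expands) together with a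
strong closure operator `cL`: strongly closed sets are closed, and the weak closure of a
strongly closed set and `n` further vertices adds at most `K n` vertices. -/
structure CloM [Fintype V] [Fintype E] [DecidableEq V] (G : Gph V E) (K H m : ℕ) extends
    Clo G K H m where
  cL : Finset V → Finset V
  extL : ∀ U, U ⊆ cL U
  monoL : ∀ U U', U ⊆ U' → cL U ⊆ cL U'
  idemL : ∀ U, cL (cL U) = cL U
  cardL : ∀ U, U.card ≤ m → (cL U).card ≤ K * U.card
  clL : ∀ U, cL U = U → cl U = U
  incr : ∀ U, cL U = U → ∀ X : Finset V, X.card ≤ m → (cl (U ∪ X) \ U).card ≤ K * X.card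

/-! ### products -/

/-- the product of two graphs: a copy of `P` for each vertex of `Y`, and a copy of `Y` for each
vertex of `P` -/
def prodG {Λ F : Type} (P : Gph V E) (Y : Gph Λ F) : Gph (V × Λ) ((E × Λ) ⊕ (V × F)) where
  src := Sum.elim (fun p => (P.src p.1, p.2)) (fun p => (p.1, Y.src p.2))
  tgt := Sum.elim (fun p => (P.tgt p.1, p.2)) (fun p => (p.1, Y.tgt p.2))

/-- the part of `U` in the fiber over `v` -/
noncomputable def fibU {Λ : Type} [Fintype Λ] (U : Finset (V × Λ)) (v : V) : Finset Λ :=
  univ.filter fun l => (v, l) ∈ U

/-- the fibers contained in `U` -/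
noncomputable def fullU {Λ : Type} [Fintype V] [Fintype Λ] (U : Finset (V × Λ)) : Finset V :=
  univ.filter fun v => fibU U v = univ

/-- closed sets in the product: the full fibers form a closed set, the other fibers are closed -/
def PClosed {Λ F : Type} [Fintype V] [Fintype E] [DecidableEq V] [Fintype Λ] [Fintype F]
    [DecidableEq Λ] {P : Gph V E} {Y : Gph Λ F} {K H m K' H' m' : ℕ} (CP : Clo P K H m)
    (CY : Clo Y K' H' m') (U : Finset (V × Λ)) : Prop :=
  CP.cl (fullU U) = fullU U ∧ ∀ v, CY.cl (fibU U v) = fibU U v

/-- constants for the base detours of a product: number of horizontal edges -/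
def K7 (H Δp : ℕ) : ℕ := 4 + 24 * H * Δp + Δp

/-- constants for the base detours of a product with fibers of size `c` -/
def CB (H Δp Δy c : ℕ) : ℕ :=
  2 * (K7 H Δp + 16 * H * Δy + (1 + 2 * H * Δy) +
    (2 * K7 H Δp + 2 + 4 * H * Δy) * Ld (2 * H) Δy c)

end

/-! ### embeddings of graphs -/

/-- `G'` contains `G`: the vertex `v` of `G` is expanded to the at most `c` vertices `v'` of `G'` with
`prj v' = v`; chains of `G` extend to chains of `G'` with the boundary at the base vertices -/
structure Emb {V E V' E' : Type} [Fintype E] [DecidableEq V] [Fintype V'] [Fintype E']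
    [DecidableEq V'] (G : Gph V E) (G' : Gph V' E') (c : ℕ) where
  base : V → V'
  prj : V' → V
  prj_base : ∀ v, prj (base v) = v
  ext : (E → ZMod 2) → (E' → ZMod 2)
  ext_add : ∀ y z, ext (y + z) = ext y + ext z
  bd_ext : ∀ y v', G'.bd (ext y) v' = if v' = base (prj v') then G.bd y (prj v') else 0
  ext_zero : ∀ (y : E → ZMod 2) (U : Finset V), (∀ e ∈ G.inc U, y e = 0) →
    ∀ e', (prj (G'.src e') ∈ U ∨ prj (G'.tgt e') ∈ U) → ext y e' = 0
  fib_card : ∀ v, (univ.filter fun v' => prj v' = v).card ≤ c

end FrU
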