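import Pool.Agent.Lib.MP_51bb46_lc.U.Defs
import Pool.Agent.Lib.MP_51bb46_lc.T.NumT
import Pool.Agent.Lib.MP_51bb46_lc.T.Base

section

/-!
Program U (namespace `FrU`): the multi-switching process and the induction hypothesis.  Definitions.
-/

set_option linter.unusedSectionVars false

namespace FrU

open Finset Fr56 FrC FrG FrT
open scoped Classical

section
variable {V E : Type} [Fintype V] [Fintype E] [DecidableEq V] [DecidableEq E]

/-! ### detours -/

/-- Detours in the tall graph (`Detour`, for the weak closure operator `cl`), a strong closure operator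
`cL`, and detours in the graph itself. -/
structure DetM (G : Gph V E) (Q K C₁ C₂ m : ℕ) extends Detour G Q K C₁ m where
  cL : Finset V → Finset V
  extL : ∀ U, U ⊆ cL U
  monoL : ∀ U U', U ⊆ U' → cL U ⊆ cL U'
  idemL : ∀ U, cL (cL U) = cL U
  cardL : ∀ U, U.card ≤ m → (cL U).card ≤ K * U.card
  clL : ∀ U, cL U = U → cl U = U
  incr : ∀ U, cL U = U → ∀ X : Finset V, X.card ≤ m → (cl (U ∪ X) \ U).card ≤ K * X.card
  detB : ∀ U, cl U = U → ∀ L : Finset E, ∀ f : E → ZMod 2, G.bd f = 0 →
    (∀ e ∈ G.inc U, f e = 0) → ∃ f' : E → ZMod 2, G.bd f' = 0 ∧ (∀ e ∈ G.inc U, f' e = 0) ∧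
      (∀ e ∈ L, f' e = f e) ∧ (bsV G f').card ≤ C₂ * L.card

/-- the edges touching `M` but not `B` -/
noncomputable def newI (G : Gph V E) (B M : Finset V) : Finset E :=
  univ.filter fun e => e ∈ G.inc M ∧ e ∉ G.inc B

/-- `f` is a small closed chain, zero near `B`, with the pattern `P` on the new edges -/
def DbOk (G : Gph V E) (C₂ : ℕ) (B M : Finset V) (P : Finset E) (f : E → ZMod 2) : Prop :=
  G.bd f = 0 ∧ (∀ e ∈ G.inc B, f e = 0) ∧ (∀ e ∈ newI G B M, (e ∈ P ↔ f e ≠ 0)) ∧
    (bsV G f).card ≤ C₂ * (newI G B M).card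

/-- the canonical closed chain with the pattern `P` (zero if there is none) -/
noncomputable def dB (G : Gph V E) (C₂ : ℕ) (B M : Finset V) (P : Finset E) : E → ZMod 2 :=
  if h : ∃ f, DbOk G C₂ B M P f then h.choose else 0

/-! ### lists of steps and jumps -/

/-- a step, with a jump after it if there is a pattern in the second component (end of a segment) -/
abbrev RM (V E : Type) (Q : ℕ) := LP V E Q × Option (Finset E)

/-- a step with its move, with an optional jump -/
abbrev EM (V E : Type) (Q : ℕ) := LM V E Q × Option (Finset E)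

/-- forget the moves -/
def toR {V E : Type} {Q : ℕ} (k : EM V E Q) : RM V E Q := (k.1.1, k.2)

variable {G : Gph V E} {Q K C₁ C₂ m : ℕ}

/-- the revealed set after a step -/
noncomputable def DetM.Md (De : DetM G Q K C₁ C₂ m) (U : Finset V) (p : LP V E Q) : Finset V :=
  De.cl (U ∪ plc G Q p.1 ∪ bsT G (dc G C₁ U p.1 p.2))

/-- the revealed set after a jump; `B` is the start set of the segment, `M` the set at its end -/
noncomputable def DetM.Nx (De : DetM G Q K C₁ C₂ m) (B M : Finset V) (P : Finset E) : Finset V :=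
  De.cL (M ∪ bsV G (dB G C₂ B M P))

/-- the start set of the current segment and the set of revealed vertices -/
noncomputable def DetM.st (De : DetM G Q K C₁ C₂ m) (B₀ : Finset V) :
    List (RM V E Q) → Finset V × Finset V
  | [] => (B₀, B₀)
  | (p, none) :: c => ((DetM.st De B₀ c).1, De.Md (DetM.st De B₀ c).2 p)
  | (p, some P) :: c =>
    (De.Nx (DetM.st De B₀ c).1 (De.Md (DetM.st De B₀ c).2 p) P,
      De.Nx (DetM.st De B₀ c).1 (De.Md (DetM.st De B₀ c).2 p) P)

/-- the sum of all canonical detours -/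
noncomputable def DetM.DcM (De : DetM G Q K C₁ C₂ m) (B₀ : Finset V) :
    List (RM V E Q) → TE V E Q → ZMod 2
  | [] => 0
  | (p, none) :: c => DetM.DcM De B₀ c + dc G C₁ (De.st B₀ c).2 p.1 p.2
  | (p, some P) :: c => DetM.DcM De B₀ c + (dc G C₁ (De.st B₀ c).2 p.1 p.2 +
      iota (dB G C₂ (De.st B₀ c).1 (De.Md (De.st B₀ c).2 p) P))

/-- number of live edges found -/
def totR {V E : Type} {Q : ℕ} : List (RM V E Q) → ℕ
  | [] => 0
  | k :: c => totR c + k.1.1.card

/-- number of live edges found in the current segment -/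
def segL {V E : Type} {Q : ℕ} : List (RM V E Q) → ℕ
  | [] => 0
  | (p, none) :: c => segL c + p.1.card
  | (_, some _) :: _ => 0

/-- number of jumps (complete segments) -/
def njp {V E : Type} {Q : ℕ} : List (RM V E Q) → ℕ
  | [] => 0
  | (_, none) :: c => njp c
  | (_, some _) :: c => njp c + 1

/-- number of live edges found in complete segments -/
def jw {V E : Type} {Q : ℕ} : List (RM V E Q) → ℕ
  | [] => 0
  | (_, none) :: c => jw c
  | (p, some _) :: c => jw c + (segL c + p.1.card)

/-- the list is empty or ends (at its head) with a jump -/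
def Cpl {V E : Type} {Q : ℕ} : List (RM V E Q) → Prop
  | [] => True
  | (_, o) :: _ => o.isSome = true

variable (Fr : Frame G) (v0 : V) {D : ℕ} (α : Xt (TE V E Q) D → ZMod 2) (a : TV V Q → FrC.A D)

/-- `c` is a sequence of steps and jumps that is consistent with the real assignment `y` and the
assignment `ys` of the current segment; the `j`-th segment uses the certificates in `𝒞 j` and has at
least `ℓ₀` live edges -/
def RunM (De : DetM G Q K C₁ C₂ m) (ℓ₀ : ℕ) (𝒞 : ℕ → Set (Cert V E Q D)) (B₀ : Finset V)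
    (y : E → ZMod 2) : List (RM V E Q) → (E → ZMod 2) → Prop
  | [], ys => G.Agree B₀ y ys
  | (p, none) :: c, ys => RunM De ℓ₀ 𝒞 B₀ y c ys ∧
      ∃ C, StepT Fr v0 α a (𝒞 (njp c)) (De.st B₀ c).2 ys C p.1 p.2
  | (p, some P) :: c, ys => G.Agree (De.st B₀ ((p, some P) :: c)).1 y ys ∧
      ∃ ys' : E → ZMod 2, RunM De ℓ₀ 𝒞 B₀ y c ys' ∧
        (∃ C, StepT Fr v0 α a (𝒞 (njp c)) (De.st B₀ c).2 ys' C p.1 p.2) ∧
        Fr.Ok v0 (De.Md (De.st B₀ c).2 p) ys' ∧ ℓ₀ ≤ segL c + p.1.card ∧
        P ⊆ newI G (De.st B₀ c).1 (De.Md (De.st B₀ c).2 p) ∧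
        ∀ e ∈ newI G (De.st B₀ c).1 (De.Md (De.st B₀ c).2 p), (e ∈ P ↔ y e ≠ ys' e)

/-- the start set: the strong closure of the places of the live edges touching `W` -/
noncomputable def DetM.B0 (De : DetM G Q K C₁ C₂ m) (a : TV V Q → FrC.A D)
    (W : Finset (HV (TV V Q) (TE V E Q) D)) : Finset V :=
  De.cL (plc G Q (cov (G.tall Q) a W))

/-- there is no sequence of complete segments with at least `R` and less than `R'` live edges -/
def NoLongM (De : DetM G Q K C₁ C₂ m) (ℓ₀ : ℕ) (W : Finset (HV (TV V Q) (TE V E Q) D))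
    (𝒞 : ℕ → Set (Cert V E Q D)) (R R' : ℕ) : Prop :=
  ∀ (c : List (RM V E Q)) (y ys : E → ZMod 2), RunM Fr v0 α a De ℓ₀ 𝒞 (De.B0 a W) y c ys →
    Cpl c → Fr.Ok v0 (De.st (De.B0 a W) c).1 y → R ≤ totR c → totR c < R' → False

/-! ### one segment -/

/-- the set of revealed vertices after the steps in `c`, starting from `B` -/
noncomputable def DetM.UsF (De : DetM G Q K C₁ C₂ m) (B : Finset V) : List (LP V E Q) → Finset V
  | [] => B
  | k :: c => De.Md (DetM.UsF De B c) k

/-- `c` is a sequence of steps from `B` consistent with `y` -/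
def RunF (De : DetM G Q K C₁ C₂ m) (𝒞 : Set (Cert V E Q D)) (B : Finset V) (y : E → ZMod 2) :
    List (LP V E Q) → Prop
  | [] => True
  | k :: c => RunF De 𝒞 B y c ∧ ∃ C, StepT Fr v0 α a 𝒞 (De.UsF B c) y C k.1 k.2

/-- there is no sequence of steps from the state `(B, y)` with at least `R` and less than `R'` edges -/
def NoLongF (De : DetM G Q K C₁ C₂ m) (𝒞 : Set (Cert V E Q D)) (B : Finset V) (y : E → ZMod 2)
    (R R' : ℕ) : Prop :=
  ∀ (c : List (LP V E Q)) (ys : E → ZMod 2), G.Agree B y ys → RunF Fr v0 α a De 𝒞 B ys c →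
    Fr.Ok v0 (De.UsF B c) ys → R ≤ totL c → totL c < R' → False

/-! ### codes -/

/-- the violated vertex after the steps -/
def tvM (t0 : V) : List (EM V E Q) → V
  | [] => t0
  | k :: _ => k.1.2.2

/-- number of nontrivial moves -/
noncomputable def nmvM (t0 : V) : List (EM V E Q) → ℕ
  | [] => 0
  | k :: c => nmvM t0 c + if k.1.2.1 = 0 ∧ k.1.2.2 = tvM t0 c then 0 else 1

/-- the sum of all moves -/
def mvs {V E : Type} {Q : ℕ} : List (EM V E Q) → E → ZMod 2
  | [] => 0
  | k :: c => mvs c + k.1.2.1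

/-- the sum of all detours and moves -/
noncomputable def DetM.ScM (De : DetM G Q K C₁ C₂ m) (B₀ : Finset V) (c : List (EM V E Q)) :
    TE V E Q → ZMod 2 :=
  De.DcM B₀ (c.map toR) + iota (mvs c)

/-- the conditions on the last entry of a code -/
def AdmE (De : DetM G Q K C₁ C₂ m) (B₀ : Finset V) (t0 : V) (k : EM V E Q)
    (c : List (EM V E Q)) : Prop :=
  k.1.1.1.Nonempty ∧ k.1.1.2 ⊆ k.1.1.1 ∧ (∀ e ∈ k.1.1.1, e ∉ incT G Q (De.st B₀ (c.map toR)).2) ∧
    G.bd k.1.2.1 = pt (tvM t0 c) + pt k.1.2.2 ∧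
    ∀ P, k.2 = some P → P ⊆ newI G (De.st B₀ (c.map toR)).1 (De.Md (De.st B₀ (c.map toR)).2 k.1.1)

/-- each entry is admissible by itself -/
def AdmSM (De : DetM G Q K C₁ C₂ m) (B₀ : Finset V) (t0 : V) : List (EM V E Q) → Prop
  | [] => True
  | k :: c => AdmSM De B₀ t0 c ∧ AdmE De B₀ t0 k c

/-- the code is admissible: all moves avoid all revealed vertices -/
def AdmM (Fr : Frame G) (De : DetM G Q K C₁ C₂ m) (B₀ : Finset V) (t0 : V)
    (c : List (EM V E Q)) : Prop :=
  AdmSM De B₀ t0 c ∧ Fr.Free (De.st B₀ (c.map toR)).2 t0 ∧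
    ∀ k ∈ c, ∀ e ∈ G.inc (De.st B₀ (c.map toR)).2, k.1.2.1 e = 0

/-- the decoding event -/
def DcdM (Fr : Frame G) (De : DetM G Q K C₁ C₂ m) (𝒞 : ℕ → Set (Cert V E Q D))
    (W : Finset (HV (TV V Q) (TE V E Q) D)) (L₀ : Finset (TE V E Q)) (t0 : V)
    (β : Xt (TE V E Q) D → ZMod 2) (a : TV V Q → FrC.A D) : List (EM V E Q) → Prop
  | [] => ∀ e ∈ L₀, Tch (G.tall Q) a W e
  | k :: c => DcdM Fr De 𝒞 W L₀ t0 β a c ∧
      ∃ C, Act G (𝒞 (njp (c.map toR)))
        (fun C => Fr.Free ((De.st (De.cL (plc G Q L₀)) (c.map toR)).2 ∪ G.nbh (Unc G Q C.1))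
          (tvM t0 c)) (β + Pth (G.tall Q) a (De.ScM (De.cL (plc G Q L₀)) c)) C ∧
        ∀ e ∈ k.1.1.1, Tch (G.tall Q) a (C.1 \ W) e

/-- the possible entries of codes -/
noncomputable def entM (V E : Type) (Q : ℕ) [Fintype V] [Fintype E] [DecidableEq V] [DecidableEq E]
    (Γ : Finset (E → ZMod 2)) : Finset (EM V E Q) :=
  ents V E Q Γ ×ˢ univ

/-- the certificates for one of the signed formulas in the list that extend `(W, p)` by at most `k`
vertices -/
def certW {X : Type} {hQ : 0 < Q} {hD : 0 < D} {w0 : FrC.A D} {Φ' : Set (Fm X)} {cap' : ℕ} {Fr : Frame G}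
    {v0 : V} (S' : Valn (Fr.blow Q D hQ hD) (HV.cen (v0, 0) w0) X Φ' cap')
    (W : Finset (HV (TV V Q) (TE V E Q) D)) (p : Xt (TE V E Q) D → ZMod 2) (k : ℕ)
    (L : List (Bool × Fm X)) : Set (Cert V E Q D) :=
  {C | ∃ q ∈ L, W ⊆ C.1 ∧ (C.1 \ W).card ≤ k ∧ (∀ u ∈ ((G.tall Q).blow D).inc W, C.2 u = p u) ∧
    (Fr.blow Q D hQ hD).Ok (HV.cen (v0, 0) w0) C.1 C.2 ∧ S'.Q q.2 q.1 C.1 C.2}

/-- the signed formulas whose certificates are used for the formula `f` -/
noncomputable def lstW {X : Type} (Φ' : Set (Fm X)) (f : Fm X) : List (Bool × Fm X) :=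
  if f ∈ Φ' then [(true, f), (false, f)] else lst Φ' f

end

/-! ### killing refutations -/

section
variable {V E : Type} [Fintype E] [DecidableEq V] {G : Gph V E} {Fr : Frame G} {v0 : V}

/-- for each line in `Ls`: after revealing at most `T` vertices (adaptively, for all its subformulas
together) each of its subformulas in `Φ` is decided by at most `ℓ` further vertices -/
def CDcds {X : Type} {Φ : Set (Fm X)} {cap : ℕ} (S : Valn Fr v0 X Φ cap) (Ls : Finset (Fm X))
    (T ℓ : ℕ) : Prop :=
  ∀ A ∈ Ls, ∀ y, Fr.Ok v0 ∅ y →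
    Dec Fr v0 (fun _ U y' => ∀ f ∈ A.subs, f ∈ Φ → Dec Fr v0 (S.Q f) ℓ U y') T ∅ y

end

/-- `KillsM Fr v0 j T ℓ ρ r k t`: given a valuation on `Fr` that decides all formulas of rank at most
`i0` in a family of at most `2^t` lines with at most `2^k` subformulas each (by revealing `T` vertices
for the line and then `ℓ` for the formula), there is no refutation (by rules of size less than `r`)
whose lines are in the family and have rank at most `i0 + j`. -/
def KillsM {V E : Type} [Fintype E] [DecidableEq V] {G : Gph V E} (Fr : Frame G) (v0 : V)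
    (j T ℓ ρ r k t : ℕ) : Prop :=
  ∀ (X : Type) (B : Fm X → Prop) (Ls : Finset (Fm X)) (i0 cap : ℕ)
    (S : Valn Fr v0 X {f | (∃ A ∈ Ls, f ∈ A.subs) ∧ lev B f ≤ i0} cap),
    Bas B → Ls.card ≤ 2 ^ t → (∀ A ∈ Ls, A.subs.toFinset.card ≤ 2 ^ k) →
    ρ * (T + ℓ) ≤ cap → cap ≤ Fr.m → CDcds S Ls T ℓ →
    ∀ R : List Rule, (∀ q ∈ R, q.Sound) → (∀ q ∈ R, q.nodes + 1 ≤ r) →
    ∀ Ax : Set (Fm X),
      (∀ F ∈ Ax, F ∈ Ls → AndOf (fun f => lev B f ≤ i0 ∧ S.True' (T + ℓ) f) F) →
    ∀ b : Fm ℕ, b.Unsat → b.size + 1 ≤ r →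
    ∀ (τ : ℕ → X) (π : List (Fm X)), Derives R Ax π → b.map τ ∈ π →
    (∀ A ∈ π, A ∈ Ls ∧ lev B A ≤ i0 + j) → False

end FrU
end

section

/-!
Embeddings of graphs: composition, further edges, products with a graph, splitting of vertices.

`embComp`: `base = base' ∘ base`, `prj = prj ∘ prj'`, `ext = ext' ∘ ext`.  `bd_ext`: by `bd_ext` twice;
`v'' = base' (base (prj (prj' v'')))` iff `v'' = base' (prj' v'')` and `prj' v'' = base (prj (prj' v''))` (apply `prj'`
to the first equation).  `ext_zero`: if `y` vanishes on `G.inc U` then `ext y` vanishes on the edges touching the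
fiber over `U`, apply `ext_zero` of the second embedding with that fiber.  `fib_card`: a fiber is a union of at
most `c` fibers of at most `c'` elements.

`embAdd`: `base = prj = id`, `ext = FrT.ext0` (`bd_ext0` in T/AddA.lean).

`embProd` (product with `Y`, layer `l0`): `base v = (v, l0)`, `prj = Prod.fst`,
`ext y = Sum.elim (fun p => if p.2 = l0 then y p.1 else 0) (fun _ => 0)`.

`embSplit`: the graph `splitG G pos q` has the vertices `V × Fin (q + 1)`; an edge `e` of `G` joins
`(src e, pos e false)` and `(tgt e, pos e true)`, and `(v, i)`, `(v, i + 1)` are joined by a path edge.  Here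
`pos e b` is a position `≥ 1`, and different ends of edges at the same vertex have different positions
(`PosOk`).  `base v = (v, 0)`, `prj = Prod.fst`, `ext y (inl e) = y e`, and `ext y (inr (v, i))` is the sum of `y` over
all ends of edges at `v` with position `> i`.  `bd_ext` at `(v, j)`, `j ≥ 1`: the path edges below and above
contribute `∑_(pos > j - 1) + ∑_(pos > j)` (`= ∑_(pos > j - 1)` if `j = q`, where `∑_(pos > q) = 0`), in
total the sum over the ends with position exactly `j`, and the edges of `G` with an end at `(v, j)` contribute the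
same, total `0`.  At `(v, 0)`: the path edge `(v, 0)` contributes the sum over all ends (positions `≥ 1`), i.e.
`G.bd y v`, and no edge of `G` ends there.  (For `q = 0` there are no positions `≥ 1`, so no edges.)
`exists_pos`: if all degrees are at most `q` and there are no loops: enumerate `G.star v` (at most `q` edges)
and let the position of `e` at `v` be its number plus `1`.
Degrees: `(v, 0)` has only the path edge above (degree at most `1`), `(v, j)` at most two path edges and one edge
of `G` (`PosOk`).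
-/

set_option linter.unusedSectionVars false

namespace FrU

open Finset Fr56 FrC FrG FrT
open scoped Classical

section
variable {V E V' E' V'' E'' : Type} [Fintype V] [Fintype E] [DecidableEq V] [Fintype V']
  [Fintype E'] [DecidableEq V'] [Fintype V''] [Fintype E''] [DecidableEq V'']

/-- composition of embeddings -/
def embComp {G : Gph V E} {G' : Gph V' E'} {G'' : Gph V'' E''} {c c' : ℕ} (Em : Emb G G' c)
    (Em' : Emb G' G'' c') : Emb G G'' (c * c') where
  base := Em'.base ∘ Em.base
  prj := Em.prj ∘ Em'.prj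
  prj_base := by
    intro v
    simp only [Function.comp_apply]
    rw [Em'.prj_base, Em.prj_base]
  ext y := Em'.ext (Em.ext y)
  ext_add := by
    intro y z
    rw [Em.ext_add, Em'.ext_add]
  bd_ext := by
    intro y v'
    simp only [Function.comp_apply]
    rw [Em'.bd_ext, Em.bd_ext]
    by_cases h : v' = Em'.base (Em.base (Em.prj (Em'.prj v')))
    · have h1 : Em'.prj v' = Em.base (Em.prj (Em'.prj v')) := by
        have := congrArg Em'.prj h
        rwa [Em'.prj_base] at this
      have h2 : v' = Em'.base (Em'.prj v') := by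
        rw [← h1] at h
        exact h
      rw [if_pos h2, if_pos h1, if_pos h]
    · rw [if_neg h]
      split_ifs with h1 h2
      · exfalso
        apply h
        rw [← h2]
        exact h1
      · rfl
      · rfl
  ext_zero := by
    intro y U hU e' he'
    refine Em'.ext_zero (Em.ext y) (univ.filter fun v' => Em.prj v' ∈ U) ?_ e' ?_
    · intro e he
      refine Em.ext_zero y U hU e ?_
      rcases he with he | he
      · exact Or.inl (Finset.mem_filter.1 he).2
      · exact Or.inr (Finset.mem_filter.1 he).2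
    · rcases he' with he' | he'
      · exact Or.inl (Finset.mem_filter.2 ⟨Finset.mem_univ _, he'⟩)
      · exact Or.inr (Finset.mem_filter.2 ⟨Finset.mem_univ _, he'⟩)
  fib_card := by
    intro v
    have hsub : (univ.filter fun v'' => (Em.prj ∘ Em'.prj) v'' = v) ⊆
        (univ.filter fun v' => Em.prj v' = v).biUnion
          (fun v' => univ.filter fun v'' => Em'.prj v'' = v') := by
      intro x hx
      simp only [Finset.mem_filter, Finset.mem_univ, true_and, Function.comp_apply,
        Finset.mem_biUnion] at hx ⊢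
      exact ⟨_, hx, rfl⟩
    refine (Finset.card_le_card hsub).trans ?_
    refine (Finset.card_biUnion_le_card_mul _ _ c' fun v' _ => Em'.fib_card v').trans ?_
    exact Nat.mul_le_mul_right c' (Em.fib_card v)

/-- further edges -/
def embAdd (G : Gph V E) (X : Gph V E') : Emb G (addG G X) 1 where
  base := id
  prj := id
  prj_base := by
    intro v
    rfl
  ext y := ext0 y
  ext_add := by
    intro y z
    funext e
    rcases e with e | e
    · rfl
    · simp [ext0]
  bd_ext := by
    intro y v'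
    rw [bd_ext0]
    simp
  ext_zero := by
    intro y U hU e' he'
    rcases e' with e | e
    · exact hU e he'
    · rfl
  fib_card := by
    intro v
    refine (Finset.card_le_one).2 ?_
    intro a ha b hb
    simp only [Finset.mem_filter, Finset.mem_univ, true_and, id] at ha hb
    rw [ha, hb]

/-- product with a graph -/
def embProd {Λ F : Type} [Fintype Λ] [Fintype F] [DecidableEq Λ] (P : Gph V E) (Y : Gph Λ F)
    (l0 : Λ) : Emb P (prodG P Y) (Fintype.card Λ) where
  base v := (v, l0)
  prj := Prod.fst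
  prj_base := by
    intro v
    rfl
  ext y := Sum.elim (fun p => if p.2 = l0 then y p.1 else 0) (fun _ => 0)
  ext_add := by
    intro y z
    funext e
    rcases e with e | e
    · simp only [Pi.add_apply, Sum.elim_inl]
      split_ifs
      · rfl
      · simp
    · simp
  bd_ext := by
    rintro y ⟨v, l⟩
    simp only [Gph.bd, prodG, Fintype.sum_sum_type, Sum.elim_inl, Sum.elim_inr, ite_self, add_zero,
      Finset.sum_const_zero, Prod.mk.injEq, Fintype.sum_prod_type]
    by_cases h : l = l0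
    · subst h
      simp only [and_self, if_true, true_and]
      refine Finset.sum_congr rfl fun e _ => ?_
      rw [Finset.sum_eq_single l]
      · simp
      · intro l' _ hl'
        simp [hl']
      · intro h
        exact absurd (Finset.mem_univ _) h
    · simp only [h, and_false, if_false]
      refine Finset.sum_eq_zero fun e _ => Finset.sum_eq_zero fun l' _ => ?_
      by_cases h' : l' = l0
      · have h2 : l' ≠ l := fun h3 => h (h3 ▸ h')
        simp [h2]
      · simp [h']
  ext_zero := by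
    intro y U hU e' he'
    rcases e' with e | e
    · simp only [Sum.elim_inl]
      split_ifs
      · exact hU e.1 he'
      · rfl
    · rfl
  fib_card := by
    intro v
    have hsub : (univ.filter fun v' : V × Λ => v'.1 = v) ⊆ univ.image fun l : Λ => (v, l) := by
      rintro ⟨a, l⟩ h
      simp only [Finset.mem_filter, Finset.mem_univ, true_and] at h
      simp [h]
    exact (Finset.card_le_card hsub).trans (Finset.card_image_le.trans (by simp))

/-- the vertex at an end of an edge -/
def endv (G : Gph V E) (e : E) (b : Bool) : V := if b then G.tgt e else G.src e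

/-- different ends of edges at the same vertex have different positions, all positions are `≥ 1` -/
def PosOk (G : Gph V E) {q : ℕ} (pos : E → Bool → Fin (q + 1)) : Prop :=
  (∀ e b, pos e b ≠ 0) ∧ ∀ e b e' b', endv G e b = endv G e' b' → pos e b = pos e' b' →
    e = e' ∧ b = b'

/-- splitting of vertices: each vertex is replaced by a path with `q + 1` vertices -/
def splitG (G : Gph V E) {q : ℕ} (pos : E → Bool → Fin (q + 1)) :
    Gph (V × Fin (q + 1)) (E ⊕ (V × Fin q)) where
  src := Sum.elim (fun e => (G.src e, pos e false)) (fun p => (p.1, p.2.castSucc))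
  tgt := Sum.elim (fun e => (G.tgt e, pos e true)) (fun p => (p.1, p.2.succ))

/-- sum over the ends of edges at `v` with position `> i` -/
def extS (G : Gph V E) {q : ℕ} (pos : E → Bool → Fin (q + 1)) (y : E → ZMod 2) (v : V) (i : ℕ) :
    ZMod 2 :=
  ∑ e, ((if G.src e = v ∧ i < (pos e false).val then y e else 0) +
    (if G.tgt e = v ∧ i < (pos e true).val then y e else 0))

/-- sum over the ends of edges at `v` with position `i` -/
private def endS (G : Gph V E) {q : ℕ} (pos : E → Bool → Fin (q + 1)) (y : E → ZMod 2) (v : V)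
    (i : ℕ) : ZMod 2 :=
  ∑ e, ((if G.src e = v ∧ (pos e false).val = i then y e else 0) +
    (if G.tgt e = v ∧ (pos e true).val = i then y e else 0))

private theorem extS_succ (G : Gph V E) {q : ℕ} (pos : E → Bool → Fin (q + 1)) (y : E → ZMod 2)
    (v : V) (i : ℕ) : extS G pos y v i = endS G pos y v (i + 1) + extS G pos y v (i + 1) := by
  have key : ∀ (w : V) (k : ℕ) (x : ZMod 2), (if w = v ∧ i < k then x else 0) =
      (if w = v ∧ k = i + 1 then x else 0) + (if w = v ∧ i + 1 < k then x else 0) := by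
    intro w k x
    by_cases hw : w = v
    · rcases lt_trichotomy k (i + 1) with h | h | h
      · rw [if_neg (by omega), if_neg (by omega), if_neg (by omega), add_zero]
      · rw [if_pos ⟨hw, by omega⟩, if_pos ⟨hw, h⟩, if_neg (by omega), add_zero]
      · rw [if_pos ⟨hw, by omega⟩, if_neg (by omega), if_pos ⟨hw, h⟩, zero_add]
    · simp [hw]
  unfold extS endS
  rw [← Finset.sum_add_distrib]
  refine Finset.sum_congr rfl fun e _ => ?_
  rw [key (G.src e), key (G.tgt e)]
  ring

private theorem extS_last (G : Gph V E) {q : ℕ} (pos : E → Bool → Fin (q + 1)) (y : E → ZMod 2)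
    (v : V) : extS G pos y v q = 0 := by
  unfold extS
  refine Finset.sum_eq_zero fun e _ => ?_
  have h1 := (pos e false).isLt
  have h2 := (pos e true).isLt
  rw [if_neg (by omega), if_neg (by omega), add_zero]

private theorem extS_zero (G : Gph V E) {q : ℕ} (pos : E → Bool → Fin (q + 1))
    (hpos : PosOk G pos) (y : E → ZMod 2) (v : V) : extS G pos y v 0 = G.bd y v := by
  unfold extS Gph.bd
  refine Finset.sum_congr rfl fun e _ => ?_
  have h1 : 0 < (pos e false).val := Nat.pos_of_ne_zero fun h => hpos.1 e false (Fin.ext h)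
  have h2 : 0 < (pos e true).val := Nat.pos_of_ne_zero fun h => hpos.1 e true (Fin.ext h)
  simp [h1, h2]

private theorem endS_zero (G : Gph V E) {q : ℕ} (pos : E → Bool → Fin (q + 1))
    (hpos : PosOk G pos) (y : E → ZMod 2) (v : V) : endS G pos y v 0 = 0 := by
  unfold endS
  refine Finset.sum_eq_zero fun e _ => ?_
  have h1 : (pos e false).val ≠ 0 := fun h => hpos.1 e false (Fin.ext h)
  have h2 : (pos e true).val ≠ 0 := fun h => hpos.1 e true (Fin.ext h)
  simp [h1, h2]

private theorem sum_cast (G : Gph V E) {q : ℕ} (pos : E → Bool → Fin (q + 1)) (y : E → ZMod 2)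
    (v : V) (j : Fin (q + 1)) :
    (∑ p : V × Fin q, if (p.1, p.2.castSucc) = (v, j) then extS G pos y p.1 p.2.val else 0) =
      extS G pos y v j.val := by
  induction j using Fin.lastCases with
  | last =>
    rw [Fin.val_last, extS_last]
    refine Finset.sum_eq_zero fun p _ => ?_
    rw [if_neg]
    intro h
    exact (Fin.castSucc_ne_last p.2) (Prod.mk.inj h).2
  | cast i =>
    rw [Finset.sum_eq_single (v, i)]
    · simp
    · intro p _ hp
      rw [if_neg]
      intro h
      apply hp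
      have h1 := Prod.mk.inj h
      exact Prod.ext h1.1 (Fin.castSucc_injective q h1.2)
    · intro h
      exact absurd (Finset.mem_univ _) h

private theorem sum_succ (G : Gph V E) {q : ℕ} (pos : E → Bool → Fin (q + 1)) (y : E → ZMod 2)
    (v : V) (i : Fin q) :
    (∑ p : V × Fin q, if (p.1, p.2.succ) = (v, i.succ) then extS G pos y p.1 p.2.val else 0) =
      extS G pos y v i.val := by
  rw [Finset.sum_eq_single (v, i)]
  · simp
  · intro p _ hp
    rw [if_neg]
    intro h
    apply hp
    have h1 := Prod.mk.inj h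
    exact Prod.ext h1.1 (Fin.succ_injective q h1.2)
  · intro h
    exact absurd (Finset.mem_univ _) h

private theorem sum_succ_zero (G : Gph V E) {q : ℕ} (pos : E → Bool → Fin (q + 1))
    (y : E → ZMod 2) (v : V) :
    (∑ p : V × Fin q, if (p.1, p.2.succ) = (v, 0) then extS G pos y p.1 p.2.val else 0) = 0 := by
  refine Finset.sum_eq_zero fun p _ => ?_
  rw [if_neg]
  intro h
  exact (Fin.succ_ne_zero p.2) (Prod.mk.inj h).2

private theorem sum_ends (G : Gph V E) {q : ℕ} (pos : E → Bool → Fin (q + 1)) (y : E → ZMod 2)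
    (v : V) (j : Fin (q + 1)) :
    (∑ e, ((if (G.src e, pos e false) = (v, j) then y e else 0) +
      (if (G.tgt e, pos e true) = (v, j) then y e else 0))) = endS G pos y v j.val := by
  unfold endS
  refine Finset.sum_congr rfl fun e _ => ?_
  simp only [Prod.mk.injEq, Fin.ext_iff]

private theorem bd_split (G : Gph V E) {q : ℕ} (pos : E → Bool → Fin (q + 1))
    (y : E → ZMod 2) (v : V) (j : Fin (q + 1)) :
    (splitG G pos).bd (Sum.elim y fun p => extS G pos y p.1 p.2.val) (v, j) =
      endS G pos y v j.val + (extS G pos y v j.val +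
        ∑ p : V × Fin q, if (p.1, p.2.succ) = (v, j) then extS G pos y p.1 p.2.val else 0) := by
  unfold Gph.bd
  rw [Fintype.sum_sum_type]
  simp only [splitG, Sum.elim_inl, Sum.elim_inr]
  rw [sum_ends, Finset.sum_add_distrib, sum_cast]

/-- the embedding given by splitting -/
def embSplit (G : Gph V E) {q : ℕ} (pos : E → Bool → Fin (q + 1)) (hpos : PosOk G pos) :
    Emb G (splitG G pos) (q + 1) where
  base v := (v, 0)
  prj := Prod.fst
  prj_base := by
    intro v
    rfl
  ext y := Sum.elim y fun p => extS G pos y p.1 p.2.val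
  ext_add := by
    intro y z
    funext e
    rcases e with e | p
    · rfl
    · simp only [Pi.add_apply, Sum.elim_inr, extS]
      rw [← Finset.sum_add_distrib]
      refine Finset.sum_congr rfl fun e _ => ?_
      split_ifs <;> ring
  bd_ext := by
    rintro y ⟨v, j⟩
    rw [bd_split]
    induction j using Fin.cases with
    | zero =>
      rw [sum_succ_zero, add_zero]
      simp only [Fin.val_zero]
      rw [endS_zero G pos hpos, extS_zero G pos hpos, zero_add]
      simp
    | succ i =>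
      rw [sum_succ, Fin.val_succ, extS_succ G pos y v i.val, if_neg]
      · have h1 : endS G pos y v (i.val + 1) + endS G pos y v (i.val + 1) = 0 :=
          CharTwo.add_self_eq_zero _
        have h2 : extS G pos y v (i.val + 1) + extS G pos y v (i.val + 1) = 0 :=
          CharTwo.add_self_eq_zero _
        linear_combination h1 + h2
      · intro h
        exact (Fin.succ_ne_zero i) (Prod.mk.inj h).2
  ext_zero := by
    intro y U hU e' he'
    rcases e' with e | p
    · exact hU e he'
    · have hp : p.1 ∈ U := by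
        rcases he' with h | h
        · exact h
        · exact h
      simp only [Sum.elim_inr, extS]
      refine Finset.sum_eq_zero fun e _ => ?_
      have h1 : G.src e = p.1 → y e = 0 := fun h => hU e (Or.inl (by rw [h]; exact hp))
      have h2 : G.tgt e = p.1 → y e = 0 := fun h => hU e (Or.inr (by rw [h]; exact hp))
      split_ifs with h3 h4 h4
      · rw [h1 h3.1, add_zero]
      · rw [h1 h3.1, add_zero]
      · rw [h2 h4.1, add_zero]
      · rw [add_zero]
  fib_card := by
    intro v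
    have hsub : (univ.filter fun v' : V × Fin (q + 1) => v'.1 = v) ⊆
        univ.image fun l : Fin (q + 1) => (v, l) := by
      rintro ⟨a, l⟩ h
      simp only [Finset.mem_filter, Finset.mem_univ, true_and] at h
      simp [h]
    exact (Finset.card_le_card hsub).trans (Finset.card_image_le.trans (by simp))

theorem exists_pos (G : Gph V E) {q : ℕ} (hl : G.NoLoop) (hdeg : G.Deg q) :
    ∃ pos : E → Bool → Fin (q + 1), PosOk G pos := by
  have hmem : ∀ e b, e ∈ G.star (endv G e b) := by
    intro e b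
    cases b
    · simp [Gph.star, endv]
    · simp [Gph.star, endv]
  have hlt : ∀ e b, (((G.star (endv G e b)).equivFin ⟨e, hmem e b⟩ : ℕ)) + 1 < q + 1 := by
    intro e b
    have h1 := ((G.star (endv G e b)).equivFin ⟨e, hmem e b⟩).isLt
    have h2 := hdeg (endv G e b)
    omega
  refine ⟨fun e b => ⟨_, hlt e b⟩, ?_, ?_⟩
  · intro e b h
    have := congrArg Fin.val h
    simp at this
  · intro e b e' b' hv hp
    have h1 := congrArg Fin.val hp
    simp only [Nat.add_right_cancel_iff] at h1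
    have h2 : ∀ (v v' : V) (hvv : v = v') (he : e ∈ G.star v) (he' : e' ∈ G.star v'),
        ((G.star v).equivFin ⟨e, he⟩ : ℕ) = ((G.star v').equivFin ⟨e', he'⟩ : ℕ) → e = e' := by
      rintro v _ rfl he he' h
      have := (G.star v).equivFin.injective (Fin.ext h)
      exact congrArg Subtype.val this
    have hee := h2 _ _ hv (hmem e b) (hmem e' b') h1
    subst hee
    refine ⟨rfl, ?_⟩
    cases b <;> cases b'
    · rfl
    · exact absurd hv (by simpa [endv] using hl e)
    · exact absurd hv (by simpa [endv] using (hl e).symm)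
    · rfl

theorem noLoop_split (G : Gph V E) {q : ℕ} (pos : E → Bool → Fin (q + 1)) (hl : G.NoLoop) :
    (splitG G pos).NoLoop := by
  rintro (e | p) h
  · exact hl e (Prod.mk.inj h).1
  · exact absurd (Prod.mk.inj h).2 (Fin.castSucc_lt_succ (i := p.2)).ne

private theorem mem_star_split (G : Gph V E) {q : ℕ} (pos : E → Bool → Fin (q + 1))
    (hpos : PosOk G pos) (v : V) (j : Fin (q + 1)) :
    (((splitG G pos).star (v, j)).filter fun x => ∃ e, x = Sum.inl e).card ≤ 1 ∧
    (((splitG G pos).star (v, j)).filter fun x => ∃ p, x = Sum.inr p ∧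
      (p.1, p.2.castSucc) = (v, j)).card ≤ 1 ∧
    (((splitG G pos).star (v, j)).filter fun x => ∃ p, x = Sum.inr p ∧
      (p.1, p.2.succ) = (v, j)).card ≤ 1 := by
  refine ⟨?_, ?_, ?_⟩
  · refine Finset.card_le_one.2 ?_
    intro a ha b hb
    obtain ⟨ha1, e, rfl⟩ := Finset.mem_filter.1 ha
    obtain ⟨hb1, e', rfl⟩ := Finset.mem_filter.1 hb
    have key : ∀ e, (Sum.inl e : E ⊕ (V × Fin q)) ∈ (splitG G pos).star (v, j) →
        ∃ c, endv G e c = v ∧ pos e c = j := by
      intro e he
      rcases (Finset.mem_filter.1 he).2 with h | h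
      · exact ⟨false, (Prod.mk.inj h).1, (Prod.mk.inj h).2⟩
      · exact ⟨true, (Prod.mk.inj h).1, (Prod.mk.inj h).2⟩
    obtain ⟨c, hc1, hc2⟩ := key e ha1
    obtain ⟨c', hc1', hc2'⟩ := key e' hb1
    rw [(hpos.2 e c e' c' (hc1.trans hc1'.symm) (hc2.trans hc2'.symm)).1]
  · refine Finset.card_le_one.2 ?_
    intro a ha b hb
    obtain ⟨-, p, rfl, h1⟩ := Finset.mem_filter.1 ha
    obtain ⟨-, p', rfl, h2⟩ := Finset.mem_filter.1 hb
    have h3 := Prod.mk.inj (h1.trans h2.symm)
    rw [show p = p' from Prod.ext h3.1 (Fin.castSucc_injective q h3.2)]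
  · refine Finset.card_le_one.2 ?_
    intro a ha b hb
    obtain ⟨-, p, rfl, h1⟩ := Finset.mem_filter.1 ha
    obtain ⟨-, p', rfl, h2⟩ := Finset.mem_filter.1 hb
    have h3 := Prod.mk.inj (h1.trans h2.symm)
    rw [show p = p' from Prod.ext h3.1 (Fin.succ_injective q h3.2)]

theorem deg_split (G : Gph V E) {q : ℕ} (pos : E → Bool → Fin (q + 1)) (hpos : PosOk G pos) :
    (splitG G pos).Deg 3 := by
  rintro ⟨v, j⟩
  obtain ⟨h1, h2, h3⟩ := mem_star_split G pos hpos v j
  have hsub : (splitG G pos).star (v, j) ⊆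
      (((splitG G pos).star (v, j)).filter fun x => ∃ e, x = Sum.inl e) ∪
      ((((splitG G pos).star (v, j)).filter fun x => ∃ p, x = Sum.inr p ∧
        (p.1, p.2.castSucc) = (v, j)) ∪
      (((splitG G pos).star (v, j)).filter fun x => ∃ p, x = Sum.inr p ∧
        (p.1, p.2.succ) = (v, j))) := by
    intro x hx
    rcases x with e | p
    · exact Finset.mem_union_left _ (Finset.mem_filter.2 ⟨hx, e, rfl⟩)
    · refine Finset.mem_union_right _ ?_
      rcases (Finset.mem_filter.1 hx).2 with h | h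
      · exact Finset.mem_union_left _ (Finset.mem_filter.2 ⟨hx, p, rfl, h⟩)
      · exact Finset.mem_union_right _ (Finset.mem_filter.2 ⟨hx, p, rfl, h⟩)
  have h4 := (Finset.card_le_card hsub).trans (Finset.card_union_le _ _)
  have h5 := Finset.card_union_le (((splitG G pos).star (v, j)).filter fun x => ∃ p, x = Sum.inr p ∧
        (p.1, p.2.castSucc) = (v, j)) (((splitG G pos).star (v, j)).filter fun x => ∃ p, x = Sum.inr p ∧
        (p.1, p.2.succ) = (v, j))
  omega

/-- a base vertex has degree at most `1` -/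
theorem deg_split_base (G : Gph V E) {q : ℕ} (pos : E → Bool → Fin (q + 1)) (hpos : PosOk G pos)
    (v : V) : ((splitG G pos).star (v, 0)).card ≤ 1 := by
  obtain ⟨-, h2, -⟩ := mem_star_split G pos hpos v 0
  refine le_trans (Finset.card_le_card ?_) h2
  intro x hx
  refine Finset.mem_filter.2 ⟨hx, ?_⟩
  rcases x with e | p
  · exfalso
    rcases (Finset.mem_filter.1 hx).2 with h | h
    · exact hpos.1 e false (Prod.mk.inj h).2
    · exact hpos.1 e true (Prod.mk.inj h).2
  · refine ⟨p, rfl, ?_⟩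
    rcases (Finset.mem_filter.1 hx).2 with h | h
    · exact h
    · exact absurd (Prod.mk.inj h).2 (Fin.succ_ne_zero p.2)

/-- all vertices have positive degree if `0 < q` -/
theorem star_split (G : Gph V E) {q : ℕ} (hq : 0 < q) (pos : E → Bool → Fin (q + 1))
    (p : V × Fin (q + 1)) : ((splitG G pos).star p).Nonempty := by
  obtain ⟨v, j⟩ := p
  induction j using Fin.cases with
  | zero =>
    refine ⟨Sum.inr (v, ⟨0, hq⟩), Finset.mem_filter.2 ⟨Finset.mem_univ _, Or.inl ?_⟩⟩
    simp only [splitG, Sum.elim_inr]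
    exact Prod.ext rfl (Fin.ext rfl)
  | succ i =>
    exact ⟨Sum.inr (v, i), Finset.mem_filter.2 ⟨Finset.mem_univ _, Or.inr rfl⟩⟩

end

end FrU
end

section

/-!
Detours in a product: the horizontal edges.

Notation: `c = |Λ|`, `λ = |L|`, `L_v = Lver L v` (vertical edges of `L` over `v`), `L_e = {l | inl (e, l) ∈ L}`,
`v` is heavy if `¬ 16 H' |L_v| ≤ c`.  `h(v) = fibU U v`.

PROOF of `hor_det`.  For `e : E` with endpoints `v, w` let `M_e = L_e ∪ A v ∪ A w`.  Then
`∑_e |M_e| ≤ λ + Δp ∑_v |A v| ≤ (1 + 2 H' Δp) λ` (each `v` is an endpoint of at most `Δp` edges).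
Call `e` heavy if one of its endpoints is heavy or `3 c ≤ 4 |M_e|`.  The number `h` of heavy edges
satisfies `h c ≤ K6 λ`, `K6 = 2 + 20 H' Δp`: the number of heavy `v` times `c` is at most
`∑_v 16 H' |L_v| ≤ 16 H' λ`, each has at most `Δp` edges; and the number of `e` with `3 c ≤ 4 |M_e|`
times `c` is at most `(4 / 3) (1 + 2 H' Δp) λ ≤ 2 (1 + 2 H' Δp) λ`.
Total flow: `φ e = ∑_l f (inl (e, l))`.  `P.bd φ v = ∑_l (prodG P Y).bd f (v, l) = 0` (in the sum over the
fiber each vertical edge is counted twice; compare `bd_flow` in T/TallD.lean).  `φ = 0` on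
`P.inc (fullU U)` (all copies of such an edge touch `U`).  By `FrT.base_det` for `P` and the closed set
`fullU U` (first part of `PClosed`) there is `φ'` closed, zero on `P.inc (fullU U)`, equal to `φ` on the
heavy edges, with `|bsV P φ'| ≤ Kd H Δp |V| * h`; and `Kd * h ≤ λ`: `Kd h K6 ≤ Kd h K6`... precisely
`(Kd h) c ≤ Kd K6 λ ≤ c λ` by `hc`, and `c > 0`.  So `φ'` has at most `Δp λ` edges in its support.
Definition of `fh`: if `e ∈ P.inc (fullU U)`: `fh (e, l) = 0` for all `l` (there `f = 0` on all copies, so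
all required equalities hold, and `∑_l fh (e, l) = 0 = φ' e`).  If `e` is heavy: `fh (e, l) = f (inl (e, l))`
for all `l`, so the sum is `φ e = φ' e`.  Otherwise (`e` not heavy, endpoints `v, w ∉ fullU U`): by the
second part of `PClosed` `h(v), h(w)` are closed and not `univ`, so `8 |h(v)| ≤ c`, `8 |h(w)| ≤ c`
(`CY.small`), and `4 |M_e| < 3 c`, so there is a layer `l0 ∉ M_e ∪ h(v) ∪ h(w)`.  Put
`fh (e, l) = f (inl (e, l))` for `l ∈ M_e`, `fh (e, l0) = φ' e + ∑_(l ∈ M_e) f (inl (e, l))`, and `0` for all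
other `l`; the sum over `l` is `φ' e` (characteristic 2).
Properties: equality with `f` on `L`, on the layers in `A v`, `A w`, and on heavy endpoints: clear.
Zero on `inl p ∈ inc U`: `inl (e, l)` touches `U` iff `l ∈ h(v) ∪ h(w)`; there `f = 0` and `l ≠ l0`.
Closed flow: `∑_l fh (e, l) = φ' e` for all `e`.
Size: heavy edges give at most `h c ≤ K6 λ`; the others at most
`∑_e |M_e| + #{e | M_e ≠ ∅} + #{e | φ' e ≠ 0} ≤ 2 (1 + 2 H' Δp) λ + Δp λ`; the sum is at most
`K7 H' Δp * λ = (4 + 24 H' Δp + Δp) λ`.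
-/

set_option linter.unusedSectionVars false

namespace FrU

open Finset Fr56 FrC FrG FrT
open scoped Classical

section
variable {V E Λ F : Type} [Fintype V] [Fintype E] [DecidableEq V] [DecidableEq E]
  [Fintype Λ] [Fintype F] [DecidableEq Λ] [DecidableEq F]

/-- the vertical edges of `L` over `v` -/
noncomputable def Lver (L : Finset ((E × Λ) ⊕ (V × F))) (v : V) : Finset F :=
  univ.filter fun ε => Sum.inr (v, ε) ∈ L

private theorem mem_starP {P : Gph V E} {e : E} {v : V} :
    e ∈ P.star v ↔ P.src e = v ∨ P.tgt e = v := by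
  unfold Gph.star
  rw [Finset.mem_filter]
  exact ⟨fun h => h.2, fun h => ⟨Finset.mem_univ _, h⟩⟩

private theorem sum_end {P : Gph V E} {Δ : ℕ} (hnl : P.NoLoop) (hdeg : P.Deg Δ) (w : V → ℕ) :
    ∑ e, (w (P.src e) + w (P.tgt e)) ≤ Δ * ∑ v, w v := by
  have h1 : ∀ e, w (P.src e) + w (P.tgt e) = ∑ v, (if e ∈ P.star v then w v else 0) := by
    intro e
    have h2 : ∀ v, (if e ∈ P.star v then w v else 0) =
        (if P.src e = v then w v else 0) + (if P.tgt e = v then w v else 0) := by
      intro v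
      have h3 := hnl e
      by_cases ha : P.src e = v
      · have hb : P.tgt e ≠ v := fun hb => h3 (ha.trans hb.symm)
        rw [if_pos (mem_starP.2 (Or.inl ha)), if_pos ha, if_neg hb, add_zero]
      · by_cases hb : P.tgt e = v
        · rw [if_pos (mem_starP.2 (Or.inr hb)), if_neg ha, if_pos hb, zero_add]
        · rw [if_neg (fun h => (mem_starP.1 h).elim ha hb), if_neg ha, if_neg hb]
    rw [Finset.sum_congr rfl fun v _ => h2 v, Finset.sum_add_distrib]
    simp
  rw [Finset.sum_congr rfl fun e _ => h1 e, Finset.sum_comm, Finset.mul_sum]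
  refine Finset.sum_le_sum fun v _ => ?_
  rw [Finset.sum_ite_mem, Finset.univ_inter, Finset.sum_const, smul_eq_mul]
  exact Nat.mul_le_mul_right _ (hdeg v)

private theorem card_hor (L : Finset ((E × Λ) ⊕ (V × F))) :
    ∑ e : E, (univ.filter fun l : Λ => (Sum.inl (e, l) : (E × Λ) ⊕ (V × F)) ∈ L).card ≤
      L.card := by
  have h2 : ∑ e : E, (univ.filter fun l : Λ => (Sum.inl (e, l) : (E × Λ) ⊕ (V × F)) ∈ L).card =
      (univ.filter fun p : E × Λ => (Sum.inl p : (E × Λ) ⊕ (V × F)) ∈ L).card := by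
    simp only [Finset.card_filter]
    rw [Fintype.sum_prod_type]
  rw [h2]
  refine Finset.card_le_card_of_injOn Sum.inl ?_ (fun _ _ _ _ h => Sum.inl_injective h)
  intro p hp
  exact (Finset.mem_filter.1 hp).2

private theorem card_ver (L : Finset ((E × Λ) ⊕ (V × F))) :
    ∑ v : V, (Lver L v).card ≤ L.card := by
  have h2 : ∑ v : V, (Lver L v).card =
      (univ.filter fun p : V × F => (Sum.inr p : (E × Λ) ⊕ (V × F)) ∈ L).card := by
    unfold Lver
    simp only [Finset.card_filter]
    rw [Fintype.sum_prod_type]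
  rw [h2]
  refine Finset.card_le_card_of_injOn Sum.inr ?_ (fun _ _ _ _ h => Sum.inr_injective h)
  intro p hp
  exact (Finset.mem_filter.1 hp).2

/-- the sum over the layers is closed -/
private theorem bd_flowP (P : Gph V E) (Y : Gph Λ F) (f : (E × Λ) ⊕ (V × F) → ZMod 2)
    (hf : (prodG P Y).bd f = 0) : P.bd (fun e => ∑ l : Λ, f (Sum.inl (e, l))) = 0 := by
  funext v
  have h1 : ∑ l : Λ, (prodG P Y).bd f (v, l) = 0 := by
    refine Finset.sum_eq_zero fun l _ => ?_
    rw [hf]
    rfl
  rw [Pi.zero_apply, ← h1]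
  unfold Gph.bd
  rw [Finset.sum_comm, Fintype.sum_sum_type]
  have h2 : ∑ x : V × F, ∑ l : Λ,
      ((if (prodG P Y).src (Sum.inr x) = (v, l) then f (Sum.inr x) else 0) +
      (if (prodG P Y).tgt (Sum.inr x) = (v, l) then f (Sum.inr x) else 0)) = 0 := by
    refine Finset.sum_eq_zero fun x _ => ?_
    obtain ⟨u, i⟩ := x
    rw [Finset.sum_add_distrib]
    simp only [prodG, Sum.elim_inr, Prod.mk.injEq]
    by_cases hu : u = v
    · simp only [hu, true_and, Finset.sum_ite_eq, Finset.mem_univ, if_true]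
      exact CharTwo.add_self_eq_zero _
    · simp [hu]
  rw [h2, add_zero, Fintype.sum_prod_type]
  refine Finset.sum_congr rfl fun e _ => ?_
  rw [Finset.sum_comm]
  have h3 : ∀ l : Λ, ∑ l' : Λ,
      ((if (prodG P Y).src (Sum.inl (e, l')) = (v, l) then f (Sum.inl (e, l')) else 0) +
      (if (prodG P Y).tgt (Sum.inl (e, l')) = (v, l) then f (Sum.inl (e, l')) else 0)) =
      (if P.src e = v then f (Sum.inl (e, l)) else 0) +
        (if P.tgt e = v then f (Sum.inl (e, l)) else 0) := by
    intro l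
    simp only [prodG, Sum.elim_inl, Prod.mk.injEq]
    rw [Finset.sum_eq_single l]
    · simp
    · intro b _ hb
      simp [hb]
    · simp
  rw [Finset.sum_congr rfl fun l _ => h3 l, Finset.sum_add_distrib]
  congr 1
  · by_cases h : P.src e = v <;> simp [h]
  · by_cases h : P.tgt e = v <;> simp [h]

private theorem mem_fibU {U : Finset (V × Λ)} {v : V} {l : Λ} : l ∈ fibU U v ↔ (v, l) ∈ U := by
  simp only [fibU, Finset.mem_filter, Finset.mem_univ, true_and]

private theorem mem_fullU {U : Finset (V × Λ)} {v : V} : v ∈ fullU U ↔ fibU U v = univ := by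
  simp only [fullU, Finset.mem_filter, Finset.mem_univ, true_and]

/-- the chain on the copies of one edge -/
private theorem one_edge {ψ : Λ → ZMod 2} {M B : Finset Λ} {x : ZMod 2}
    (hB : ∀ l ∈ B, ψ l = 0) (hM : 8 * (M.card + B.card) < 8 * Fintype.card Λ) :
    ∃ g : Λ → ZMod 2, (∀ l ∈ M, g l = ψ l) ∧ (∀ l ∈ B, g l = 0) ∧ ∑ l, g l = x ∧
      (univ.filter fun l => g l ≠ 0).card ≤ 2 * M.card + if x = 0 then 0 else 1 := by
  obtain ⟨l0, hl0⟩ : ∃ l0 : Λ, l0 ∉ M ∪ B := by
    by_contra hcon
    push Not at hcon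
    have h1 : (M ∪ B) = univ := Finset.eq_univ_iff_forall.2 hcon
    have h2 := Finset.card_union_le M B
    rw [h1, Finset.card_univ] at h2
    omega
  rw [Finset.mem_union, not_or] at hl0
  refine ⟨fun l => if l ∈ M then ψ l else if l = l0 then x + ∑ l' ∈ M, ψ l' else 0,
    ?_, ?_, ?_, ?_⟩
  · intro l hl
    exact if_pos hl
  · intro l hl
    change (if l ∈ M then ψ l else if l = l0 then x + ∑ l' ∈ M, ψ l' else 0) = 0
    split_ifs with h1 h2
    · exact hB l hl
    · exact absurd (h2 ▸ hl) hl0.2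
    · rfl
  · have h1 : ∀ l, (if l ∈ M then ψ l else if l = l0 then x + ∑ l' ∈ M, ψ l' else 0) =
        (if l ∈ M then ψ l else 0) + (if l = l0 then x + ∑ l' ∈ M, ψ l' else 0) := by
      intro l
      split_ifs with h1 h2 h2
      · exact absurd (h2 ▸ h1) hl0.1
      · rw [add_zero]
      · rw [zero_add]
      · rw [add_zero]
    rw [Finset.sum_congr rfl fun l _ => h1 l, Finset.sum_add_distrib, Finset.sum_ite_mem,
      Finset.univ_inter, Finset.sum_ite_eq', if_pos (Finset.mem_univ _), add_comm x,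
      ← add_assoc, CharTwo.add_self_eq_zero, zero_add]
  · by_cases hx : x = 0 ∧ M = ∅
    · have h1 : (univ.filter fun l => (if l ∈ M then ψ l else
          if l = l0 then x + ∑ l' ∈ M, ψ l' else 0) ≠ 0) = ∅ := by
        rw [Finset.filter_eq_empty_iff]
        intro l _
        rw [not_not, hx.1, hx.2]
        simp
      rw [h1, Finset.card_empty]
      exact Nat.zero_le _
    · have h1 : (univ.filter fun l => (if l ∈ M then ψ l else
          if l = l0 then x + ∑ l' ∈ M, ψ l' else 0) ≠ 0) ⊆ insert l0 M := by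
        intro l hl
        rw [Finset.mem_filter] at hl
        rw [Finset.mem_insert]
        by_contra hcon
        rw [not_or] at hcon
        apply hl.2
        rw [if_neg hcon.2, if_neg hcon.1]
      have h2 := (Finset.card_le_card h1).trans (Finset.card_insert_le _ _)
      refine h2.trans ?_
      split_ifs with h3
      · have h4 : M ≠ ∅ := fun h4 => hx ⟨h3, h4⟩
        have h5 : 0 < M.card := Finset.card_pos.2 (Finset.nonempty_iff_ne_empty.2 h4)
        omega
      · omega

/-- **detours in a product: horizontal edges** -/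
theorem hor_det {P : Gph V E} {Y : Gph Λ F} {K H m K' H' m' Δp : ℕ} (CP : Clo P K H m)
    (CY : Clo Y K' H' m') (hdeg : P.Deg Δp) (hnl : P.NoLoop) (hnl' : Y.NoLoop) (hH' : 1 ≤ H')
    (hcpos : 0 < Fintype.card Λ)
    (hc : Kd H Δp (Fintype.card V) * (2 + 20 * H' * Δp) ≤ Fintype.card Λ)
    {U : Finset (V × Λ)} (hU : PClosed CP CY U) (L : Finset ((E × Λ) ⊕ (V × F)))
    (f : (E × Λ) ⊕ (V × F) → ZMod 2) (hf : (prodG P Y).bd f = 0)
    (hfU : ∀ e ∈ (prodG P Y).inc U, f e = 0) (A : V → Finset Λ)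
    (hA : ∀ v, (A v).card ≤ 2 * H' * (Lver L v).card)
    (hAh : ∀ v, ¬ 16 * H' * (Lver L v).card ≤ Fintype.card Λ → A v = ∅) :
    ∃ fh : E × Λ → ZMod 2,
      (∀ p, Sum.inl p ∈ L → fh p = f (Sum.inl p)) ∧
      (∀ e l, (l ∈ A (P.src e) ∨ l ∈ A (P.tgt e)) → fh (e, l) = f (Sum.inl (e, l))) ∧
      (∀ e l, (¬ 16 * H' * (Lver L (P.src e)).card ≤ Fintype.card Λ ∨
        ¬ 16 * H' * (Lver L (P.tgt e)).card ≤ Fintype.card Λ) → fh (e, l) = f (Sum.inl (e, l))) ∧
      (∀ p, Sum.inl p ∈ (prodG P Y).inc U → fh p = 0) ∧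
      P.bd (fun e => ∑ l, fh (e, l)) = 0 ∧
      (univ.filter fun p => fh p ≠ 0).card ≤ K7 H' Δp * L.card := by
  -- the sets of layers that have to be kept
  obtain ⟨M, hM⟩ : ∃ M : E → Finset Λ, M = fun e =>
      (univ.filter fun l : Λ => (Sum.inl (e, l) : (E × Λ) ⊕ (V × F)) ∈ L) ∪
        (A (P.src e) ∪ A (P.tgt e)) := ⟨_, rfl⟩
  have hMsum : ∑ e, (M e).card ≤ (1 + 2 * H' * Δp) * L.card := by
    have h1 : ∑ e, (M e).card ≤
        ∑ e : E, (univ.filter fun l : Λ => (Sum.inl (e, l) : (E × Λ) ⊕ (V × F)) ∈ L).card +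
          ∑ e, ((A (P.src e)).card + (A (P.tgt e)).card) := by
      rw [← Finset.sum_add_distrib]
      refine Finset.sum_le_sum fun e _ => ?_
      rw [hM]
      refine (Finset.card_union_le _ _).trans ?_
      exact Nat.add_le_add_left (Finset.card_union_le _ _) _
    have h2 := card_hor L
    have h3 := sum_end hnl hdeg fun v => (A v).card
    have h4 : ∑ v, (A v).card ≤ 2 * H' * L.card := by
      refine (Finset.sum_le_sum fun v _ => hA v).trans ?_
      rw [← Finset.mul_sum]
      exact Nat.mul_le_mul_left _ (card_ver L)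
    have h5 : Δp * ∑ v, (A v).card ≤ Δp * (2 * H' * L.card) := Nat.mul_le_mul_left _ h4
    have h6 : (1 + 2 * H' * Δp) * L.card = L.card + Δp * (2 * H' * L.card) := by ring
    rw [h6]
    exact h1.trans (Nat.add_le_add h2 (h3.trans h5))
  -- heavy edges
  obtain ⟨Hv, hHv⟩ : ∃ Hv : Finset E, Hv = univ.filter fun e =>
      (¬ 16 * H' * (Lver L (P.src e)).card ≤ Fintype.card Λ ∨
        ¬ 16 * H' * (Lver L (P.tgt e)).card ≤ Fintype.card Λ) ∨
      3 * Fintype.card Λ ≤ 4 * (M e).card := ⟨_, rfl⟩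
  have hmemHv : ∀ e, e ∈ Hv ↔ (¬ 16 * H' * (Lver L (P.src e)).card ≤ Fintype.card Λ ∨
        ¬ 16 * H' * (Lver L (P.tgt e)).card ≤ Fintype.card Λ) ∨
      3 * Fintype.card Λ ≤ 4 * (M e).card := by
    intro e
    rw [hHv, Finset.mem_filter]
    exact ⟨fun h => h.2, fun h => ⟨Finset.mem_univ _, h⟩⟩
  have hHvc : Hv.card * Fintype.card Λ ≤ (2 + 20 * H' * Δp) * L.card := by
    obtain ⟨hvV, hhvV⟩ : ∃ hvV : Finset V, hvV = univ.filter fun v =>
        ¬ 16 * H' * (Lver L v).card ≤ Fintype.card Λ := ⟨_, rfl⟩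
    obtain ⟨H2, hH2⟩ : ∃ H2 : Finset E, H2 = univ.filter fun e =>
        3 * Fintype.card Λ ≤ 4 * (M e).card := ⟨_, rfl⟩
    have h1 : Hv ⊆ hvV.biUnion P.star ∪ H2 := by
      intro e he
      rw [hmemHv] at he
      rw [Finset.mem_union, Finset.mem_biUnion, hH2, hhvV]
      rcases he with (he | he) | he
      · exact Or.inl ⟨P.src e, Finset.mem_filter.2 ⟨Finset.mem_univ _, he⟩,
          mem_starP.2 (Or.inl rfl)⟩
      · exact Or.inl ⟨P.tgt e, Finset.mem_filter.2 ⟨Finset.mem_univ _, he⟩,
          mem_starP.2 (Or.inr rfl)⟩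
      · exact Or.inr (Finset.mem_filter.2 ⟨Finset.mem_univ _, he⟩)
    have h2 : (hvV.biUnion P.star).card ≤ hvV.card * Δp :=
      Finset.card_biUnion_le_card_mul _ _ _ fun v _ => hdeg v
    have h3 : hvV.card * Fintype.card Λ ≤ 16 * H' * L.card := by
      have h4 : ∑ _v ∈ hvV, Fintype.card Λ ≤ ∑ v ∈ hvV, 16 * H' * (Lver L v).card := by
        refine Finset.sum_le_sum fun v hv => ?_
        rw [hhvV, Finset.mem_filter] at hv
        exact (not_le.1 hv.2).le
      rw [Finset.sum_const, smul_eq_mul] at h4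
      refine h4.trans ?_
      rw [← Finset.mul_sum]
      refine Nat.mul_le_mul_left _ ?_
      exact (Finset.sum_le_sum_of_subset (Finset.subset_univ _)).trans (card_ver L)
    have h5 : H2.card * (3 * Fintype.card Λ) ≤ 4 * ((1 + 2 * H' * Δp) * L.card) := by
      have h6 : ∑ _e ∈ H2, 3 * Fintype.card Λ ≤ ∑ e ∈ H2, 4 * (M e).card := by
        refine Finset.sum_le_sum fun e he => ?_
        rw [hH2, Finset.mem_filter] at he
        exact he.2
      rw [Finset.sum_const, smul_eq_mul] at h6
      refine h6.trans ?_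
      rw [← Finset.mul_sum]
      refine Nat.mul_le_mul_left _ ?_
      exact (Finset.sum_le_sum_of_subset (Finset.subset_univ _)).trans hMsum
    have h7 := (Finset.card_le_card h1).trans (Finset.card_union_le _ _)
    have h8 : Hv.card ≤ hvV.card * Δp + H2.card := by omega
    have h9 := Nat.mul_le_mul_right (Fintype.card Λ) h8
    have h10 : (hvV.card * Δp + H2.card) * Fintype.card Λ =
        Δp * (hvV.card * Fintype.card Λ) + H2.card * Fintype.card Λ := by ring
    have h11 : Δp * (hvV.card * Fintype.card Λ) ≤ Δp * (16 * H' * L.card) :=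
      Nat.mul_le_mul_left _ h3
    have h12 : Δp * (16 * H' * L.card) = 16 * (H' * Δp * L.card) := by ring
    have h13 : H2.card * (3 * Fintype.card Λ) = 3 * (H2.card * Fintype.card Λ) := by ring
    have h14 : 4 * ((1 + 2 * H' * Δp) * L.card) = 4 * L.card + 8 * (H' * Δp * L.card) := by ring
    have h15 : (2 + 20 * H' * Δp) * L.card = 2 * L.card + 20 * (H' * Δp * L.card) := by ring
    rw [h13, h14] at h5
    rw [h15]
    rw [h10] at h9
    rw [h12] at h11
    omega
  -- the flow
  have hfl := bd_flowP P Y f hf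
  have hinc : ∀ e ∈ P.inc (fullU U), ∀ l, f (Sum.inl (e, l)) = 0 := by
    intro e he l
    apply hfU
    rcases he with he | he
    · refine Or.inl ?_
      have h1 := mem_fullU.1 he
      have h2 : l ∈ fibU U (P.src e) := h1 ▸ Finset.mem_univ _
      exact mem_fibU.1 h2
    · refine Or.inr ?_
      have h1 := mem_fullU.1 he
      have h2 : l ∈ fibU U (P.tgt e) := h1 ▸ Finset.mem_univ _
      exact mem_fibU.1 h2
  obtain ⟨φ', hφ1, hφ2, hφ3, hφ4⟩ := base_det hdeg CP hU.1
    (fun e => ∑ l : Λ, f (Sum.inl (e, l))) hfl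
    (fun e he => Finset.sum_eq_zero fun l _ => hinc e he l) Hv
  have hsupp : (univ.filter fun e => φ' e ≠ 0).card ≤ Δp * L.card := by
    have h1 : (univ.filter fun e => φ' e ≠ 0) ⊆ (bsV P φ').biUnion P.star := by
      intro e he
      rw [Finset.mem_filter] at he
      rw [Finset.mem_biUnion]
      refine ⟨P.src e, ?_, mem_starP.2 (Or.inl rfl)⟩
      simp only [bsV, Finset.mem_filter, Finset.mem_univ, true_and]
      exact ⟨e, he.2, Or.inl rfl⟩
    have h2 : ((bsV P φ').biUnion P.star).card ≤ (bsV P φ').card * Δp :=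
      Finset.card_biUnion_le_card_mul _ _ _ fun v _ => hdeg v
    have h3 : Kd H Δp (Fintype.card V) * Hv.card ≤ L.card := by
      refine Nat.le_of_mul_le_mul_right (c := Fintype.card Λ) ?_ hcpos
      have h4 : Kd H Δp (Fintype.card V) * (Hv.card * Fintype.card Λ) ≤
          Kd H Δp (Fintype.card V) * ((2 + 20 * H' * Δp) * L.card) :=
        Nat.mul_le_mul_left _ hHvc
      have h5 := Nat.mul_le_mul_right L.card hc
      calc Kd H Δp (Fintype.card V) * Hv.card * Fintype.card Λ
          = Kd H Δp (Fintype.card V) * (Hv.card * Fintype.card Λ) := by ring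
        _ ≤ Kd H Δp (Fintype.card V) * ((2 + 20 * H' * Δp) * L.card) := h4
        _ = Kd H Δp (Fintype.card V) * (2 + 20 * H' * Δp) * L.card := by ring
        _ ≤ Fintype.card Λ * L.card := h5
        _ = L.card * Fintype.card Λ := by ring
    refine (Finset.card_le_card h1).trans (h2.trans ?_)
    rw [Nat.mul_comm]
    exact Nat.mul_le_mul_left _ (hφ4.trans h3)
  -- the chain over one edge
  have key : ∀ e, ∃ g : Λ → ZMod 2, (∀ l ∈ M e, g l = f (Sum.inl (e, l))) ∧
      (e ∈ Hv → ∀ l, g l = f (Sum.inl (e, l))) ∧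
      (∀ l, Sum.inl (e, l) ∈ (prodG P Y).inc U → g l = 0) ∧ ∑ l, g l = φ' e ∧
      (e ∉ Hv → (univ.filter fun l => g l ≠ 0).card ≤
        2 * (M e).card + if φ' e = 0 then 0 else 1) := by
    intro e
    by_cases he1 : e ∈ P.inc (fullU U)
    · refine ⟨0, fun l _ => (hinc e he1 l).symm, fun _ l => (hinc e he1 l).symm, fun _ _ => rfl,
        ?_, fun _ => ?_⟩
      · rw [hφ2 e he1]
        exact Finset.sum_eq_zero fun _ _ => rfl
      · have h1 : (univ.filter fun l : Λ => (0 : Λ → ZMod 2) l ≠ 0) = ∅ := by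
          rw [Finset.filter_eq_empty_iff]
          intro l _
          rw [not_not]
          rfl
        rw [h1, Finset.card_empty]
        exact Nat.zero_le _
    by_cases he2 : e ∈ Hv
    · exact ⟨fun l => f (Sum.inl (e, l)), fun l _ => rfl, fun _ l => rfl,
        fun l hl => hfU _ hl, (hφ3 e he2).symm, fun h => absurd he2 h⟩
    · have hs : P.src e ∉ fullU U := fun h => he1 (Or.inl h)
      have ht : P.tgt e ∉ fullU U := fun h => he1 (Or.inr h)
      have h1 := CY.small _ (hU.2 (P.src e)) (fun h => hs (mem_fullU.2 h))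
      have h2 := CY.small _ (hU.2 (P.tgt e)) (fun h => ht (mem_fullU.2 h))
      have h3 := Finset.card_union_le (fibU U (P.src e)) (fibU U (P.tgt e))
      have h4 : ¬ 3 * Fintype.card Λ ≤ 4 * (M e).card := fun h =>
        he2 ((hmemHv e).2 (Or.inr h))
      obtain ⟨g, hg1, hg2, hg3, hg4⟩ := one_edge (ψ := fun l => f (Sum.inl (e, l))) (M := M e)
        (B := fibU U (P.src e) ∪ fibU U (P.tgt e)) (x := φ' e) (by
          intro l hl
          apply hfU
          rcases Finset.mem_union.1 hl with hl | hl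
          · exact Or.inl (mem_fibU.1 hl)
          · exact Or.inr (mem_fibU.1 hl)) (by omega)
      refine ⟨g, hg1, fun h => absurd h he2, ?_, hg3, fun _ => hg4⟩
      intro l hl
      refine hg2 l (Finset.mem_union.2 ?_)
      rcases hl with hl | hl
      · exact Or.inl (mem_fibU.2 hl)
      · exact Or.inr (mem_fibU.2 hl)
  choose g hg1 hg2 hg3 hg4 hg5 using key
  refine ⟨fun p => g p.1 p.2, ?_, ?_, ?_, ?_, ?_, ?_⟩
  · rintro ⟨e, l⟩ hp
    refine hg1 e l ?_
    rw [hM]
    exact Finset.mem_union_left _ (Finset.mem_filter.2 ⟨Finset.mem_univ _, hp⟩)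
  · intro e l hl
    refine hg1 e l ?_
    rw [hM]
    exact Finset.mem_union_right _ (Finset.mem_union.2 hl)
  · intro e l hl
    exact hg2 e ((hmemHv e).2 (Or.inl hl)) l
  · rintro ⟨e, l⟩ hp
    exact hg3 e l hp
  · have h1 : (fun e => ∑ l, g e l) = φ' := funext fun e => hg4 e
    change P.bd (fun e => ∑ l, g e l) = 0
    rw [h1]
    exact hφ1
  · have h1 : (univ.filter fun p : E × Λ => g p.1 p.2 ≠ 0).card =
        ∑ e, (univ.filter fun l => g e l ≠ 0).card := by
      simp only [Finset.card_filter]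
      rw [Fintype.sum_prod_type]
    have h2 : ∀ e, (univ.filter fun l => g e l ≠ 0).card ≤
        (if e ∈ Hv then Fintype.card Λ else 0) +
          (2 * (M e).card + if φ' e ≠ 0 then 1 else 0) := by
      intro e
      by_cases he : e ∈ Hv
      · rw [if_pos he]
        exact (Finset.card_le_univ _).trans (Nat.le_add_right _ _)
      · rw [if_neg he, zero_add]
        refine (hg5 e he).trans ?_
        by_cases h3 : φ' e = 0
        · rw [if_pos h3]
          exact Nat.le_add_right _ _
        · rw [if_neg h3, if_pos h3]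
    change (univ.filter fun p : E × Λ => g p.1 p.2 ≠ 0).card ≤ _
    rw [h1]
    refine (Finset.sum_le_sum fun e _ => h2 e).trans ?_
    rw [Finset.sum_add_distrib, Finset.sum_add_distrib, Finset.sum_ite_mem, Finset.univ_inter,
      Finset.sum_const, smul_eq_mul, ← Finset.mul_sum, ← Finset.card_filter]
    have h3 : K7 H' Δp * L.card = (2 + 20 * H' * Δp) * L.card +
        (2 * ((1 + 2 * H' * Δp) * L.card) + Δp * L.card) := by
      unfold K7
      ring
    rw [h3]
    exact Nat.add_le_add hHvc (Nat.add_le_add (Nat.mul_le_mul_left _ hMsum) hsupp)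

end

end FrU
end

section

/-!
Basic facts on segments, jumps and revealed sets.

Conventions: `B₀` strongly closed (`De.cL B₀ = B₀`), `s c = De.st B₀ c`.

PROOFS.
`dB_spec`, `dB_pattern`: definition of `dB` (choice; `0` otherwise).
`card_newI`: an edge touching `M` but not `B` has an endpoint in `M \ B`.
`Md`: `cl` of `U ∪ plc ∪ bsT`; `ext`, `idem`.  `Nx`: `cL` of `M ∪ bsV`.
`st_clL`, `st_cl`: by cases on the head: `(s c).1` is strongly closed, `(s c).2` is closed (`clL` at a
jump or for `[]`).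
`st_sub`: `(s c).1 ⊆ (s c).2` by induction (`Md_sub`).
`st_cons`: both components grow: `(s c).1 ⊆ (s (k :: c)).1`, `(s c).2 ⊆ (s (k :: c)).2` and
`De.Md (s c).2 k.1 ⊆ (s (k :: c)).2`, `plc G Q k.1.1 ⊆ (s (k :: c)).2`.
`card_seg`: `((s c).2 \ (s c).1).card ≤ K ((2 + C₁) segL c)` and
`(De.Md (s c).2 p \ (s c).1).card ≤ K ((2 + C₁) (segL c + p.1.card))`: by induction on `c` there is a set
`X` with `X.card ≤ (2 + C₁) segL c` and `(s c).2 ⊆ De.cl ((s c).1 ∪ X)` (for a jump or `[]` take `X = ∅`; for a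
step `Md U p = cl (U ∪ plc ∪ bsT) ⊆ cl (cl (B ∪ X) ∪ plc ∪ bsT) ⊆ cl (B ∪ (X ∪ plc ∪ bsT))`, with
`|plc| ≤ 2 |p.1|` (`FrC.card_plc`), `|bsT| ≤ C₁ |p.1|` (`dc_spec`)).  Then use `incr` (`(s c).1` is strongly
closed; `X.card ≤ m` by hypothesis).
`card_st`: by induction there is `X` with `(s c).1 ⊆ De.cL (G₀ ∪ X)`, `X.card ≤ K3 De * jw c`, if
`B₀ = De.cL G₀`: at a jump `Nx B M P = cL (M ∪ bsV (dB ..))`, `M = B ∪ (M \ B)`,
`|M \ B| ≤ K ((2 + C₁) (segL c + |p.1|)) =: q` by `card_seg`, `|bsV (dB ..)| ≤ C₂ |newI| ≤ C₂ Δ q`; together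
`(1 + C₂ Δ) q = K3c K C₁ C₂ Δ * (segL c + |p.1|)`.  So `|(s c).1| ≤ K (|G₀| + K3c * jw c)` by `cardL`, and
`|(s c).2| ≤ |(s c).1| + K ((2 + C₁) segL c) ≤ K (|G₀| + K3c * totR c)`; `jw c + segL c = totR c`.
`bd_DcM`: `dc_spec`, `dB_spec`, and `(G.tall Q).bd (iota f) = 0` if `G.bd f = 0` (compare `bd_iota_path` in C/;
the boundary of `iota f` at `(v, 0)` is `G.bd f v`, at the other vertices `0`).
`DcM_zero`: all detours and jump chains of the later entries vanish near `(s c1).1`: `dc` of a later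
step `k` vanishes on `incT G Q (s c').2 ⊇ incT G Q (s c1).1`, and `iota (dB (s c').1 ..)` on
`incT G Q (s c').1` (`FrC.iota_eq_zero`).  Induction on `c2`.
`DcM_zero2`: if no entry of `c2` has a jump, the same on `incT G Q (s c1).2`.
-/

set_option linter.unusedSectionVars false

namespace FrU

open Finset Fr56 FrC FrG FrT
open scoped Classical

/-- bound for the number of vertices needed per live edge of complete segments -/
def K3c (K C₁ C₂ Δ : ℕ) : ℕ := K * (2 + C₁) * (1 + C₂ * Δ)

section
variable {V E : Type} [Fintype V] [Fintype E] [DecidableEq V] [DecidableEq E]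
  {G : Gph V E} {Q K C₁ C₂ m : ℕ}

private theorem mem_bsV' {f : E → ZMod 2} {v : V} :
    v ∈ bsV G f ↔ ∃ e, f e ≠ 0 ∧ (G.src e = v ∨ G.tgt e = v) := by
  unfold bsV
  simp

theorem dB_spec (B M : Finset V) (P : Finset E) :
    G.bd (dB G C₂ B M P) = 0 ∧ (∀ e ∈ G.inc B, dB G C₂ B M P e = 0) ∧
      (bsV G (dB G C₂ B M P)).card ≤ C₂ * (newI G B M).card := by
  unfold dB
  split_ifs with h
  · exact ⟨h.choose_spec.1, h.choose_spec.2.1, h.choose_spec.2.2.2⟩
  · refine ⟨Gph.bd_zero _, fun e _ => rfl, ?_⟩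
    have h0 : bsV G (0 : E → ZMod 2) = ∅ := by
      refine Finset.eq_empty_of_forall_notMem fun v hv => ?_
      obtain ⟨e, he, -⟩ := mem_bsV'.1 hv
      exact he rfl
    rw [h0]
    simp

theorem dB_pattern (B M : Finset V) (P : Finset E) (h : ∃ f, DbOk G C₂ B M P f) :
    ∀ e ∈ newI G B M, (e ∈ P ↔ dB G C₂ B M P e ≠ 0) := by
  unfold dB
  rw [dif_pos h]
  exact h.choose_spec.2.2.1

theorem card_newI {Δ : ℕ} (hdeg : G.Deg Δ) (B M : Finset V) :
    (newI G B M).card ≤ Δ * (M \ B).card := by
  have hsub : newI G B M ⊆ (M \ B).biUnion fun v => G.star v := by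
    intro e he
    unfold newI at he
    rw [Finset.mem_filter] at he
    obtain ⟨-, h1, h2⟩ := he
    rw [Finset.mem_biUnion]
    have h3 : G.src e ∉ B := fun h => h2 (Or.inl h)
    have h4 : G.tgt e ∉ B := fun h => h2 (Or.inr h)
    rcases h1 with h1 | h1
    · exact ⟨G.src e, Finset.mem_sdiff.2 ⟨h1, h3⟩,
        Finset.mem_filter.2 ⟨Finset.mem_univ _, Or.inl rfl⟩⟩
    · exact ⟨G.tgt e, Finset.mem_sdiff.2 ⟨h1, h4⟩,
        Finset.mem_filter.2 ⟨Finset.mem_univ _, Or.inr rfl⟩⟩
  refine (Finset.card_le_card hsub).trans ?_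
  rw [Nat.mul_comm]
  exact Finset.card_biUnion_le_card_mul _ _ _ fun v _ => hdeg v

variable (De : DetM G Q K C₁ C₂ m)

theorem Md_cl (U : Finset V) (p : LP V E Q) : De.cl (De.Md U p) = De.Md U p := by
  exact De.idem _

theorem Md_sub (U : Finset V) (p : LP V E Q) : U ⊆ De.Md U p := by
  intro v hv
  exact De.ext _ (Finset.mem_union_left _ (Finset.mem_union_left _ hv))

theorem plc_sub_Md (U : Finset V) (p : LP V E Q) : plc G Q p.1 ⊆ De.Md U p := by
  intro v hv
  exact De.ext _ (Finset.mem_union_left _ (Finset.mem_union_right _ hv))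

theorem bsT_sub_Md (U : Finset V) (p : LP V E Q) :
    bsT G (dc G C₁ U p.1 p.2) ⊆ De.Md U p := by
  intro v hv
  exact De.ext _ (Finset.mem_union_right _ hv)

theorem Nx_cL (B M : Finset V) (P : Finset E) : De.cL (De.Nx B M P) = De.Nx B M P := by
  exact De.idemL _

theorem Nx_sub (B M : Finset V) (P : Finset E) : M ⊆ De.Nx B M P := by
  intro v hv
  exact De.extL _ (Finset.mem_union_left _ hv)

theorem bsV_sub_Nx (B M : Finset V) (P : Finset E) : bsV G (dB G C₂ B M P) ⊆ De.Nx B M P := by
  intro v hv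
  exact De.extL _ (Finset.mem_union_right _ hv)

variable {B₀ : Finset V} (hB₀ : De.cL B₀ = B₀)

include hB₀ in
theorem st_clL (c : List (RM V E Q)) : De.cL (De.st B₀ c).1 = (De.st B₀ c).1 := by
  induction c with
  | nil => exact hB₀
  | cons k c ih =>
    obtain ⟨p, _ | P⟩ := k
    · exact ih
    · exact Nx_cL De _ _ P

include hB₀ in
theorem st_cl (c : List (RM V E Q)) : De.cl (De.st B₀ c).2 = (De.st B₀ c).2 := by
  cases c with
  | nil => exact De.clL B₀ hB₀
  | cons k c =>
    obtain ⟨p, _ | P⟩ := k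
    · exact Md_cl De _ p
    · exact De.clL _ (Nx_cL De _ _ P)

theorem st_sub (B₀ : Finset V) (c : List (RM V E Q)) : (De.st B₀ c).1 ⊆ (De.st B₀ c).2 := by
  induction c with
  | nil => exact Finset.Subset.refl _
  | cons k c ih =>
    obtain ⟨p, _ | P⟩ := k
    · exact ih.trans (Md_sub De _ p)
    · exact Finset.Subset.refl _

theorem st_cpl (B₀ : Finset V) (c : List (RM V E Q)) (h : Cpl c) :
    (De.st B₀ c).1 = (De.st B₀ c).2 := by
  cases c with
  | nil => rfl
  | cons k c =>
    obtain ⟨p, _ | P⟩ := k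
    · exact absurd h (by simp [Cpl])
    · rfl

theorem st_cons1 (B₀ : Finset V) (k : RM V E Q) (c : List (RM V E Q)) :
    (De.st B₀ c).1 ⊆ (De.st B₀ (k :: c)).1 := by
  obtain ⟨p, _ | P⟩ := k
  · exact Finset.Subset.refl _
  · exact (st_sub De B₀ c).trans ((Md_sub De _ p).trans (Nx_sub De _ _ P))

theorem Md_sub_st (B₀ : Finset V) (k : RM V E Q) (c : List (RM V E Q)) :
    De.Md (De.st B₀ c).2 k.1 ⊆ (De.st B₀ (k :: c)).2 := by
  obtain ⟨p, _ | P⟩ := k
  · exact Finset.Subset.refl _
  · exact Nx_sub De _ _ P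

theorem st_cons2 (B₀ : Finset V) (k : RM V E Q) (c : List (RM V E Q)) :
    (De.st B₀ c).2 ⊆ (De.st B₀ (k :: c)).2 := by
  exact (Md_sub De _ k.1).trans (Md_sub_st De B₀ k c)

theorem plc_sub_st (B₀ : Finset V) (k : RM V E Q) (c : List (RM V E Q)) :
    plc G Q k.1.1 ⊆ (De.st B₀ (k :: c)).2 := by
  exact (plc_sub_Md De _ k.1).trans (Md_sub_st De B₀ k c)

theorem B0_sub_st (B₀ : Finset V) (c : List (RM V E Q)) : B₀ ⊆ (De.st B₀ c).1 := by
  induction c with
  | nil => exact Finset.Subset.refl _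
  | cons k c ih => exact ih.trans (st_cons1 De B₀ k c)

theorem st_mono (B₀ : Finset V) {c c' : List (RM V E Q)} (h : c <:+ c') :
    (De.st B₀ c).1 ⊆ (De.st B₀ c').1 ∧ (De.st B₀ c).2 ⊆ (De.st B₀ c').2 := by
  obtain ⟨t, rfl⟩ := h
  induction t with
  | nil => exact ⟨Finset.Subset.refl _, Finset.Subset.refl _⟩
  | cons k t ih =>
    exact ⟨ih.1.trans (st_cons1 De B₀ k (t ++ c)), ih.2.trans (st_cons2 De B₀ k (t ++ c))⟩

theorem jw_add_segL (c : List (RM V E Q)) : jw c + segL c = totR c := by
  induction c with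
  | nil => rfl
  | cons k c ih =>
    obtain ⟨p, _ | P⟩ := k
    · have h1 : jw ((p, none) :: c) = jw c := rfl
      have h2 : segL ((p, none) :: c) = segL c + p.1.card := rfl
      have h3 : totR ((p, none) :: c) = totR c + p.1.card := rfl
      rw [h1, h2, h3]
      omega
    · have h1 : jw ((p, some P) :: c) = jw c + (segL c + p.1.card) := rfl
      have h2 : segL ((p, some P) :: c) = 0 := rfl
      have h3 : totR ((p, some P) :: c) = totR c + p.1.card := rfl
      rw [h1, h2, h3]
      omega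

theorem totR_append (c2 c1 : List (RM V E Q)) : totR (c2 ++ c1) = totR c2 + totR c1 := by
  induction c2 with
  | nil =>
    have h0 : totR ([] : List (RM V E Q)) = 0 := rfl
    rw [List.nil_append, h0, Nat.zero_add]
  | cons k c2 ih =>
    have h1 : totR (k :: c2 ++ c1) = totR (c2 ++ c1) + k.1.1.card := rfl
    have h2 : totR (k :: c2) = totR c2 + k.1.1.card := rfl
    rw [h1, h2, ih]
    omega

/-- one step, inside of a segment -/
private theorem Md_step {B X U : Finset V} (p : LP V E Q) (h : U ⊆ De.cl (B ∪ X)) :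
    ∃ X' : Finset V, X'.card ≤ X.card + (2 + C₁) * p.1.card ∧
      De.Md U p ⊆ De.cl (B ∪ X') := by
  refine ⟨X ∪ plc G Q p.1 ∪ bsT G (dc G C₁ U p.1 p.2), ?_, ?_⟩
  · have h3 := card_plc G p.1
    have h4 := (dc_spec (G := G) (C₁ := C₁) U p.1 p.2).2.2
    have h5 := Finset.card_union_le (X ∪ plc G Q p.1) (bsT G (dc G C₁ U p.1 p.2))
    have h6 := Finset.card_union_le X (plc G Q p.1)
    rw [Nat.add_mul 2 C₁ p.1.card]
    omega
  · have h1 : U ∪ plc G Q p.1 ∪ bsT G (dc G C₁ U p.1 p.2) ⊆
        De.cl (B ∪ (X ∪ plc G Q p.1 ∪ bsT G (dc G C₁ U p.1 p.2))) := by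
      refine Finset.union_subset (Finset.union_subset (h.trans ?_) ?_) ?_
      · refine De.mono _ _ (Finset.union_subset_union_right ?_)
        exact Finset.subset_union_left.trans Finset.subset_union_left
      · refine Finset.Subset.trans ?_ (De.ext _)
        exact (Finset.subset_union_right.trans Finset.subset_union_left).trans
          Finset.subset_union_right
      · refine Finset.Subset.trans ?_ (De.ext _)
        exact Finset.subset_union_right.trans Finset.subset_union_right
    have h2 := De.mono _ _ h1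
    rw [De.idem] at h2
    exact h2

private theorem exists_seg (B₀ : Finset V) (c : List (RM V E Q)) :
    ∃ X : Finset V, X.card ≤ (2 + C₁) * segL c ∧
      (De.st B₀ c).2 ⊆ De.cl ((De.st B₀ c).1 ∪ X) := by
  induction c with
  | nil =>
    refine ⟨∅, by simp, ?_⟩
    rw [Finset.union_empty]
    exact De.ext _
  | cons k c ih =>
    obtain ⟨p, _ | P⟩ := k
    · obtain ⟨X, hX, hs⟩ := ih
      obtain ⟨X', hX', hs'⟩ := Md_step De p hs
      refine ⟨X', ?_, hs'⟩
      have h2 : segL ((p, none) :: c) = segL c + p.1.card := rfl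
      rw [h2, Nat.mul_add]
      omega
    · refine ⟨∅, by simp, ?_⟩
      rw [Finset.union_empty]
      exact De.ext _

private theorem exists_Md (B₀ : Finset V) (c : List (RM V E Q)) (p : LP V E Q) :
    ∃ X : Finset V, X.card ≤ (2 + C₁) * (segL c + p.1.card) ∧
      De.Md (De.st B₀ c).2 p ⊆ De.cl ((De.st B₀ c).1 ∪ X) := by
  obtain ⟨X, hX, hs⟩ := exists_seg De B₀ c
  obtain ⟨X', hX', hs'⟩ := Md_step De p hs
  refine ⟨X', ?_, hs'⟩
  rw [Nat.mul_add]
  omega

include hB₀ in
theorem card_seg (c : List (RM V E Q)) (h : (2 + C₁) * segL c ≤ m) :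
    ((De.st B₀ c).2 \ (De.st B₀ c).1).card ≤ K * ((2 + C₁) * segL c) := by
  obtain ⟨X, hX, hs⟩ := exists_seg De B₀ c
  calc ((De.st B₀ c).2 \ (De.st B₀ c).1).card
      ≤ (De.cl ((De.st B₀ c).1 ∪ X) \ (De.st B₀ c).1).card :=
        Finset.card_le_card (Finset.sdiff_subset_sdiff hs (Finset.Subset.refl _))
    _ ≤ K * X.card := De.incr _ (st_clL De hB₀ c) X (hX.trans h)
    _ ≤ K * ((2 + C₁) * segL c) := Nat.mul_le_mul_left _ hX

include hB₀ in
theorem card_seg_Md (c : List (RM V E Q)) (p : LP V E Q)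
    (h : (2 + C₁) * (segL c + p.1.card) ≤ m) :
    (De.Md (De.st B₀ c).2 p \ (De.st B₀ c).1).card ≤ K * ((2 + C₁) * (segL c + p.1.card)) := by
  obtain ⟨X, hX, hs⟩ := exists_Md De B₀ c p
  calc (De.Md (De.st B₀ c).2 p \ (De.st B₀ c).1).card
      ≤ (De.cl ((De.st B₀ c).1 ∪ X) \ (De.st B₀ c).1).card :=
        Finset.card_le_card (Finset.sdiff_subset_sdiff hs (Finset.Subset.refl _))
    _ ≤ K * X.card := De.incr _ (st_clL De hB₀ c) X (hX.trans h)
    _ ≤ K * ((2 + C₁) * (segL c + p.1.card)) := Nat.mul_le_mul_left _ hX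

private theorem exists_st {Δ : ℕ} (hdeg : G.Deg Δ) {G₀ B₀ : Finset V} (hG₀ : De.cL G₀ = B₀)
    (c : List (RM V E Q)) (h' : (2 + C₁) * totR c ≤ m) :
    ∃ X : Finset V, X.card ≤ K3c K C₁ C₂ Δ * jw c ∧ (De.st B₀ c).1 ⊆ De.cL (G₀ ∪ X) := by
  have hB₀ : De.cL B₀ = B₀ := by rw [← hG₀, De.idemL]
  induction c with
  | nil =>
    refine ⟨∅, by simp, ?_⟩
    rw [Finset.union_empty, hG₀]
    exact Finset.Subset.refl _
  | cons k c ih =>
    have htot : totR (k :: c) = totR c + k.1.1.card := rfl
    rw [htot, Nat.mul_add] at h'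
    obtain ⟨X, hX, hs⟩ := ih (by omega)
    obtain ⟨p, _ | P⟩ := k
    · exact ⟨X, hX, hs⟩
    · set B := (De.st B₀ c).1 with hB
      set M := De.Md (De.st B₀ c).2 p with hM
      have hseg : segL c ≤ totR c := by
        have := jw_add_segL c
        omega
      have h1 : (2 + C₁) * (segL c + p.1.card) ≤ m := by
        have h2 : (2 + C₁) * segL c ≤ (2 + C₁) * totR c := Nat.mul_le_mul_left _ hseg
        have h3 : (2 + C₁) * totR c + (2 + C₁) * p.1.card ≤ m := h'
        rw [Nat.mul_add]
        omega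
      have hq : (M \ B).card ≤ K * ((2 + C₁) * (segL c + p.1.card)) :=
        card_seg_Md De hB₀ c p h1
      have hb : (bsV G (dB G C₂ B M P)).card ≤ C₂ * (Δ * (M \ B).card) :=
        (dB_spec (G := G) (C₂ := C₂) B M P).2.2.trans
          (Nat.mul_le_mul_left _ (card_newI hdeg B M))
      refine ⟨X ∪ (M \ B) ∪ bsV G (dB G C₂ B M P), ?_, ?_⟩
      · have h5 := Finset.card_union_le (X ∪ (M \ B)) (bsV G (dB G C₂ B M P))
        have h6 := Finset.card_union_le X (M \ B)
        have h7 : jw ((p, some P) :: c) = jw c + (segL c + p.1.card) := rfl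
        rw [h7, Nat.mul_add]
        have h8 : (1 + C₂ * Δ) * (M \ B).card ≤
            K3c K C₁ C₂ Δ * (segL c + p.1.card) := by
          calc (1 + C₂ * Δ) * (M \ B).card
              ≤ (1 + C₂ * Δ) * (K * ((2 + C₁) * (segL c + p.1.card))) :=
                Nat.mul_le_mul_left _ hq
            _ = K3c K C₁ C₂ Δ * (segL c + p.1.card) := by
                unfold K3c
                ring
        have h9 : (1 + C₂ * Δ) * (M \ B).card = (M \ B).card + C₂ * (Δ * (M \ B).card) := by
          ring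
        omega
      · have h10 : M ∪ bsV G (dB G C₂ B M P) ⊆
            De.cL (G₀ ∪ (X ∪ (M \ B) ∪ bsV G (dB G C₂ B M P))) := by
          refine Finset.union_subset ?_ ?_
          · intro v hv
            by_cases hvB : v ∈ B
            · refine De.monoL _ _ (Finset.union_subset_union_right ?_) (hs hvB)
              exact Finset.subset_union_left.trans Finset.subset_union_left
            · refine De.extL _ (Finset.mem_union_right _ (Finset.mem_union_left _
                (Finset.mem_union_right _ (Finset.mem_sdiff.2 ⟨hv, hvB⟩))))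
          · exact (Finset.subset_union_right.trans Finset.subset_union_right).trans (De.extL _)
        have h11 := De.monoL _ _ h10
        rw [De.idemL] at h11
        exact h11

theorem card_st {Δ : ℕ} (hdeg : G.Deg Δ) {G₀ : Finset V} (hG₀ : De.cL G₀ = B₀)
    (c : List (RM V E Q)) (h : G₀.card + K3c K C₁ C₂ Δ * totR c ≤ m)
    (h' : (2 + C₁) * totR c ≤ m) :
    (De.st B₀ c).2.card ≤ K * (G₀.card + K3c K C₁ C₂ Δ * totR c) := by
  have hB₀ : De.cL B₀ = B₀ := by rw [← hG₀, De.idemL]
  obtain ⟨X, hX, hs⟩ := exists_st De hdeg hG₀ c h'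
  have hjs := jw_add_segL c
  have h1 : (2 + C₁) * segL c ≤ m := by
    have : (2 + C₁) * segL c ≤ (2 + C₁) * totR c := Nat.mul_le_mul_left _ (by omega)
    omega
  have h2 := card_seg De hB₀ c h1
  have h3 : K3c K C₁ C₂ Δ * jw c ≤ K3c K C₁ C₂ Δ * totR c := Nat.mul_le_mul_left _ (by omega)
  have h4 : (G₀ ∪ X).card ≤ G₀.card + K3c K C₁ C₂ Δ * jw c := by
    have := Finset.card_union_le G₀ X
    omega
  have h5 : (De.st B₀ c).1.card ≤ K * (G₀.card + K3c K C₁ C₂ Δ * jw c) :=
    calc (De.st B₀ c).1.card ≤ (De.cL (G₀ ∪ X)).card := Finset.card_le_card hs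
      _ ≤ K * (G₀ ∪ X).card := De.cardL _ (by omega)
      _ ≤ K * (G₀.card + K3c K C₁ C₂ Δ * jw c) := Nat.mul_le_mul_left _ h4
  have h6 : (De.st B₀ c).2.card ≤ (De.st B₀ c).1.card +
      ((De.st B₀ c).2 \ (De.st B₀ c).1).card := by
    have h7 := Finset.card_sdiff_add_card (De.st B₀ c).2 (De.st B₀ c).1
    have h8 : (De.st B₀ c).2.card ≤ ((De.st B₀ c).2 ∪ (De.st B₀ c).1).card :=
      Finset.card_le_card Finset.subset_union_left
    omega
  have h9 : K * ((2 + C₁) * segL c) ≤ K * (K3c K C₁ C₂ Δ * segL c) := by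
    rcases Nat.eq_zero_or_pos K with hK | hK
    · rw [hK, Nat.zero_mul, Nat.zero_mul]
    · refine Nat.mul_le_mul_left _ (Nat.mul_le_mul_right _ ?_)
      unfold K3c
      calc 2 + C₁ = 1 * (2 + C₁) * 1 := by ring
        _ ≤ K * (2 + C₁) * (1 + C₂ * Δ) :=
          Nat.mul_le_mul (Nat.mul_le_mul_right _ hK) (by omega)
  calc (De.st B₀ c).2.card
      ≤ K * (G₀.card + K3c K C₁ C₂ Δ * jw c) + K * (K3c K C₁ C₂ Δ * segL c) := by omega
    _ = K * (G₀.card + K3c K C₁ C₂ Δ * totR c) := by
        rw [← hjs]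
        ring

theorem bd_DcM (B₀ : Finset V) (c : List (RM V E Q)) : (G.tall Q).bd (De.DcM B₀ c) = 0 := by
  have hi : ∀ f : E → ZMod 2, G.bd f = 0 → (G.tall Q).bd (iota f) = 0 := by
    intro f hf
    funext p
    rw [bd_iota, hf]
    simp
  induction c with
  | nil => exact Gph.bd_zero _
  | cons k c ih =>
    obtain ⟨p, _ | P⟩ := k
    · have h1 : De.DcM B₀ ((p, none) :: c) =
          De.DcM B₀ c + dc G C₁ (De.st B₀ c).2 p.1 p.2 := rfl
      rw [h1, Gph.bd_add, ih, (dc_spec (De.st B₀ c).2 p.1 p.2).1, add_zero]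
    · have h1 : De.DcM B₀ ((p, some P) :: c) =
          De.DcM B₀ c + (dc G C₁ (De.st B₀ c).2 p.1 p.2 +
            iota (dB G C₂ (De.st B₀ c).1 (De.Md (De.st B₀ c).2 p) P)) := rfl
      rw [h1, Gph.bd_add, Gph.bd_add, ih, (dc_spec (De.st B₀ c).2 p.1 p.2).1,
        hi _ (dB_spec _ _ P).1, add_zero, add_zero]

theorem DcM_zero (B₀ : Finset V) (c2 c1 : List (RM V E Q)) :
    ∀ e ∈ incT G Q (De.st B₀ c1).1, (De.DcM B₀ (c2 ++ c1) + De.DcM B₀ c1) e = 0 := by
  induction c2 with
  | nil =>
    intro e _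
    rw [List.nil_append, add_self2]
    rfl
  | cons k c2 ih =>
    intro e he
    have hm := st_mono De B₀ (List.suffix_append c2 c1)
    have h3 := ih e he
    rw [Pi.add_apply] at h3
    have h2 : ∀ p : LP V E Q, dc G C₁ (De.st B₀ (c2 ++ c1)).2 p.1 p.2 e = 0 := fun p =>
      (dc_spec (De.st B₀ (c2 ++ c1)).2 p.1 p.2).2.1 e
        (incT_mono G (hm.1.trans (st_sub De B₀ (c2 ++ c1))) he)
    obtain ⟨p, _ | P⟩ := k
    · have h1 : De.DcM B₀ ((p, none) :: c2 ++ c1) =
          De.DcM B₀ (c2 ++ c1) + dc G C₁ (De.st B₀ (c2 ++ c1)).2 p.1 p.2 := rfl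
      rw [h1, Pi.add_apply, Pi.add_apply, h2, add_zero]
      exact h3
    · have h1 : De.DcM B₀ ((p, some P) :: c2 ++ c1) =
          De.DcM B₀ (c2 ++ c1) + (dc G C₁ (De.st B₀ (c2 ++ c1)).2 p.1 p.2 +
            iota (dB G C₂ (De.st B₀ (c2 ++ c1)).1
              (De.Md (De.st B₀ (c2 ++ c1)).2 p) P)) := rfl
      have h4 : iota (dB G C₂ (De.st B₀ (c2 ++ c1)).1
          (De.Md (De.st B₀ (c2 ++ c1)).2 p) P) e = 0 :=
        iota_eq_zero G (dB_spec (De.st B₀ (c2 ++ c1)).1
          (De.Md (De.st B₀ (c2 ++ c1)).2 p) P).2.1 e (incT_mono G hm.1 he)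
      rw [h1, Pi.add_apply, Pi.add_apply, Pi.add_apply, h2, h4, add_zero, add_zero]
      exact h3

theorem DcM_zero2 (B₀ : Finset V) (c2 c1 : List (RM V E Q)) (h : ∀ k ∈ c2, k.2 = none) :
    ∀ e ∈ incT G Q (De.st B₀ c1).2, (De.DcM B₀ (c2 ++ c1) + De.DcM B₀ c1) e = 0 := by
  induction c2 with
  | nil =>
    intro e _
    rw [List.nil_append, add_self2]
    rfl
  | cons k c2 ih =>
    intro e he
    have hm := st_mono De B₀ (List.suffix_append c2 c1)
    have h3 := ih (fun k hk => h k (List.mem_cons_of_mem _ hk)) e he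
    rw [Pi.add_apply] at h3
    have hk := h k List.mem_cons_self
    obtain ⟨p, o⟩ := k
    have hk' : o = none := hk
    subst hk'
    have h2 : dc G C₁ (De.st B₀ (c2 ++ c1)).2 p.1 p.2 e = 0 :=
      (dc_spec (De.st B₀ (c2 ++ c1)).2 p.1 p.2).2.1 e (incT_mono G hm.2 he)
    have h1 : De.DcM B₀ ((p, none) :: c2 ++ c1) =
        De.DcM B₀ (c2 ++ c1) + dc G C₁ (De.st B₀ (c2 ++ c1)).2 p.1 p.2 := rfl
    rw [h1, Pi.add_apply, Pi.add_apply, h2, add_zero]
    exact h3

end

end FrU
end
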