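import Pool.Agent.Lib.MP_51bb46_lc.U.Defs
import Pool.Agent.Lib.MP_51bb46_lc.U.StA
import Pool.Agent.Lib.MP_51bb46_lc.U.CodeMP
import Pool.Agent.Lib.MP_51bb46_lc.T.NumT
import Pool.Agent.Lib.MP_51bb46_lc.U.PossA

section

section

/-!
The core of an expanding graph outside a closed set and a small set of edges.

PROOF.  This is the first half of the proof of `FrT.base_det` (T/Base.lean, the set `A*` and the private
theorem `base_claim`, which also covers `Bs = ∅`): with `A = A*` one has `|A| ≤ 2 H |Bs|`, `A` disjoint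
from `W`, and for all `A' ⊆ C := univ \ (W ∪ A)` with `2 |A'| ≤ |C|`:
`|A'| ≤ 2 H |btw G Bs A' (C \ A')|`.  Then `core_paths` (T/Core.lean) with `H' = 2 H` gives the chains.
-/

set_option linter.unusedSectionVars false

namespace FrU

open Finset Fr56 FrC FrG FrT
open scoped Classical

section
variable {V E : Type} [Fintype V] [Fintype E] [DecidableEq V] [DecidableEq E]

private theorem mem_btw' {G : Gph V E} {Bs : Finset E} {A B : Finset V} {e : E} :
    e ∈ btw G Bs A B ↔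
      e ∉ Bs ∧ ((G.src e ∈ A ∧ G.tgt e ∈ B) ∨ (G.src e ∈ B ∧ G.tgt e ∈ A)) := by
  simp only [FrT.btw, Finset.mem_filter, Finset.mem_univ, true_and]

private theorem btw_le' (G : Gph V E) (Bs : Finset E) (A B : Finset V) :
    (btw G ∅ A B).card ≤ (btw G Bs A B).card + Bs.card := by
  refine le_trans (Finset.card_le_card (t := btw G Bs A B ∪ Bs) ?_) (Finset.card_union_le _ _)
  intro e he
  rw [mem_btw'] at he
  rw [Finset.mem_union, mem_btw']
  by_cases h : e ∈ Bs
  · exact Or.inr h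
  · exact Or.inl ⟨h, he.2⟩

private theorem btw_comm' (G : Gph V E) (Bs : Finset E) (A B : Finset V) :
    btw G Bs A B = btw G Bs B A := by
  ext e
  rw [mem_btw', mem_btw']
  exact ⟨fun h => ⟨h.1, h.2.symm⟩, fun h => ⟨h.1, h.2.symm⟩⟩

private theorem btw_empty' (G : Gph V E) (Bs : Finset E) (B : Finset V) :
    (btw G Bs ∅ B).card = 0 := by
  rw [Finset.card_eq_zero, Finset.eq_empty_iff_forall_notMem]
  intro e he
  rw [mem_btw'] at he
  rcases he.2 with h | h
  · exact Finset.notMem_empty _ h.1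
  · exact Finset.notMem_empty _ h.2

private theorem base_claim {G : Gph V E} {K H m : ℕ} (Cl : Clo G K H m) {W : Finset V}
    (hW : Cl.cl W = W) (hWne : W ≠ univ) (Bs : Finset E)
    (hn : 16 * (H * Bs.card) ≤ Fintype.card V) {As : Finset V} (hAW : Disjoint As W)
    (hAc : As.card ≤ 2 * (H * Bs.card))
    (hAe : As = ∅ ∨ 2 * (H * (btw G Bs As (univ \ (W ∪ As))).card) < As.card)
    (hmax : ∀ A : Finset V, Disjoint A W → A.card ≤ 2 * (H * Bs.card) →
      (A = ∅ ∨ 2 * (H * (btw G Bs A (univ \ (W ∪ A))).card) < A.card) → A.card ≤ As.card) :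
    ∀ A ⊆ univ \ (W ∪ As), 2 * A.card ≤ (univ \ (W ∪ As)).card →
      A.card ≤ 2 * H * (btw G Bs A ((univ \ (W ∪ As)) \ A)).card := by
  intro A hA hA2
  obtain ⟨C, hC⟩ : ∃ C : Finset V, C = univ \ (W ∪ As) := ⟨_, rfl⟩
  rw [← hC] at hA hA2 ⊢
  by_contra hcon
  rw [not_le] at hcon
  have hmemC : ∀ x, x ∈ C ↔ (x ∉ W ∧ x ∉ As) := by
    intro x
    rw [hC, Finset.mem_sdiff, Finset.mem_union, not_or]
    exact ⟨fun h => h.2, fun h => ⟨Finset.mem_univ _, h⟩⟩
  have hApos : 0 < A.card := lt_of_le_of_lt (Nat.zero_le _) hcon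
  have hdAs : Disjoint A As := by
    rw [Finset.disjoint_left]
    intro x hx
    exact ((hmemC x).1 (hA hx)).2
  have hdAW : Disjoint A W := by
    rw [Finset.disjoint_left]
    intro x hx
    exact ((hmemC x).1 (hA hx)).1
  obtain ⟨A1, hA1⟩ : ∃ A1 : Finset V, A1 = A ∪ As := ⟨_, rfl⟩
  have hc1 : A1.card = A.card + As.card := by
    rw [hA1]
    exact Finset.card_union_of_disjoint hdAs
  have hd1 : Disjoint A1 W := by
    rw [hA1]
    exact Finset.disjoint_union_left.2 ⟨hdAW, hAW⟩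
  obtain ⟨Rs, hRs⟩ : ∃ Rs : Finset V, Rs = C \ A := ⟨_, rfl⟩
  have hrest : univ \ (W ∪ A1) = Rs := by
    ext x
    rw [hRs, Finset.mem_sdiff, Finset.mem_sdiff, hmemC, hA1, Finset.mem_union, Finset.mem_union]
    have := Finset.mem_univ x
    tauto
  have hrest2 : univ \ (W ∪ Rs) = A1 := by
    ext x
    rw [Finset.mem_sdiff, Finset.mem_union, hRs, Finset.mem_sdiff, hmemC, hA1, Finset.mem_union]
    have h1 := Finset.mem_univ x
    have h2 : x ∈ A → x ∉ W := fun h => Finset.disjoint_left.1 hdAW h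
    have h3 : x ∈ As → x ∉ W := fun h => Finset.disjoint_left.1 hAW h
    tauto
  rw [← hRs] at hcon
  have hsub : btw G Bs A1 Rs ⊆ btw G Bs A Rs ∪ btw G Bs As (univ \ (W ∪ As)) := by
    rw [← hC]
    intro e he
    rw [mem_btw', hA1, Finset.mem_union, Finset.mem_union] at he
    rw [Finset.mem_union, mem_btw', mem_btw']
    have h1 : ∀ x, x ∈ Rs → x ∈ C := fun x hx => by
      rw [hRs] at hx
      exact (Finset.mem_sdiff.1 hx).1
    have h2 := h1 (G.src e)
    have h3 := h1 (G.tgt e)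
    tauto
  have hle1 : (btw G Bs A1 Rs).card ≤
      (btw G Bs A Rs).card + (btw G Bs As (univ \ (W ∪ As))).card :=
    (Finset.card_le_card hsub).trans (Finset.card_union_le _ _)
  have hAe' : 2 * (H * (btw G Bs As (univ \ (W ∪ As))).card) ≤ As.card := by
    rcases hAe with h | h
    · rw [h, btw_empty']
      simp
    · exact h.le
  have hle2 : 2 * (H * (btw G Bs A1 Rs).card) < A1.card := by
    have h1 : H * (btw G Bs A1 Rs).card ≤
        H * (btw G Bs A Rs).card + H * (btw G Bs As (univ \ (W ∪ As))).card := by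
      rw [← Nat.mul_add]
      exact Nat.mul_le_mul_left H hle1
    rw [Nat.mul_assoc] at hcon
    omega
  have hle3 : H * (btw G ∅ A1 Rs).card ≤ H * (btw G Bs A1 Rs).card + H * Bs.card := by
    rw [← Nat.mul_add]
    exact Nat.mul_le_mul_left H (btw_le' G Bs A1 Rs)
  rcases Nat.lt_or_ge (Fintype.card V) (2 * A1.card) with hbig | hsmall
  · -- the rest is small
    have hdR : Disjoint Rs W := by
      rw [Finset.disjoint_left]
      intro x hx
      rw [hRs] at hx
      exact ((hmemC x).1 (Finset.mem_sdiff.1 hx).1).1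
    have hRn : Rs.card + A1.card ≤ Fintype.card V := by
      have hd : Disjoint Rs A1 := by
        rw [Finset.disjoint_left]
        intro x hx hx1
        rw [← hrest, Finset.mem_sdiff, Finset.mem_union] at hx
        exact hx.2 (Or.inr hx1)
      rw [← Finset.card_union_of_disjoint hd]
      exact Finset.card_le_univ _
    have hexp := Cl.exp W hW hWne Rs hdR (by omega)
    rw [hrest2, btw_comm'] at hexp
    have hRc : Rs.card = C.card - A.card := by
      rw [hRs]
      exact Finset.card_sdiff_of_subset hA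
    have hAC : A.card ≤ C.card := Finset.card_le_card hA
    have hCc : C.card + W.card + As.card = Fintype.card V := by
      have hd : Disjoint W As := hAW.symm
      have h1 : (W ∪ As).card = W.card + As.card := Finset.card_union_of_disjoint hd
      have h2 := Finset.card_sdiff_add_card_eq_card (Finset.subset_univ (W ∪ As))
      rw [← hC, h1, Finset.card_univ] at h2
      omega
    have hWs := Cl.small W hW hWne
    omega
  · have hexp := Cl.exp W hW hWne A1 hd1 hsmall
    rw [hrest] at hexp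
    have hA1c : A1.card ≤ 2 * (H * Bs.card) := by omega
    have := hmax A1 hd1 hA1c (Or.inr (by rw [hrest]; exact hle2))
    omega

end

theorem core_solve {V E : Type} [Fintype V] [Fintype E] [DecidableEq V] [DecidableEq E]
    {G : Gph V E} {Δ K H m : ℕ} (hdeg : G.Deg Δ) (Cl : Clo G K H m) {W : Finset V}
    (hW : Cl.cl W = W) (hWu : W ≠ univ) (Bs : Finset E)
    (hb : 16 * H * Bs.card ≤ Fintype.card V) :
    ∃ A : Finset V, Disjoint A W ∧ A.card ≤ 2 * H * Bs.card ∧
      ∀ O : Finset V, Disjoint O (W ∪ A) → Even O.card →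
        ∃ g : E → ZMod 2, G.bd g = ∑ v ∈ O, pt v ∧
          (∀ e, g e ≠ 0 → e ∉ Bs ∧ G.src e ∉ W ∪ A ∧ G.tgt e ∉ W ∪ A) ∧
          (univ.filter fun e => g e ≠ 0).card ≤ O.card * Ld (2 * H) Δ (Fintype.card V) := by
  have hb' : 16 * (H * Bs.card) ≤ Fintype.card V := by
    rw [← Nat.mul_assoc]
    exact hb
  obtain ⟨As, hAs, hmax⟩ := Finset.exists_max_image
    ((univ : Finset (Finset V)).filter fun A => Disjoint A W ∧ A.card ≤ 2 * (H * Bs.card) ∧
      (A = ∅ ∨ 2 * (H * (btw G Bs A (univ \ (W ∪ A))).card) < A.card)) Finset.card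
    ⟨∅, by
      rw [Finset.mem_filter]
      exact ⟨Finset.mem_univ _, Finset.disjoint_empty_left _, by simp, Or.inl rfl⟩⟩
  rw [Finset.mem_filter] at hAs
  obtain ⟨-, hAW, hAc, hAe⟩ := hAs
  have hmax' : ∀ A : Finset V, Disjoint A W → A.card ≤ 2 * (H * Bs.card) →
      (A = ∅ ∨ 2 * (H * (btw G Bs A (univ \ (W ∪ A))).card) < A.card) → A.card ≤ As.card :=
    fun A h1 h2 h3 => hmax A (Finset.mem_filter.2 ⟨Finset.mem_univ _, h1, h2, h3⟩)
  have hclaim := base_claim Cl hW hWu Bs hb' hAW hAc hAe hmax'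
  refine ⟨As, hAW, by rw [Nat.mul_assoc]; exact hAc, ?_⟩
  intro O hO heven
  have hmemC : ∀ x, x ∈ univ \ (W ∪ As) ↔ x ∉ W ∪ As := by
    intro x
    rw [Finset.mem_sdiff]
    exact ⟨fun h => h.2, fun h => ⟨Finset.mem_univ _, h⟩⟩
  obtain ⟨g, hg1, hg2, hg3⟩ := core_paths G (H' := 2 * H) hdeg Bs (univ \ (W ∪ As)) hclaim O
    (by
      intro x hx
      rw [hmemC]
      exact Finset.disjoint_left.1 hO hx) heven
  refine ⟨g, hg1, ?_, hg3⟩
  intro e he
  obtain ⟨h1, h2, h3⟩ := hg2 e he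
  exact ⟨h1, (hmemC _).1 h2, (hmemC _).1 h3⟩

end FrU
end

section

/-!
Detours in a product of two expanding graphs: support of size `O(log |Λ|) |L|`.

Notation as in HorB.lean: `c = |Λ|`, `λ = |L|`, `h(v) = fibU U v`, `v` heavy if `¬ 16 H' |Lver L v| ≤ c`.

PROOF of `prod_det`.
For `v` with `h(v) ≠ univ`, not heavy, let `A v` be the set of `core_solve` for `Y`, the closed set `h(v)`
(`PClosed`) and `Bs = Lver L v`; for all other `v` let `A v = ∅`.  Let `fh` be given by `hor_det`.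
Vertical edges: for each `v` define `g_v : F → ZMod 2`:
 * `h(v) = univ`: `g_v = 0`.
 * `v` heavy, `h(v) ≠ univ`: `g_v ε = f (inr (v, ε))`.
 * otherwise: let `M_v` be the set of the edges in `Lver L v` and of all edges with an endpoint in `A v`,
   `k_v ε = f (inr (v, ε))` for `ε ∈ M_v`, otherwise `0`; `D_v l = ∑_e fh (e, l)` over the edge ends at `v`
   (`(if P.src e = v then fh (e, l) else 0) + (if P.tgt e = v then fh (e, l) else 0)`),
   `O_v = {l | D_v l + Y.bd k_v l ≠ 0}`.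
   `O_v` is disjoint from `h(v)`: for `l ∈ h(v)` all edges at `(v, l)` are in `inc U`, so `D_v l = 0` and the
   terms of `Y.bd k_v l` vanish.  `O_v` is disjoint from `A v`: for `l ∈ A v` all horizontal edges at
   `(v, l)` have `fh = f`, all vertical edges at `l` are in `M_v`, so the sum is `(prodG P Y).bd f (v, l) = 0`.
   `|O_v|` is even: `∑_l D_v l = P.bd (∑_l fh (·, l)) v = 0` and `∑_l Y.bd k_v l = 0` (each edge counted
   twice).  Let `g'_v` be the chain of `core_solve` for `O_v`, and `g_v = k_v + g'_v`.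
Let `f' (inl p) = fh p`, `f' (inr (v, ε)) = g_v ε`.
Closed: at `(v, l)` the boundary is `D_v l + Y.bd g_v l`.  If `h(v) = univ`: all horizontal edges over `v` touch
`U`, so `fh = 0` there.  If `v` is heavy: `fh = f` on all edges at `v` and `g_v = f`.  Otherwise
`Y.bd g'_v l = 1` iff `l ∈ O_v`.
Zero on `inc U`: horizontal by `hor_det`.  Vertical `(v, ε)` with an endpoint of `ε` in `h(v)`: in the first
case `0`, in the second `f = 0`, in the third `k_v = f = 0` or `0`, and `g'_v` avoids `h(v)`.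
Equal to `f` on `L`: horizontal by `hor_det`; vertical `(v, ε) ∈ L`, i.e. `ε ∈ Lver L v`: first case: both `0`
(the edge touches `U`); second: clear; third: `ε ∈ M_v`, and `g'_v ε = 0` as `g'_v` avoids `Bs`.
Size: number of edges in the support of `f'`: horizontal at most `K7 λ`; vertical over heavy `v`: at most
`|F| ≤ Δy c` each, and `c < 16 H' |Lver L v|`, together at most `16 H' Δy λ`; over the others: `|M_v| ≤
(1 + 2 H' Δy) |Lver L v|` and `|g'_v| ≤ |O_v| Ld (2 H') Δy c`, where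
`∑_v |O_v| ≤ ∑_v (number of horizontal edge ends in the support of fh at v) + 2 |M_v|
≤ 2 K7 λ + 2 (1 + 2 H' Δy) λ`.  `|bsV f'|` is at most twice the number of edges: at most `CB H' Δp Δy c * λ`.
-/

set_option linter.unusedSectionVars false

namespace FrU

open Finset Fr56 FrC FrG FrT
open scoped Classical

section
variable {V E Λ F : Type} [Fintype V] [Fintype E] [DecidableEq V] [DecidableEq E]
  [Fintype Λ] [Fintype F] [DecidableEq Λ] [DecidableEq F]

/-- boundary in a product -/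
private theorem bd_prodG (P : Gph V E) (Y : Gph Λ F) (x : (E × Λ) ⊕ (V × F) → ZMod 2) (v : V)
    (l : Λ) : (prodG P Y).bd x (v, l) =
      P.bd (fun e => x (Sum.inl (e, l))) v + Y.bd (fun ε => x (Sum.inr (v, ε))) l := by
  unfold Gph.bd
  rw [Fintype.sum_sum_type]
  congr 1
  · rw [Fintype.sum_prod_type]
    refine Finset.sum_congr rfl fun e _ => ?_
    rw [Finset.sum_eq_single l]
    · simp [prodG]
    · intro b _ hb
      simp [prodG, hb]
    · simp
  · rw [Fintype.sum_prod_type, Finset.sum_eq_single v]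
    · refine Finset.sum_congr rfl fun ε _ => ?_
      simp [prodG]
    · intro b _ hb
      refine Finset.sum_eq_zero fun ε _ => ?_
      simp [prodG, hb]
    · simp

private theorem sum_bd0 {V E : Type} [Fintype V] [Fintype E] [DecidableEq V] (G : Gph V E)
    (x : E → ZMod 2) : ∑ v, G.bd x v = 0 := by
  unfold Gph.bd
  rw [Finset.sum_comm]
  refine Finset.sum_eq_zero fun e _ => ?_
  rw [Finset.sum_add_distrib]
  simp only [Finset.sum_ite_eq, Finset.mem_univ, if_true]
  exact CharTwo.add_self_eq_zero _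

private theorem bd_congr {V E : Type} [Fintype E] [DecidableEq V] (G : Gph V E)
    {x y : E → ZMod 2} {v : V} (h : ∀ e, (G.src e = v ∨ G.tgt e = v) → x e = y e) :
    G.bd x v = G.bd y v := by
  unfold Gph.bd
  refine Finset.sum_congr rfl fun e _ => ?_
  by_cases h1 : G.src e = v
  · rw [h e (Or.inl h1)]
  · by_cases h2 : G.tgt e = v
    · rw [h e (Or.inr h2)]
    · simp [h1, h2]

private theorem bd_eq0 {V E : Type} [Fintype E] [DecidableEq V] (G : Gph V E)
    {x : E → ZMod 2} {v : V} (h : ∀ e, (G.src e = v ∨ G.tgt e = v) → x e = 0) :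
    G.bd x v = 0 := by
  rw [bd_congr G (y := fun _ => 0) h]
  unfold Gph.bd
  simp

private theorem zmod2_cases (x : ZMod 2) : x = 0 ∨ x = 1 := by
  revert x
  decide

private theorem sum_card_ne {ι : Type} [Fintype ι] (x : ι → ZMod 2) :
    ∑ i, x i = ((univ.filter fun i => x i ≠ 0).card : ZMod 2) := by
  rw [Finset.card_filter, Nat.cast_sum]
  refine Finset.sum_congr rfl fun i _ => ?_
  rcases zmod2_cases (x i) with h | h
  · simp [h]
  · simp [h]

private theorem sum_pt_apply {ι : Type} [DecidableEq ι] (O : Finset ι) (l : ι) :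
    (∑ v ∈ O, (pt v : ι → ZMod 2)) l = if l ∈ O then 1 else 0 := by
  rw [Finset.sum_apply]
  simp only [FrC.pt, Pi.single_apply]
  rw [Finset.sum_ite_eq]

private theorem supp_bd {V E : Type} [Fintype V] [Fintype E] [DecidableEq V] (G : Gph V E)
    (x : E → ZMod 2) (M : Finset E) (hM : ∀ e, x e ≠ 0 → e ∈ M) :
    (univ.filter fun v => G.bd x v ≠ 0).card ≤ 2 * M.card := by
  have h1 : (univ.filter fun v => G.bd x v ≠ 0) ⊆ M.image G.src ∪ M.image G.tgt := by
    intro v hv
    rw [Finset.mem_filter] at hv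
    by_contra hn
    apply hv.2
    apply bd_eq0
    intro e he
    by_contra hx
    apply hn
    rw [Finset.mem_union, Finset.mem_image, Finset.mem_image]
    rcases he with he | he
    · exact Or.inl ⟨e, hM e hx, he⟩
    · exact Or.inr ⟨e, hM e hx, he⟩
  calc _ ≤ _ := Finset.card_le_card h1
    _ ≤ _ := Finset.card_union_le _ _
    _ ≤ M.card + M.card := add_le_add Finset.card_image_le Finset.card_image_le
    _ = _ := by ring

private theorem card_edges {V E : Type} [Fintype V] [Fintype E] [DecidableEq V] [DecidableEq E]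
    (G : Gph V E) {Δ : ℕ} (hdeg : G.Deg Δ) : Fintype.card E ≤ Fintype.card V * Δ := by
  have h1 : (univ : Finset E) ⊆ (univ : Finset V).biUnion G.star := by
    intro e _
    rw [Finset.mem_biUnion]
    exact ⟨G.src e, Finset.mem_univ _, by simp [Gph.star]⟩
  calc Fintype.card E = (univ : Finset E).card := Finset.card_univ.symm
    _ ≤ _ := Finset.card_le_card h1
    _ ≤ (univ : Finset V).card * Δ := Finset.card_biUnion_le_card_mul _ _ _ fun v _ => hdeg v
    _ = _ := by rw [Finset.card_univ]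

/-- number of horizontal edge ends at `v` in the support of `fh` -/
private noncomputable def hend (P : Gph V E) (fh : E × Λ → ZMod 2) (v : V) : ℕ :=
  (univ.filter fun p : E × Λ => fh p ≠ 0 ∧ P.src p.1 = v).card +
    (univ.filter fun p : E × Λ => fh p ≠ 0 ∧ P.tgt p.1 = v).card

private theorem sum_hend (P : Gph V E) (fh : E × Λ → ZMod 2) :
    ∑ v, hend P fh v = 2 * (univ.filter fun p : E × Λ => fh p ≠ 0).card := by
  unfold hend
  rw [Finset.sum_add_distrib, two_mul]
  congr 1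
  · rw [Finset.card_eq_sum_card_fiberwise (f := fun p : E × Λ => P.src p.1) (t := univ)
      (fun _ _ => Finset.mem_coe.mpr (Finset.mem_univ _))]
    refine Finset.sum_congr rfl fun v _ => ?_
    rw [Finset.filter_filter]
  · rw [Finset.card_eq_sum_card_fiberwise (f := fun p : E × Λ => P.tgt p.1) (t := univ)
      (fun _ _ => Finset.mem_coe.mpr (Finset.mem_univ _))]
    refine Finset.sum_congr rfl fun v _ => ?_
    rw [Finset.filter_filter]

private theorem supp_hor (P : Gph V E) (fh : E × Λ → ZMod 2) (v : V) :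
    (univ.filter fun l => P.bd (fun e => fh (e, l)) v ≠ 0).card ≤ hend P fh v := by
  have h1 : (univ.filter fun l => P.bd (fun e => fh (e, l)) v ≠ 0) ⊆
      (univ.filter fun p : E × Λ => fh p ≠ 0 ∧ P.src p.1 = v).image Prod.snd ∪
      (univ.filter fun p : E × Λ => fh p ≠ 0 ∧ P.tgt p.1 = v).image Prod.snd := by
    intro l hl
    rw [Finset.mem_filter] at hl
    by_contra hn
    apply hl.2
    apply bd_eq0
    intro e he
    by_contra hx
    apply hn
    rw [Finset.mem_union, Finset.mem_image, Finset.mem_image]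
    rcases he with he | he
    · exact Or.inl ⟨(e, l), by simp [hx, he], rfl⟩
    · exact Or.inr ⟨(e, l), by simp [hx, he], rfl⟩
  calc _ ≤ _ := Finset.card_le_card h1
    _ ≤ _ := Finset.card_union_le _ _
    _ ≤ _ := add_le_add Finset.card_image_le Finset.card_image_le

private theorem mem_bsV2 {V E : Type} [Fintype V] [Fintype E] [DecidableEq V] {G : Gph V E}
    {f : E → ZMod 2} {v : V} :
    v ∈ bsV G f ↔ ∃ e, f e ≠ 0 ∧ (G.src e = v ∨ G.tgt e = v) := by
  simp [bsV]

private theorem mem_fibU {U : Finset (V × Λ)} {v : V} {l : Λ} : l ∈ fibU U v ↔ (v, l) ∈ U := by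
  simp [fibU]

/-- the vertical chain over one vertex -/
private theorem fiber {P : Gph V E} {Y : Gph Λ F} {H' Δy : ℕ} (hdeg' : Y.Deg Δy)
    {U : Finset (V × Λ)} (L : Finset ((E × Λ) ⊕ (V × F)))
    (f : (E × Λ) ⊕ (V × F) → ZMod 2) (hf : (prodG P Y).bd f = 0)
    (hfU : ∀ e ∈ (prodG P Y).inc U, f e = 0) (A : Finset Λ) (v : V)
    (hA : A.card ≤ 2 * H' * (Lver L v).card)
    (hgood : fibU U v ≠ univ → 16 * H' * (Lver L v).card ≤ Fintype.card Λ →
      ∀ O : Finset Λ, Disjoint O (fibU U v ∪ A) → Even O.card →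
        ∃ g : F → ZMod 2, Y.bd g = ∑ v ∈ O, pt v ∧
          (∀ e, g e ≠ 0 → e ∉ Lver L v ∧ Y.src e ∉ fibU U v ∪ A ∧ Y.tgt e ∉ fibU U v ∪ A) ∧
          (univ.filter fun e => g e ≠ 0).card ≤ O.card * Ld (2 * H') Δy (Fintype.card Λ))
    (fh : E × Λ → ZMod 2)
    (h2 : ∀ e l, (P.src e = v ∨ P.tgt e = v) → l ∈ A → fh (e, l) = f (Sum.inl (e, l)))
    (h3 : ¬ 16 * H' * (Lver L v).card ≤ Fintype.card Λ → ∀ e l, (P.src e = v ∨ P.tgt e = v) →
      fh (e, l) = f (Sum.inl (e, l)))
    (h4 : ∀ p, Sum.inl p ∈ (prodG P Y).inc U → fh p = 0)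
    (h5 : P.bd (fun e => ∑ l, fh (e, l)) = 0) :
    ∃ g : F → ZMod 2, (∀ l, P.bd (fun e => fh (e, l)) v + Y.bd g l = 0) ∧
      (∀ ε, (Y.src ε ∈ fibU U v ∨ Y.tgt ε ∈ fibU U v) → g ε = 0) ∧
      (∀ ε ∈ Lver L v, g ε = f (Sum.inr (v, ε))) ∧
      (univ.filter fun ε => g ε ≠ 0).card ≤ 16 * H' * Δy * (Lver L v).card +
        (1 + 2 * H' * Δy) * (Lver L v).card +
        (hend P fh v + 2 * ((1 + 2 * H' * Δy) * (Lver L v).card)) *
          Ld (2 * H') Δy (Fintype.card Λ) := by
  have hincv : ∀ ε, (Y.src ε ∈ fibU U v ∨ Y.tgt ε ∈ fibU U v) →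
      f (Sum.inr (v, ε)) = 0 := by
    intro ε hε
    apply hfU
    rcases hε with hε | hε
    · exact Or.inl (mem_fibU.mp hε)
    · exact Or.inr (mem_fibU.mp hε)
  have hhor0 : ∀ l ∈ fibU U v, P.bd (fun e => fh (e, l)) v = 0 := by
    intro l hl
    apply bd_eq0
    intro e he
    apply h4
    have hl' := mem_fibU.mp hl
    rcases he with he | he
    · left
      show (P.src e, l) ∈ U
      rw [he]
      exact hl'
    · right
      show (P.tgt e, l) ∈ U
      rw [he]
      exact hl'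
  by_cases hfull : fibU U v = univ
  · refine ⟨0, ?_, ?_, ?_, ?_⟩
    · intro l
      rw [hhor0 l (by rw [hfull]; exact Finset.mem_univ _), Gph.bd_zero]
      simp
    · intro ε _
      rfl
    · intro ε _
      rw [hincv ε (Or.inl (by rw [hfull]; exact Finset.mem_univ _))]
      rfl
    · simp
  by_cases hheavy : 16 * H' * (Lver L v).card ≤ Fintype.card Λ
  swap
  · refine ⟨fun ε => f (Sum.inr (v, ε)), ?_, hincv, fun _ _ => rfl, ?_⟩
    · intro l
      rw [bd_congr P (y := fun e => f (Sum.inl (e, l))) fun e he => h3 hheavy e l he,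
        ← bd_prodG, hf]
      rfl
    · have h6 : (univ.filter fun ε => f (Sum.inr (v, ε)) ≠ 0).card ≤ Fintype.card F :=
        Finset.card_le_univ _
      have h7 := card_edges Y hdeg'
      have h8 : Fintype.card Λ * Δy ≤ 16 * H' * Δy * (Lver L v).card := by
        have h9 : Fintype.card Λ ≤ 16 * H' * (Lver L v).card := by omega
        calc Fintype.card Λ * Δy ≤ (16 * H' * (Lver L v).card) * Δy :=
              Nat.mul_le_mul_right _ h9
          _ = _ := by ring
      have h10 : (univ.filter fun ε => f (Sum.inr (v, ε)) ≠ 0).card ≤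
          16 * H' * Δy * (Lver L v).card := h6.trans (h7.trans h8)
      refine h10.trans ?_
      rw [add_assoc]
      exact Nat.le_add_right _ _
  -- the main case
  let M : Finset F := univ.filter fun ε => ε ∈ Lver L v ∨ Y.src ε ∈ A ∨ Y.tgt ε ∈ A
  let k : F → ZMod 2 := fun ε => if ε ∈ M then f (Sum.inr (v, ε)) else 0
  let O : Finset Λ := univ.filter fun l => P.bd (fun e => fh (e, l)) v + Y.bd k l ≠ 0
  have hk0 : ∀ ε, (Y.src ε ∈ fibU U v ∨ Y.tgt ε ∈ fibU U v) → k ε = 0 := by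
    intro ε hε
    show (if ε ∈ M then f (Sum.inr (v, ε)) else 0) = 0
    rw [hincv ε hε, ite_self]
  have hMcard : M.card ≤ (1 + 2 * H' * Δy) * (Lver L v).card := by
    have h6 : M ⊆ Lver L v ∪ A.biUnion Y.star := by
      intro ε hε
      rw [Finset.mem_filter] at hε
      rw [Finset.mem_union, Finset.mem_biUnion]
      rcases hε.2 with h | h | h
      · exact Or.inl h
      · exact Or.inr ⟨_, h, by simp [Gph.star]⟩
      · exact Or.inr ⟨_, h, by simp [Gph.star]⟩
    calc M.card ≤ _ := Finset.card_le_card h6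
      _ ≤ _ := Finset.card_union_le _ _
      _ ≤ (Lver L v).card + A.card * Δy :=
          Nat.add_le_add_left (Finset.card_biUnion_le_card_mul _ _ _ fun l _ => hdeg' l) _
      _ ≤ (Lver L v).card + (2 * H' * (Lver L v).card) * Δy :=
          Nat.add_le_add_left (Nat.mul_le_mul_right _ hA) _
      _ = _ := by ring
  have hOd : Disjoint O (fibU U v ∪ A) := by
    rw [Finset.disjoint_left]
    intro l hl hl'
    rw [Finset.mem_filter] at hl
    apply hl.2
    rw [Finset.mem_union] at hl'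
    rcases hl' with hl' | hl'
    · rw [hhor0 l hl', zero_add]
      apply bd_eq0
      intro ε hε
      apply hk0
      rcases hε with hε | hε
      · left
        rw [hε]
        exact hl'
      · right
        rw [hε]
        exact hl'
    · have e1 : P.bd (fun e => fh (e, l)) v = P.bd (fun e => f (Sum.inl (e, l))) v :=
        bd_congr P fun e he => h2 e l he hl'
      have e2 : Y.bd k l = Y.bd (fun ε => f (Sum.inr (v, ε))) l := by
        apply bd_congr
        intro ε hε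
        have hm : ε ∈ M := by
          rw [Finset.mem_filter]
          refine ⟨Finset.mem_univ _, Or.inr ?_⟩
          rcases hε with hε | hε
          · left
            rw [hε]
            exact hl'
          · right
            rw [hε]
            exact hl'
        show (if ε ∈ M then f (Sum.inr (v, ε)) else 0) = _
        rw [if_pos hm]
      rw [e1, e2, ← bd_prodG, hf]
      rfl
  have hOe : Even O.card := by
    have e1 : ∑ l, (P.bd (fun e => fh (e, l)) v + Y.bd k l) = 0 := by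
      rw [Finset.sum_add_distrib, sum_bd0, add_zero]
      have e2 := congrFun h5 v
      have e3 : (fun e => ∑ l, fh (e, l)) = ∑ l, fun e => fh (e, l) := by
        funext e
        rw [Finset.sum_apply]
      rw [e3, Gph.bd_sum, Finset.sum_apply] at e2
      exact e2
    rw [sum_card_ne] at e1
    exact (ZMod.natCast_eq_zero_iff_even).mp e1
  obtain ⟨g', hg1, hg2, hg3⟩ := hgood hfull hheavy O hOd hOe
  refine ⟨k + g', ?_, ?_, ?_, ?_⟩
  · intro l
    rw [Gph.bd_add, Pi.add_apply, hg1, sum_pt_apply, ← add_assoc]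
    by_cases hl : l ∈ O
    · rw [if_pos hl]
      have h6 := (Finset.mem_filter.mp hl).2
      rcases zmod2_cases (P.bd (fun e => fh (e, l)) v + Y.bd k l) with h7 | h7
      · exact absurd h7 h6
      · rw [h7]
        decide
    · rw [if_neg hl, add_zero]
      by_contra h6
      exact hl (Finset.mem_filter.mpr ⟨Finset.mem_univ _, h6⟩)
  · intro ε hε
    rw [Pi.add_apply, hk0 ε hε, zero_add]
    by_contra h6
    obtain ⟨-, h7, h8⟩ := hg2 ε h6
    rcases hε with hε | hε
    · exact h7 (Finset.mem_union_left _ hε)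
    · exact h8 (Finset.mem_union_left _ hε)
  · intro ε hε
    have h6 : g' ε = 0 := by
      by_contra h7
      exact (hg2 ε h7).1 hε
    have h8 : ε ∈ M := Finset.mem_filter.mpr ⟨Finset.mem_univ _, Or.inl hε⟩
    rw [Pi.add_apply, h6, add_zero]
    show (if ε ∈ M then f (Sum.inr (v, ε)) else 0) = _
    rw [if_pos h8]
  · have hkM : ∀ ε, k ε ≠ 0 → ε ∈ M := by
      intro ε hε
      by_contra h6
      apply hε
      show (if ε ∈ M then f (Sum.inr (v, ε)) else 0) = 0
      rw [if_neg h6]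
    have h6 : (univ.filter fun ε => (k + g') ε ≠ 0) ⊆ M ∪ univ.filter fun ε => g' ε ≠ 0 := by
      intro ε hε
      rw [Finset.mem_filter] at hε
      rw [Finset.mem_union]
      by_cases h7 : g' ε = 0
      · left
        apply hkM
        intro h8
        apply hε.2
        rw [Pi.add_apply, h8, h7, add_zero]
      · right
        exact Finset.mem_filter.mpr ⟨Finset.mem_univ _, h7⟩
    have h7 : O.card ≤ hend P fh v + 2 * ((1 + 2 * H' * Δy) * (Lver L v).card) := by
      have h8 : O ⊆ (univ.filter fun l => P.bd (fun e => fh (e, l)) v ≠ 0) ∪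
          univ.filter fun l => Y.bd k l ≠ 0 := by
        intro l hl
        rw [Finset.mem_filter] at hl
        rw [Finset.mem_union]
        by_cases h9 : P.bd (fun e => fh (e, l)) v = 0
        · right
          refine Finset.mem_filter.mpr ⟨Finset.mem_univ _, ?_⟩
          intro h10
          apply hl.2
          rw [h9, h10, add_zero]
        · left
          exact Finset.mem_filter.mpr ⟨Finset.mem_univ _, h9⟩
      calc O.card ≤ _ := Finset.card_le_card h8
        _ ≤ _ := Finset.card_union_le _ _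
        _ ≤ hend P fh v + 2 * M.card := add_le_add (supp_hor P fh v) (supp_bd Y k M hkM)
        _ ≤ _ := Nat.add_le_add_left (Nat.mul_le_mul_left _ hMcard) _
    calc _ ≤ _ := Finset.card_le_card h6
      _ ≤ _ := Finset.card_union_le _ _
      _ ≤ (1 + 2 * H' * Δy) * (Lver L v).card +
          (hend P fh v + 2 * ((1 + 2 * H' * Δy) * (Lver L v).card)) *
            Ld (2 * H') Δy (Fintype.card Λ) :=
          add_le_add hMcard (hg3.trans (Nat.mul_le_mul_right _ h7))
      _ ≤ _ := by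
          rw [add_assoc (16 * H' * Δy * (Lver L v).card)]
          exact Nat.le_add_left _ _

private theorem sum_Lver (L : Finset ((E × Λ) ⊕ (V × F))) :
    ∑ v, (Lver L v).card ≤ L.card := by
  have h1 : ∑ v, (Lver L v).card =
      (univ.filter fun p : V × F => (Sum.inr p : (E × Λ) ⊕ (V × F)) ∈ L).card := by
    rw [Finset.card_filter, Fintype.sum_prod_type]
    refine Finset.sum_congr rfl fun v _ => ?_
    rw [← Finset.card_filter]
    rfl
  rw [h1]
  refine Finset.card_le_card_of_injOn (fun p => (Sum.inr p : (E × Λ) ⊕ (V × F))) ?_ ?_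
  · intro p hp
    exact (Finset.mem_filter.mp hp).2
  · intro p _ q _ h
    exact Sum.inr_injective h

/-- **detours in a product** -/
theorem prod_det {P : Gph V E} {Y : Gph Λ F} {K H m K' H' m' Δp Δy : ℕ} (CP : Clo P K H m)
    (CY : Clo Y K' H' m') (hdeg : P.Deg Δp) (hdeg' : Y.Deg Δy) (hnl : P.NoLoop)
    (hnl' : Y.NoLoop) (hH' : 1 ≤ H') (hcpos : 0 < Fintype.card Λ)
    (hc : Kd H Δp (Fintype.card V) * (2 + 20 * H' * Δp) ≤ Fintype.card Λ)
    {U : Finset (V × Λ)} (hU : PClosed CP CY U) (L : Finset ((E × Λ) ⊕ (V × F)))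
    (f : (E × Λ) ⊕ (V × F) → ZMod 2) (hf : (prodG P Y).bd f = 0)
    (hfU : ∀ e ∈ (prodG P Y).inc U, f e = 0) :
    ∃ f' : (E × Λ) ⊕ (V × F) → ZMod 2, (prodG P Y).bd f' = 0 ∧
      (∀ e ∈ (prodG P Y).inc U, f' e = 0) ∧ (∀ e ∈ L, f' e = f e) ∧
      (bsV (prodG P Y) f').card ≤ CB H' Δp Δy (Fintype.card Λ) * L.card := by
  have hcore : ∀ v, ∃ A : Finset Λ, A.card ≤ 2 * H' * (Lver L v).card ∧
      (¬ 16 * H' * (Lver L v).card ≤ Fintype.card Λ → A = ∅) ∧
      (fibU U v ≠ univ → 16 * H' * (Lver L v).card ≤ Fintype.card Λ →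
      ∀ O : Finset Λ, Disjoint O (fibU U v ∪ A) → Even O.card →
        ∃ g : F → ZMod 2, Y.bd g = ∑ v ∈ O, pt v ∧
          (∀ e, g e ≠ 0 → e ∉ Lver L v ∧ Y.src e ∉ fibU U v ∪ A ∧ Y.tgt e ∉ fibU U v ∪ A) ∧
          (univ.filter fun e => g e ≠ 0).card ≤
            O.card * Ld (2 * H') Δy (Fintype.card Λ)) := by
    intro v
    by_cases h1 : fibU U v ≠ univ ∧ 16 * H' * (Lver L v).card ≤ Fintype.card Λ
    · obtain ⟨A, -, hA2, hA3⟩ := core_solve hdeg' CY (hU.2 v) h1.1 (Lver L v) h1.2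
      exact ⟨A, hA2, fun h => absurd h1.2 h, fun _ _ => hA3⟩
    · exact ⟨∅, by simp, fun _ => rfl, fun h2 h3 => absurd ⟨h2, h3⟩ h1⟩
  choose A hA1 hA2 hA3 using hcore
  obtain ⟨fh, f1, f2, f3, f4, f5, f6⟩ := hor_det CP CY hdeg hnl hnl' hH' hcpos hc hU L f hf hfU A
    hA1 hA2
  have hfib : ∀ v, ∃ g : F → ZMod 2, (∀ l, P.bd (fun e => fh (e, l)) v + Y.bd g l = 0) ∧
      (∀ ε, (Y.src ε ∈ fibU U v ∨ Y.tgt ε ∈ fibU U v) → g ε = 0) ∧
      (∀ ε ∈ Lver L v, g ε = f (Sum.inr (v, ε))) ∧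
      (univ.filter fun ε => g ε ≠ 0).card ≤ 16 * H' * Δy * (Lver L v).card +
        (1 + 2 * H' * Δy) * (Lver L v).card +
        (hend P fh v + 2 * ((1 + 2 * H' * Δy) * (Lver L v).card)) *
          Ld (2 * H') Δy (Fintype.card Λ) := by
    intro v
    refine fiber hdeg' L f hf hfU (A v) v (hA1 v) (hA3 v) fh ?_ ?_ f4 f5
    · intro e l he hl
      apply f2
      rcases he with he | he
      · left
        rw [he]
        exact hl
      · right
        rw [he]
        exact hl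
    · intro hh e l he
      apply f3
      rcases he with he | he
      · left
        rw [he]
        exact hh
      · right
        rw [he]
        exact hh
  choose g g1 g2 g3 g4 using hfib
  refine ⟨Sum.elim fh fun p => g p.1 p.2, ?_, ?_, ?_, ?_⟩
  · funext p
    obtain ⟨v, l⟩ := p
    rw [bd_prodG]
    exact g1 v l
  · rintro (p | ⟨v, ε⟩) he
    · exact f4 p he
    · apply g2
      rcases he with he | he
      · exact Or.inl (mem_fibU.mpr he)
      · exact Or.inr (mem_fibU.mpr he)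
  · rintro (p | ⟨v, ε⟩) he
    · exact f1 p he
    · exact g3 v ε (Finset.mem_filter.mpr ⟨Finset.mem_univ _, he⟩)
  · set f' : (E × Λ) ⊕ (V × F) → ZMod 2 := Sum.elim fh fun p => g p.1 p.2 with hf'
    set S : Finset ((E × Λ) ⊕ (V × F)) := univ.filter fun e => f' e ≠ 0 with hS
    have h1 : (bsV (prodG P Y) f').card ≤ 2 * S.card := by
      have h2 : bsV (prodG P Y) f' ⊆ S.image (prodG P Y).src ∪ S.image (prodG P Y).tgt := by
        intro x hx
        obtain ⟨e, he, hx⟩ := mem_bsV2.mp hx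
        rw [Finset.mem_union, Finset.mem_image, Finset.mem_image]
        have he' : e ∈ S := Finset.mem_filter.mpr ⟨Finset.mem_univ _, he⟩
        rcases hx with hx | hx
        · exact Or.inl ⟨e, he', hx⟩
        · exact Or.inr ⟨e, he', hx⟩
      calc _ ≤ _ := Finset.card_le_card h2
        _ ≤ _ := Finset.card_union_le _ _
        _ ≤ S.card + S.card := add_le_add Finset.card_image_le Finset.card_image_le
        _ = _ := by ring
    have h2 : S.card = (univ.filter fun p : E × Λ => fh p ≠ 0).card +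
        ∑ v, (univ.filter fun ε => g v ε ≠ 0).card := by
      rw [hS, Finset.card_filter, Fintype.sum_sum_type, Fintype.sum_prod_type (f := fun p : V × F =>
        if f' (Sum.inr p) ≠ 0 then 1 else 0)]
      congr 1
      · rw [Finset.card_filter]
        rfl
      · refine Finset.sum_congr rfl fun v _ => ?_
        rw [Finset.card_filter]
        rfl
    have h3 : ∑ v, (univ.filter fun ε => g v ε ≠ 0).card ≤
        ∑ v, (16 * H' * Δy * (Lver L v).card + (1 + 2 * H' * Δy) * (Lver L v).card +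
        (hend P fh v + 2 * ((1 + 2 * H' * Δy) * (Lver L v).card)) *
          Ld (2 * H') Δy (Fintype.card Λ)) := Finset.sum_le_sum fun v _ => g4 v
    have h4 : ∑ v, (16 * H' * Δy * (Lver L v).card + (1 + 2 * H' * Δy) * (Lver L v).card +
        (hend P fh v + 2 * ((1 + 2 * H' * Δy) * (Lver L v).card)) *
          Ld (2 * H') Δy (Fintype.card Λ)) =
        16 * H' * Δy * ∑ v, (Lver L v).card + (1 + 2 * H' * Δy) * ∑ v, (Lver L v).card +
        (2 * (univ.filter fun p : E × Λ => fh p ≠ 0).card +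
          2 * ((1 + 2 * H' * Δy) * ∑ v, (Lver L v).card)) *
          Ld (2 * H') Δy (Fintype.card Λ) := by
      rw [← sum_hend P fh, Finset.sum_add_distrib, Finset.sum_add_distrib, ← Finset.mul_sum,
        ← Finset.mul_sum, ← Finset.sum_mul, Finset.sum_add_distrib, ← Finset.mul_sum,
        ← Finset.mul_sum]
    have h5 : ∑ v, (Lver L v).card ≤ L.card := sum_Lver L
    have h6 : S.card ≤ (K7 H' Δp + 16 * H' * Δy + (1 + 2 * H' * Δy) +
        (2 * K7 H' Δp + 2 + 4 * H' * Δy) * Ld (2 * H') Δy (Fintype.card Λ)) * L.card := by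
      rw [h2]
      calc _ ≤ K7 H' Δp * L.card + (16 * H' * Δy * L.card + (1 + 2 * H' * Δy) * L.card +
            (2 * (K7 H' Δp * L.card) + 2 * ((1 + 2 * H' * Δy) * L.card)) *
              Ld (2 * H') Δy (Fintype.card Λ)) := by
            refine add_le_add f6 ?_
            refine h3.trans ?_
            rw [h4]
            gcongr
        _ = _ := by ring
    calc _ ≤ 2 * S.card := h1
      _ ≤ 2 * ((K7 H' Δp + 16 * H' * Δy + (1 + 2 * H' * Δy) +
        (2 * K7 H' Δp + 2 + 4 * H' * Δy) * Ld (2 * H') Δy (Fintype.card Λ)) * L.card) :=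
          Nat.mul_le_mul_left _ h6
      _ = _ := by
          unfold CB
          ring

end

end FrU
end
end

section

section

/-!
The decision tree of one formula from a state `(B, y)` with a strongly closed set `B`.

PROOF.  Copy `dec_auxT`, `dec_of_noLongT` (T/DecA.lean) with these changes.  The start set is `B` in the
place of `∅`; the revealed sets are `De.UsF B c` (steps `De.Md`), runs are `RunF .. B ..`; the invariant is:
`G.Agree B y₀ y` (`y₀` the assignment in `hno`), `RunF Fr v0 α a De 𝒞 B y c`, `Fr.Ok v0 (De.UsF B c) y`,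
`totL c < ℓ₀`.  Claim: `Dec ... (K * ((2 + C₁) * ℓ₀) - (De.UsF B c \ B).card) (De.UsF B c) y`.
Number of new edges of a step at `U = De.UsF B c`: `L` = the edges whose paths touch `C.1` and not in
`incT G Q U`; a path of an edge `e ∈ L` does not touch `W` (otherwise `e ∈ cov (G.tall Q) a W`, so
`e ∈ incT G Q (plc G Q (cov ..)) ⊆ incT G Q B ⊆ incT G Q U`, by `FrC.mem_incT_plc`, `FrC.incT_mono`, `UsF_sub`),
so it touches `C.1 \ W` and `|L| ≤ |cov (G.tall Q) a (C.1 \ W)| ≤ (Δ + 2) k` (`FrC.card_cov`).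
Cardinalities by `card_UsF` (in the place of `card_Us`): `|De.UsF B c \ B| ≤ K ((2 + C₁) totL c)` and
`|De.UsF B c| ≤ |B| + ..`.  Congruence of runs: `RunF_congr`.  `B ⊆ De.UsF B c` (`UsF_sub`), and all sets grow
with `c`, so the differences with `B` are handled by `(S ∪ N) \ B = (S \ B) ∪ (N \ ..)` for `B ⊆ S`:
`|S'| = |B| + |S' \ B|` for `B ⊆ S'`.
-/

set_option linter.unusedSectionVars false

namespace FrU

open Finset Fr56 FrC FrG FrT
open scoped Classical

section
variable {V E : Type} [Fintype V] [Fintype E] [DecidableEq V] [DecidableEq E]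
  {G : Gph V E} {Q K C₁ C₂ m : ℕ} (Fr : Frame G) (v0 : V) {D : ℕ}
  (α : Xt (TE V E Q) D → ZMod 2) (a : TV V Q → FrC.A D) (De : DetM G Q K C₁ C₂ m)

private theorem exists_firstM {𝒞 : Set (Cert V E Q D)} {U : Finset V} {y : E → ZMod 2}
    (hp : ∃ C ∈ 𝒞, Poss Fr v0 α a C U y) :
    ∃ C ∈ 𝒞, Poss Fr v0 α a C U y ∧ ∀ C' ∈ 𝒞, idx C' < idx C → ¬ Poss Fr v0 α a C' U y := by
  have hex : ∃ i, ∃ C ∈ 𝒞, Poss Fr v0 α a C U y ∧ idx C = i := by
    obtain ⟨C, hC, hP⟩ := hp
    exact ⟨idx C, C, hC, hP, rfl⟩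
  obtain ⟨C, hC, hP, hi⟩ := Nat.find_spec hex
  refine ⟨C, hC, hP, fun C' hC' hlt hP' => ?_⟩
  rw [hi] at hlt
  exact Nat.find_min hex hlt ⟨C', hC', hP', rfl⟩

/-- the pattern of a step and its stability -/
private theorem stepM_of_step {𝒞 : Set (Cert V E Q D)} {U : Finset V} {y : E → ZMod 2}
    {C : Cert V E Q D} {L : Finset (TE V E Q)} (h : Step Fr v0 α a 𝒞 U y C L) :
    ∃ P : Finset (TE V E Q), ∀ y' : E → ZMod 2, G.Agree (U ∪ plc G Q L) y y' →
      StepT Fr v0 α a 𝒞 U y' C L P := by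
  obtain ⟨z, t, hz, hb, hf, hm⟩ := h.2.1
  refine ⟨L.filter fun e => z e ≠ iota y e, fun y' hy' => ?_⟩
  have hyU : G.Agree U y y' := hy'.mono Finset.subset_union_left
  have hyN : G.Agree (plc G Q L) y y' := hy'.mono Finset.subset_union_right
  refine ⟨Step_congr Fr v0 α a h hyU, Finset.filter_subset _ _, z, t, fun e he => ?_, hb, hf, hm,
    fun e he => ?_⟩
  · rw [hz e he]
    exact iota_agree G hyU e he
  · rw [Finset.mem_filter, iota_agree G hyN e (mem_incT_plc G he)]
    exact ⟨fun h => h.2, fun h => ⟨he, h⟩⟩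

private theorem dec_auxF {Δ k ℓ₀ : ℕ} (hdeg : G.Deg Δ)
    {W : Finset (HV (TV V Q) (TE V E Q) D)} {𝒞 : Set (Cert V E Q D)}
    (h𝒞 : ∀ C ∈ 𝒞, (C.1 \ W).card ≤ k) {B : Finset V} (hB : De.cL B = B)
    (hWB : plc G Q (cov (G.tall Q) a W) ⊆ B)
    (hm : (2 + C₁) * (ℓ₀ + (Δ + 2) * k) ≤ m)
    (hmF : B.card + K * ((2 + C₁) * (ℓ₀ + (Δ + 2) * k)) ≤ Fr.m)
    {y₀ : E → ZMod 2}
    (hno : NoLongF Fr v0 α a De 𝒞 B y₀ ℓ₀ (ℓ₀ + (Δ + 2) * k)) (σ : Bool) :
    ∀ (n : ℕ) (c : List (LP V E Q)) (y : E → ZMod 2), ℓ₀ - totL c ≤ n → G.Agree B y₀ y →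
      RunF Fr v0 α a De 𝒞 B y c → Fr.Ok v0 (De.UsF B c) y → totL c < ℓ₀ →
      Dec Fr v0 (fun b U y => if b = σ then QC (G := G) α a 𝒞 U y else QN Fr v0 α a 𝒞 U y)
        (K * ((2 + C₁) * ℓ₀) - (De.UsF B c \ B).card) (De.UsF B c) y := by
  intro n
  induction n with
  | zero =>
    intro c y h0 _ _ _ hlt
    omega
  | succ n ih =>
    intro c y hle hag hrun hok hlt
    have hBU : B ⊆ De.UsF B c := UsF_sub De B c
    by_cases hp : ∃ C ∈ 𝒞, Poss Fr v0 α a C (De.UsF B c) y
    swap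
    · refine Dec.leaf (!σ) ?_
      have hne : (!σ) ≠ σ := by cases σ <;> simp
      rw [if_neg hne]
      intro C hC hP
      exact hp ⟨C, hC, hP⟩
    obtain ⟨C, hC, hP, hfirst⟩ := exists_firstM Fr v0 α a hp
    set L : Finset (TE V E Q) :=
      (cov (G.tall Q) a C.1).filter (fun e => e ∉ incT G Q (De.UsF B c)) with hL
    have hmem : ∀ e, e ∈ L ↔ Tch (G.tall Q) a C.1 e ∧ e ∉ incT G Q (De.UsF B c) := by
      intro e
      rw [hL, Finset.mem_filter, cov, Finset.mem_filter]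
      constructor
      · rintro ⟨⟨_, h1⟩, h2⟩
        exact ⟨h1, h2⟩
      · rintro ⟨h1, h2⟩
        exact ⟨⟨Finset.mem_univ _, h1⟩, h2⟩
    rcases Finset.eq_empty_or_nonempty L with hL0 | hLne
    · -- all live edges at the certificate are known
      have hall : ∀ e, Tch (G.tall Q) a C.1 e → e ∈ incT G Q (De.UsF B c) := by
        intro e he
        by_contra hcon
        have := (hmem e).2 ⟨he, hcon⟩
        rw [hL0] at this
        exact absurd this (Finset.notMem_empty e)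
      refine Dec.leaf σ ?_
      rw [if_pos rfl]
      obtain ⟨z, t, hz, _, _, hmatch⟩ := hP
      refine ⟨C, hC, ?_, ?_⟩
      · intro u hu
        rw [← hmatch u hu]
        simp only [Pi.add_apply, FrC.Pth]
        by_cases hlive : live (G.tall Q) a u
        · rw [if_pos hlive, if_pos hlive, hz u.e (hall u.e ⟨u, rfl, hlive, hu⟩)]
        · rw [if_neg hlive, if_neg hlive]
      · intro e he
        exact (inl_mem_incT G).1 (hall _ he)
    · have hLsub : L ⊆ cov (G.tall Q) a (C.1 \ W) := by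
        intro e he
        obtain ⟨⟨x, hxe, hlive, hx⟩, hne⟩ := (hmem e).1 he
        have hxW : x ∉ ((G.tall Q).blow D).inc W := by
          intro hxW
          refine hne (incT_mono G (hWB.trans hBU) (mem_incT_plc G ?_))
          rw [cov, Finset.mem_filter]
          exact ⟨Finset.mem_univ _, x, hxe, hlive, hxW⟩
        rw [cov, Finset.mem_filter]
        refine ⟨Finset.mem_univ _, x, hxe, hlive, ?_⟩
        rcases hx with hx | hx
        · exact Or.inl (Finset.mem_sdiff.2 ⟨hx, fun h => hxW (Or.inl h)⟩)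
        · exact Or.inr (Finset.mem_sdiff.2 ⟨hx, fun h => hxW (Or.inr h)⟩)
      have hLcard : L.card ≤ (Δ + 2) * k := by
        calc L.card ≤ (cov (G.tall Q) a (C.1 \ W)).card := Finset.card_le_card hLsub
          _ ≤ (Δ + 2) * (C.1 \ W).card :=
            card_cov (G.tall Q) (by omega) (deg_tall G hdeg) a (C.1 \ W)
          _ ≤ (Δ + 2) * k := Nat.mul_le_mul_left _ (h𝒞 C hC)
      have hLpos : 0 < L.card := Finset.card_pos.2 hLne
      have hstep : Step Fr v0 α a 𝒞 (De.UsF B c) y C L := ⟨hC, hP, hfirst, hmem, hLne⟩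
      have htotP : ∀ P : Finset (TE V E Q), totL ((L, P) :: c) = totL c + L.card := fun _ => rfl
      have hsubP : ∀ P : Finset (TE V E Q),
          De.UsF B c ∪ plc G Q L ⊆ De.UsF B ((L, P) :: c) := fun P =>
        Finset.union_subset (Md_sub De _ (L, P)) (plc_sub_Md De _ (L, P))
      have hBP : ∀ P : Finset (TE V E Q), B ⊆ De.UsF B ((L, P) :: c) := fun P => UsF_sub De B _
      have hB1' : B ⊆ De.UsF B c ∪ plc G Q L := hBU.trans Finset.subset_union_left
      have hcardP : ∀ P : Finset (TE V E Q),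
          (De.UsF B ((L, P) :: c) \ B).card ≤ K * ((2 + C₁) * (totL c + L.card)) := fun P => by
        have := card_UsF De hB ((L, P) :: c) (by
          rw [htotP]
          exact (Nat.mul_le_mul_left _ (by omega)).trans hm)
        rwa [htotP] at this
      have hcB : ∀ S : Finset V, B ⊆ S → (S \ B).card + B.card = S.card := fun S h =>
        Finset.card_sdiff_add_card_eq_card h
      have hcardm : ∀ P : Finset (TE V E Q), (De.UsF B ((L, P) :: c)).card ≤ Fr.m := fun P => by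
        have h1 := hcB _ (hBP P)
        have h2 := (hcardP P).trans (Nat.mul_le_mul_left K (Nat.mul_le_mul_left (2 + C₁)
          (show totL c + L.card ≤ ℓ₀ + (Δ + 2) * k by omega)))
        omega
      have hN1m : (De.UsF B c ∪ plc G Q L).card ≤ Fr.m :=
        (Finset.card_le_card (hsubP ∅)).trans (hcardm ∅)
      -- the run with one more step
      have hpat : ∀ y' : E → ZMod 2, G.Agree (De.UsF B c) y y' →
          ∃ P : Finset (TE V E Q), ∀ y'' : E → ZMod 2,
            G.Agree (De.UsF B c ∪ plc G Q L) y' y'' →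
            G.Agree B y₀ y'' ∧ RunF Fr v0 α a De 𝒞 B y'' ((L, P) :: c) := by
        intro y' hyy'
        obtain ⟨P, hPs⟩ := stepM_of_step Fr v0 α a (Step_congr Fr v0 α a hstep hyy')
        refine ⟨P, fun y'' hy'' => ?_⟩
        have hyU : G.Agree (De.UsF B c) y y'' := hyy'.trans (hy''.mono Finset.subset_union_left)
        exact ⟨hag.trans (hyU.mono hBU), RunF_congr hrun hyU, C, hPs y'' hy''⟩
      -- the number of edges stays small
      have htot' : totL c + L.card < ℓ₀ := by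
        by_contra hcon
        push Not at hcon
        obtain ⟨y', hyy', hok'⟩ := Fr.move Finset.subset_union_left hN1m hok
        obtain ⟨P, hPs⟩ := hpat y' hyy'
        obtain ⟨y'', hyy'', hok''⟩ := Fr.move (hsubP P) (hcardm P) hok'
        exact hno ((L, P) :: c) y'' (hPs y'' hyy'').1 (hPs y'' hyy'').2 hok''
          (by rw [htotP]; exact hcon) (by rw [htotP]; omega)
      have hBd : ∀ P : Finset (TE V E Q),
          (De.UsF B ((L, P) :: c) \ B).card ≤ K * ((2 + C₁) * ℓ₀) := fun P =>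
        (hcardP P).trans (Nat.mul_le_mul_left _ (Nat.mul_le_mul_left _ (by omega)))
      have hBd1 : ((De.UsF B c ∪ plc G Q L) \ B).card ≤ K * ((2 + C₁) * ℓ₀) :=
        (Finset.card_le_card (Finset.sdiff_subset_sdiff (hsubP ∅) (Finset.Subset.refl _))).trans
          (hBd ∅)
      have hc1 : (De.UsF B c ∪ plc G Q L).card =
          (De.UsF B c).card + (plc G Q L \ De.UsF B c).card := by
        rw [← Finset.union_sdiff_self_eq_union, Finset.card_union_of_disjoint
          Finset.disjoint_sdiff]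
      have hbud : K * ((2 + C₁) * ℓ₀) - (De.UsF B c \ B).card =
          (plc G Q L \ De.UsF B c).card +
            (K * ((2 + C₁) * ℓ₀) - ((De.UsF B c ∪ plc G Q L) \ B).card) := by
        have h1 := hcB _ hBU
        have h2 := hcB _ hB1'
        omega
      rw [hbud]
      refine Dec.node (plc G Q L \ De.UsF B c) le_rfl fun y' hyy' hok' => ?_
      rw [Finset.union_sdiff_self_eq_union] at hok' ⊢
      obtain ⟨P, hPs⟩ := hpat y' hyy'
      have hun : (De.UsF B c ∪ plc G Q L) ∪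
          (De.UsF B ((L, P) :: c) \ (De.UsF B c ∪ plc G Q L)) =
          De.UsF B ((L, P) :: c) := Finset.union_sdiff_of_subset (hsubP P)
      have hc2 : (De.UsF B ((L, P) :: c)).card = (De.UsF B c ∪ plc G Q L).card +
          (De.UsF B ((L, P) :: c) \ (De.UsF B c ∪ plc G Q L)).card := by
        conv_lhs => rw [← hun]
        exact Finset.card_union_of_disjoint Finset.disjoint_sdiff
      have hbud2 : K * ((2 + C₁) * ℓ₀) - ((De.UsF B c ∪ plc G Q L) \ B).card =
          (De.UsF B ((L, P) :: c) \ (De.UsF B c ∪ plc G Q L)).card +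
            (K * ((2 + C₁) * ℓ₀) - (De.UsF B ((L, P) :: c) \ B).card) := by
        have h0 := hBd P
        have h1 := hcB _ hB1'
        have h2 := hcB _ (hBP P)
        omega
      rw [hbud2]
      refine Dec.node (De.UsF B ((L, P) :: c) \ (De.UsF B c ∪ plc G Q L)) le_rfl
        fun y'' hyy'' hok'' => ?_
      rw [hun] at hok'' ⊢
      exact ih ((L, P) :: c) y'' (by rw [htotP]; omega) (hPs y'' hyy'').1 (hPs y'' hyy'').2 hok''
        (by rw [htotP]; exact htot')

/-- **the decision tree that looks for the first possible certificate, from a state** -/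
theorem dec_of_noLongF {Δ k ℓ₀ : ℕ} (hdeg : G.Deg Δ)
    {W : Finset (HV (TV V Q) (TE V E Q) D)} {𝒞 : Set (Cert V E Q D)}
    (h𝒞 : ∀ C ∈ 𝒞, (C.1 \ W).card ≤ k) {B : Finset V} (hB : De.cL B = B)
    (hWB : plc G Q (cov (G.tall Q) a W) ⊆ B) (hℓ₀ : 0 < ℓ₀)
    (hm : (2 + C₁) * (ℓ₀ + (Δ + 2) * k) ≤ m)
    (hmF : B.card + K * ((2 + C₁) * (ℓ₀ + (Δ + 2) * k)) ≤ Fr.m)
    {y : E → ZMod 2} (hok : Fr.Ok v0 B y)
    (hno : NoLongF Fr v0 α a De 𝒞 B y ℓ₀ (ℓ₀ + (Δ + 2) * k)) (σ : Bool) :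
    Dec Fr v0 (fun b U y => if b = σ then QC (G := G) α a 𝒞 U y else QN Fr v0 α a 𝒞 U y)
      (K * ((2 + C₁) * ℓ₀)) B y := by
  have h := dec_auxF Fr v0 α a De hdeg h𝒞 hB hWB hm hmF hno σ ℓ₀ [] y (by simp [totL])
    (fun _ _ => rfl) trivial (by simpa [DetM.UsF] using hok) (by simpa [totL] using hℓ₀)
  simpa [DetM.UsF] using h

end

end FrU
end

section

/-!
The common decision tree: repeated segments.

Notation: `B₀ = De.B0 a W`, `s c = De.st B₀ c`, `R' = R + ℓ₀ + (Δ + 2) * k`,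
`M1 = K * (2 * ((Δ + 2) * T') + K3c K C₁ C₂ Δ * R')`.

PROOF.  `B₀ = De.cL (plc G Q (cov (G.tall Q) a W))` is strongly closed (`idemL`), and by `card_st` (with
`G₀ = plc ..`, `|G₀| ≤ 2 |cov| ≤ 2 (Δ + 2) |W|`: `FrC.card_plc`, `FrC.card_cov`, `FrC.deg_tall`)
`|(s c).2| ≤ M1` for every `c` with `totR c ≤ R'`.
If `Fam` is empty: leaf.  Otherwise claim, for all `n`, complete `c`, sequences `𝒞` with values in `Fam`
and `y'` with `R - totR c ≤ n`, `totR c < R`, `G.Agree B₀ y y'`, `Fr.Ok v0 (s c).1 y'`,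
`RunM Fr v0 α a De ℓ₀ 𝒞 B₀ y' c y'`:  `Dec ... (M1 - (s c).1.card) (s c).1 y'`.  (Start: `c = []`,
`RunM` is `G.Agree B₀ y' y'`, `(s []).1 = B₀`.)  Let `U = (s c).1 = (s c).2` (`st_cpl`, `st_clL`).
If `NoLongF Fr v0 α a De 𝒞' U y' ℓ₀ (ℓ₀ + (Δ + 2) k)` for all `𝒞' ∈ Fam`: leaf (`B0_sub_st`).
Otherwise there are `𝒞' ∈ Fam`, `c'`, `ys` with `G.Agree U y' ys`, `RunF .. 𝒞' U ys c'`, `Ok (De.UsF U c') ys`,
`ℓ₀ ≤ totL c' < ℓ₀ + (Δ + 2) k` (so `c' ≠ []`).  Let `𝒞'' j = 𝒞 j` for `j < njp c`, `𝒞'' j = 𝒞'` otherwise;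
`RunM_fam` gives the run `c` for `𝒞''`.  Let `M = De.UsF U c'`.
First node: `N = M \ U`.  For `y1` that agrees with `y'` on `U`, `Ok M y1`: let
`P = (newI G U M).filter (fun e => y1 e ≠ ys e)`, `c1 = flag P c' ++ c`, so `s c1 = (Nx, Nx)`,
`Nx = De.Nx U M P ⊇ M` (`st_flag`, `Nx_sub`).  Second node: `N = Nx \ M`.  For `y2` that agrees with `y1` on `M`,
`Ok Nx y2`: by `RunM_append` (with `y := y2`: `y2 = ys` on `G.inc U`, the pattern is the same as
`newI G U M ⊆ G.inc M`) and `RunM_congr` the run `c1` is consistent with `y2` (and `ys'' = y2`).  By `hno` for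
`𝒞''` (`NoLongM`, `cpl_flag`) and `totR c1 = totR c + totL c' < R'` we get `totR c1 < R`; apply the
induction hypothesis (`totR c1 > totR c`).
Budgets: `|M \ U| + (M1 - |M|) = M1 - |U|` as `|M| ≤ |Nx| ≤ M1` for any `P` (e.g. `P = ∅`: the bound for
`|(s c1).2|` only needs `totR c1 ≤ R'`), similarly for the second node.  To have `M1 - ..` consistent one uses
`|Nx| ≤ M1`.
-/

set_option linter.unusedSectionVars false

namespace FrU

open Finset Fr56 FrC FrG FrT
open scoped Classical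

section
variable {V E : Type} [Fintype V] [Fintype E] [DecidableEq V] [DecidableEq E]
  {G : Gph V E} {Q K C₁ C₂ m : ℕ} (Fr : Frame G) (v0 : V) {D : ℕ}
  (α : Xt (TE V E Q) D → ZMod 2) (a : TV V Q → FrC.A D) (De : DetM G Q K C₁ C₂ m)

private theorem card_plc_cov' {Δ T' : ℕ} (hdeg : G.Deg Δ)
    {W : Finset (HV (TV V Q) (TE V E Q) D)} (hW : W.card ≤ T') :
    (plc G Q (cov (G.tall Q) a W)).card ≤ 2 * ((Δ + 2) * T') := by
  refine (card_plc G _).trans (Nat.mul_le_mul_left _ ?_)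
  exact (card_cov (G.tall Q) (by omega) (deg_tall G hdeg) a W).trans (Nat.mul_le_mul_left _ hW)

theorem card_B0 {Δ T' : ℕ} (hdeg : G.Deg Δ) {W : Finset (HV (TV V Q) (TE V E Q) D)}
    (hW : W.card ≤ T') (hm : 2 * ((Δ + 2) * T') ≤ m) :
    (De.B0 a W).card ≤ K * (2 * ((Δ + 2) * T')) := by
  have h := card_plc_cov' (G := G) a hdeg hW
  exact (De.cardL _ (h.trans hm)).trans (Nat.mul_le_mul_left _ h)

theorem plc_sub_B0 (W : Finset (HV (TV V Q) (TE V E Q) D)) :
    plc G Q (cov (G.tall Q) a W) ⊆ De.B0 a W := De.extL _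

/-- **the common decision tree** -/
theorem dec_common {Δ k ℓ₀ R T' : ℕ} (hdeg : G.Deg Δ)
    {W : Finset (HV (TV V Q) (TE V E Q) D)} (hW : W.card ≤ T')
    {Fam : Set (Set (Cert V E Q D))} (hℓ₀ : 0 < ℓ₀) (hR : 0 < R)
    (hno : ∀ 𝒞 : ℕ → Set (Cert V E Q D), (∀ j, 𝒞 j ∈ Fam) →
      NoLongM Fr v0 α a De ℓ₀ W 𝒞 R (R + ℓ₀ + (Δ + 2) * k))
    (hm : 2 * ((Δ + 2) * T') + K3c K C₁ C₂ Δ * (R + ℓ₀ + (Δ + 2) * k) ≤ m)
    (hm' : (2 + C₁) * (R + ℓ₀ + (Δ + 2) * k) ≤ m)
    {y : E → ZMod 2} (hok : Fr.Ok v0 (De.B0 a W) y) :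
    Dec Fr v0 (fun _ U y' => De.B0 a W ⊆ U ∧ De.cL U = U ∧ G.Agree (De.B0 a W) y y' ∧
        Fr.Ok v0 U y' ∧
        U.card ≤ K * (2 * ((Δ + 2) * T') + K3c K C₁ C₂ Δ * (R + ℓ₀ + (Δ + 2) * k)) ∧
        ∀ 𝒞 ∈ Fam, NoLongF Fr v0 α a De 𝒞 U y' ℓ₀ (ℓ₀ + (Δ + 2) * k))
      (K * (2 * ((Δ + 2) * T') + K3c K C₁ C₂ Δ * (R + ℓ₀ + (Δ + 2) * k)) -
        (De.B0 a W).card) (De.B0 a W) y := by
  set B₀ := De.B0 a W with hB₀def
  set R' := R + ℓ₀ + (Δ + 2) * k with hR'
  set M1 := K * (2 * ((Δ + 2) * T') + K3c K C₁ C₂ Δ * R') with hM1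
  have hB₀ : De.cL B₀ = B₀ := De.idemL _
  have hG₀ := card_plc_cov' (G := G) a hdeg hW
  have bound : ∀ c : List (RM V E Q), totR c ≤ R' → (De.st B₀ c).2.card ≤ M1 := by
    intro c hc
    have h1 : K3c K C₁ C₂ Δ * totR c ≤ K3c K C₁ C₂ Δ * R' := Nat.mul_le_mul_left _ hc
    have h2 : (2 + C₁) * totR c ≤ (2 + C₁) * R' := Nat.mul_le_mul_left _ hc
    refine (card_st De hdeg (G₀ := plc G Q (cov (G.tall Q) a W)) (B₀ := B₀) rfl c
      (by omega) (h2.trans hm')).trans (Nat.mul_le_mul_left _ (by omega))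
  have leafOk : ∀ (U : Finset V) (y' : E → ZMod 2), B₀ ⊆ U → De.cL U = U → G.Agree B₀ y y' →
      Fr.Ok v0 U y' → U.card ≤ M1 →
      (∀ 𝒞 ∈ Fam, NoLongF Fr v0 α a De 𝒞 U y' ℓ₀ (ℓ₀ + (Δ + 2) * k)) → ∀ n : ℕ,
      Dec Fr v0 (fun _ U y' => B₀ ⊆ U ∧ De.cL U = U ∧ G.Agree B₀ y y' ∧
        Fr.Ok v0 U y' ∧ U.card ≤ M1 ∧
        ∀ 𝒞 ∈ Fam, NoLongF Fr v0 α a De 𝒞 U y' ℓ₀ (ℓ₀ + (Δ + 2) * k)) n U y' :=
    fun U y' h1 h2 h3 h4 h5 h6 n => Dec.leaf true ⟨h1, h2, h3, h4, h5, h6⟩
  have claim : ∀ (n : ℕ) (c : List (RM V E Q)) (𝒞 : ℕ → Set (Cert V E Q D)) (y' : E → ZMod 2),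
      Cpl c → (∀ j, 𝒞 j ∈ Fam) → R - totR c ≤ n → totR c < R → G.Agree B₀ y y' →
      Fr.Ok v0 (De.st B₀ c).1 y' → RunM Fr v0 α a De ℓ₀ 𝒞 B₀ y' c y' →
      Dec Fr v0 (fun _ U y' => B₀ ⊆ U ∧ De.cL U = U ∧ G.Agree B₀ y y' ∧
        Fr.Ok v0 U y' ∧ U.card ≤ M1 ∧
        ∀ 𝒞 ∈ Fam, NoLongF Fr v0 α a De 𝒞 U y' ℓ₀ (ℓ₀ + (Δ + 2) * k))
        (M1 - (De.st B₀ c).1.card) (De.st B₀ c).1 y' := by
    intro n
    induction n with
    | zero => intro c 𝒞 y' _ _ h1 h2; omega
    | succ n ih =>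
      intro c 𝒞 y' hc hF hn hlt hag hok' hrun
      have hUcard : (De.st B₀ c).1.card ≤ M1 := by
        rw [st_cpl De B₀ c hc]
        exact bound c (by omega)
      by_cases hall : ∀ 𝒞' ∈ Fam,
          NoLongF Fr v0 α a De 𝒞' (De.st B₀ c).1 y' ℓ₀ (ℓ₀ + (Δ + 2) * k)
      · exact leafOk _ y' (B0_sub_st De B₀ c) (st_clL De hB₀ c) hag hok' hUcard hall _
      · have hex : ∃ 𝒞' ∈ Fam, ∃ (c' : List (LP V E Q)) (ys : E → ZMod 2),
            G.Agree (De.st B₀ c).1 y' ys ∧ RunF Fr v0 α a De 𝒞' (De.st B₀ c).1 ys c' ∧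
            Fr.Ok v0 (De.UsF (De.st B₀ c).1 c') ys ∧ ℓ₀ ≤ totL c' ∧
            totL c' < ℓ₀ + (Δ + 2) * k := by
          by_contra hcon
          refine hall fun 𝒞' h𝒞' c' ys h1 h2 h3 h4 h5 => hcon ⟨𝒞', h𝒞', c', ys, h1, h2, h3, h4, h5⟩
        obtain ⟨𝒞', h𝒞', c', ys, hys, hrF, hokys, hℓ1, hℓ2⟩ := hex
        have hc' : c' ≠ [] := by
          rintro rfl
          have h0 : totL ([] : List (LP V E Q)) = 0 := rfl
          omega
        set U := (De.st B₀ c).1 with hU
        set M := De.UsF U c' with hM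
        have hUM : U ⊆ M := UsF_sub De U c'
        obtain ⟨𝒞'', h𝒞lt, h𝒞eq, h𝒞F⟩ : ∃ 𝒞'' : ℕ → Set (Cert V E Q D),
            (∀ j < njp c, 𝒞 j = 𝒞'' j) ∧ 𝒞'' (njp c) = 𝒞' ∧ ∀ j, 𝒞'' j ∈ Fam := by
          refine ⟨fun j => if j < njp c then 𝒞 j else 𝒞', fun j hj => ?_, ?_, fun j => ?_⟩
          · simp only [hj, if_true]
          · simp only [lt_irrefl, if_false]
          · by_cases hj : j < njp c
            · simp only [hj, if_true]
              exact hF j
            · simp only [hj, if_false]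
              exact h𝒞'
        have hrun'' : RunM Fr v0 α a De ℓ₀ 𝒞'' B₀ y' c y' := RunM_fam hc hrun h𝒞lt
        have hst : ∀ P : Finset E, De.st B₀ (flag P c' ++ c) = (De.Nx U M P, De.Nx U M P) :=
          fun P => st_flag (De := De) (B₀ := B₀) c' hc' c hc P
        have htot : ∀ P : Finset E, totR (flag P c' ++ c) = totR c + totL c' :=
          fun P => totR_flag c' c P
        have hNx : ∀ P : Finset E, (De.Nx U M P).card ≤ M1 := by
          intro P
          have h1 := bound (flag P c' ++ c) (by rw [htot]; omega)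
          rw [hst] at h1
          exact h1
        have hMNx : ∀ P : Finset E, M ⊆ De.Nx U M P := fun P => Nx_sub De U M P
        have hMcard : M.card ≤ M1 := (card_le_card (hMNx ∅)).trans (hNx ∅)
        have hUMc : U.card ≤ M.card := card_le_card hUM
        have e1 : (M \ U).card + (M1 - M.card) = M1 - U.card := by
          rw [card_sdiff_of_subset hUM]
          omega
        have e2 : U ∪ (M \ U) = M := union_sdiff_of_subset hUM
        rw [← e1]
        refine Dec.node (M \ U) le_rfl fun y1 hy1 hok1 => ?_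
        rw [e2] at hok1 ⊢
        obtain ⟨P, hP⟩ : ∃ P : Finset E, P = (newI G U M).filter fun e => y1 e ≠ ys e := ⟨_, rfl⟩
        have e3 : (De.Nx U M P \ M).card + (M1 - (De.Nx U M P).card) = M1 - M.card := by
          rw [card_sdiff_of_subset (hMNx P)]
          have h1 := hNx P
          have h2 := card_le_card (hMNx P)
          omega
        have e4 : M ∪ (De.Nx U M P \ M) = De.Nx U M P := union_sdiff_of_subset (hMNx P)
        rw [← e3]
        refine Dec.node (De.Nx U M P \ M) le_rfl fun y2 hy2 hok2 => ?_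
        rw [e4] at hok2 ⊢
        have hy12 : G.Agree U y' y2 := Gph.Agree.trans hy1 (Gph.Agree.mono hUM hy2)
        have hrun2 : RunM Fr v0 α a De ℓ₀ 𝒞'' B₀ y2 (flag P c' ++ c) y2 := by
          refine RunM_append hc (RunM_congr hrun'' hy12) hc'
            (Gph.Agree.trans (Gph.Agree.symm hy12) hys) ?_ hokys hℓ1 ?_ (fun e _ => rfl)
          · rw [h𝒞eq]
            exact hrF
          · rw [hP]
            refine filter_congr fun e he => ?_
            have h1 : e ∈ G.inc M := by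
              unfold newI at he
              exact (Finset.mem_filter.1 he).2.1
            rw [hy2 e h1]
        have hst1 : (De.st B₀ (flag P c' ++ c)).1 = De.Nx U M P := by rw [hst]
        have hcpl : Cpl (flag P c' ++ c) := cpl_flag c' hc' c P
        have hlt2 : totR (flag P c' ++ c) < R := by
          by_contra hcon
          refine hno 𝒞'' h𝒞F (flag P c' ++ c) y2 y2 hrun2 hcpl ?_ (by omega) ?_
          · have : De.st (De.B0 a W) (flag P c' ++ c) = De.st B₀ (flag P c' ++ c) := rfl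
            rw [this, hst1]
            exact hok2
          · rw [htot]
            omega
        have hfin := ih (flag P c' ++ c) 𝒞'' y2 hcpl h𝒞F (by rw [htot]; omega) hlt2
          (Gph.Agree.trans hag (Gph.Agree.mono (B0_sub_st De B₀ c) hy12))
          (by rw [hst1]; exact hok2) hrun2
        rw [hst1] at hfin
        exact hfin
  rcases Fam.eq_empty_or_nonempty with hemp | ⟨𝒞0, h𝒞0⟩
  · refine leafOk B₀ y (Finset.Subset.refl _) hB₀ (fun e _ => rfl) hok ?_ ?_ _
    · have h1 := bound [] (Nat.zero_le _)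
      exact h1
    · intro 𝒞 h𝒞
      rw [hemp] at h𝒞
      exact absurd h𝒞 (Set.notMem_empty _)
  · exact claim R [] (fun _ => 𝒞0) y trivial (fun _ => h𝒞0) (Nat.sub_le _ _) hR
      (fun e _ => rfl) hok (fun e _ => rfl)

end

end FrU
end

section

/-!
The local decision tree of one formula at a leaf of the common decision tree.

PROOF of `dec_local`.  Let `p y' = α + Pth a (iota y')`, `F = certW S' W (p y) k (lstW Φ' f)`.  All certificates `C`
in `F` satisfy `|C.1 \ W| ≤ k`.  By `dec_of_noLongF` (with `σ = true` if `f ∈ Φ'`, `σ = sgn f` otherwise):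
a tree from `(U, y)` with budget `K ((2 + C₁) ℓ₀)` and leaves with `QC F` (value `σ`) or `QN F` (value `!σ`).
Change the leaves by `dec_map`: at a leaf `(U', y')`, `U ⊆ U'`, `G.Agree U y y'`, `Ok U' y'`,
`|U'| ≤ |U| + K ((2 + C₁) ℓ₀)`; `p y'` agrees with `p y` near `W` (`agree_of_plc`, as
`plc G Q (cov (G.tall Q) a W) ⊆ U`), so `F = certW S' W (p y') k (lstW Φ' f)` (`certW_congr`), and for `g ∈ f.subs`,
`g ∈ Φ'` the tree of `g` exists at `(W, p y')` too: `dec_congr`, with `S'.mono` for the leaves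
(`Ok` of `p y'` for `W` by `FrC.ok_up`, where `hcov` holds as `cov .. ⊆ incT G Q (plc ..) ⊆ incT G Q U'`;
`|W| ≤ T' ≤ cap'`).
 * `f ∈ Φ'`, `QC`: the certificate is for `(b, f)`, `b = true` or `false`; by `certW_sub` it is in
   `certs S' (T' + k) [(b, f)]`, so `nQ S' α a (T' + k) f b U' y'`.
 * `f ∈ Φ'`, `QN`: impossible by `poss_old`.
 * `f ∉ Φ'`, `QC`: by `certW_sub` `QC (certs S' (T' + k) (lst Φ' f))`, so `nQ .. f (sgn f)`.
 * `f ∉ Φ'`, `QN`: `QN (certs S' (T' + k) (lst Φ' f))` by `poss_certs` (for the members of `lst Φ' f`: `mem_lst`),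
   so `nQ .. f (!(sgn f))`.
(`U'.card + (2 (Δ + 2) + 2) (2 (T' + k)) ≤ Fr.m` by `hmF`.)
-/

set_option linter.unusedSectionVars false

namespace FrU

open Finset Fr56 FrC FrG FrT
open scoped Classical

section
variable {V E : Type} [Fintype V] [Fintype E] [DecidableEq V] [DecidableEq E]
  {G : Gph V E} {Fr : Frame G} {v0 : V} {Q D : ℕ} {hQ : 0 < Q} {hD : 0 < D} {w0 : FrC.A D}
  {α : Xt (TE V E Q) D → ZMod 2} {a : TV V Q → FrC.A D}
  {X : Type} {Φ' : Set (Fm X)} {cap' : ℕ}
  (S' : Valn (Fr.blow Q D hQ hD) (HV.cen (v0, 0) w0) X Φ' cap')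

theorem dec_local (hα : ((G.tall Q).blow D).bd α = FrC.pt (HV.cen (v0, 0) w0) +
      FrC.pt (FrC.ctr a (v0, 0))) {K C₁ C₂ m : ℕ} (De : DetM G Q K C₁ C₂ m)
    {Δ k T' ℓ₀ : ℕ} (hdeg : G.Deg Δ) (hk : 3 * (T' + k) ≤ cap') (hℓ₀ : 0 < ℓ₀)
    {W : Finset (HV (TV V Q) (TE V E Q) D)} (hW : W.card ≤ T') {U : Finset V} {y : E → ZMod 2}
    (hU : De.cL U = U) (hWU : plc G Q (cov (G.tall Q) a W) ⊆ U) (hok : Fr.Ok v0 U y)
    (hm : (2 + C₁) * (ℓ₀ + (Δ + 2) * k) ≤ m)
    (hmF : U.card + K * ((2 + C₁) * (ℓ₀ + (Δ + 2) * k)) +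
      (2 * (Δ + 2) + 2) * (2 * (T' + k)) ≤ Fr.m) (f : Fm X)
    (hf : ∀ g ∈ f.subs, g ∈ Φ' → Dec (Fr.blow Q D hQ hD) (HV.cen (v0, 0) w0) (S'.Q g) k W
      (α + Pth (G.tall Q) a (iota y)))
    (hno : NoLongF Fr v0 α a De (certW S' W (α + Pth (G.tall Q) a (iota y)) k (lstW Φ' f)) U y
      ℓ₀ (ℓ₀ + (Δ + 2) * k)) :
    Dec Fr v0 (nQ S' α a (T' + k) f) (K * ((2 + C₁) * ℓ₀)) U y := by
  have hmono : K * ((2 + C₁) * ℓ₀) ≤ K * ((2 + C₁) * (ℓ₀ + (Δ + 2) * k)) :=
    Nat.mul_le_mul_left _ (Nat.mul_le_mul_left _ (Nat.le_add_right _ _))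
  have hsmall : 2 * (2 * (T' + k)) ≤ (2 * (Δ + 2) + 2) * (2 * (T' + k)) :=
    Nat.mul_le_mul_right _ (by omega)
  have hcW : ∀ C ∈ certW S' W (α + Pth (G.tall Q) a (iota y)) k (lstW Φ' f),
      (C.1 \ W).card ≤ k := by
    rintro C ⟨q, _, _, h, _⟩
    exact h
  have htree := dec_of_noLongF Fr v0 α a De hdeg hcW hU hWU hℓ₀ hm (by omega) hok hno
    (if f ∈ Φ' then true else sgn f)
  refine dec_map htree hok ?_
  intro b U' y' hUU' hag hok' hcard hlf
  -- agreement of the lifts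
  have hagW : ((G.tall Q).blow D).Agree W (α + Pth (G.tall Q) a (iota y))
      (α + Pth (G.tall Q) a (iota y')) := agree_of_plc (Gph.Agree.mono hWU hag)
  have hcong : certW S' W (α + Pth (G.tall Q) a (iota y)) k (lstW Φ' f) =
      certW S' W (α + Pth (G.tall Q) a (iota y')) k (lstW Φ' f) := certW_congr S' hagW k _
  have hcov : ∀ e : E, Tch (G.tall Q) a W (Sum.inl (e, 0)) → e ∈ G.inc U' := by
    intro e he
    have h1 : (Sum.inl (e, 0) : TE V E Q) ∈ cov (G.tall Q) a W := by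
      simp only [cov, Finset.mem_filter, Finset.mem_univ, true_and]
      exact he
    exact inl_mem_incT G |>.1 (incT_mono G (hWU.trans hUU') (mem_incT_plc G h1))
  have hokW : (Fr.blow Q D hQ hD).Ok (HV.cen (v0, 0) w0) W
      (α + Pth (G.tall Q) a (iota y')) :=
    ok_up Fr v0 α a hQ hD hα hcov (by omega) hok'
  have hWU' : plc G Q (cov (G.tall Q) a W) ⊆ U' := hWU.trans hUU'
  have hf' : ∀ g ∈ f.subs, g ∈ Φ' → Dec (Fr.blow Q D hQ hD) (HV.cen (v0, 0) w0) (S'.Q g) k W
      (α + Pth (G.tall Q) a (iota y')) := by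
    intro g hg hgΦ
    refine dec_congr (hf g hg hgΦ) hagW ?_
    intro b' hb'
    exact S'.mono g hgΦ b' W W _ _ (Finset.Subset.refl _) (by omega) hb' hagW hokW
  rw [hcong] at hlf
  by_cases hfΦ : f ∈ Φ'
  · have hlst : lstW Φ' f = [(true, f), (false, f)] := by simp [lstW, hfΦ]
    rw [hlst] at hlf
    simp only [hfΦ, if_true] at hlf
    by_cases hb : b = true
    · rw [if_pos hb] at hlf
      obtain ⟨C, hC, hM, hin⟩ := hlf
      have hCs := certW_sub S' hW _ _ _ hC
      obtain ⟨q, hq, h1, h2, h3⟩ := hCs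
      refine ⟨q.1, ?_⟩
      unfold nQ
      rw [if_pos hfΦ]
      refine ⟨C, ⟨q, ?_, h1, h2, h3⟩, hM, hin⟩
      simp only [List.mem_cons, List.not_mem_nil, or_false] at hq ⊢
      rcases hq with hq | hq <;> rw [hq]
    · rw [if_neg hb] at hlf
      exfalso
      obtain ⟨C', hC', hP⟩ := poss_old S' hα hdeg hW hWU' hok' (hf' f (Fm.self_mem_subs f) hfΦ)
        (by
          have h5 : (2 * (Δ + 2) + 2) * (T' + k) ≤ (2 * (Δ + 2) + 2) * (2 * (T' + k)) :=
            Nat.mul_le_mul_left _ (by omega)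
          omega)
      exact hlf C' hC' hP
  · have hlst : lstW Φ' f = lst Φ' f := by simp [lstW, hfΦ]
    rw [hlst] at hlf
    simp only [hfΦ, if_false] at hlf
    by_cases hb : b = sgn f
    · rw [if_pos hb] at hlf
      obtain ⟨C, hC, hM, hin⟩ := hlf
      refine ⟨sgn f, ?_⟩
      unfold nQ
      rw [if_neg hfΦ, if_pos rfl]
      exact ⟨C, certW_sub S' hW _ _ _ hC, hM, hin⟩
    · rw [if_neg hb] at hlf
      refine ⟨!(sgn f), ?_⟩
      unfold nQ
      rw [if_neg hfΦ, if_neg (by cases sgn f <;> simp)]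
      intro C hC hP
      obtain ⟨C', hC', hP'⟩ := poss_certs S' hα hdeg (by omega) hW hWU'
        (fun q hq => ⟨(mem_lst hq).1, hf' q.2 (mem_lst hq).2 (mem_lst hq).1⟩) (by omega) C hC hP
      exact hlf C' hC' hP'

end

end FrU
end

section

/-!
The logic of the switching step with jumps.

PROOF of `switch_logicM`.  The valuation is `nQ S' α a (T' + k)` with the laws from C/SwitchA.lean, exactly as
in `FrT.switch_logicT` (T/LogicA.lean) with `k := T' + k`; the statement on `True'` is the same as there.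
`CDcds`: let `A ∈ Ls`, `Fr.Ok v0 ∅ y`, `x = α + Pth a (iota y)`.  `Ok ∅ x` in the blow-up by `FrC.ok_up`.
(1) `hD' A` at `x`, simulated by `dec_sim` (`W = ∅`, `plc_cov_empty`): a tree with budget `2 (Δ + 2) T'` from
`(∅, y)` with leaves `(U1, y1)`, `U1 = plc G Q (cov (G.tall Q) a W)`, `|W| ≤ T'`, and for all `f ∈ A.subs`,
`f ∈ Φ'`, a tree `Dec' (S'.Q f) k W (α + Pth a (iota y1))`.
(2) `dec_bind`: at such a leaf reveal `N = De.B0 a W \ U1` (`plc_sub_B0`), then (for `y2` that agrees with `y1` on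
`U1`, `Ok (De.B0 a W) y2`) use `dec_common` with `Fam = {𝒞 | ∃ f ∈ A.subs, 𝒞 = certW S' W (α + Pth a (iota y1)) k
(lstW Φ' f)}`; `hno` gives its hypothesis.  Budget:
`|De.B0 a W \ U1| + (M1 - |De.B0 a W|) ≤ M1` (`card_B0` gives `|De.B0 a W| ≤ M1`).
(3) `dec_map`: at a leaf `(U, y3)` of `dec_common`: `y3` agrees with `y2`, so with `y1`, on `U1 ⊆ De.B0 a W ⊆ U`.  Let
`f ∈ A.subs` (`f ∈ Φ`).  `α + Pth a (iota y3)` agrees with `α + Pth a (iota y1)` near `W` (`agree_of_plc`), so the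
family of `f` is `certW S' W (α + Pth a (iota y3)) k (lstW Φ' f)` (`certW_congr`) and the trees of the
`g ∈ f.subs`, `g ∈ Φ'` (`Fm.subs_trans`: `g ∈ A.subs`) exist at `(W, α + Pth a (iota y3))` (`dec_congr`,
`S'.mono`, `FrC.ok_up`).  Now `dec_local` gives `Dec (nQ .. f) (K ((2 + C₁) ℓ₀)) U y3`; `Dec.mono` with `hℓ`.
-/

set_option linter.unusedSectionVars false

namespace FrU

open Finset Fr56 FrC FrG FrT
open scoped Classical

section
variable {V E : Type} [Fintype V] [Fintype E] [DecidableEq V] [DecidableEq E]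
  {G : Gph V E} {Fr : Frame G} {v0 : V} {Q D : ℕ} {hQ : 0 < Q} {hD : 0 < D} {w0 : FrC.A D}
  {α : Xt (TE V E Q) D → ZMod 2} {a : TV V Q → FrC.A D}
  {X : Type} {Φ' : Set (Fm X)} {cap' : ℕ}
  (S' : Valn (Fr.blow Q D hQ hD) (HV.cen (v0, 0) w0) X Φ' cap')

/-- **logic of the switching step with jumps** -/
theorem switch_logicM (hα : ((G.tall Q).blow D).bd α = FrC.pt (HV.cen (v0, 0) w0) +
      FrC.pt (FrC.ctr a (v0, 0))) {K C₁ C₂ m : ℕ} (De : DetM G Q K C₁ C₂ m) {Φ : Set (Fm X)}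
    (hΦ : NewCls Φ' Φ) {Ls : Finset (Fm X)} {Δ k T' ℓ₀ R T ℓ cap : ℕ} (hdeg : G.Deg Δ)
    (hk : 3 * (T' + k) ≤ cap') (hℓ₀ : 0 < ℓ₀) (hR : 0 < R)
    (hno : ∀ A ∈ Ls, ∀ W : Finset (HV (TV V Q) (TE V E Q) D), W.card ≤ T' →
      ∀ p : Xt (TE V E Q) D → ZMod 2, ∀ 𝒞 : ℕ → Set (Cert V E Q D),
      (∀ j, ∃ f ∈ A.subs, 𝒞 j = certW S' W p k (lstW Φ' f)) →
      NoLongM Fr v0 α a De ℓ₀ W 𝒞 R (R + ℓ₀ + (Δ + 2) * k))
    (hD' : CDcds S' Ls T' k)
    (hm : 2 * ((Δ + 2) * T') + K3c K C₁ C₂ Δ * (R + ℓ₀ + (Δ + 2) * k) ≤ m)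
    (hm' : (2 + C₁) * (R + ℓ₀ + (Δ + 2) * k) ≤ m)
    (hmF : K * (2 * ((Δ + 2) * T') + K3c K C₁ C₂ Δ * (R + ℓ₀ + (Δ + 2) * k)) +
      K * ((2 + C₁) * (ℓ₀ + (Δ + 2) * k)) + (2 * (Δ + 2) + 2) * (2 * (T' + k)) ≤ Fr.m)
    (hT : 2 * (Δ + 2) * T' +
      K * (2 * ((Δ + 2) * T') + K3c K C₁ C₂ Δ * (R + ℓ₀ + (Δ + 2) * k)) ≤ T)
    (hℓ : K * ((2 + C₁) * ℓ₀) ≤ ℓ) (hcap : cap + (2 * Δ + 10) * (T' + k) ≤ Fr.m) :
    ∃ S : Valn Fr v0 X Φ cap, CDcds S Ls T ℓ ∧
      ∀ f ∈ Φ', ∀ w, w + 2 * (T' + k) ≤ Fr.m → S'.True' (T' + k) f → S.True' w f := by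
  obtain ⟨M1, hM1⟩ : ∃ M1, M1 = K * (2 * ((Δ + 2) * T') +
      K3c K C₁ C₂ Δ * (R + ℓ₀ + (Δ + 2) * k)) := ⟨_, rfl⟩
  rw [← hM1] at hmF hT
  have hcap2 : (2 * Δ + 10) * (T' + k) = 2 * (Δ + 2) * T' + 6 * T' + (2 * Δ + 10) * k := by ring
  let S : Valn Fr v0 X Φ cap :=
    { Q := nQ S' α a (T' + k)
      mono := fun f _ b U U' y y' hU _ h hy _ => nQ_mono S' f b U U' y y' hU h hy
      uniq := fun f _ U y hU hok h h' => nQ_uniq S' hα hdeg hk f U y (by omega) hok h h'
      neg := fun f _ hf' b b' U y hU hok h h' =>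
        nQ_neg S' hα hΦ hdeg hk f hf' b b' U y (by omega) hok h h'
      and := fun f g _ _ hfg b b' b'' U y hU hok h h' h'' =>
        nQ_and S' hα hΦ hdeg hk f g hfg b b' b'' U y (by omega) hok h h' h''
      or := fun f g _ _ hfg b b' b'' U y hU hok h h' h'' =>
        nQ_or S' hα hΦ hdeg hk f g hfg b b' b'' U y (by omega) hok h h' h'' }
  refine ⟨S, ?_, ?_⟩
  · intro A hA y hok
    have hok0 : (Fr.blow Q D hQ hD).Ok (HV.cen (v0, 0) w0) ∅ (α + Pth (G.tall Q) a (iota y)) := by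
      refine ok_up Fr v0 α a hQ hD hα (U := ∅) ?_ ?_ hok
      · rintro e ⟨u, -, -, hu⟩
        rcases hu with h1 | h1
        · exact absurd h1 (Finset.notMem_empty _)
        · exact absurd h1 (Finset.notMem_empty _)
      · simp
    have hdec := hD' A hA _ hok0
    have hpe : plc G Q (cov (G.tall Q) a (∅ : Finset (HV (TV V Q) (TE V E Q) D))) = ∅ :=
      plc_cov_empty
    have hsim := dec_sim hα hdeg (T' := T') (by omega) hdec y rfl (by rw [hpe]; exact hok) (by simp)
    rw [hpe] at hsim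
    refine Dec.mono (dec_bind hsim hok (k' := M1) ?_) hT
    rintro b U1 y1 - hag1 hok1 hc1 ⟨W, hW, hU1, b1, hQ1⟩
    -- reveal the start set
    obtain ⟨B0, hB0⟩ : ∃ B0, B0 = De.B0 a W := ⟨_, rfl⟩
    have hUB : U1 ⊆ B0 := by
      rw [hU1, hB0]
      exact plc_sub_B0 a De W
    have hB0c : B0.card ≤ M1 := by
      rw [hB0, hM1]
      refine (card_B0 a De hdeg hW (by omega)).trans ?_
      exact Nat.mul_le_mul_left K (Nat.le_add_right _ _)
    have hN : (B0 \ U1).card ≤ B0.card := Finset.card_le_card Finset.sdiff_subset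
    have hUN : U1 ∪ (B0 \ U1) = B0 := Finset.union_sdiff_of_subset hUB
    refine Dec.mono (k := B0.card + (M1 - B0.card)) ?_ (by omega)
    refine Dec.node (B0 \ U1) hN ?_
    intro y2 hag2 hok2
    rw [hUN] at hok2 ⊢
    rw [hB0] at hok2
    have hcom := dec_common Fr v0 α a De (k := k) (ℓ₀ := ℓ₀) (R := R) hdeg hW
      (Fam := {𝒞 | ∃ f ∈ A.subs, 𝒞 = certW S' W (α + Pth (G.tall Q) a (iota y1)) k (lstW Φ' f)})
      hℓ₀ hR (fun 𝒞 h𝒞 => hno A hA W hW (α + Pth (G.tall Q) a (iota y1)) 𝒞 h𝒞) hm hm' hok2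
    rw [← hM1] at hcom
    rw [hB0]
    refine dec_map hcom hok2 ?_
    rintro b3 U y3 - - - - ⟨hBU, hcl, hag3, hok3, hUc, hFam⟩
    refine ⟨true, ?_⟩
    intro f hf hfΦ
    have hWU : plc G Q (cov (G.tall Q) a W) ⊆ U := (plc_sub_B0 a De W).trans hBU
    have hagp : G.Agree (plc G Q (cov (G.tall Q) a W)) y1 y3 := by
      rw [hU1] at hag2
      exact Gph.Agree.trans hag2 (Gph.Agree.mono (plc_sub_B0 a De W) hag3)
    have hagW : ((G.tall Q).blow D).Agree W (α + Pth (G.tall Q) a (iota y1))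
        (α + Pth (G.tall Q) a (iota y3)) := agree_of_plc hagp
    have hmul : (2 * (Δ + 2) + 2) * (2 * (T' + k)) = 4 * T' + 4 * k + (2 * (Δ + 2)) * (2 * (T' + k)) := by
      ring
    have hokW : (Fr.blow Q D hQ hD).Ok (HV.cen (v0, 0) w0) W
        (α + Pth (G.tall Q) a (iota y3)) := by
      refine ok_up Fr v0 α a hQ hD hα (U := U) ?_ (by omega) hok3
      intro e he
      have h1 : (Sum.inl (e, 0) : TE V E Q) ∈ cov (G.tall Q) a W := by
        unfold cov
        rw [Finset.mem_filter]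
        exact ⟨Finset.mem_univ _, he⟩
      exact Gph.inc_mono _ hWU ((inl_mem_incT G).1 (mem_incT_plc G h1))
    have hcer : certW S' W (α + Pth (G.tall Q) a (iota y3)) k (lstW Φ' f) =
        certW S' W (α + Pth (G.tall Q) a (iota y1)) k (lstW Φ' f) :=
      (certW_congr S' hagW k (lstW Φ' f)).symm
    refine Dec.mono (dec_local S' hα De hdeg hk hℓ₀ hW hcl hWU hok3 ?_ ?_ f ?_ ?_) hℓ
    · have h1 : (2 + C₁) * (ℓ₀ + (Δ + 2) * k) ≤ (2 + C₁) * (R + ℓ₀ + (Δ + 2) * k) :=
        Nat.mul_le_mul_left _ (by omega)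
      exact h1.trans hm'
    · omega
    · intro g hg hg'
      have hgA : g ∈ A.subs := Fm.subs_trans hg hf
      refine dec_congr (hQ1 g hgA hg') hagW ?_
      intro b' hb'
      exact S'.mono g hg' b' W W _ _ (Finset.Subset.refl _) (by omega) hb' hagW hokW
    · rw [hcer]
      exact hFam _ ⟨f, hf, rfl⟩
  · intro f hf w hw hT U y hU hok h
    have h' : nQ S' α a (T' + k) f false U y := h
    unfold nQ at h'
    rw [if_pos hf] at h'
    obtain ⟨W, hW, hokW, hQW, _⟩ := old_down S' hα (by omega) hf (by omega) hok h'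
    exact hT W _ hW hokW hQW

end

end FrU
end
end
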