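import Pool.Agent.Lib.MP_51bb46_lc.U.Defs
import Pool.Agent.Lib.MP_51bb46_lc.T.ExistsT
import Pool.Agent.Lib.MP_51bb46_lc.U.StA
import Pool.Agent.Lib.MP_51bb46_lc.U.CodeMC
import Pool.Agent.Lib.MP_51bb46_lc.U.LogicM
import Pool.Agent.Lib.MP_51bb46_lc.T.TallD
import Pool.Agent.Lib.MP_51bb46_lc.U.CodeMP
import Pool.Agent.Lib.MP_51bb46_lc.T.KillsA
import Pool.Agent.Lib.MP_51bb46_lc.T.TowersT
import Pool.Agent.Lib.MP_51bb46_lc.T.NumT

section

/-!
The blow-up: weighted sum over all sets of edges of the probability that all their paths touch a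
set of vertices (all sizes).

PROOF of `sum_Tch_all`.  (1) For `L ∈ s` the event `∀ e ∈ L, Tch G a W e` depends on the values of `a` at
the endpoints of the edges in `L` (`FrC.Tch_congr`), which are different from `t`; by independence
(`FrC.pr_indep'`; `DepOn {t}` for `a t = w`) `pr (a t = w ∧ ∀ e ∈ L, ..) = pr (a t = w) * pr (∀ e ∈ L, ..)` (or
`≤`, which is enough).  (2) `∑_(L ∈ s) x^|L| pr (∀ e ∈ L, Tch) ≤ ∑_(L : Finset E) x^|L| pr (∀ e ∈ L, Tch)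
≤ exp (X ∑_e q e)`, `X = (1 + x)^(2 Δ)`, `q e = |W.filter near e| / 2^D`: this is the main step of the proof of
`FrT.sum_Tch_le` (T/SumS.lean, copy its private lemmas): group by a maximal matching `M(L)`,
`∑_(M matching) (∏_(e ∈ M) q e) (1 + x)^(2 Δ |M|) ≤ ∏_e (1 + X q e) ≤ exp (X ∑_e q e)`, now with the term
`L = ∅` included.  `∑_e q e ≤ Δ |W| / 2^D` by `sum_near_le`.
-/

set_option linter.unusedSectionVars false

namespace FrU

open Finset Fr56 FrC FrG FrT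
open scoped Classical

section
variable {V E : Type} [Fintype V] [Fintype E] [DecidableEq V] [DecidableEq E] (G : Gph V E) {D : ℕ}

/-- the edges sharing an endpoint with an edge in `M` -/
private noncomputable def nbS (M : Finset E) : Finset E :=
  M.biUnion fun e => G.star (G.src e) ∪ G.star (G.tgt e)

private theorem card_nbS {Δ : ℕ} (hdeg : G.Deg Δ) (M : Finset E) :
    (nbS G M).card ≤ 2 * Δ * M.card := by
  unfold nbS
  have h := Finset.card_biUnion_le_card_mul M (fun e => G.star (G.src e) ∪ G.star (G.tgt e))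
    (2 * Δ) (by
      intro e _
      have h1 := Finset.card_union_le (G.star (G.src e)) (G.star (G.tgt e))
      have h2 := hdeg (G.src e)
      have h3 := hdeg (G.tgt e)
      omega)
  rw [mul_comm]
  exact h

private theorem exists_max_matching (L : Finset E) :
    ∃ M ⊆ L, (∀ e ∈ M, ∀ f ∈ M, e ≠ f → G.VDisj e f) ∧ L ⊆ nbS G M := by
  have hne : ((L.powerset).filter
      (fun M => ∀ e ∈ M, ∀ f ∈ M, e ≠ f → G.VDisj e f)).Nonempty :=
    ⟨∅, Finset.mem_filter.2 ⟨Finset.mem_powerset.2 (Finset.empty_subset _),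
      fun e he => absurd he (Finset.notMem_empty e)⟩⟩
  obtain ⟨M, hM, hmax⟩ := Finset.exists_max_image _ Finset.card hne
  obtain ⟨hM1, hM2⟩ := Finset.mem_filter.1 hM
  have hML := Finset.mem_powerset.1 hM1
  refine ⟨M, hML, hM2, ?_⟩
  intro f hf
  by_contra hcon
  have hfM : f ∉ M := by
    intro hfM
    apply hcon
    refine Finset.mem_biUnion.2 ⟨f, hfM, Finset.mem_union_left _ ?_⟩
    simp [Gph.star]
  have hd : ∀ e ∈ M, G.VDisj e f := by
    intro e he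
    have h1 : f ∉ G.star (G.src e) ∪ G.star (G.tgt e) := by
      intro h2
      exact hcon (Finset.mem_biUnion.2 ⟨e, he, h2⟩)
    simp only [Finset.mem_union, Gph.star, Finset.mem_filter, Finset.mem_univ, true_and,
      not_or] at h1
    exact ⟨fun e1 => h1.1.1 e1.symm, fun e1 => h1.1.2 e1.symm,
      fun e1 => h1.2.1 e1.symm, fun e1 => h1.2.2 e1.symm⟩
  have hins : insert f M ∈ (L.powerset).filter
      (fun M => ∀ e ∈ M, ∀ f ∈ M, e ≠ f → G.VDisj e f) := by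
    refine Finset.mem_filter.2 ⟨Finset.mem_powerset.2 ?_, ?_⟩
    · intro g hg
      rcases Finset.mem_insert.1 hg with rfl | hg
      · exact hf
      · exact hML hg
    · intro g hg g' hg' hgg
      rcases Finset.mem_insert.1 hg with h1 | h1
      · rcases Finset.mem_insert.1 hg' with h2 | h2
        · exact absurd (h1.trans h2.symm) hgg
        · rw [h1]
          obtain ⟨a1, a2, a3, a4⟩ := hd g' h2
          exact ⟨a1.symm, a3.symm, a2.symm, a4.symm⟩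
      · rcases Finset.mem_insert.1 hg' with h2 | h2
        · rw [h2]
          exact hd g h1
        · exact hM2 g h1 g' h2 hgg
  have := hmax _ hins
  rw [Finset.card_insert_of_notMem hfM] at this
  omega

private theorem sum_all (hl : G.NoLoop) (hD : 0 < D) {Δ : ℕ} (hΔ : 1 ≤ Δ) (hdeg : G.Deg Δ) (x : ℝ)
    (hx : 0 ≤ x) (W : Finset (HV V E D)) :
    ∑ L : Finset E, x ^ L.card * pr (fun a : V → FrC.A D => ∀ e ∈ L, Tch G a W e) ≤
      Real.exp ((1 + x) ^ (2 * Δ) * (Δ * W.card) / 2 ^ D) := by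
  set q : E → ℝ := fun e => ((W.filter (near G e)).card : ℝ) / 2 ^ D with hq
  have hq0 : ∀ e, 0 ≤ q e := fun e => by simp only [hq]; positivity
  set X : ℝ := (1 + x) ^ (2 * Δ) with hX
  have hX0 : 0 ≤ X := by rw [hX]; positivity
  choose m hmL hmM hmN using exists_max_matching G
  have h1 : ∀ L : Finset E, x ^ L.card * pr (fun a : V → FrC.A D => ∀ e ∈ L, Tch G a W e) ≤
      x ^ L.card * ∏ e ∈ m L, q e := by
    intro L
    apply mul_le_mul_of_nonneg_left _ (by positivity)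
    refine le_trans (pr_mono ?_) (pr_matching_le G hl hD W (m L) (hmM L))
    intro a ha e he
    exact ha e (hmL L he)
  have h2 : ∑ L : Finset E,
      x ^ L.card * pr (fun a : V → FrC.A D => ∀ e ∈ L, Tch G a W e) ≤
      ∑ L : Finset E, x ^ L.card * ∏ e ∈ m L, q e := Finset.sum_le_sum fun L _ => h1 L
  have h3 : ∑ L : Finset E, x ^ L.card * ∏ e ∈ m L, q e =
      ∑ M : Finset E,
        ∑ L ∈ (univ : Finset (Finset E)).filter (fun L => m L = M), x ^ L.card * ∏ e ∈ m L, q e := by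
    rw [Finset.sum_fiberwise_of_maps_to]
    intro L _
    exact Finset.mem_univ _
  have h4 : ∀ M : Finset E,
      ∑ L ∈ (univ : Finset (Finset E)).filter (fun L => m L = M),
        x ^ L.card * ∏ e ∈ m L, q e ≤ ∏ e ∈ M, (X * q e) := by
    intro M
    have h5 : ∑ L ∈ (univ : Finset (Finset E)).filter (fun L => m L = M),
          x ^ L.card * ∏ e ∈ m L, q e ≤
        ∑ L ∈ (nbS G M).powerset, x ^ L.card * ∏ e ∈ M, q e := by
      calc _ = ∑ L ∈ (univ : Finset (Finset E)).filter (fun L => m L = M),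
              x ^ L.card * ∏ e ∈ M, q e := by
            apply Finset.sum_congr rfl
            intro L hL
            rw [(Finset.mem_filter.1 hL).2]
        _ ≤ _ := by
            apply Finset.sum_le_sum_of_subset_of_nonneg
            · intro L hL
              have h6 := (Finset.mem_filter.1 hL).2
              rw [Finset.mem_powerset, ← h6]
              exact hmN L
            · intro L _ _
              exact mul_nonneg (by positivity) (Finset.prod_nonneg fun e _ => hq0 e)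
    have h6 : ∑ L ∈ (nbS G M).powerset, x ^ L.card = (1 + x) ^ (nbS G M).card := by
      have h7 := Finset.sum_pow_mul_eq_add_pow x 1 (nbS G M)
      simp only [one_pow, mul_one] at h7
      rw [h7, add_comm]
    rw [← Finset.sum_mul, h6] at h5
    refine h5.trans ?_
    rw [Finset.prod_mul_distrib, Finset.prod_const, hX, ← pow_mul]
    apply mul_le_mul_of_nonneg_right _ (Finset.prod_nonneg fun e _ => hq0 e)
    exact pow_le_pow_right₀ (by linarith) (card_nbS G hdeg M)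
  have h9 : ∏ e : E, (1 + X * q e) = ∑ M : Finset E, ∏ e ∈ M, (X * q e) := by
    rw [Finset.prod_one_add, Finset.powerset_univ]
  have h11 : ∏ e : E, (1 + X * q e) ≤ Real.exp (X * (Δ * W.card) / 2 ^ D) := by
    calc ∏ e : E, (1 + X * q e) ≤ ∏ e : E, Real.exp (X * q e) := by
          apply Finset.prod_le_prod
          · intro e _
            have := mul_nonneg hX0 (hq0 e)
            linarith
          · intro e _
            have := Real.add_one_le_exp (X * q e)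
            linarith
      _ = Real.exp (∑ e : E, X * q e) := by rw [Real.exp_sum]
      _ ≤ Real.exp (X * (Δ * W.card) / 2 ^ D) := by
          apply Real.exp_le_exp.2
          rw [← Finset.mul_sum]
          have h12 : ∑ e : E, q e = ((∑ e : E, (W.filter (near G e)).card : ℕ) : ℝ) / 2 ^ D := by
            simp only [hq]
            rw [← Finset.sum_div]
            push_cast
            rfl
          have h13 : ((∑ e : E, (W.filter (near G e)).card : ℕ) : ℝ) ≤ (Δ : ℝ) * W.card := by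
            exact_mod_cast sum_near_le G hΔ hdeg W
          have h14 : (0 : ℝ) < 2 ^ D := by positivity
          rw [h12, ← mul_div_assoc]
          apply div_le_div_of_nonneg_right _ h14.le
          exact mul_le_mul_of_nonneg_left h13 hX0
  calc _ ≤ _ := h2
    _ = _ := h3
    _ ≤ ∑ M : Finset E, ∏ e ∈ M, (X * q e) := Finset.sum_le_sum fun M _ => h4 M
    _ = _ := h9.symm
    _ ≤ _ := h11

private theorem pr_split (W : Finset (HV V E D)) (t : V) (w : FrC.A D) (L : Finset E)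
    (hs : ∀ e ∈ L, G.src e ≠ t ∧ G.tgt e ≠ t) :
    pr (fun a : V → FrC.A D => a t = w ∧ ∀ e ∈ L, Tch G a W e) =
      pr (fun a : V → FrC.A D => a t = w) * pr (fun a : V → FrC.A D => ∀ e ∈ L, Tch G a W e) := by
  have hdis : Disjoint ({t} : Set V) {v | ∃ f ∈ L, G.src f = v ∨ G.tgt f = v} := by
    rw [Set.disjoint_left]
    rintro v hv ⟨f, hf, hfv⟩
    rw [Set.mem_singleton_iff] at hv
    subst hv
    obtain ⟨a1, a2⟩ := hs f hf
    rcases hfv with h | h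
    · exact a1 h
    · exact a2 h
  refine FrC.pr_indep' hdis ?_ ?_
  · intro a b hab
    change a t = w ↔ b t = w
    rw [hab t (Set.mem_singleton _)]
  · intro a b hab
    refine forall₂_congr fun e he => ?_
    exact Tch_congr G (hab _ ⟨e, he, Or.inl rfl⟩) (hab _ ⟨e, he, Or.inr rfl⟩)

theorem sum_Tch_all (hl : G.NoLoop) (hD : 0 < D) {Δ : ℕ} (hΔ : 1 ≤ Δ) (hdeg : G.Deg Δ) (x : ℝ)
    (hx : 0 ≤ x) (W : Finset (HV V E D)) (t : V) (w : FrC.A D) (s : Finset (Finset E))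
    (hs : ∀ L ∈ s, ∀ e ∈ L, G.src e ≠ t ∧ G.tgt e ≠ t) :
    ∑ L ∈ s, x ^ L.card * pr (fun a : V → FrC.A D => a t = w ∧ ∀ e ∈ L, Tch G a W e) ≤
      Real.exp ((1 + x) ^ (2 * Δ) * (Δ * W.card) / 2 ^ D) *
        pr (fun a : V → FrC.A D => a t = w) := by
  have h1 : ∑ L ∈ s, x ^ L.card * pr (fun a : V → FrC.A D => a t = w ∧ ∀ e ∈ L, Tch G a W e) =
      (∑ L ∈ s, x ^ L.card * pr (fun a : V → FrC.A D => ∀ e ∈ L, Tch G a W e)) *
        pr (fun a : V → FrC.A D => a t = w) := by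
    rw [Finset.sum_mul]
    apply Finset.sum_congr rfl
    intro L hL
    rw [pr_split G W t w L (hs L hL)]
    ring
  rw [h1]
  apply mul_le_mul_of_nonneg_right _ (pr_nonneg _)
  refine le_trans (Finset.sum_le_sum_of_subset_of_nonneg (Finset.subset_univ s) ?_)
    (sum_all G hl hD hΔ hdeg x hx W)
  intro L _ _
  exact mul_nonneg (by positivity) (pr_nonneg _)

end

end FrU
end

section

section

/-!
Detours (with a strong closure operator) for the product of two expanders.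

PROOF.  `exists_cloM` for `P` (`Δ = 19`, `H = 16`, `m`): `CP : CloM P 1216 64 m`; for `Y` (`Δ = 16`, `H = 16`,
`m' = c / 65536`, `c = |Λ|`; `256 * 16 * 16 = 65536`): `CY : CloM Y 1024 64 m'`.  `exists_cloP` with `A = 65536`:
`c ≤ 65536 (c / 65536 + 1)`, `2 (1024 m') < c` as `65536 m' ≤ c`, `0 < c`.  The constant is
`KU = 65536 * 1216 + 65536 + 1024`.  This gives all fields of `DetM` except `det` and `detB`.
`detB`: `prod_det` (closed sets are `PClosed`), with `H = H' = 64`, `Δp = 19`, `Δy = 16`: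
`(bsV ..).card ≤ CB 64 19 16 c * |L|`.
`det`: `FrT.tall_det` for `prodG P Y` with `Δ = 35` (`deg_prod`), `hbase` from `prod_det`,
`K3 = CB 64 19 16 c ≤ Q + 1`; `2 * 35 + 3 = 73`.
-/

set_option linter.unusedSectionVars false

namespace FrU

open Finset Fr56 FrC FrG FrT
open scoped Classical

/-- the closure constant of a product -/
def KU : ℕ := 65536 * 1216 + 65536 + 1024

/-- the size of the fibers for a graph with `N` vertices -/
def cN (N : ℕ) : ℕ := Kd 64 19 N * 24322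

/-- the constant of the base detours for a graph with `N` vertices -/
def C2N (N : ℕ) : ℕ := CB 64 19 16 (cN N)

theorem exists_detM {V E Λ F : Type} [Fintype V] [Fintype E] [DecidableEq V] [DecidableEq E]
    [Fintype Λ] [Fintype F] [DecidableEq Λ] [DecidableEq F] (P : Gph V E) (Y : Gph Λ F)
    {m Q : ℕ} (hlP : P.NoLoop) (hlY : Y.NoLoop) (hdP : P.Deg 19) (hdY : Y.Deg 16)
    (heP : Expd P 16) (heY : Expd Y 16) (hm : 77824 * m ≤ Fintype.card V)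
    (hc : Fintype.card Λ = cN (Fintype.card V)) (hQ : C2N (Fintype.card V) ≤ Q + 1) :
    Nonempty (DetM (prodG P Y) Q KU 73 (C2N (Fintype.card V)) m) := by
  obtain ⟨CP⟩ : Nonempty (CloM P 1216 64 m) :=
    exists_cloM P (Δ := 19) (H := 16) (m := m) hdP (by norm_num) (by norm_num) heP
      (le_trans (le_of_eq (by ring)) hm)
  have hcm : 65536 * (Fintype.card Λ / 65536) ≤ Fintype.card Λ := Nat.mul_div_le _ _
  obtain ⟨CY⟩ : Nonempty (CloM Y 1024 64 (Fintype.card Λ / 65536)) :=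
    exists_cloM Y (Δ := 16) (H := 16) (m := Fintype.card Λ / 65536) hdY (by norm_num)
      (by norm_num) heY (le_trans (le_of_eq (by ring)) hcm)
  have hpos : 0 < Fintype.card Λ := by
    rw [hc, cN]
    refine Nat.mul_pos ?_ (by norm_num)
    rw [Kd]
    omega
  have hA : Fintype.card Λ ≤ 65536 * (Fintype.card Λ / 65536 + 1) := by omega
  have hK : 2 * (1024 * (Fintype.card Λ / 65536)) < Fintype.card Λ := by omega
  obtain ⟨cl, cL, h1, h2, h3, h4, h5, h6, h7, h8, h9, h10, h11, h12⟩ :=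
    exists_cloP CP CY hpos hA hK
  have hCB : CB 64 19 16 (Fintype.card Λ) = C2N (Fintype.card V) := by
    rw [hc]
    rfl
  have hbase : ∀ U, cl U = U → ∀ L : Finset ((E × Λ) ⊕ (V × F)),
      ∀ f : (E × Λ) ⊕ (V × F) → ZMod 2, (prodG P Y).bd f = 0 →
      (∀ e ∈ (prodG P Y).inc U, f e = 0) →
      ∃ f' : (E × Λ) ⊕ (V × F) → ZMod 2, (prodG P Y).bd f' = 0 ∧
        (∀ e ∈ (prodG P Y).inc U, f' e = 0) ∧ (∀ e ∈ L, f' e = f e) ∧
        (bsV (prodG P Y) f').card ≤ C2N (Fintype.card V) * L.card := by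
    intro U hU L f hf hfU
    rw [← hCB]
    exact prod_det CP.toClo CY.toClo hdP hdY hlP hlY (by norm_num) hpos
      (le_of_eq (by rw [hc]; rfl)) (h6 U hU) L f hf hfU
  exact ⟨{
    cl := cl
    ext := h1
    mono := h2
    idem := h3
    empty := h4
    card := h5
    det := fun U hU L hL c hc' hcU => tall_det (Δ := 35) (deg_prod hdP hdY)
      (fun f hf hf0 Bs => hbase U hU Bs f hf hf0) hQ L hL c hc' hcU
    cL := cL
    extL := h7
    monoL := h8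
    idemL := h9
    cardL := h10
    clL := h11
    incr := h12
    detB := hbase }⟩

end FrU
end

section

/-!
Existence of a restriction without long sequences of segments.

PROOF.  Compare `FrT.exists_noLongT` (T/ExistsT.lean; its parts `coverT`, `sumEvT` are private there).
Notation: `Λ = (|Γ| + 1) |V|`, `Γ = SF.Γ`, `lam = 1 / Λ`, `Y = YM`, `x = XM = 2 Y 2^J`, `J = JM K C₁ Δ`,
`B₀ L₀ = De.cL (plc G Q L₀)`, sample space `Om (G.tall Q) (cen (v0, 0) w0) (v0, 0)` (nonempty).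
(A) Covering.  Let `q = (α, a)` be an outcome such that for some `r = (W, F) ∈ Ps` and some sequence `𝒞` in
`F` `NoLongM` fails: there are a complete run `c`, `y`, `ys` with `Ok`, `R ≤ totR c < R'`.  Each segment has at
least `ℓ₀` live edges: `ℓ₀ * njp c ≤ totR c < R' ≤ ℓ₀ μj`, so `njp c ≤ μj` (by induction on `c` from `RunM`:
`ℓ₀ * njp c + segL c ≤ totR c`).  By `RunM_fam` the sequence may be replaced by any one with the same first
`μj` values: for `g : Fin μj → Set _` with values in `F` let `seq g j = g j` for `j < μj` and a fixed element of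
`F` otherwise (`F ≠ ∅`); there are at most `(2^k)^μj` such `g` (`Fintype.piFinset`).  The length `n` of `c`
is at most `totR c < R'` (each step has a nonempty `L`).  By `decodeM` (with `|cov (G.tall Q) a W| ≤
(Δ + 2) T'`, `FrC.card_cov`, `FrC.deg_tall`; `c.length / ℓ ≤ μ` by `hμ`) there are `t0`, `c' ∈ lst' entM n`
with `c'.map toR = c`, `AdmM`, `nmvM ≤ μ`, and with `L₀ = cov (G.tall Q) a W` the event of `pr_codeM` holds.
(B) Union bound.  For fixed `r = (W, F)`, `g`, `n`, `t0`: sum over the pairs `(L₀, c)` with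
`|L₀| ≤ (Δ + 2) T'`, `c ∈ lst' entM n`, `AdmM`, `R ≤ totR < R'`, `nmvM ≤ μ`.  By `card_st` (`G₀ = plc G Q L₀`,
`|plc G Q L₀| ≤ 2 |L₀|`) `|(st ..).2| ≤ K (2 |L₀| + K3c * totR)`, so `2^(Δ |(st ..).2|) ≤ Y^|L₀| Y^totR` (as
`Δ K 2 ≤ Δ K (2 + K3c)`), and `Y^totR ≤ (1/2)^R x^totR (1/2)^(J jw)` as `jw ≤ totR` (`jw_add_segL`),
`R ≤ totR`; `1 ≤ Λ^μ lam^nmv`.  So
`∑ pr (event) ≤ (1/2)^R Λ^μ ∑_((L₀, c)) Y^|L₀| x^totR lam^nmv (1/2)^(J jw) pr_(Om t0) (DcdM ..)`.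
By `pr_Om_sum` with `ι` the pairs, `t = (t0, 0)`, it suffices to bound for all `β, w`
`∑_(L₀) Y^|L₀| ∑_c x^.. lam^.. (1/2)^.. pr (a (t0, 0) = w ∧ DcdM ..) ≤ (1/2)^n ∑_(L₀) Y^|L₀| pr (a (t0, 0) = w ∧
∀ e ∈ L₀, Tch (G.tall Q) a W e) ≤ (1/2)^n 2^T' pr (a (t0, 0) = w)`: first `sumM`, then `sum_Tch_all` for
`G.tall Q`, `Δ + 2`, `t = (t0, 0)`.  Only those `L₀` occur for which there is an admissible `c`: then `t0` is
free for `(st ..).2 ⊇ De.cL (plc G Q L₀) ⊇ plc G Q L₀`, so no edge in `L₀` has an endpoint over `t0`;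
restrict the sum over `L₀` to those with `t0 ∉ plc G Q L₀`.  Finally
`exp ((1 + Y)^(2 (Δ + 2)) ((Δ + 2) |W|) / 2^D) ≤ exp (T' / 5) ≤ 2^T'` by `hW` (as `Y ≤ XM`, `1 ≤ kk`,
`|W| ≤ T'`, and `exp (1/5) ≤ 2`).
(C) The sum over `n < R'` gives a factor `2`, over `t0` a factor `|V|`, over `g` `(2^k)^μj`, over `Ps` `2^Bn`.
The total is `< 1` by `hcard`.
-/

set_option linter.unusedSectionVars false

namespace FrU

open Finset Fr56 FrC FrG FrT
open scoped Classical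

section
variable {V E : Type} [Fintype V] [Fintype E] [DecidableEq V] [DecidableEq E]
  {G : Gph V E} {Q K C₁ C₂ m : ℕ} (Fr : Frame G) (v0 : V) {D : ℕ} (De : DetM G Q K C₁ C₂ m)

private theorem lp_njp {α : Xt (TE V E Q) D → ZMod 2} {a : TV V Q → FrC.A D} {ℓ₀ : ℕ}
    {𝒞 : ℕ → Set (Cert V E Q D)} {B₀ : Finset V} {y : E → ZMod 2} {c : List (RM V E Q)}
    {ys : E → ZMod 2} (h : RunM Fr v0 α a De ℓ₀ 𝒞 B₀ y c ys) :
    ℓ₀ * njp c + segL c ≤ totR c := by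
  induction c generalizing ys with
  | nil => exact le_refl _
  | cons k c ih =>
    obtain ⟨p, _ | P⟩ := k
    · have h1 := ih h.1
      have e1 : njp ((p, (none : Option (Finset E))) :: c) = njp c := rfl
      have e2 : segL ((p, (none : Option (Finset E))) :: c) = segL c + p.1.card := rfl
      have e3 : totR ((p, (none : Option (Finset E))) :: c) = totR c + p.1.card := rfl
      rw [e1, e2, e3]
      omega
    · obtain ⟨-, ys', hrun, -, -, hℓ, -⟩ := h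
      have h1 := ih hrun
      have e1 : njp ((p, some P) :: c) = njp c + 1 := rfl
      have e2 : segL ((p, some P) :: c) = 0 := rfl
      have e3 : totR ((p, some P) :: c) = totR c + p.1.card := rfl
      rw [e1, e2, e3, Nat.mul_add, Nat.mul_one]
      omega

private theorem length_le_totR {c : List (EM V E Q)} {Γ : Finset (E → ZMod 2)}
    (h : ∀ k ∈ c, k ∈ entM V E Q Γ) : c.length ≤ totR (c.map toR) := by
  induction c with
  | nil => simp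
  | cons k c ih =>
    have h1 := ih fun k' hk' => h k' (List.mem_cons_of_mem _ hk')
    have h2 := h k (List.mem_cons_self ..)
    unfold entM ents at h2
    rw [Finset.mem_product, Finset.mem_product, Finset.mem_filter] at h2
    have h3 : 0 < k.1.1.1.card := Finset.card_pos.2 h2.1.1.2.1
    have h4 : totR ((k :: c).map toR) = totR (c.map toR) + k.1.1.1.card := rfl
    rw [h4, List.length_cons]
    omega

/-- the sequence of families given by its first values -/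
private def sqM (μj : ℕ) (g : Fin μj → Set (Cert V E Q D)) (j : ℕ) : Set (Cert V E Q D) :=
  if h : j < μj then g ⟨j, h⟩ else ∅

/-- the event that the code `c` occurs -/
private def EvM (𝒞 : ℕ → Set (Cert V E Q D)) (W : Finset (HV (TV V Q) (TE V E Q) D))
    (w0 : FrC.A D) (t0 : V) (L : Finset (TE V E Q)) (c : List (EM V E Q))
    (q : Om (G.tall Q) (HV.cen (v0, 0) w0 : HV (TV V Q) (TE V E Q) D) (v0, 0)) : Prop :=
  ∃ y : E → ZMod 2, Fr.Ok v0 (De.st (De.cL (plc G Q L)) (c.map toR)).2 y ∧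
    ∀ yh : E → ZMod 2, G.bd yh = pt v0 + pt t0 →
      G.Agree (De.st (De.cL (plc G Q L)) (c.map toR)).2 y yh →
      DcdM Fr De 𝒞 W L t0 (q.1.1 + Pth (G.tall Q) q.1.2
        (iota yh + De.DcM (De.cL (plc G Q L)) (c.map toR))) q.1.2 c

/-- the codes of length `n` that are counted -/
private noncomputable def CnM (SF : SFrame Fr) (t0 : V) (R R' μ n : ℕ)
    (L : Finset (TE V E Q)) : Finset (List (EM V E Q)) :=
  ((lst' (entM V E Q SF.Γ) n).filter fun c =>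
    AdmM Fr De (De.cL (plc G Q L)) t0 c ∧ totR (c.map toR) ≤ R').filter
    fun c => R ≤ totR (c.map toR) ∧ totR (c.map toR) < R' ∧ nmvM t0 c ≤ μ

/-- the start sets that are counted -/
private noncomputable def LSM (G : Gph V E) (Q NL : ℕ) (t0 : V) : Finset (Finset (TE V E Q)) :=
  univ.filter fun L => L.card ≤ NL ∧ t0 ∉ plc G Q L

private theorem coverM (SF : SFrame Fr) {Δ : ℕ}
    (hdeg : G.Deg Δ) (kk T' R R' ℓ ℓ₀ μ μj : ℕ) (w0 : FrC.A D)
    (Ps : Finset (Finset (HV (TV V Q) (TE V E Q) D) × Finset (Set (Cert V E Q D))))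
    (hPs : ∀ r ∈ Ps, r.1.card ≤ T' ∧ ∀ 𝒞 ∈ r.2, ∀ C ∈ 𝒞, r.1 ⊆ C.1 ∧ (C.1 \ r.1).card ≤ kk)
    (hℓ : 0 < ℓ) (hℓ₀ : 0 < ℓ₀) (hμ : R' ≤ ℓ * μ) (hμj : R' ≤ ℓ₀ * μj)
    (hm : 2 * ((Δ + 2) * T') + K3c K C₁ C₂ Δ * R' ≤ m) (hm' : (2 + C₁) * R' ≤ m)
    (hmF : K * (2 * ((Δ + 2) * T') + K3c K C₁ C₂ Δ * R') + 2 * (1 + Δ) * (T' + ℓ * kk) ≤ Fr.m)
    (q : Om (G.tall Q) (HV.cen (v0, 0) w0 : HV (TV V Q) (TE V E Q) D) (v0, 0))
    (hq : ∃ r ∈ Ps, ∃ 𝒞 : ℕ → Set (Cert V E Q D), (∀ j, 𝒞 j ∈ r.2) ∧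
      ¬ NoLongM Fr v0 q.1.1 q.1.2 De ℓ₀ r.1 𝒞 R R') :
    ∃ r ∈ Ps, ∃ g ∈ Fintype.piFinset (fun _ : Fin μj => r.2), ∃ n ∈ range R',
      ∃ t0 ∈ (univ : Finset V), ∃ L ∈ LSM G Q ((Δ + 2) * T') t0,
      ∃ c ∈ CnM Fr De SF t0 R R' μ n L, EvM Fr v0 De (sqM μj g) r.1 w0 t0 L c q := by
  obtain ⟨r, hr, 𝒞, h𝒞, hlong⟩ := hq
  unfold NoLongM at hlong
  push Not at hlong
  obtain ⟨c, y, ys, hrun, hc, hok, hR, hR', -⟩ := hlong
  set g : Fin μj → Set (Cert V E Q D) := fun i => 𝒞 i with hg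
  have hnj : njp c < μj := by
    have h1 := lp_njp Fr v0 De hrun
    by_contra hcon
    have h2 : ℓ₀ * μj ≤ ℓ₀ * njp c := Nat.mul_le_mul_left _ (by omega)
    omega
  have hrun' : RunM Fr v0 q.1.1 q.1.2 De ℓ₀ (sqM μj g) (De.B0 q.1.2 r.1) y c ys := by
    refine RunM_fam hc hrun fun j hj => ?_
    unfold sqM
    rw [dif_pos (lt_trans hj hnj)]
  have h𝒞' : ∀ j, ∀ C ∈ sqM μj g j, r.1 ⊆ C.1 ∧ (C.1 \ r.1).card ≤ kk := by
    intro j C hC
    unfold sqM at hC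
    by_cases hj : j < μj
    · rw [dif_pos hj] at hC
      exact (hPs r hr).2 _ (h𝒞 j) C hC
    · rw [dif_neg hj] at hC
      exact absurd hC (Set.notMem_empty _)
  have hcov : (cov (G.tall Q) q.1.2 r.1).card ≤ (Δ + 2) * T' :=
    (card_cov (G.tall Q) (by omega : 1 ≤ Δ + 2) (deg_tall G hdeg) q.1.2 r.1).trans
      (Nat.mul_le_mul_left _ (hPs r hr).1)
  have hK3 : K3c K C₁ C₂ Δ * totR c ≤ K3c K C₁ C₂ Δ * R' := Nat.mul_le_mul_left _ hR'.le
  have hA1 : 2 * (cov (G.tall Q) q.1.2 r.1).card + K3c K C₁ C₂ Δ * totR c ≤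
      2 * ((Δ + 2) * T') + K3c K C₁ C₂ Δ * R' := by omega
  have h1 : (2 + C₁) * totR c ≤ (2 + C₁) * R' := Nat.mul_le_mul_left _ hR'.le
  have hA2 : K * (2 * (cov (G.tall Q) q.1.2 r.1).card + K3c K C₁ C₂ Δ * totR c) +
      2 * (1 + Δ) * (r.1.card + ℓ * kk) ≤ Fr.m := by
    refine le_trans (Nat.add_le_add (Nat.mul_le_mul_left _ hA1) ?_) hmF
    exact Nat.mul_le_mul_left _ (Nat.add_le_add_right (hPs r hr).1 _)
  obtain ⟨t0, c', hc', hents, hadm, hnmv, hD'⟩ := decodeM Fr v0 q.1.1 q.1.2 De SF hdeg h𝒞'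
    hℓ c y ys hrun' hc hok (hA1.trans hm) (h1.trans hm') hA2
  have hlen : c'.length = c.length := by rw [← hc', List.length_map]
  have hlt : c'.length ≤ totR c := by
    have := length_le_totR hents
    rwa [hc'] at this
  have hn : c'.length < R' := lt_of_le_of_lt hlt hR'
  have hB0 : De.cL (plc G Q (cov (G.tall Q) q.1.2 r.1)) = De.B0 q.1.2 r.1 := rfl
  refine ⟨r, hr, g, ?_, c'.length, Finset.mem_range.2 hn, t0, Finset.mem_univ _,
    cov (G.tall Q) q.1.2 r.1, ?_, c', ?_, y, ?_, ?_⟩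
  · rw [Fintype.mem_piFinset]
    intro i
    exact h𝒞 i
  · unfold LSM
    rw [Finset.mem_filter]
    refine ⟨Finset.mem_univ _, hcov, fun ht => ?_⟩
    refine Fr.disj hadm.2.1 ?_
    have h2 : plc G Q (cov (G.tall Q) q.1.2 r.1) ⊆ De.B0 q.1.2 r.1 := De.extL _
    exact st_sub De _ _ (B0_sub_st De _ _ (h2 ht))
  · unfold CnM
    rw [Finset.mem_filter, Finset.mem_filter, mem_lst', hc', hB0]
    refine ⟨⟨⟨rfl, hents⟩, hadm, hR'.le⟩, hR, hR', hnmv.trans ?_⟩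
    rw [← hlen]
    exact Nat.div_le_of_le_mul (hn.le.trans hμ)
  · rw [hc', hB0, ← st_cpl De _ c hc]
    exact hok
  · intro yh hyh hag
    rw [hc', hB0] at hag ⊢
    exact hD' yh hyh hag

private theorem exp_le_two_pow (T : ℕ) : Real.exp ((T : ℝ) / 5) ≤ 2 ^ T := by
  have h16 : Real.exp (1 / 5) ≤ 2 := by
    have h17 := Real.one_sub_le_exp_neg (1 / 5)
    rw [Real.exp_neg] at h17
    have h18 : (0 : ℝ) < Real.exp (1 / 5) := Real.exp_pos _
    have h19 : Real.exp (1 / 5) * (Real.exp (1 / 5))⁻¹ = 1 := mul_inv_cancel₀ h18.ne'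
    nlinarith
  have h1 : (T : ℝ) / 5 = T * (1 / 5) := by ring
  rw [h1, Real.exp_nat_mul]
  exact pow_le_pow_left₀ (Real.exp_pos _).le h16 T

private theorem sum_start (hl : G.NoLoop) (hD : 0 < D) {Δ : ℕ} (hdeg : G.Deg Δ)
    {kk T' : ℕ} {W : Finset (HV (TV V Q) (TE V E Q) D)} (hWT : W.card ≤ T') (hkk : 1 ≤ kk)
    (hW : WM K C₁ C₂ Δ kk ≤ 2 ^ D) (t0 : V) (w : FrC.A D) (NL : ℕ) :
    ∑ L ∈ LSM G Q NL t0, (YM K C₁ C₂ Δ : ℝ) ^ L.card *
      pr (fun a : TV V Q → FrC.A D => a (t0, 0) = w ∧ ∀ e ∈ L, Tch (G.tall Q) a W e) ≤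
      2 ^ T' * pr (fun a : TV V Q → FrC.A D => a (t0, 0) = w) := by
  have h1 := sum_Tch_all (G.tall Q) (noLoop_tall G hl) hD (Δ := Δ + 2) (by omega)
    (deg_tall G hdeg) (YM K C₁ C₂ Δ : ℝ) (Nat.cast_nonneg _) W (t0, 0) w (LSM G Q NL t0) ?_
  · refine h1.trans (mul_le_mul_of_nonneg_right ?_ (pr_nonneg _))
    refine le_trans (Real.exp_le_exp.2 ?_) (exp_le_two_pow T')
    have h2 : (0 : ℝ) < 2 ^ D := by positivity
    rw [div_le_div_iff₀ h2 (by norm_num : (0 : ℝ) < 5)]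
    have hYX : 1 + YM K C₁ C₂ Δ ≤ 1 + 4 * XM K C₁ C₂ Δ := by
      unfold XM
      have h3 : 1 ≤ 2 ^ JM K C₁ Δ := Nat.one_le_two_pow
      have h4 : YM K C₁ C₂ Δ ≤ YM K C₁ C₂ Δ * 2 ^ JM K C₁ Δ := Nat.le_mul_of_pos_right _ h3
      have h5 : 4 * (2 * YM K C₁ C₂ Δ * 2 ^ JM K C₁ Δ) = 8 * (YM K C₁ C₂ Δ * 2 ^ JM K C₁ Δ) := by
        ring
      omega
    have h3 : (1 + YM K C₁ C₂ Δ) ^ (2 * (Δ + 2)) * ((Δ + 2) * W.card) * 5 ≤ T' * 2 ^ D := by
      calc (1 + YM K C₁ C₂ Δ) ^ (2 * (Δ + 2)) * ((Δ + 2) * W.card) * 5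
          ≤ (1 + 4 * XM K C₁ C₂ Δ) ^ (2 * (Δ + 2)) * ((Δ + 2) * (kk * T')) * 5 := by
            refine Nat.mul_le_mul_right _ (Nat.mul_le_mul (Nat.pow_le_pow_left hYX _)
              (Nat.mul_le_mul_left _ ?_))
            calc W.card ≤ T' := hWT
              _ = 1 * T' := (Nat.one_mul _).symm
              _ ≤ kk * T' := Nat.mul_le_mul_right _ hkk
        _ = T' * WM K C₁ C₂ Δ kk := by
            unfold WM
            ring
        _ ≤ T' * 2 ^ D := Nat.mul_le_mul_left _ hW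
    have h4 : (((1 + YM K C₁ C₂ Δ) ^ (2 * (Δ + 2)) * ((Δ + 2) * W.card) * 5 : ℕ) : ℝ) ≤
        ((T' * 2 ^ D : ℕ) : ℝ) := by exact_mod_cast h3
    push_cast at h4 ⊢
    exact h4
  · intro L hL e he
    unfold LSM at hL
    rw [Finset.mem_filter] at hL
    constructor
    · intro h
      apply hL.2.2
      exact Finset.mem_biUnion.2 ⟨e, he, by rw [h]; simp⟩
    · intro h
      apply hL.2.2
      exact Finset.mem_biUnion.2 ⟨e, he, by rw [h]; simp⟩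

private theorem sumEvM (SF : SFrame Fr) (hl : G.NoLoop) (hD : 0 < D) (hQ0 : 0 < Q) {Δ : ℕ}
    (hdeg : G.Deg Δ) (kk T' R R' μ : ℕ) (w0 : FrC.A D)
    {𝒞 : ℕ → Set (Cert V E Q D)} {W : Finset (HV (TV V Q) (TE V E Q) D)} (hWT : W.card ≤ T')
    (h𝒞 : ∀ j, ∀ C ∈ 𝒞 j, (C.1 \ W).card ≤ kk) (hkk : 1 ≤ kk)
    (hW : WM K C₁ C₂ Δ kk ≤ 2 ^ D)
    (hm : 2 * ((Δ + 2) * T') + K3c K C₁ C₂ Δ * R' ≤ m) (hm' : (2 + C₁) * R' ≤ m)
    (hmF : K * (2 * ((Δ + 2) * T') + K3c K C₁ C₂ Δ * R') ≤ Fr.m) (t0 : V) (n : ℕ) :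
    ∑ L ∈ LSM G Q ((Δ + 2) * T') t0, ∑ c ∈ CnM Fr De SF t0 R R' μ n L,
      pr (EvM Fr v0 De 𝒞 W w0 t0 L c) ≤
      (1 / 2) ^ R * (((SF.Γ.card + 1) * Fintype.card V : ℕ) : ℝ) ^ μ *
        ((1 / 2) ^ n * 2 ^ T') := by
  set NL : ℕ := (Δ + 2) * T' with hNL
  set Λ : ℝ := (((SF.Γ.card + 1) * Fintype.card V : ℕ) : ℝ) with hΛ
  have hV : 0 < Fintype.card V := Fintype.card_pos_iff.2 ⟨v0⟩
  have hΛ1 : 1 ≤ Λ := by
    rw [hΛ]
    exact_mod_cast Nat.mul_pos (Nat.succ_pos _) hV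
  have hΛ0 : 0 < Λ := lt_of_lt_of_le one_pos hΛ1
  set lam : ℝ := 1 / Λ with hlam
  have hlam0 : 0 ≤ lam := by positivity
  have hlamΛ : lam * Λ = 1 := by
    rw [hlam, one_div, inv_mul_cancel₀ hΛ0.ne']
  set Y : ℝ := (YM K C₁ C₂ Δ : ℝ) with hY
  have hYe : Y = 2 ^ (Δ * (K * (2 + K3c K C₁ C₂ Δ))) := by
    rw [hY]
    unfold YM
    push_cast
    rfl
  have hY0 : 0 < Y := by
    rw [hYe]
    positivity
  set J : ℕ := JM K C₁ Δ with hJ
  set x : ℝ := 2 * Y * 2 ^ J with hx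
  have hx0 : 0 ≤ x := by positivity
  have hxX : x = (XM K C₁ C₂ Δ : ℝ) := by
    rw [hx, hY, hJ]
    unfold XM
    push_cast
    rfl
  -- one code
  have hone : ∀ L ∈ LSM G Q NL t0, ∀ c ∈ CnM Fr De SF t0 R R' μ n L,
      pr (EvM Fr v0 De 𝒞 W w0 t0 L c) ≤
      (1 / 2) ^ R * Λ ^ μ * (Y ^ L.card * (x ^ totR (c.map toR) * lam ^ nmvM t0 c *
        (1 / 2) ^ (J * jw (c.map toR))) *
        pr (fun q : Om (G.tall Q) (HV.cen (v0, 0) w0 : HV (TV V Q) (TE V E Q) D) (t0, 0) =>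
          DcdM Fr De 𝒞 W L t0 q.1.1 q.1.2 c)) := by
    intro L hL c hc
    unfold LSM at hL
    rw [Finset.mem_filter] at hL
    unfold CnM at hc
    rw [Finset.mem_filter, Finset.mem_filter] at hc
    obtain ⟨⟨_, hadm, _⟩, hR, hR', hnmv⟩ := hc
    set T := totR (c.map toR) with hT
    have h1 : (2 + C₁) * T ≤ (2 + C₁) * R' := Nat.mul_le_mul_left _ hR'.le
    have hp : (plc G Q L).card ≤ 2 * L.card := card_plc G L
    have hK3 : K3c K C₁ C₂ Δ * T ≤ K3c K C₁ C₂ Δ * R' := Nat.mul_le_mul_left _ hR'.le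
    have hLc : L.card ≤ NL := hL.2.1
    have hst0 : (De.st (De.cL (plc G Q L)) (c.map toR)).2.card ≤
        K * ((plc G Q L).card + K3c K C₁ C₂ Δ * T) :=
      card_st De hdeg rfl (c.map toR) (by rw [← hT]; omega) (h1.trans hm')
    have hst : (De.st (De.cL (plc G Q L)) (c.map toR)).2.card ≤
        K * (2 * L.card + K3c K C₁ C₂ Δ * T) :=
      hst0.trans (Nat.mul_le_mul_left _ (by omega))
    have hstm : (De.st (De.cL (plc G Q L)) (c.map toR)).2.card ≤ Fr.m :=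
      hst.trans ((Nat.mul_le_mul_left _ (by omega)).trans hmF)
    have h2 := pr_codeM Fr v0 De hD hdeg 𝒞 W L w0 t0 c hadm hstm
    set P : ℝ := pr (fun q : Om (G.tall Q) (HV.cen (v0, 0) w0 : HV (TV V Q) (TE V E Q) D) (t0, 0) =>
          DcdM Fr De 𝒞 W L t0 q.1.1 q.1.2 c) with hP
    have hP0 : 0 ≤ P := pr_nonneg _
    refine le_trans h2 ?_
    have h3 : (2 : ℝ) ^ (Δ * (De.st (De.cL (plc G Q L)) (c.map toR)).2.card) ≤
        Y ^ L.card * Y ^ T := by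
      rw [hYe, ← pow_mul, ← pow_mul, ← pow_add]
      apply pow_le_pow_right₀ (by norm_num)
      calc Δ * (De.st (De.cL (plc G Q L)) (c.map toR)).2.card
          ≤ Δ * (K * (2 * L.card + K3c K C₁ C₂ Δ * T)) := Nat.mul_le_mul_left _ hst
        _ ≤ Δ * (K * ((2 + K3c K C₁ C₂ Δ) * L.card + (2 + K3c K C₁ C₂ Δ) * T)) := by
            refine Nat.mul_le_mul_left _ (Nat.mul_le_mul_left _ ?_)
            rw [Nat.add_mul, Nat.add_mul]
            omega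
        _ = Δ * (K * (2 + K3c K C₁ C₂ Δ)) * L.card + Δ * (K * (2 + K3c K C₁ C₂ Δ)) * T := by
            ring
    have hjw : jw (c.map toR) ≤ T := by
      have := jw_add_segL (c.map toR)
      omega
    have h4 : Y ^ T ≤ (1 / 2) ^ R * (x ^ T * (1 / 2) ^ (J * jw (c.map toR))) := by
      have h5 : (1 : ℝ) ≤ (1 / 2) ^ R * 2 ^ T := by
        obtain ⟨d, hd⟩ := Nat.exists_eq_add_of_le hR
        rw [hd, pow_add, ← mul_assoc, ← mul_pow]
        norm_num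
        exact one_le_pow₀ (by norm_num)
      have h6 : (1 : ℝ) ≤ (2 ^ J) ^ T * (1 / 2) ^ (J * jw (c.map toR)) := by
        have h7 : ((2 : ℝ) ^ J) ^ T = 2 ^ (J * T) := (pow_mul _ _ _).symm
        rw [h7]
        obtain ⟨d, hd⟩ := Nat.exists_eq_add_of_le (Nat.mul_le_mul_left J hjw)
        rw [hd, pow_add, mul_right_comm, ← mul_pow]
        norm_num
        exact one_le_pow₀ (by norm_num)
      have h8 : (1 / 2) ^ R * (x ^ T * (1 / 2) ^ (J * jw (c.map toR))) =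
          Y ^ T * (((1 / 2) ^ R * 2 ^ T) * ((2 ^ J) ^ T * (1 / 2) ^ (J * jw (c.map toR)))) := by
        rw [hx, mul_pow, mul_pow]
        ring
      rw [h8]
      have h9 : (1 : ℝ) ≤ ((1 / 2) ^ R * 2 ^ T) *
          ((2 ^ J) ^ T * (1 / 2) ^ (J * jw (c.map toR))) := by
        nlinarith
      calc Y ^ T = Y ^ T * 1 := (mul_one _).symm
        _ ≤ _ := mul_le_mul_of_nonneg_left h9 (by positivity)
    have h6 : (1 : ℝ) ≤ Λ ^ μ * lam ^ nmvM t0 c := by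
      obtain ⟨d, hd⟩ := Nat.exists_eq_add_of_le hnmv
      rw [hd, pow_add, mul_right_comm, ← mul_pow, mul_comm Λ lam, hlamΛ, one_pow, one_mul]
      exact one_le_pow₀ hΛ1
    have h10 : (2 : ℝ) ^ (Δ * (De.st (De.cL (plc G Q L)) (c.map toR)).2.card) ≤
        Y ^ L.card * ((1 / 2) ^ R * (x ^ T * (1 / 2) ^ (J * jw (c.map toR)))) :=
      h3.trans (mul_le_mul_of_nonneg_left h4 (by positivity))
    calc (2 : ℝ) ^ (Δ * (De.st (De.cL (plc G Q L)) (c.map toR)).2.card) * P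
        ≤ (Y ^ L.card * ((1 / 2) ^ R * (x ^ T * (1 / 2) ^ (J * jw (c.map toR))))) * P :=
          mul_le_mul_of_nonneg_right h10 hP0
      _ = (Y ^ L.card * ((1 / 2) ^ R * (x ^ T * (1 / 2) ^ (J * jw (c.map toR))))) * P * 1 :=
          (mul_one _).symm
      _ ≤ (Y ^ L.card * ((1 / 2) ^ R * (x ^ T * (1 / 2) ^ (J * jw (c.map toR))))) * P *
          (Λ ^ μ * lam ^ nmvM t0 c) :=
          mul_le_mul_of_nonneg_left h6 (by positivity)
      _ = _ := by ring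
  set FS : Finset (TE V E Q) → Finset (List (EM V E Q)) := fun L =>
    (lst' (entM V E Q SF.Γ) n).filter (fun c =>
      AdmM Fr De (De.cL (plc G Q L)) t0 c ∧ totR (c.map toR) ≤ R') with hFS
  have hsum : ∑ p ∈ (LSM G Q NL t0).sigma FS,
      (Y ^ p.1.card * (x ^ totR (p.2.map toR) * lam ^ nmvM t0 p.2 *
        (1 / 2) ^ (J * jw (p.2.map toR)))) *
        pr (fun q : Om (G.tall Q) (HV.cen (v0, 0) w0 : HV (TV V Q) (TE V E Q) D) (t0, 0) =>
          DcdM Fr De 𝒞 W p.1 t0 q.1.1 q.1.2 p.2) ≤ (1 / 2) ^ n * 2 ^ T' := by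
    refine pr_Om_sum (G.tall Q) ((LSM G Q NL t0).sigma FS)
      (fun p => Y ^ p.1.card * (x ^ totR (p.2.map toR) * lam ^ nmvM t0 p.2 *
        (1 / 2) ^ (J * jw (p.2.map toR)))) (fun p _ => by positivity)
      (v0, 0) w0 (t0, 0) (fun w w' => ?_) (fun p β a => DcdM Fr De 𝒞 W p.1 t0 β a p.2)
      ((1 / 2) ^ n * 2 ^ T') (by positivity) (fun β w' => ?_)
    · obtain ⟨γ, hγ, _⟩ := exists_bd_fiber G hQ0 hD t0 0 0 w w'
      exact ⟨γ, hγ⟩
    · rw [Finset.sum_sigma]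
      have h1 : ∀ L ∈ LSM G Q NL t0, ∑ c ∈ FS L,
          (Y ^ L.card * (x ^ totR (c.map toR) * lam ^ nmvM t0 c *
            (1 / 2) ^ (J * jw (c.map toR)))) *
            pr (fun a : TV V Q → FrC.A D => a (t0, 0) = w' ∧ DcdM Fr De 𝒞 W L t0 β a c) ≤
          (1 / 2) ^ n * (Y ^ L.card * pr (fun a : TV V Q → FrC.A D =>
            a (t0, 0) = w' ∧ ∀ e ∈ L, Tch (G.tall Q) a W e)) := by
        intro L _
        have h2 := sumM Fr De hl hD hdeg 𝒞 W h𝒞 SF.Γ x hx0 ?_ lam hlam0 ?_ L t0 β w' R' n hm'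
        · have h3 := mul_le_mul_of_nonneg_left h2 (pow_nonneg hY0.le L.card)
          rw [Finset.mul_sum] at h3
          refine le_trans (le_of_eq ?_) (h3.trans (le_of_eq ?_))
          · refine Finset.sum_congr rfl fun c _ => ?_
            ring
          · ring
        · have h3 : ((WM K C₁ C₂ Δ kk : ℕ) : ℝ) ≤ ((2 ^ D : ℕ) : ℝ) := by exact_mod_cast hW
          unfold WM at h3
          push_cast at h3
          rw [hxX]
          exact h3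
        · have h3 : lam * (((SF.Γ.card : ℝ) + 1) * (Fintype.card V : ℝ)) = lam * Λ := by
            rw [hΛ]
            push_cast
            ring
          rw [h3, hlamΛ]
      refine (Finset.sum_le_sum h1).trans ?_
      rw [← Finset.mul_sum, mul_assoc]
      exact mul_le_mul_of_nonneg_left (sum_start hl hD hdeg hWT hkk hW t0 w' NL) (by positivity)
  calc ∑ L ∈ LSM G Q NL t0, ∑ c ∈ CnM Fr De SF t0 R R' μ n L, pr (EvM Fr v0 De 𝒞 W w0 t0 L c)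
      ≤ ∑ L ∈ LSM G Q NL t0, ∑ c ∈ FS L, (1 / 2) ^ R * Λ ^ μ *
        (Y ^ L.card * (x ^ totR (c.map toR) * lam ^ nmvM t0 c *
        (1 / 2) ^ (J * jw (c.map toR))) *
        pr (fun q : Om (G.tall Q) (HV.cen (v0, 0) w0 : HV (TV V Q) (TE V E Q) D) (t0, 0) =>
          DcdM Fr De 𝒞 W L t0 q.1.1 q.1.2 c)) := by
        refine Finset.sum_le_sum fun L hL => (Finset.sum_le_sum (hone L hL)).trans ?_
        unfold CnM
        refine Finset.sum_le_sum_of_subset_of_nonneg (Finset.filter_subset _ _)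
          (fun c _ _ => mul_nonneg (by positivity) (mul_nonneg (by positivity) (pr_nonneg _)))
    _ = (1 / 2) ^ R * Λ ^ μ * ∑ p ∈ (LSM G Q NL t0).sigma FS,
        (Y ^ p.1.card * (x ^ totR (p.2.map toR) * lam ^ nmvM t0 p.2 *
        (1 / 2) ^ (J * jw (p.2.map toR)))) *
        pr (fun q : Om (G.tall Q) (HV.cen (v0, 0) w0 : HV (TV V Q) (TE V E Q) D) (t0, 0) =>
          DcdM Fr De 𝒞 W p.1 t0 q.1.1 q.1.2 p.2) := by
        rw [Finset.sum_sigma, Finset.mul_sum]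
        refine Finset.sum_congr rfl fun L _ => ?_
        rw [Finset.mul_sum]
    _ ≤ _ := mul_le_mul_of_nonneg_left hsum (by positivity)

/-- **there is a restriction without long sequences of segments** -/
theorem exists_noLongM (SF : SFrame Fr) (hl : G.NoLoop) (hD : 0 < D) (hQ0 : 0 < Q) {Δ : ℕ}
    (hdeg : G.Deg Δ) (k kk T' Bn R R' ℓ ℓ₀ μ μj : ℕ) (w0 : FrC.A D)
    (Ps : Finset (Finset (HV (TV V Q) (TE V E Q) D) × Finset (Set (Cert V E Q D))))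
    (hPs : ∀ r ∈ Ps, r.1.card ≤ T' ∧ r.2.card ≤ 2 ^ k ∧
      ∀ 𝒞 ∈ r.2, ∀ C ∈ 𝒞, r.1 ⊆ C.1 ∧ (C.1 \ r.1).card ≤ kk)
    (hkk : 1 ≤ kk) (hW : WM K C₁ C₂ Δ kk ≤ 2 ^ D)
    (hℓ : 0 < ℓ) (hℓ₀ : 0 < ℓ₀) (hμ : R' ≤ ℓ * μ) (hμj : R' ≤ ℓ₀ * μj)
    (hm : 2 * ((Δ + 2) * T') + K3c K C₁ C₂ Δ * R' ≤ m) (hm' : (2 + C₁) * R' ≤ m)
    (hmF : K * (2 * ((Δ + 2) * T') + K3c K C₁ C₂ Δ * R') + 2 * (1 + Δ) * (T' + ℓ * kk) ≤ Fr.m)
    (hB : Ps.card ≤ 2 ^ Bn)
    (hcard : 2 ^ Bn * (2 ^ k) ^ μj * (2 * Fintype.card V) *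
      ((SF.Γ.card + 1) * Fintype.card V) ^ μ * 2 ^ T' < 2 ^ R) :
    ∃ (α : Xt (TE V E Q) D → ZMod 2) (a : TV V Q → FrC.A D),
      ((G.tall Q).blow D).bd α = FrC.pt (HV.cen (v0, 0) w0) + FrC.pt (FrC.ctr a (v0, 0)) ∧
      ∀ r ∈ Ps, ∀ 𝒞 : ℕ → Set (Cert V E Q D), (∀ j, 𝒞 j ∈ r.2) →
        NoLongM Fr v0 α a De ℓ₀ r.1 𝒞 R R' := by
  classical
  have hne : Nonempty (Om (G.tall Q) (HV.cen (v0, 0) w0 : HV (TV V Q) (TE V E Q) D) (v0, 0)) := by
    refine ⟨⟨((0 : Xt (TE V E Q) D → ZMod 2), fun _ => w0), ?_⟩⟩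
    rw [Gph.bd_zero]
    exact (add_self2 (pt (HV.cen (v0, 0) w0 : HV (TV V Q) (TE V E Q) D) :
      HV (TV V Q) (TE V E Q) D → ZMod 2)).symm
  set Λn : ℕ := (SF.Γ.card + 1) * Fintype.card V with hΛn
  set N : ℕ := (2 ^ k) ^ μj with hN
  have hmF' : K * (2 * ((Δ + 2) * T') + K3c K C₁ C₂ Δ * R') ≤ Fr.m :=
    le_trans (Nat.le_add_right _ _) hmF
  have hPs' : ∀ r ∈ Ps, r.1.card ≤ T' ∧
      ∀ 𝒞 ∈ r.2, ∀ C ∈ 𝒞, r.1 ⊆ C.1 ∧ (C.1 \ r.1).card ≤ kk :=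
    fun r hr => ⟨(hPs r hr).1, (hPs r hr).2.2⟩
  set Z : ℝ := (1 / 2) ^ R * (Λn : ℝ) ^ μ * 2 ^ T' with hZ
  have hZ0 : 0 ≤ Z := by positivity
  have hgeo : ∑ j ∈ range R', ((1 : ℝ) / 2) ^ j ≤ 2 := by
    have h7 : (∑ j ∈ range R', ((1 : ℝ) / 2) ^ j) * (1 - 1 / 2) = 1 - (1 / 2) ^ R' :=
      geom_sum_mul_neg (1 / 2 : ℝ) R'
    have h8 : (0 : ℝ) ≤ (1 / 2) ^ R' := by positivity
    linarith
  have hfinal : pr (fun q : Om (G.tall Q) (HV.cen (v0, 0) w0 : HV (TV V Q) (TE V E Q) D) (v0, 0) =>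
      ∃ r ∈ Ps, ∃ 𝒞 : ℕ → Set (Cert V E Q D), (∀ j, 𝒞 j ∈ r.2) ∧
        ¬ NoLongM Fr v0 q.1.1 q.1.2 De ℓ₀ r.1 𝒞 R R') < 1 := by
    calc pr (fun q : Om (G.tall Q) (HV.cen (v0, 0) w0 : HV (TV V Q) (TE V E Q) D) (v0, 0) =>
        ∃ r ∈ Ps, ∃ 𝒞 : ℕ → Set (Cert V E Q D), (∀ j, 𝒞 j ∈ r.2) ∧
          ¬ NoLongM Fr v0 q.1.1 q.1.2 De ℓ₀ r.1 𝒞 R R')
        ≤ pr (fun q => ∃ r ∈ Ps, ∃ g ∈ Fintype.piFinset (fun _ : Fin μj => r.2), ∃ n ∈ range R',
            ∃ t0 ∈ (univ : Finset V), ∃ L ∈ LSM G Q ((Δ + 2) * T') t0,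
            ∃ c ∈ CnM Fr De SF t0 R R' μ n L, EvM Fr v0 De (sqM μj g) r.1 w0 t0 L c q) :=
          pr_mono (coverM Fr v0 De SF hdeg kk T' R R' ℓ ℓ₀ μ μj w0 Ps hPs' hℓ hℓ₀ hμ hμj hm hm' hmF)
      _ ≤ ∑ r ∈ Ps, pr (fun q => ∃ g ∈ Fintype.piFinset (fun _ : Fin μj => r.2), ∃ n ∈ range R',
            ∃ t0 ∈ (univ : Finset V), ∃ L ∈ LSM G Q ((Δ + 2) * T') t0,
            ∃ c ∈ CnM Fr De SF t0 R R' μ n L, EvM Fr v0 De (sqM μj g) r.1 w0 t0 L c q) :=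
          pr_exists_le _ _
      _ ≤ ∑ r ∈ Ps, (N : ℝ) * ((Fintype.card V : ℝ) * Z * 2) := by
          apply Finset.sum_le_sum
          intro r hr
          calc pr (fun q => ∃ g ∈ Fintype.piFinset (fun _ : Fin μj => r.2), ∃ n ∈ range R',
                ∃ t0 ∈ (univ : Finset V), ∃ L ∈ LSM G Q ((Δ + 2) * T') t0,
                ∃ c ∈ CnM Fr De SF t0 R R' μ n L, EvM Fr v0 De (sqM μj g) r.1 w0 t0 L c q)
              ≤ ∑ g ∈ Fintype.piFinset (fun _ : Fin μj => r.2), pr (fun q => ∃ n ∈ range R',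
                ∃ t0 ∈ (univ : Finset V), ∃ L ∈ LSM G Q ((Δ + 2) * T') t0,
                ∃ c ∈ CnM Fr De SF t0 R R' μ n L,
                  EvM Fr v0 De (sqM μj g) r.1 w0 t0 L c q) := pr_exists_le _ _
            _ ≤ ∑ g ∈ Fintype.piFinset (fun _ : Fin μj => r.2),
                  ((Fintype.card V : ℝ) * Z * 2) := by
                refine Finset.sum_le_sum fun g hg => ?_
                have h𝒞' : ∀ j, ∀ C ∈ sqM μj g j, (C.1 \ r.1).card ≤ kk := by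
                  intro j C hC
                  unfold sqM at hC
                  by_cases hj : j < μj
                  · rw [dif_pos hj] at hC
                    exact ((hPs' r hr).2 _ (Fintype.mem_piFinset.1 hg ⟨j, hj⟩) C hC).2
                  · rw [dif_neg hj] at hC
                    exact absurd hC (Set.notMem_empty _)
                calc pr (fun q => ∃ n ∈ range R',
                      ∃ t0 ∈ (univ : Finset V), ∃ L ∈ LSM G Q ((Δ + 2) * T') t0,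
                      ∃ c ∈ CnM Fr De SF t0 R R' μ n L,
                        EvM Fr v0 De (sqM μj g) r.1 w0 t0 L c q)
                    ≤ ∑ n ∈ range R', pr (fun q => ∃ t0 ∈ (univ : Finset V),
                      ∃ L ∈ LSM G Q ((Δ + 2) * T') t0, ∃ c ∈ CnM Fr De SF t0 R R' μ n L,
                        EvM Fr v0 De (sqM μj g) r.1 w0 t0 L c q) := pr_exists_le _ _
                  _ ≤ ∑ n ∈ range R', ((Fintype.card V : ℝ) * Z) * (1 / 2) ^ n := by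
                      refine Finset.sum_le_sum fun n _ => ?_
                      calc pr (fun q => ∃ t0 ∈ (univ : Finset V),
                            ∃ L ∈ LSM G Q ((Δ + 2) * T') t0, ∃ c ∈ CnM Fr De SF t0 R R' μ n L,
                              EvM Fr v0 De (sqM μj g) r.1 w0 t0 L c q)
                          ≤ ∑ t0 ∈ (univ : Finset V), pr (fun q =>
                            ∃ L ∈ LSM G Q ((Δ + 2) * T') t0, ∃ c ∈ CnM Fr De SF t0 R R' μ n L,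
                              EvM Fr v0 De (sqM μj g) r.1 w0 t0 L c q) := pr_exists_le _ _
                        _ ≤ ∑ _t0 ∈ (univ : Finset V), (Z * (1 / 2) ^ n) := by
                            refine Finset.sum_le_sum fun t0 _ => ?_
                            refine (pr_exists_le _ _).trans ?_
                            refine (Finset.sum_le_sum fun L _ => pr_exists_le _ _).trans ?_
                            refine (sumEvM Fr v0 De SF hl hD hQ0 hdeg kk T' R R' μ w0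
                              (hPs' r hr).1 h𝒞' hkk hW hm hm' hmF' t0 n).trans (le_of_eq ?_)
                            rw [hZ, hΛn]
                            ring
                        _ = _ := by
                            rw [Finset.sum_const, Finset.card_univ, nsmul_eq_mul]
                            ring
                  _ = ((Fintype.card V : ℝ) * Z) * ∑ n ∈ range R', (1 / 2 : ℝ) ^ n :=
                      (Finset.mul_sum _ _ _).symm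
                  _ ≤ (Fintype.card V : ℝ) * Z * 2 :=
                      mul_le_mul_of_nonneg_left hgeo (by positivity)
            _ = ((Fintype.piFinset (fun _ : Fin μj => r.2)).card : ℝ) *
                  ((Fintype.card V : ℝ) * Z * 2) := by
                rw [Finset.sum_const, nsmul_eq_mul]
            _ ≤ (N : ℝ) * ((Fintype.card V : ℝ) * Z * 2) := by
                refine mul_le_mul_of_nonneg_right ?_ (by positivity)
                have h1 : (Fintype.piFinset (fun _ : Fin μj => r.2)).card ≤ N := by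
                  rw [Fintype.card_piFinset_const, hN]
                  exact Nat.pow_le_pow_left (hPs r hr).2.1 _
                exact_mod_cast h1
      _ = (Ps.card : ℝ) * ((N : ℝ) * ((Fintype.card V : ℝ) * Z * 2)) := by
          rw [Finset.sum_const, nsmul_eq_mul]
      _ ≤ ((2 ^ Bn : ℕ) : ℝ) * ((N : ℝ) * ((Fintype.card V : ℝ) * Z * 2)) := by
          refine mul_le_mul_of_nonneg_right ?_ (by positivity)
          exact_mod_cast hB
      _ < 1 := by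
          have h9 : ((2 ^ Bn * N * (2 * Fintype.card V) * Λn ^ μ * 2 ^ T' : ℕ) : ℝ) < 2 ^ R := by
            exact_mod_cast hcard
          rw [Nat.cast_mul, Nat.cast_mul, Nat.cast_mul, Nat.cast_mul, Nat.cast_mul,
            Nat.cast_pow Λn μ] at h9
          have h10 : (0 : ℝ) < (1 / 2) ^ R := by positivity
          calc ((2 ^ Bn : ℕ) : ℝ) * ((N : ℝ) * ((Fintype.card V : ℝ) * Z * 2))
              = (((2 ^ Bn : ℕ) : ℝ) * (N : ℝ) * (((2 : ℕ) : ℝ) * (Fintype.card V : ℝ)) *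
                  (Λn : ℝ) ^ μ * ((2 ^ T' : ℕ) : ℝ)) * (1 / 2) ^ R := by
                rw [hZ]
                push_cast
                ring
            _ < 2 ^ R * (1 / 2) ^ R := mul_lt_mul_of_pos_right h9 h10
            _ = 1 := by rw [← mul_pow]; norm_num
  obtain ⟨q, hq⟩ := exists_of_pr_lt_one hfinal
  refine ⟨q.1.1, q.1.2, q.2, ?_⟩
  intro r hr 𝒞 h𝒞
  by_contra hcon
  exact hq ⟨r, hr, 𝒞, h𝒞, hcon⟩

end

end FrU
end

section

/-!
The parameter `s`: a power of `log n` that bounds all auxiliary quantities.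

PROOF of `exists_good`.  Let `L = Nat.log 2 n + 1`, and for `N ≤ n` `L_N = Nat.log 2 N + 1 ≤ L` (`Nat.log_mono_right`).
All constants `A, A1, ...` below are absolute (keep them symbolic: never let Lean evaluate powers of `2`
with exponent `KU`; use `obtain ⟨A, hA⟩ : ∃ A, A = ... := ⟨_, rfl⟩`).
* `cst`, `log`: clear.  `fib`: `Kd 64 19 N = 16 * 64 + 2 + 4 * 64 * 19 + 4 * (1 + 64 * 19) * Ld 128 19 N` and
  `Ld 128 19 N = 128 * 19 * L_N`, so `cN N ≤ A1 * L_N`, `225 * cN N ≤ 225 * A1 * L`.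
* `xm`: `C2N N = CB 64 19 16 (cN N) ≤ A2 + A3 * (Nat.log 2 (cN N) + 1)`, and
  `cN N ≤ A1 * L < 2 ^ (Nat.log 2 A1 + 1 + (Nat.log 2 L + 1))`, so `Nat.log 2 (cN N) ≤ Nat.log 2 A1 + 2 + Nat.log 2 L`
  and `C2N N ≤ A4 + A3 * Nat.log 2 L`.  `XM KU 73 C₂ 35 = 2 ^ (1 + 35 * (KU * (2 + K3c KU 73 C₂ 35)) + JM ..)` where the
  exponent is an affine function of `C₂`: `≤ A5 + A6 * C₂` (`K3c KU 73 C₂ 35 = KU * 75 * (1 + C₂ * 35)`), so
  `XM .. ≤ 2 ^ (A7 + A8 * Nat.log 2 L) = 2 ^ A7 * (2 ^ Nat.log 2 L) ^ A8 ≤ 2 ^ A7 * L ^ A8`.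
* `big`: `n < 2 ^ L` (`Nat.lt_pow_succ_log_self`); there is `s1` with `s ^ 200 ≤ 2 ^ (s / 2 - 1)` for all `s ≥ s1` (e.g.
  from the private `pow_le_two_pow` in T/NumT.lean applied to `s / 2`), and `2 * L ≤ s`; so
  `n * s ^ 200 ≤ 2 ^ L * 2 ^ (s / 2 - 1) ≤ 2 ^ (s - 1)`.
Take `a₀ = A8 + 2` and `C₀` the sum of all constants.
-/

set_option linter.unusedSectionVars false

namespace FrU

open Finset Fr56 FrC FrG FrT
open scoped Classical

/-- a constant -/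
def cstU : ℕ := 185 * 5 ^ 74 + 10 ^ 5 * KU

/-- `s` is large enough for graphs with at most `n` vertices -/
structure GoodS (n s : ℕ) : Prop where
  cst : cstU ≤ s
  big : n * s ^ 200 ≤ 2 ^ (s - 1)
  fib : ∀ N ≤ n, 225 * cN N ≤ s
  xm : ∀ N ≤ n, XM KU 73 (C2N N) 35 ≤ s
  log : ∀ N ≤ n, 5121 * (Nat.log 2 N + 1) ^ 2 ≤ s
  pos : 1 ≤ n

private theorem good_pow (k K : ℕ) : ∃ t0 : ℕ, ∀ t ≥ t0, K * t ^ k < 2 ^ t := by
  have h := tendsto_pow_const_div_const_pow_of_one_lt k (one_lt_two (α := ℝ))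
  have h1 : (0 : ℝ) < 1 / (K + 1) := by positivity
  obtain ⟨t0, ht0⟩ := Filter.eventually_atTop.1 (h.eventually (gt_mem_nhds h1))
  refine ⟨t0, fun t ht => ?_⟩
  have h2 := ht0 t ht
  have h3 : (0 : ℝ) < 2 ^ t := by positivity
  rw [div_lt_div_iff₀ h3 (by positivity)] at h2
  have h4 : (K : ℝ) * (t : ℝ) ^ k < 2 ^ t := by
    have h5 : (0 : ℝ) ≤ (t : ℝ) ^ k := by positivity
    nlinarith
  exact_mod_cast h4

private theorem good_big (k : ℕ) : ∃ s1 : ℕ, ∀ s ≥ s1, s ^ k ≤ 2 ^ (s / 2 - 1) := by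
  obtain ⟨t0, ht0⟩ := good_pow k (3 ^ k * 2)
  refine ⟨2 * t0 + 2, fun s hs => ?_⟩
  have ht : t0 ≤ s / 2 := by omega
  have h1 := ht0 (s / 2) ht
  have h2 : s ≤ 3 * (s / 2) := by omega
  have h3 : s ^ k ≤ 3 ^ k * (s / 2) ^ k := by
    rw [← mul_pow]
    exact Nat.pow_le_pow_left h2 k
  have h4 : 2 ^ (s / 2) = 2 * 2 ^ (s / 2 - 1) := by
    rw [← pow_succ']
    congr 1
    omega
  rw [h4] at h1
  have h5 : 3 ^ k * 2 * (s / 2) ^ k = 2 * (3 ^ k * (s / 2) ^ k) := by ring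
  rw [h5] at h1
  have h6 := Nat.lt_of_mul_lt_mul_left h1
  exact h3.trans h6.le

private theorem good_cN : ∃ A1 : ℕ, 1 ≤ A1 ∧ ∀ N, cN N ≤ A1 * (Nat.log 2 N + 1) := by
  obtain ⟨a, ha⟩ : ∃ a, a = 16 * 64 + 2 + 4 * 64 * 19 := ⟨_, rfl⟩
  obtain ⟨b, hb⟩ : ∃ b, b = 4 * (1 + 64 * 19) * (2 * 64 * 19) := ⟨_, rfl⟩
  obtain ⟨c, hc⟩ : ∃ c, c = 24322 := ⟨_, rfl⟩
  refine ⟨(a + b) * c + 1, Nat.le_add_left _ _, fun N => ?_⟩
  have h : cN N = (a + b * (Nat.log 2 N + 1)) * c := by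
    unfold cN Kd Ld
    rw [ha, hb, hc]
    ring
  rw [h]
  generalize Nat.log 2 N = l
  have h1 : a ≤ a * (l + 1) := Nat.le_mul_of_pos_right _ (Nat.succ_pos _)
  calc (a + b * (l + 1)) * c ≤ (a * (l + 1) + b * (l + 1)) * c :=
        Nat.mul_le_mul_right _ (Nat.add_le_add_right h1 _)
    _ = (a + b) * c * (l + 1) := by ring
    _ ≤ ((a + b) * c + 1) * (l + 1) := Nat.mul_le_mul_right _ (Nat.le_succ _)

private theorem good_CB : ∃ A2 A3 : ℕ, ∀ c, CB 64 19 16 c ≤ A2 + A3 * Nat.log 2 c := by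
  obtain ⟨k, hk⟩ : ∃ k, k = K7 64 19 := ⟨_, rfl⟩
  obtain ⟨a, ha⟩ : ∃ a, a = 2 * (k + 16 * 64 * 16 + (1 + 2 * 64 * 16)) := ⟨_, rfl⟩
  obtain ⟨b, hb⟩ : ∃ b, b = 2 * ((2 * k + 2 + 4 * 64 * 16) * (2 * 64 * 16)) := ⟨_, rfl⟩
  refine ⟨a + b, b, fun c => ?_⟩
  have h : CB 64 19 16 c = a + b * (Nat.log 2 c + 1) := by
    unfold CB Ld
    rw [ha, hb, ← hk]
    ring
  rw [h]
  exact le_of_eq (by ring)

private theorem good_XM (K : ℕ) : ∃ A5 A6 : ℕ, ∀ C₂, XM K 73 C₂ 35 ≤ 2 ^ (A5 + A6 * C₂) := by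
  refine ⟨1 + 35 * (K * (2 + K * 75)) + JM K 73 35, 35 * (K * (K * 75 * 35)), fun C₂ => ?_⟩
  have h : XM K 73 C₂ 35 = 2 ^ (1 + 35 * (K * (2 + K3c K 73 C₂ 35)) + JM K 73 35) := by
    unfold XM YM
    rw [pow_add, pow_add, pow_one]
  rw [h]
  refine Nat.pow_le_pow_right (by norm_num) (le_of_eq ?_)
  unfold K3c
  generalize JM K 73 35 = j
  ring

private theorem good_C2N : ∃ A4 A3 : ℕ, ∀ n N, N ≤ n →
    C2N N ≤ A4 + A3 * Nat.log 2 (Nat.log 2 n + 1) := by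
  obtain ⟨A1, hA1, h1⟩ := good_cN
  obtain ⟨A2, A3, h2⟩ := good_CB
  refine ⟨A2 + A3 * (Nat.log 2 A1 + 2), A3, fun n N hN => ?_⟩
  have h3 : Nat.log 2 N + 1 ≤ Nat.log 2 n + 1 := Nat.succ_le_succ (Nat.log_mono_right hN)
  obtain ⟨L, hL⟩ : ∃ L, L = Nat.log 2 n + 1 := ⟨_, rfl⟩
  rw [← hL] at h3 ⊢
  have h4 : cN N < 2 ^ (Nat.log 2 A1 + 2 + Nat.log 2 L) := by
    calc cN N ≤ A1 * (Nat.log 2 N + 1) := h1 N
      _ ≤ A1 * L := Nat.mul_le_mul_left _ h3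
      _ < 2 ^ (Nat.log 2 A1 + 1) * 2 ^ (Nat.log 2 L + 1) := by
          refine Nat.mul_lt_mul'' ?_ ?_
          · exact Nat.lt_pow_succ_log_self one_lt_two A1
          · exact Nat.lt_pow_succ_log_self one_lt_two L
      _ = 2 ^ (Nat.log 2 A1 + 2 + Nat.log 2 L) := by
          rw [← pow_add]
          congr 1
          omega
  have h5 : Nat.log 2 (cN N) ≤ Nat.log 2 A1 + 2 + Nat.log 2 L := by
    rcases Nat.eq_zero_or_pos (cN N) with h0 | h0
    · rw [h0, Nat.log_zero_right]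
      exact Nat.zero_le _
    · exact (Nat.log_lt_of_lt_pow (by omega) h4).le
  calc C2N N ≤ A2 + A3 * Nat.log 2 (cN N) := h2 (cN N)
    _ ≤ A2 + A3 * (Nat.log 2 A1 + 2 + Nat.log 2 L) :=
        Nat.add_le_add_left (Nat.mul_le_mul_left _ h5) _
    _ = A2 + A3 * (Nat.log 2 A1 + 2) + A3 * Nat.log 2 L := by ring

theorem exists_good : ∃ C₀ a₀ : ℕ, 1 ≤ C₀ ∧ 1 ≤ a₀ ∧ ∀ n s : ℕ, 1 ≤ n →
    C₀ * (Nat.log 2 n + 1) ^ a₀ ≤ s → GoodS n s := by
  obtain ⟨A1, hA1, h1⟩ := good_cN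
  obtain ⟨A4, A3, h4⟩ := good_C2N
  obtain ⟨A5, A6, h6⟩ := good_XM KU
  obtain ⟨s1, hs1⟩ := good_big 200
  obtain ⟨A7, hA7⟩ : ∃ A, A = A5 + A6 * A4 := ⟨_, rfl⟩
  obtain ⟨A8, hA8⟩ : ∃ A, A = A6 * A3 := ⟨_, rfl⟩
  obtain ⟨q, hq⟩ : ∃ q, q = cstU := ⟨_, rfl⟩
  obtain ⟨B7, hB7⟩ : ∃ B, B = 2 ^ A7 := ⟨_, rfl⟩
  obtain ⟨C₀, hC₀⟩ : ∃ C, C = q + 225 * A1 + B7 + 5121 + s1 + 2 := ⟨_, rfl⟩
  refine ⟨C₀, A8 + 2, by omega, by omega, fun n s hn hs => ?_⟩
  obtain ⟨L, hL⟩ : ∃ L, L = Nat.log 2 n + 1 := ⟨_, rfl⟩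
  rw [← hL] at hs
  have hL1 : 1 ≤ L := by omega
  have hLa : ∀ e ≤ A8 + 2, L ^ e ≤ L ^ (A8 + 2) := fun e he => Nat.pow_le_pow_right hL1 he
  have key : ∀ c e, c ≤ C₀ → e ≤ A8 + 2 → c * L ^ e ≤ s := fun c e hc he =>
    (Nat.mul_le_mul hc (hLa e he)).trans hs
  have hcst : q ≤ s := by
    have := key q 0 (by omega) (by omega)
    rwa [pow_zero, mul_one] at this
  have hs1' : s1 ≤ s := by
    have := key s1 0 (by omega) (by omega)
    rwa [pow_zero, mul_one] at this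
  have h2L : 2 * L ≤ s := by
    have := key 2 1 (by omega) (by omega)
    rwa [pow_one] at this
  refine ⟨by rw [← hq]; exact hcst, ?_, ?_, ?_, ?_, hn⟩
  · have hn2 : n ≤ 2 ^ L := by
      rw [hL]
      exact (Nat.lt_pow_succ_log_self one_lt_two n).le
    calc n * s ^ 200 ≤ 2 ^ L * 2 ^ (s / 2 - 1) := Nat.mul_le_mul hn2 (hs1 s hs1')
      _ = 2 ^ (L + (s / 2 - 1)) := by rw [pow_add]
      _ ≤ 2 ^ (s - 1) := Nat.pow_le_pow_right (by norm_num) (by omega)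
  · intro N hN
    have h3 : Nat.log 2 N + 1 ≤ L := by
      rw [hL]
      exact Nat.succ_le_succ (Nat.log_mono_right hN)
    calc 225 * cN N ≤ 225 * (A1 * (Nat.log 2 N + 1)) := Nat.mul_le_mul_left _ (h1 N)
      _ ≤ 225 * (A1 * L) := Nat.mul_le_mul_left _ (Nat.mul_le_mul_left _ h3)
      _ = 225 * A1 * L ^ 1 := by ring
      _ ≤ s := key _ 1 (by omega) (by omega)
  · intro N hN
    have h5 := h4 n N hN
    rw [← hL] at h5
    calc XM KU 73 (C2N N) 35 ≤ 2 ^ (A5 + A6 * C2N N) := h6 _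
      _ ≤ 2 ^ (A7 + A8 * Nat.log 2 L) := by
          refine Nat.pow_le_pow_right (by norm_num) ?_
          calc A5 + A6 * C2N N ≤ A5 + A6 * (A4 + A3 * Nat.log 2 L) :=
                Nat.add_le_add_left (Nat.mul_le_mul_left _ h5) _
            _ = A7 + A8 * Nat.log 2 L := by rw [hA7, hA8]; ring
      _ = 2 ^ A7 * (2 ^ Nat.log 2 L) ^ A8 := by
          rw [pow_add, ← pow_mul, mul_comm A8]
      _ ≤ 2 ^ A7 * L ^ A8 := by
          refine Nat.mul_le_mul_left _ (Nat.pow_le_pow_left ?_ _)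
          exact Nat.pow_log_le_self 2 (by omega)
      _ ≤ s := by
          rw [← hB7]
          exact key _ A8 (by omega) (by omega)
  · intro N hN
    have h3 : Nat.log 2 N + 1 ≤ L := by
      rw [hL]
      exact Nat.succ_le_succ (Nat.log_mono_right hN)
    calc 5121 * (Nat.log 2 N + 1) ^ 2 ≤ 5121 * L ^ 2 :=
          Nat.mul_le_mul_left _ (Nat.pow_le_pow_left h3 2)
      _ ≤ s := key _ 2 (by omega) (by omega)

end FrU
end

section

/-!
The induction hypothesis: no rank left.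

PROOF of `kills_zeroM`.  Copy `FrT.kills_zeroT` (T/KillsA.lean).  Let `kk = T + ℓ`.  From `CDcds S Ls T ℓ` one gets
`S.Dcds kk`: for `f` in the class there is `A ∈ Ls` with `f ∈ A.subs`, and `dec_bind` joins the tree of the line
with the tree of `f` (the leaves of the first give trees for all its subformulas).  The other facts:
`4 kk ≤ ρ kk ≤ cap`, `r kk ≤ ρ kk ≤ cap`; the class `{f | (∃ A ∈ Ls, f ∈ A.subs) ∧ lev B f ≤ i0}` is closed under
subformulas (`Fm.subs_trans`, `FrG.lev_subs`) and contains the lines (`Fm.self_mem_subs`).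
-/

set_option linter.unusedSectionVars false

namespace FrU

open Finset Fr56 FrC FrG FrT
open scoped Classical

theorem kills_zeroM {V E : Type} [Fintype E] [DecidableEq V] {G : Gph V E} (Fr : Frame G)
    (v0 : V) (h0 : Fr.Free ∅ v0) (T ℓ ρ r k t : ℕ) (hr : r ≤ ρ) (hρ : 4 ≤ ρ) :
    KillsM Fr v0 0 T ℓ ρ r k t := by
  intro X B Ls i0 cap S hB _ _ hkk hcapm hCD R hR hRC Ax hAx b hb hbC τ π hπ hlast hall
  have hC4 : 4 * (T + ℓ) ≤ cap := (Nat.mul_le_mul_right (T + ℓ) hρ).trans hkk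
  have hCr : r * (T + ℓ) ≤ cap := (Nat.mul_le_mul_right (T + ℓ) hr).trans hkk
  have hcl : ∀ F : Fm X, (∃ A ∈ Ls, F ∈ A.subs) → ∀ f ∈ F.subs, ∃ A ∈ Ls, f ∈ A.subs := by
    rintro F ⟨A, hA, hF⟩ f hf
    exact ⟨A, hA, Fm.subs_trans hf hF⟩
  have hLs : ∀ F ∈ Ls, ∃ A ∈ Ls, F ∈ A.subs := fun F hF => ⟨F, hF, Fm.self_mem_subs _⟩
  have hD : S.Dcds (T + ℓ) := by
    rintro f ⟨⟨A, hA, hfA⟩, hlev⟩ y hy
    exact dec_bind (hCD A hA y hy) hy fun _ _ _ _ _ _ _ hq => hq f hfA ⟨⟨A, hA, hfA⟩, hlev⟩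
  have key : ∀ F : Fm X, AndOf (fun f => lev B f ≤ i0 ∧ S.True' (T + ℓ) f) F →
      (∃ A ∈ Ls, F ∈ A.subs) → lev B F ≤ i0 → S.True' (T + ℓ) F := by
    intro F hF
    induction hF with
    | base f h => exact fun _ _ => h.2
    | and f g _ _ ihf ihg =>
      intro h1 h2
      have m1 : f ∈ (Fm.and f g).subs := by
        simp only [Fm.subs, List.mem_cons, List.mem_append]
        exact Or.inr (Or.inl (Fm.self_mem_subs _))
      have m2 : g ∈ (Fm.and f g).subs := by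
        simp only [Fm.subs, List.mem_cons, List.mem_append]
        exact Or.inr (Or.inr (Fm.self_mem_subs _))
      have l1 := (lev_subs hB _ _ m1).trans h2
      have l2 := (lev_subs hB _ _ m2).trans h2
      exact S.and_true hcapm h0 (T + ℓ) hD hC4 f g ⟨hcl _ h1 _ m1, l1⟩ ⟨hcl _ h1 _ m2, l2⟩
        ⟨h1, h2⟩ (ihf (hcl _ h1 _ m1) l1) (ihg (hcl _ h1 _ m2) l2)
  exact valn_no_refutation S hcapm h0 (T + ℓ) r hD hCr R hR hRC Ax b hb hbC τ π
    (fun F h1 h2 => key F (hAx F h1 (hall F h2).1) (hLs F (hall F h2).1) (hall F h2).2) hπ hlast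
    (fun A hA C hC => ⟨hcl A (hLs A (hall A hA).1) C hC, (lev_subs hB C A hC).trans (hall A hA).2⟩)

end FrU
end

section

/-!
The induction hypothesis: the switching step with jumps.

PROOF of `kills_succM`.  Compare `FrT.kills_succT` (T/KillsA.lean).  Let the data of `KillsM` for the blow-up be
given, `Φ' = {f | (∃ A ∈ Ls, f ∈ A.subs) ∧ lev B f ≤ i0}`, `Φ` the same with `i0 + 1`; `3 (T' + ℓ') ≤ cap'`.
`exists_Ps` (with `k = ℓ'`, `k₀ = k`) gives `Ps`, `|Ps| ≤ 2^t ((|HV| + 1)^T' 2^(2 (Δ + 2) T')) ≤ 2^Bn`.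
`exists_noLongM` with `R' = R + ℓ₀ + (Δ + 2) ℓ'` gives `α`, `a`.  The hypothesis `hno` of `switch_logicM`: for
`A ∈ Ls`, `W`, `p` let `r ∈ Ps` be the pair of `exists_Ps`; the sequence has its values in `r.2`.
`NewCls Φ' Φ`: `FrG.newCls hB Fs hcl i0` with `Fs = Ls.biUnion (fun A => A.subs.toFinset)` (the classes are equal
as sets: `Set.ext`; closed under subformulas by `Fm.subs_trans`).  `switch_logicM` with `cap = ρ (T + ℓ)` gives
`S`, `CDcds S Ls T ℓ`.  Apply `hkill` with `i0 + 1`; the axioms: `AndOf.mono`, `f ∈ F.subs`, `F ∈ Ls`, so `f ∈ Φ'`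
and `S.True' (T + ℓ) f` by the last part of `switch_logicM` with `w = T + ℓ`
(`T + ℓ + 2 (T' + ℓ') ≤ ρ (T + ℓ) + (2 Δ + 10) (T' + ℓ') ≤ Fr.m`, as `1 ≤ ρ`).
-/

set_option linter.unusedSectionVars false

namespace FrU

open Finset Fr56 FrC FrG FrT
open scoped Classical

section
variable {V E : Type} [Fintype V] [Fintype E] [DecidableEq V] [DecidableEq E]
  {G : Gph V E} (Fr : Frame G) (v0 : V)

/-- **the switching step with jumps** -/
theorem kills_succM {Q K C₁ C₂ m : ℕ} (De : DetM G Q K C₁ C₂ m) (SF : SFrame Fr)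
    {j T ℓ T' ℓ' ρ r k t D Δ R b ℓ₀ μ μj Bn : ℕ} (hkill : KillsM Fr v0 j T ℓ ρ r k t)
    (hl : G.NoLoop) (hdeg : G.Deg Δ) (hQ0 : 0 < Q) (hD : 0 < D) (w0 : FrC.A D) (hR : 0 < R)
    (hρ : 1 ≤ ρ) (hℓ' : 1 ≤ ℓ') (hW : WM K C₁ C₂ Δ ℓ' ≤ 2 ^ D) (hb : 0 < b) (hℓ₀ : 0 < ℓ₀)
    (hμ : R + ℓ₀ + (Δ + 2) * ℓ' ≤ b * μ) (hμj : R + ℓ₀ + (Δ + 2) * ℓ' ≤ ℓ₀ * μj)
    (hm : 2 * ((Δ + 2) * T') + K3c K C₁ C₂ Δ * (R + ℓ₀ + (Δ + 2) * ℓ') ≤ m)
    (hm' : (2 + C₁) * (R + ℓ₀ + (Δ + 2) * ℓ') ≤ m)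
    (hmF : K * (2 * ((Δ + 2) * T') + K3c K C₁ C₂ Δ * (R + ℓ₀ + (Δ + 2) * ℓ')) +
      2 * (1 + Δ) * (T' + b * ℓ') ≤ Fr.m)
    (hmF' : K * (2 * ((Δ + 2) * T') + K3c K C₁ C₂ Δ * (R + ℓ₀ + (Δ + 2) * ℓ')) +
      K * ((2 + C₁) * (ℓ₀ + (Δ + 2) * ℓ')) + (2 * (Δ + 2) + 2) * (2 * (T' + ℓ')) ≤ Fr.m)
    (hBn : 2 ^ t * ((Fintype.card (HV (TV V Q) (TE V E Q) D) + 1) ^ T' *
      2 ^ (2 * (Δ + 2) * T')) ≤ 2 ^ Bn)
    (hcard : 2 ^ Bn * (2 ^ k) ^ μj * (2 * Fintype.card V) *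
      ((SF.Γ.card + 1) * Fintype.card V) ^ μ * 2 ^ T' < 2 ^ R)
    (hT : 2 * (Δ + 2) * T' +
      K * (2 * ((Δ + 2) * T') + K3c K C₁ C₂ Δ * (R + ℓ₀ + (Δ + 2) * ℓ')) ≤ T)
    (hℓ : K * ((2 + C₁) * ℓ₀) ≤ ℓ)
    (hcap : ρ * (T + ℓ) + (2 * Δ + 10) * (T' + ℓ') ≤ Fr.m) :
    KillsM (Fr.blow Q D hQ0 hD) (HV.cen (v0, 0) w0) (j + 1) T' ℓ' 3 r k t := by
  intro X B Ls i0 cap' S' hB hLs hk hρcap hcapm hD' R₀ hR₀ hRr Ax hAx bu hbu hbr τ π hπ hlast hall
  obtain ⟨Fs, hFs⟩ : ∃ Fs : Finset (Fm X), Fs = Ls.biUnion fun A => A.subs.toFinset := ⟨_, rfl⟩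
  have hmem : ∀ f, f ∈ Fs ↔ ∃ A ∈ Ls, f ∈ A.subs := by
    intro f
    rw [hFs, Finset.mem_biUnion]
    simp only [List.mem_toFinset]
  have hcls : ∀ i, {f | (∃ A ∈ Ls, f ∈ A.subs) ∧ lev B f ≤ i} = {f | f ∈ Fs ∧ lev B f ≤ i} := by
    intro i
    ext f
    simp only [Set.mem_ofPred_eq, hmem]
  have hcl : ∀ f ∈ Fs, ∀ g ∈ f.subs, g ∈ Fs := by
    intro f hf g hg
    rw [hmem] at hf ⊢
    obtain ⟨A, hA, hfA⟩ := hf
    exact ⟨A, hA, Fm.subs_trans hg hfA⟩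
  have hΦ : NewCls {f | (∃ A ∈ Ls, f ∈ A.subs) ∧ lev B f ≤ i0}
      {f | (∃ A ∈ Ls, f ∈ A.subs) ∧ lev B f ≤ i0 + 1} := by
    rw [hcls, hcls]
    exact newCls hB Fs hcl i0
  obtain ⟨Ps, hPc, hP1, hP2⟩ := exists_Ps S' hl hdeg Ls T' ℓ' k hk
  have hPB : Ps.card ≤ 2 ^ Bn := hPc.trans ((Nat.mul_le_mul_right _ hLs).trans hBn)
  obtain ⟨α, a, hα, hno⟩ := exists_noLongM Fr v0 De SF hl hD hQ0 hdeg k ℓ' T' Bn R
    (R + ℓ₀ + (Δ + 2) * ℓ') b ℓ₀ μ μj w0 Ps hP1 hℓ' hW hb hℓ₀ hμ hμj hm hm' hmF hPB hcard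
  obtain ⟨S, hSD, hST⟩ := switch_logicM S' hα De hΦ (Ls := Ls) (Δ := Δ) (k := ℓ') (T' := T')
    (ℓ₀ := ℓ₀) (R := R) (T := T) (ℓ := ℓ) (cap := ρ * (T + ℓ)) hdeg hρcap hℓ₀ hR
    (by
      intro A hA W hWc p 𝒞 h𝒞
      obtain ⟨q, hq, hqW, hqf⟩ := hP2 A hA W hWc p
      rw [← hqW]
      refine hno q hq 𝒞 fun jj => ?_
      obtain ⟨f, hf, hfe⟩ := h𝒞 jj
      rw [hfe]
      exact hqf f hf)
    hD' hm hm' hmF' hT hℓ hcap
  have h1 : T + ℓ ≤ ρ * (T + ℓ) := Nat.le_mul_of_pos_left _ (by omega)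
  have h2 : 2 * (T' + ℓ') ≤ (2 * Δ + 10) * (T' + ℓ') := Nat.mul_le_mul_right _ (by omega)
  refine hkill X B Ls (i0 + 1) (ρ * (T + ℓ)) S hB hLs hk le_rfl (by omega) hSD R₀ hR₀ hRr Ax
    (fun F hF hFs => ?_) bu hbu hbr τ π hπ hlast ?_
  · refine (hAx F hF hFs).mono fun f hf h => ?_
    obtain ⟨h3, h4⟩ := h
    exact ⟨by omega, hST f ⟨⟨F, hFs, hf⟩, h3⟩ (T + ℓ) (by omega) h4⟩
  · intro A hA
    obtain ⟨h3, h4⟩ := hall A hA
    exact ⟨h3, by omega⟩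

end

end FrU
end

section

/-!
The switching step with concrete parameters.

PROOF of `step_M`.  `kills_succM` with `Q = s`, `K = KU`, `C₁ = 73`, `Δ = 35`, `ρ = s`, `r = s`, `T = s^6 u`, `ℓ = s k`,
`R = s^3 u`, `b = s^2`, `μ = 2 s u`, `ℓ₀ = 16 k`, `μj = s^3 u / (8 k) + 1`, `Bn = t + T' (s + 74)`.
Facts: `185 * 5^74 ≤ s`, `10^5 KU ≤ s` (and `1 ≤ KU`; treat `KU` as a symbol, `obtain` it), `K3c KU 73 C₂ 35 ≤ XM .. ≤ s`
(`x ≤ 2^x`, `K3c ≤ 35 (KU (2 + K3c))`), `1 ≤ k ≤ t ≤ u`, `T' ≤ u`, `ℓ' ≤ s u`.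
`R' = R + 16 k + 37 ℓ' ≤ s^3 u + 16 u + 37 s u ≤ 2 s^3 u`.
* `hW`: `WM = 5 ((1 + 4 XM)^74 (37 ℓ')) ≤ 185 (5 s)^74 ℓ' = 185 * 5^74 s^74 ℓ' ≤ s^75 ℓ' ≤ 2^D`.
* `hμ`: `R' ≤ 2 s^3 u = s^2 (2 s u)`.  `hμj`: `16 k (s^3 u / (8 k) + 1) ≥ 2 s^3 u` (`Nat.lt_div_mul_add` or
  `Nat.div_add_mod`: `8 k (x / (8 k) + 1) > x`).
* `hm`: `74 T' + s * 2 s^3 u ≤ s^5 u`, `hm'`: `75 * 2 s^3 u ≤ s^5 u`, `hmF`: `KU (74 u + 2 s^4 u) + 72 (u + s^2 s u) ≤ s^7 u`,
  `hmF'`: similar.  All `≤ s^8 u ≤ Fr.m`.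
* `hBn`: `(|HV| + 1)^T' ≤ 2^(s T')`, exponents add up.
* `hcard`: `|V| ≤ |HV| ≤ 2^s` (the vertices `cen (v, 0) 0`, or `FrC.card_HV`, `FrC.card_TV`),
  `(2^k)^μj = 2^(k μj)`, `k μj ≤ s^3 u / 8 + k` (`k (x / (8 k)) ≤ x / 8`: `8 k (x / (8 k)) ≤ x`),
  `((|Γ| + 1) |V|)^μ ≤ 2^(2 s * 2 s u)`.  The exponents: `t + T' (s + 74) + s^3 u / 8 + k + (1 + s) + 4 s^2 u + T' < s^3 u`.
* `hT`: `74 T' + KU (74 T' + s * 2 s^3 u) ≤ s^6 u`.  `hℓ`: `KU (75 * 16 k) ≤ s k`.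
* `hcap`: `s (s^6 u + s k) + 80 (T' + ℓ') ≤ s^8 u`.

PROOF of `blow_cardM`: as `FrT.blow_card_le` (T/TowersT.lean) with `Δ = 35`, keeping `2^D`.
PROOF of `exists_DM`: `D = Nat.log 2 x + 1`.
-/

set_option linter.unusedSectionVars false

namespace FrU

open Finset Fr56 FrC FrG FrT
open scoped Classical

section
variable {V E : Type} [Fintype V] [Fintype E] [DecidableEq V] [DecidableEq E]

private theorem le_two_pow_aux (x y j : ℕ) (h : x ≤ y) : x ≤ 2 * 2 ^ y * 2 ^ j := by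
  have h2 : x ≤ 2 ^ y := le_trans h Nat.lt_two_pow_self.le
  have h3 : 1 ≤ 2 ^ j := Nat.one_le_two_pow
  calc x ≤ 2 ^ y := h2
    _ ≤ 2 * 2 ^ y := by omega
    _ ≤ _ := Nat.le_mul_of_pos_right _ h3

private theorem K3c_le_XM (K C₁ C₂ : ℕ) (hK : 1 ≤ K) : K3c K C₁ C₂ 35 ≤ XM K C₁ C₂ 35 := by
  unfold XM YM
  refine le_two_pow_aux _ _ _ ?_
  obtain ⟨x, hx⟩ : ∃ x, x = K3c K C₁ C₂ 35 := ⟨_, rfl⟩
  rw [← hx]
  have h2 : 2 + x ≤ K * (2 + x) := Nat.le_mul_of_pos_left _ hK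
  omega

private theorem card_V_le_HV (s D : ℕ) :
    Fintype.card V ≤ Fintype.card (HV (TV V s) (TE V E s) D) := by
  rw [card_HV, card_TV]
  calc Fintype.card V = Fintype.card V * 1 * 1 := by ring
    _ ≤ Fintype.card V * (s + 1) * 2 ^ D :=
        Nat.mul_le_mul (Nat.mul_le_mul_left _ (by omega)) Nat.one_le_two_pow
    _ ≤ _ := Nat.le_add_right _ _

private theorem step_aux {G : Gph V E} (Fr : Frame G) (v0 : V) (SF : SFrame Fr)
    {K C₂ s k t u T' ℓ' j D : ℕ} (De : DetM G s K 73 C₂ Fr.m) (hl : G.NoLoop) (hdeg : G.Deg 35)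
    (hkill : KillsM Fr v0 j (s ^ 6 * u) (s * k) s s k t) (hK1 : 1 ≤ K)
    (hs2 : 185 * 5 ^ 74 + 10 ^ 5 * K ≤ s)
    (hX : XM K 73 C₂ 35 ≤ s) (hk : 1 ≤ k) (hkt : k ≤ t) (htu : t ≤ u) (hT' : T' ≤ u)
    (hℓ1 : 1 ≤ ℓ') (hℓ' : ℓ' ≤ s * u)
    (hV : Fintype.card (HV (TV V s) (TE V E s) D) + 1 ≤ 2 ^ s) (hΓ : SF.Γ.card + 1 ≤ 2 ^ s)
    (hm : s ^ 8 * u ≤ Fr.m) (hQ : 0 < s) (hD : 0 < D) (hD2 : s ^ 75 * ℓ' ≤ 2 ^ D) :
    KillsM (Fr.blow s D hQ hD) (HV.cen (v0, 0) 0) (j + 1) T' ℓ' 3 s k t := by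
  obtain ⟨cc, hcc⟩ : ∃ cc : ℕ, cc = 5 ^ 74 := ⟨_, rfl⟩
  have hcs : 185 * cc ≤ s := by rw [hcc]; omega
  have hKs : 100000 * K ≤ s := by
    have h0 : (10 : ℕ) ^ 5 = 100000 := by norm_num
    rw [h0] at hs2
    omega
  have hs5 : 100000 ≤ s := by omega
  have hKs1 : K ≤ s := by omega
  have hK3 : K3c K 73 C₂ 35 ≤ s := le_trans (K3c_le_XM K 73 C₂ hK1) hX
  -- monomials
  obtain ⟨p1, hp1⟩ : ∃ p, p = s * u := ⟨_, rfl⟩
  obtain ⟨p2, hp2⟩ : ∃ p, p = s * p1 := ⟨_, rfl⟩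
  obtain ⟨p3, hp3⟩ : ∃ p, p = s * p2 := ⟨_, rfl⟩
  obtain ⟨p4, hp4⟩ : ∃ p, p = s * p3 := ⟨_, rfl⟩
  obtain ⟨p5, hp5⟩ : ∃ p, p = s * p4 := ⟨_, rfl⟩
  obtain ⟨p6, hp6⟩ : ∃ p, p = s * p5 := ⟨_, rfl⟩
  obtain ⟨p7, hp7⟩ : ∃ p, p = s * p6 := ⟨_, rfl⟩
  obtain ⟨p8, hp8⟩ : ∃ p, p = s * p7 := ⟨_, rfl⟩
  have e3 : s ^ 3 * u = p3 := by rw [hp3, hp2, hp1]; ring
  have e2 : s ^ 2 * (2 * s * u) = 2 * p3 := by rw [hp3, hp2, hp1]; ring
  have e6 : s ^ 6 * u = p6 := by rw [hp6, hp5, hp4, hp3, hp2, hp1]; ring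
  have e8 : s ^ 8 * u = p8 := by rw [hp8, hp7, hp6, hp5, hp4, hp3, hp2, hp1]; ring
  have l1 : 100000 * u ≤ p1 := by rw [hp1]; exact Nat.mul_le_mul_right _ hs5
  have l2 : 100000 * p1 ≤ p2 := by rw [hp2]; exact Nat.mul_le_mul_right _ hs5
  have l3 : 100000 * p2 ≤ p3 := by rw [hp3]; exact Nat.mul_le_mul_right _ hs5
  have l4 : 100000 * p3 ≤ p4 := by rw [hp4]; exact Nat.mul_le_mul_right _ hs5
  have l5 : 100000 * p4 ≤ p5 := by rw [hp5]; exact Nat.mul_le_mul_right _ hs5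
  have l6 : 100000 * p5 ≤ p6 := by rw [hp6]; exact Nat.mul_le_mul_right _ hs5
  have l7 : 100000 * p6 ≤ p7 := by rw [hp7]; exact Nat.mul_le_mul_right _ hs5
  have l8 : 100000 * p7 ≤ p8 := by rw [hp8]; exact Nat.mul_le_mul_right _ hs5
  rw [e8] at hm
  rw [e6] at hkill
  rw [← hp1] at hℓ'
  have hu1 : 1 ≤ u := by omega
  -- `R'`
  obtain ⟨R', hR'⟩ : ∃ R', R' = p3 + 16 * k + (35 + 2) * ℓ' := ⟨_, rfl⟩
  have hR'2 : R' ≤ 2 * p3 := by omega
  have hKR : K3c K 73 C₂ 35 * R' ≤ 2 * p4 := by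
    calc K3c K 73 C₂ 35 * R' ≤ s * (2 * p3) := Nat.mul_le_mul hK3 hR'2
      _ = 2 * p4 := by rw [hp4]; ring
  obtain ⟨Y, hY⟩ : ∃ Y, Y = 2 * ((35 + 2) * T') + K3c K 73 C₂ 35 * R' := ⟨_, rfl⟩
  have hY2 : Y ≤ 74 * u + 2 * p4 := by omega
  have hKY : K * Y ≤ 74 * p1 + 2 * p5 := by
    calc K * Y ≤ s * (74 * u + 2 * p4) := Nat.mul_le_mul hKs1 hY2
      _ = 74 * p1 + 2 * p5 := by rw [hp5, hp1]; ring
  have hks : k ≤ s * k := Nat.le_mul_of_pos_left _ (by omega)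
  have hsk : s * k ≤ p1 := by rw [hp1]; exact Nat.mul_le_mul_left _ (by omega)
  refine kills_succM Fr v0 De SF (R := p3) (b := s ^ 2) (ℓ₀ := 16 * k) (μ := 2 * s * u)
    (μj := p3 / (8 * k) + 1) (Bn := t + T' * (s + 74)) hkill hl hdeg hQ hD 0 (by omega) (by omega)
    hℓ1 ?_ (Nat.pow_pos (by omega)) (by omega) ?_ ?_ ?_ ?_ ?_ ?_ ?_ ?_ ?_ ?_ ?_
  · -- hW
    refine le_trans ?_ hD2
    unfold WM
    obtain ⟨x, hx⟩ : ∃ x, x = XM K 73 C₂ 35 := ⟨_, rfl⟩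
    rw [← hx] at hX ⊢
    have h74 : 2 * (35 + 2) = 74 := by norm_num
    rw [h74]
    have h1 : (1 + 4 * x) ^ 74 ≤ cc * s ^ 74 := by
      calc (1 + 4 * x) ^ 74 ≤ (5 * s) ^ 74 := Nat.pow_le_pow_left (by omega) _
        _ = 5 ^ 74 * s ^ 74 := mul_pow _ _ _
        _ = cc * s ^ 74 := by rw [← hcc]
    obtain ⟨q, hq⟩ : ∃ q, q = s ^ 74 := ⟨_, rfl⟩
    have h75 : s ^ 75 = s * q := by rw [hq, pow_succ, mul_comm]
    rw [← hq] at h1
    rw [h75]
    calc 5 * ((1 + 4 * x) ^ 74 * ((35 + 2) * ℓ')) ≤ 5 * ((cc * q) * ((35 + 2) * ℓ')) := by gcongr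
      _ = (185 * cc) * (q * ℓ') := by ring
      _ ≤ s * (q * ℓ') := Nat.mul_le_mul_right _ hcs
      _ = s * q * ℓ' := by ring
  · -- hμ
    rw [e2, ← hR']
    exact hR'2
  · -- hμj
    rw [← hR']
    refine le_trans hR'2 ?_
    have h1 : p3 < 8 * k * (p3 / (8 * k) + 1) := Nat.lt_mul_div_succ _ (by omega)
    have h2 : 16 * k * (p3 / (8 * k) + 1) = 2 * (8 * k * (p3 / (8 * k) + 1)) := by ring
    rw [h2]
    omega
  · -- hm
    rw [← hR', ← hY]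
    omega
  · -- hm'
    rw [← hR']
    omega
  · -- hmF
    rw [← hR', ← hY]
    have h1 : s ^ 2 * ℓ' ≤ p3 := by
      calc s ^ 2 * ℓ' ≤ s ^ 2 * p1 := Nat.mul_le_mul_left _ hℓ'
        _ = p3 := by rw [hp3, hp2]; ring
    omega
  · -- hmF'
    rw [← hR', ← hY]
    have h1 : K * ((2 + 73) * (16 * k + (35 + 2) * ℓ')) ≤ 1200 * p1 + 2775 * p2 := by
      calc K * ((2 + 73) * (16 * k + (35 + 2) * ℓ'))
          ≤ s * ((2 + 73) * (16 * u + (35 + 2) * p1)) := by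
            gcongr
            omega
        _ = 1200 * p1 + 2775 * p2 := by rw [hp2, hp1]; ring
    omega
  · -- hBn
    have h1 : (Fintype.card (HV (TV V s) (TE V E s) D) + 1) ^ T' ≤ 2 ^ (s * T') := by
      rw [pow_mul]
      exact Nat.pow_le_pow_left hV _
    calc 2 ^ t * ((Fintype.card (HV (TV V s) (TE V E s) D) + 1) ^ T' * 2 ^ (2 * (35 + 2) * T'))
        ≤ 2 ^ t * (2 ^ (s * T') * 2 ^ (2 * (35 + 2) * T')) :=
          Nat.mul_le_mul_left _ (Nat.mul_le_mul_right _ h1)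
      _ = 2 ^ (t + T' * (s + 74)) := by
          rw [← pow_add, ← pow_add]
          congr 1
          ring
      _ ≤ _ := le_rfl
  · -- hcard
    have hVs : Fintype.card V ≤ 2 ^ s := by
      have h1 := card_V_le_HV (V := V) (E := E) s D
      omega
    have h1 : (SF.Γ.card + 1) * Fintype.card V ≤ 2 ^ (2 * s) := by
      calc (SF.Γ.card + 1) * Fintype.card V ≤ 2 ^ s * 2 ^ s := Nat.mul_le_mul hΓ hVs
        _ = 2 ^ (2 * s) := by rw [← pow_add]; congr 1; ring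
    have h2 : ((SF.Γ.card + 1) * Fintype.card V) ^ (2 * s * u) ≤ 2 ^ (4 * p2) := by
      calc ((SF.Γ.card + 1) * Fintype.card V) ^ (2 * s * u) ≤ (2 ^ (2 * s)) ^ (2 * s * u) :=
            Nat.pow_le_pow_left h1 _
        _ = 2 ^ (4 * p2) := by
            rw [← pow_mul]
            congr 1
            rw [hp2, hp1]
            ring
    have h3 : 2 * Fintype.card V ≤ 2 ^ (s + 1) := by
      rw [pow_succ]
      omega
    have h4 : (2 ^ k) ^ (p3 / (8 * k) + 1) = 2 ^ (k * (p3 / (8 * k) + 1)) := by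
      rw [← pow_mul]
    have h5 : 8 * (k * (p3 / (8 * k) + 1)) ≤ p3 + 8 * k := by
      have h6 : 8 * k * (p3 / (8 * k)) ≤ p3 := Nat.mul_div_le _ _
      calc 8 * (k * (p3 / (8 * k) + 1)) = 8 * k * (p3 / (8 * k)) + 8 * k := by ring
        _ ≤ p3 + 8 * k := Nat.add_le_add_right h6 _
    have h7 : T' * (s + 74) ≤ p1 + 74 * u := by
      calc T' * (s + 74) ≤ u * (s + 74) := Nat.mul_le_mul_right _ hT'
        _ = p1 + 74 * u := by rw [hp1]; ring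
    have h8 : s ≤ p1 := by
      rw [hp1]
      exact Nat.le_mul_of_pos_right _ hu1
    obtain ⟨z, hz⟩ : ∃ z, z = k * (p3 / (8 * k) + 1) := ⟨_, rfl⟩
    rw [h4, ← hz]
    rw [← hz] at h5
    calc 2 ^ (t + T' * (s + 74)) * 2 ^ z * (2 * Fintype.card V) *
          ((SF.Γ.card + 1) * Fintype.card V) ^ (2 * s * u) * 2 ^ T'
        ≤ 2 ^ (t + T' * (s + 74)) * 2 ^ z * 2 ^ (s + 1) * 2 ^ (4 * p2) * 2 ^ T' := by gcongr
      _ = 2 ^ (t + T' * (s + 74) + z + (s + 1) + 4 * p2 + T') := by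
          rw [← pow_add, ← pow_add, ← pow_add, ← pow_add]
      _ < 2 ^ p3 := by
          apply Nat.pow_lt_pow_right (by norm_num)
          omega
  · -- hT
    rw [← hR', ← hY]
    omega
  · -- hℓ
    calc K * ((2 + 73) * (16 * k)) = (1200 * K) * k := by ring
      _ ≤ s * k := Nat.mul_le_mul_right _ (by omega)
  · -- hcap
    have h1 : s * (p6 + s * k) ≤ p7 + p2 := by
      calc s * (p6 + s * k) ≤ s * (p6 + p1) := by gcongr
        _ = p7 + p2 := by rw [hp7, hp2]; ring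
    omega

/-- **the switching step with concrete parameters** -/
theorem step_M {G : Gph V E} (Fr : Frame G) (v0 : V) (SF : SFrame Fr)
    {C₂ s k t u T' ℓ' j D : ℕ} (De : DetM G s KU 73 C₂ Fr.m) (hl : G.NoLoop) (hdeg : G.Deg 35)
    (hkill : KillsM Fr v0 j (s ^ 6 * u) (s * k) s s k t) (hs : cstU ≤ s)
    (hX : XM KU 73 C₂ 35 ≤ s) (hk : 1 ≤ k) (hkt : k ≤ t) (htu : t ≤ u) (hT' : T' ≤ u)
    (hℓ1 : 1 ≤ ℓ') (hℓ' : ℓ' ≤ s * u)
    (hV : Fintype.card (HV (TV V s) (TE V E s) D) + 1 ≤ 2 ^ s) (hΓ : SF.Γ.card + 1 ≤ 2 ^ s)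
    (hm : s ^ 8 * u ≤ Fr.m) (hQ : 0 < s) (hD : 0 < D) (hD2 : s ^ 75 * ℓ' ≤ 2 ^ D) :
    KillsM (Fr.blow s D hQ hD) (HV.cen (v0, 0) 0) (j + 1) T' ℓ' 3 s k t := by
  have hK1 : 1 ≤ KU := by unfold KU; norm_num
  exact step_aux Fr v0 SF De hl hdeg hkill hK1 hs hX hk hkt htu hT' hℓ1 hℓ' hV hΓ hm hQ hD hD2

theorem blow_cardM {G : Gph V E} {s D : ℕ} (h : G.Deg 35) (hs : 45 ≤ s) (hD : D ≤ s) :
    Fintype.card (HV (TV V s) (TE V E s) D) ≤ Fintype.card V * s ^ 3 * 2 ^ D := by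
  have hTE : Fintype.card (TE V E s) = Fintype.card E * (s + 1) + Fintype.card V * s := by
    simp [TE]
  rw [card_HV, card_TV, hTE]
  have hE := card_E_le h
  obtain ⟨v, hv⟩ : ∃ v, v = Fintype.card V := ⟨_, rfl⟩
  rw [← hv] at hE ⊢
  have h1 : Fintype.card E * (s + 1) + v * s ≤ v * (35 * (s + 1) + s) := by
    calc Fintype.card E * (s + 1) + v * s ≤ (35 * v) * (s + 1) + v * s := by gcongr
      _ = v * (35 * (s + 1) + s) := by ring
  have h2 : (s + 1) + (35 * (s + 1) + s) * s ≤ s ^ 3 := by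
    obtain ⟨t, rfl⟩ : ∃ t, s = 45 + t := ⟨s - 45, by omega⟩
    nlinarith [Nat.zero_le t, Nat.zero_le (t * t), Nat.zero_le (t * t * t)]
  calc v * (s + 1) * 2 ^ D + (Fintype.card E * (s + 1) + v * s) * (D * 2 ^ D)
      ≤ v * (s + 1) * 2 ^ D + (v * (35 * (s + 1) + s)) * (s * 2 ^ D) := by gcongr
    _ = v * 2 ^ D * ((s + 1) + (35 * (s + 1) + s) * s) := by ring
    _ ≤ v * 2 ^ D * s ^ 3 := by gcongr
    _ = v * s ^ 3 * 2 ^ D := by ring

theorem exists_DM {x s : ℕ} (hx : 1 ≤ x) (h : x ≤ 2 ^ (s - 1)) (hs : 1 ≤ s) :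
    ∃ D, 0 < D ∧ D ≤ s ∧ x ≤ 2 ^ D ∧ 2 ^ D ≤ 2 * x := by
  refine ⟨Nat.log 2 x + 1, by omega, ?_, ?_, ?_⟩
  · have h1 : 2 ^ Nat.log 2 x ≤ 2 ^ (s - 1) := (Nat.pow_log_le_self 2 (by omega)).trans h
    have h2 : Nat.log 2 x ≤ s - 1 := (Nat.pow_le_pow_iff_right (by norm_num)).1 h1
    omega
  · exact (Nat.lt_pow_succ_log_self (by norm_num) _).le
  · rw [pow_succ, mul_comm]
    exact Nat.mul_le_mul_left _ (Nat.pow_log_le_self 2 (by omega))

end

end FrU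
end

section

/-!
Graphs for the iterated switching step (with common trees).

`exists_prodM` (used in both cases): let `P` be a graph on `N = |V|` vertices, `Deg 19`, `Expd 16`, no loops.  Let
`Λ = Fin (cN N)` (`0 < cN N`), `Y` an expander on `Λ` (`FrT.exists_expander`), `l0` an element of `Λ`.  Then
`exists_detM` gives the structure `DetM (prodG P Y) s KU 73 (C2N N) m`; `noLoop_prod`, `deg_prod`
(`19 + 16 = 35`); the embedding is `embProd P Y l0`.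

PROOF of `lvl_zeroM`.  As `FrT.lvl_zero` (T/TowersT.lean).  Let `N = s^3 T`, `m0 = s^2 T`, `X` an expander on
`Fin N` (`Deg 16`, `Expd 16`), `Cl` from `exists_clo` (as there; `4096 m0 ≤ N`), frame `cloFrame`, special frame
`cloSFrame`.  `N ≤ n` as `s^3 T ≤ T s^88 ≤ n`.  `Deg 16` implies `Deg 19`.  `exists_prodM` with `m = m0`
(`77824 m0 ≤ N`, `C2N N ≤ XM .. ≤ s`: `C₂ ≤ K3c ≤ XM`).  The level consists of `prodG X Y`, `embFrame`, `embSFrame`,
`v0 = (0, l0)`.  `|V × Λ| = N cN N ≤ s^3 T * s ≤ T s^88`; `Γ` as in `lvl_zero` (`hg.log`, image);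
`77824 m0 ≤ N ≤ N cN N`; `KillsM .. 0 T (s k) s s k t` by `kills_zeroM`; `Free ∅`: `Finset.image_empty`, `Cl.empty`.
-/

set_option linter.unusedSectionVars false

namespace FrU

open Finset Fr56 FrC FrG FrT
open scoped Classical

private theorem cN_pos (N : ℕ) : 0 < cN N := by
  unfold cN Kd
  refine Nat.mul_pos ?_ (by norm_num)
  omega

private theorem le_XM (K C₁ C₂ : ℕ) (hK : 1 ≤ K) : C₂ ≤ XM K C₁ C₂ 35 := by
  have h1 : C₂ ≤ K3c K C₁ C₂ 35 := by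
    unfold K3c
    calc C₂ ≤ 1 * (1 + C₂ * 35) := by omega
      _ ≤ K * (2 + C₁) * (1 + C₂ * 35) := by
          refine Nat.mul_le_mul_right _ ?_
          exact Nat.mul_pos hK (by omega)
  have h2 : K3c K C₁ C₂ 35 ≤ 35 * (K * (2 + K3c K C₁ C₂ 35)) := by
    obtain ⟨x, hx⟩ : ∃ x, x = K3c K C₁ C₂ 35 := ⟨_, rfl⟩
    rw [← hx]
    have h2 : 2 + x ≤ K * (2 + x) := Nat.le_mul_of_pos_left _ hK
    omega
  unfold XM YM
  obtain ⟨y, hy⟩ : ∃ y, y = 35 * (K * (2 + K3c K C₁ C₂ 35)) := ⟨_, rfl⟩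
  rw [← hy] at h2 ⊢
  have h3 : y ≤ 2 ^ y := Nat.lt_two_pow_self.le
  have h4 : 1 ≤ 2 ^ JM K C₁ 35 := Nat.one_le_two_pow
  calc C₂ ≤ 2 ^ y := (h1.trans h2).trans h3
    _ ≤ 2 * 2 ^ y := by omega
    _ ≤ _ := Nat.le_mul_of_pos_right _ h4

private theorem deg_mono {V E : Type} [Fintype E] [DecidableEq V] {G : Gph V E} {a b : ℕ}
    (h : G.Deg a) (hab : a ≤ b) : G.Deg b := fun v => (h v).trans hab

theorem exists_prodM {V E : Type} [Fintype V] [Fintype E] [DecidableEq V] [DecidableEq E]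
    (P : Gph V E) {m s : ℕ} (hl : P.NoLoop) (hd : P.Deg 19) (he : Expd P 16)
    (hm : 77824 * m ≤ Fintype.card V) (hs : C2N (Fintype.card V) ≤ s) :
    ∃ (F : Type) (_ : Fintype F) (_ : DecidableEq F) (Y : Gph (Fin (cN (Fintype.card V))) F)
      (_ : Fin (cN (Fintype.card V))) (_ : DetM (prodG P Y) s KU 73 (C2N (Fintype.card V)) m),
      (prodG P Y).NoLoop ∧ (prodG P Y).Deg 35 := by
  obtain ⟨F, iF, dF, Y, hYl, hYd, hYe, -⟩ := exists_expander (Fin (cN (Fintype.card V)))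
  obtain ⟨De⟩ := exists_detM (m := m) (Q := s) P Y hl hYl hd hYd he hYe hm
    (Fintype.card_fin _) (le_trans hs (Nat.le_succ _))
  exact ⟨F, iF, dF, Y, ⟨0, cN_pos _⟩, De, noLoop_prod hl hYl, deg_prod hd hYd⟩

/-- a graph for `j` switching steps, with common trees of depth `T` -/
def HasLvlM (j T k t s : ℕ) : Prop :=
  ∃ (V E : Type) (_ : Fintype V) (_ : Fintype E) (_ : DecidableEq V) (_ : DecidableEq E)
    (G : Gph V E) (Fr : Frame G) (SF : SFrame Fr) (v0 : V) (C₂ : ℕ)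
    (_ : DetM G s KU 73 C₂ Fr.m),
    XM KU 73 C₂ 35 ≤ s ∧ G.NoLoop ∧ G.Deg 35 ∧ Fr.Free ∅ v0 ∧
    Fintype.card V ≤ T * k ^ j * s ^ (88 * (j + 1)) ∧ SF.Γ.card + 1 ≤ 2 ^ s ∧
    77824 * Fr.m ≤ Fintype.card V ∧ s ^ 2 * T ≤ Fr.m ∧ KillsM Fr v0 j T (s * k) s s k t

theorem lvl_zeroM {n s k t T : ℕ} (hg : GoodS n s) (hT1 : 1 ≤ T) (hT : T * s ^ 88 ≤ n) :
    HasLvlM 0 T k t s := by
  have hK1 : 1 ≤ KU := by unfold KU; norm_num
  have hs0 : 100000 ≤ s := by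
    have h0 := hg.cst
    unfold cstU at h0
    have h1 : (10 : ℕ) ^ 5 = 100000 := by norm_num
    rw [h1] at h0
    obtain ⟨c, hc⟩ : ∃ c : ℕ, c = 5 ^ 74 := ⟨_, rfl⟩
    rw [← hc] at h0
    have h2 : 100000 * 1 ≤ 100000 * KU := Nat.mul_le_mul_left _ hK1
    omega
  obtain ⟨m0, hm0⟩ : ∃ m0, m0 = s ^ 2 * T := ⟨_, rfl⟩
  obtain ⟨n0, hn0⟩ : ∃ n0, n0 = s ^ 3 * T := ⟨_, rfl⟩
  have hnm : n0 = s * m0 := by rw [hn0, hm0]; ring
  have hm0pos : 0 < m0 := by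
    rw [hm0]
    exact Nat.mul_pos (Nat.pow_pos (by omega)) hT1
  have hbig : 100000 * m0 ≤ n0 := by
    rw [hnm]
    exact Nat.mul_le_mul_right _ hs0
  have hn0n : n0 ≤ n := by
    refine le_trans ?_ hT
    rw [hn0, mul_comm]
    exact Nat.mul_le_mul_left _ (Nat.pow_le_pow_right (by omega) (by norm_num))
  obtain ⟨E', iE, dE, X, hXl, hXd, hXe, hXc⟩ := exists_expander (Fin n0)
  have hcard : Fintype.card (Fin n0) = n0 := Fintype.card_fin n0
  obtain ⟨Cl⟩ := exists_clo (m := m0) X hXd (by norm_num) (by norm_num) hXe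
    (by rw [hcard]; omega)
  have hKm : 2 * 16 * 16 * m0 < Fintype.card (Fin n0) := by rw [hcard]; omega
  have hxm := hg.xm n0 hn0n
  have hC2 : C2N (Fintype.card (Fin n0)) ≤ s := by
    rw [hcard]
    exact (le_XM KU 73 _ hK1).trans hxm
  have hfib := hg.fib n0 hn0n
  have hlog := hg.log n0 hn0n
  obtain ⟨F, iF, dF, Y, l0, De, hl, hdeg⟩ := exists_prodM (m := m0) (s := s) X hXl
    (deg_mono hXd (by norm_num)) hXe (by rw [hcard]; omega) hC2
  have hcardP : Fintype.card (Fin n0 × Fin (cN (Fintype.card (Fin n0)))) = n0 * cN n0 := by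
    simp only [Fintype.card_prod, Fintype.card_fin]
  have hfree : (embFrame (cloFrame hXd Cl hKm) (embProd X Y l0)).Free ∅ (⟨0, by omega⟩, l0) := by
    refine ⟨rfl, ?_⟩
    show _ ∉ Cl.cl (Finset.image _ ∅)
    rw [Finset.image_empty, Cl.empty]
    exact Finset.notMem_empty _
  refine ⟨Fin n0 × Fin (cN (Fintype.card (Fin n0))), _, inferInstance, inferInstance,
    inferInstance, inferInstance, prodG X Y, embFrame (cloFrame hXd Cl hKm) (embProd X Y l0),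
    embSFrame (embProd X Y l0) (cloSFrame hXd Cl hKm), (⟨0, by omega⟩, l0),
    C2N (Fintype.card (Fin n0)), De, ?_, hl, hdeg, hfree, ?_, ?_, ?_, ?_, ?_⟩
  · rw [hcard]
    exact hxm
  · rw [hcardP, pow_zero, mul_one, hn0]
    have h1 : cN (s ^ 3 * T) ≤ s := by
      rw [← hn0]
      omega
    calc s ^ 3 * T * cN (s ^ 3 * T) ≤ s ^ 3 * T * s := Nat.mul_le_mul_left _ h1
      _ = T * s ^ 4 := by ring
      _ ≤ T * s ^ (88 * (0 + 1)) :=
          Nat.mul_le_mul_left _ (Nat.pow_le_pow_right (by omega) (by norm_num))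
  · have h3 : (cloSFrame hXd Cl hKm).Γ.card ≤
        (Fintype.card E' + 1) ^ (2 * Ld (2 * 16) 16 (Fintype.card (Fin n0))) := card_short _
    have h0 : (embSFrame (embProd X Y l0) (cloSFrame hXd Cl hKm)).Γ.card ≤
        (cloSFrame hXd Cl hKm).Γ.card := Finset.card_image_le
    rw [hcard] at h3 hXc
    obtain ⟨r, hr⟩ : ∃ r, r = Nat.log 2 n0 + 1 := ⟨_, rfl⟩
    have ht1 : 1 ≤ r := by omega
    have h4 : n0 < 2 ^ r := by rw [hr]; exact Nat.lt_pow_succ_log_self (by norm_num) _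
    have h5 : Fintype.card E' + 1 ≤ 2 ^ (r + 4) := by
      rw [pow_add]
      omega
    have h6 : 2 * Ld (2 * 16) 16 n0 = 1024 * r := by
      unfold Ld
      rw [← hr]
      ring
    rw [h6] at h3
    rw [← hr] at hlog
    have h7 : (r + 4) * (1024 * r) + 1 ≤ s := by
      refine le_trans ?_ hlog
      nlinarith
    calc (embSFrame (embProd X Y l0) (cloSFrame hXd Cl hKm)).Γ.card + 1
        ≤ (Fintype.card E' + 1) ^ (1024 * r) + 1 := by omega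
      _ ≤ (2 ^ (r + 4)) ^ (1024 * r) + 1 := by gcongr
      _ = 2 ^ ((r + 4) * (1024 * r)) + 1 := by rw [← pow_mul]
      _ ≤ 2 ^ ((r + 4) * (1024 * r)) + 2 ^ ((r + 4) * (1024 * r)) := by
          gcongr
          exact Nat.one_le_two_pow
      _ = 2 ^ ((r + 4) * (1024 * r) + 1) := by rw [pow_succ]; ring
      _ ≤ 2 ^ s := Nat.pow_le_pow_right (by norm_num) h7
  · rw [hcardP]
    show 77824 * m0 ≤ n0 * cN n0
    calc 77824 * m0 ≤ n0 := by omega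
      _ ≤ n0 * cN n0 := Nat.le_mul_of_pos_right _ (cN_pos _)
  · show s ^ 2 * T ≤ m0
    exact hm0.ge
  · exact kills_zeroM _ _ hfree _ _ _ _ _ _ le_rfl (by omega)

end FrU
end
end
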