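import Pool.Agent.Lib.MP_51bb46_lc.U.Vis
import Pool.Agent.Lib.MP_51bb46_lc.U.TowA
import Pool.Agent.Lib.MP_51bb46_lc.T.ExistsT
import Pool.Agent.Lib.MP_51bb46_lc.T.FinalT

section

/-!
Stage 0: a random restriction of the blow-up (without tall graph) makes decision trees short.

PROOF of `exists_bd_star`.  Let `e` be an edge at `t`, `t'` its other endpoint (`t' ≠ t`, no loops).  Let
`a = fun v => if v = t then w else 0`, `a' = fun v => if v = t then w' else 0`.  The lifts `Pth G a (Pi.single e 1)` and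
`Pth G a' (Pi.single e 1)` have the boundaries `pt (cen t w) + pt (cen t' 0)` and `pt (cen t w') + pt (cen t' 0)`
(`FrC.bd_Pth_path`, with `G.bd (Pi.single e 1) = pt (src e) + pt (tgt e)`: `FrC.Gph.bd_single`); add them.

PROOF of `exists_stage0`.  Sample space `Om G (cen v0 0) v0` (nonempty).  For a set `L` of edges, `P ⊆ L` and a
vertex `t` let `yc L P t` be a chosen chain with `G.bd y = pt v0 + pt t` and `y e ≠ 0 ↔ e ∈ P` for `e ∈ L`, if there is one.
Covering: if `NoVis` fails for `A ∈ As` there are `y, t, W, A'` with `Reach`, `R ≤ |L|` where `L = cov G a W`, and no edge in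
`L` ends at `t`.  Then `t = v0` or `t` has positive degree (if the star of `t` is empty then `G.bd y t = 0`).
Let `P = {e ∈ L | y e ≠ 0}`, `y' = yc L P t`.  `α + Pth a y'` agrees with `α + Pth a y` on the edges touching `W` (a
live edge there is over an edge in `L`, where `y' = y`), so `Reach .. (α + Pth a y') A W A'` (`reach_congr`) and
`W ⊆ visit ext loc A (α + Pth a y')` (`reach_visit`).  So the event
`Ev A L P t (α, a)`: `∀ e ∈ L, Tch G a (visit ext loc A (α + Pth G a (yc L P t))) e` holds.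
Union bound over `A ∈ As`, `t` (with nonempty star), `L` with `|L| ≥ R` and no edge ending at `t`, `P ⊆ L` (such that
`yc L P t` exists).  By `FrC.pr_Om_shift` `pr (Ev A L P t) = pr_(Om t) (∀ e ∈ L, Tch G a (visit ext loc A α) e)`.  So
for fixed `A, t` the sum is at most `∑_L 2^|L| pr_(Om t) (..) ≤ 2^(-R) ∑_L 4^|L| pr_(Om t) (..)`, and by
`FrT.pr_Om_sum` (`hconn` from `exists_bd_star`) and `sum_Tch_all` (`x = 4`, `W = visit ext loc A β`, `|W| ≤ κ` by
`visit_card`) it is at most `2^(-R) exp (5^(2 Δ) Δ κ / 2^D) ≤ 2^(-R) exp T ≤ 2^(-R) 2^(2 T)` (`exp 1 ≤ 4`).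
The total is `< 1` by `hcard`.
-/

set_option linter.unusedSectionVars false

namespace FrU

open Finset Fr56 FrC FrG FrT
open scoped Classical

section
variable {V E X : Type} [Fintype V] [Fintype E] [DecidableEq V] [DecidableEq E] (G : Gph V E)
  (v0 : V) {D : ℕ}

theorem exists_bd_star (hl : G.NoLoop) (hD : 0 < D) {t : V} (ht : (G.star t).Nonempty)
    (w w' : FrC.A D) : ∃ x : Xt E D → ZMod 2,
      (G.blow D).bd x = FrC.pt (FrC.HV.cen t w) + FrC.pt (FrC.HV.cen t w') := by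
  obtain ⟨e, he⟩ := ht
  have key : ∀ t' : V, t' ≠ t → G.bd (Pi.single e 1) = FrC.pt t + FrC.pt t' →
      ∃ x : Xt E D → ZMod 2,
        (G.blow D).bd x = FrC.pt (FrC.HV.cen t w) + FrC.pt (FrC.HV.cen t w') := by
    intro t' ht' hb
    refine ⟨FrC.Pth G (fun v => if v = t then w else 0) (Pi.single e 1) +
      FrC.Pth G (fun v => if v = t then w' else 0) (Pi.single e 1), ?_⟩
    rw [Gph.bd_add, bd_Pth_path G hD _ _ t t' hb, bd_Pth_path G hD _ _ t t' hb]
    simp only [FrC.ctr, if_true, if_neg ht']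
    have h1 := add_self2 (FrC.pt (FrC.HV.cen t' 0) : FrC.HV V E D → ZMod 2)
    calc FrC.pt (FrC.HV.cen t w) + FrC.pt (FrC.HV.cen t' 0) +
          (FrC.pt (FrC.HV.cen t w') + FrC.pt (FrC.HV.cen t' 0)) =
        FrC.pt (FrC.HV.cen t w) + FrC.pt (FrC.HV.cen t w') +
          (FrC.pt (FrC.HV.cen t' 0) + FrC.pt (FrC.HV.cen t' 0)) := by abel
      _ = _ := by rw [h1, add_zero]
  have hb := FrC.Gph.bd_single G e
  unfold Gph.star at he
  rw [Finset.mem_filter] at he
  rcases he.2 with h | h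
  · rw [h] at hb
    exact key _ (fun h' => hl e (h.trans h'.symm)) hb
  · rw [h, add_comm] at hb
    exact key _ (fun h' => hl e (h'.trans h.symm)) hb

private theorem bd_eq_zero_st {t : V} (ht : ¬ (G.star t).Nonempty) (y : E → ZMod 2) :
    G.bd y t = 0 := by
  rw [Finset.not_nonempty_iff_eq_empty] at ht
  unfold Gph.bd
  refine Finset.sum_eq_zero fun e _ => ?_
  have h1 : e ∉ G.star t := by rw [ht]; exact Finset.notMem_empty e
  unfold Gph.star at h1
  rw [Finset.mem_filter, not_and, not_or] at h1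
  obtain ⟨h2, h3⟩ := h1 (Finset.mem_univ _)
  rw [if_neg h2, if_neg h3, add_zero]

/-- there is a chain with the given pattern on `L` -/
private def Exc (L P : Finset E) (t : V) : Prop :=
  ∃ y : E → ZMod 2, G.bd y = FrC.pt v0 + FrC.pt t ∧ ∀ e ∈ L, (y e ≠ 0 ↔ e ∈ P)

/-- a chain with the given pattern on `L` -/
private noncomputable def yc (L P : Finset E) (t : V) : E → ZMod 2 :=
  if h : Exc G v0 L P t then h.choose else 0

private theorem yc_spec {L P : Finset E} {t : V} (h : Exc G v0 L P t) :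
    G.bd (yc G v0 L P t) = FrC.pt v0 + FrC.pt t ∧ ∀ e ∈ L, (yc G v0 L P t e ≠ 0 ↔ e ∈ P) := by
  unfold yc
  rw [dif_pos h]
  exact h.choose_spec

/-- the sets of edges in the union bound -/
private noncomputable def sL (R : ℕ) (t : V) : Finset (Finset E) :=
  univ.filter fun L => (G.star t).Nonempty ∧ R ≤ L.card ∧ ∀ e ∈ L, G.src e ≠ t ∧ G.tgt e ≠ t

private theorem zm2_st : ∀ a b : ZMod 2, (a ≠ 0 ↔ b ≠ 0) → a = b := by decide

private theorem cover_st (hst : (G.star v0).Nonempty) (ext : (Xt E D → ZMod 2) → X → Bool)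
    (loc : X → HV V E D)
    (hloc : ∀ x y y', (∀ e ∈ (G.blow D).inc {loc x}, y e = y' e) → ext y x = ext y' x)
    (A : Dtree X) (R : ℕ) (α : Xt E D → ZMod 2) (a : V → FrC.A D)
    (h : ¬ NoVis G v0 α a ext loc A R) :
    ∃ t ∈ (univ : Finset V), ∃ L ∈ sL G R t, ∃ P ∈ L.powerset,
      Exc G v0 L P t ∧ ∀ e ∈ L, Tch G a (visit ext loc A (α + FrC.Pth G a (yc G v0 L P t))) e := by
  unfold NoVis at h
  push Not at h
  obtain ⟨y, t, W, A', hby, hreach, hends, hcard⟩ := h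
  set L : Finset E := cov G a W with hL
  set P : Finset E := L.filter fun e => y e ≠ 0 with hP
  have hex : Exc G v0 L P t := by
    refine ⟨y, hby, fun e he => ?_⟩
    rw [hP, Finset.mem_filter]
    exact ⟨fun h => ⟨he, h⟩, fun h => h.2⟩
  obtain ⟨hb1, hb2⟩ := yc_spec G v0 hex
  have hyy : ∀ e ∈ L, y e = yc G v0 L P t e := by
    intro e he
    apply zm2_st
    rw [hb2 e he, hP, Finset.mem_filter]
    exact ⟨fun h => ⟨he, h⟩, fun h => h.2⟩
  have htst : (G.star t).Nonempty := by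
    by_contra hcon
    have h1 : t ≠ v0 := fun h => hcon (h ▸ hst)
    have h2 := bd_eq_zero_st G hcon y
    rw [hby, Pi.add_apply] at h2
    simp only [FrC.pt, Pi.single_apply, if_neg h1, if_true, zero_add] at h2
    exact one_ne_zero h2
  refine ⟨t, Finset.mem_univ _, L, ?_, P, ?_, hex, ?_⟩
  · unfold sL
    rw [Finset.mem_filter]
    exact ⟨Finset.mem_univ _, htst, hcard, hends⟩
  · rw [Finset.mem_powerset]
    exact Finset.filter_subset _ _
  · have hr := reach_congr (G := G.blow D) hloc hreach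
      (β' := α + FrC.Pth G a (yc G v0 L P t)) (by
        intro u hu
        rw [Pi.add_apply, Pi.add_apply]
        congr 1
        unfold FrC.Pth
        by_cases hlive : live G a u
        · rw [if_pos hlive, if_pos hlive]
          apply hyy
          rw [hL, cov, Finset.mem_filter]
          exact ⟨Finset.mem_univ _, u, rfl, hlive, hu⟩
        · rw [if_neg hlive, if_neg hlive])
    have hv := reach_visit hr
    intro e he
    rw [hL, cov, Finset.mem_filter] at he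
    obtain ⟨-, u, hue, hlive, hu⟩ := he
    exact ⟨u, hue, hlive, Gph.inc_mono (G.blow D) hv hu⟩

private theorem one_st (hD : 0 < D) (ext : (Xt E D → ZMod 2) → X → Bool) (loc : X → HV V E D)
    (A : Dtree X) (t : V) (L P : Finset E) :
    pr (fun q : Om G (HV.cen v0 0 : HV V E D) v0 => Exc G v0 L P t ∧
      ∀ e ∈ L, Tch G q.1.2 (visit ext loc A (q.1.1 + FrC.Pth G q.1.2 (yc G v0 L P t))) e) ≤
    pr (fun q : Om G (HV.cen v0 0 : HV V E D) t =>
      ∀ e ∈ L, Tch G q.1.2 (visit ext loc A q.1.1) e) := by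
  by_cases hex : Exc G v0 L P t
  · obtain ⟨hb1, -⟩ := yc_spec G v0 hex
    rw [← pr_Om_shift G hD (HV.cen v0 0 : HV V E D) v0 t (yc G v0 L P t) hb1
      (fun β a => ∀ e ∈ L, Tch G a (visit ext loc A β) e)]
    exact pr_mono fun q hq => hq.2
  · refine le_trans (pr_mono (Q := fun _ => False) fun q hq => hex hq.1) ?_
    rw [pr_false]
    exact pr_nonneg _

private theorem exp_le_st (T : ℕ) : Real.exp (T : ℝ) ≤ 2 ^ (2 * T) := by
  have h1 : Real.exp (T : ℝ) = Real.exp 1 ^ T := by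
    rw [← Real.exp_nat_mul, mul_one]
  rw [h1, pow_mul]
  apply pow_le_pow_left₀ (Real.exp_pos 1).le
  have := Real.exp_one_lt_d9
  linarith

private theorem sum_st (hl : G.NoLoop) (hD : 0 < D) {Δ κ R T : ℕ} (hΔ : 1 ≤ Δ)
    (hdeg : G.Deg Δ) (ext : (Xt E D → ZMod 2) → X → Bool) (loc : X → HV V E D)
    (A : Dtree X) (hA : A.depth ≤ κ) (hD2 : 5 ^ (2 * Δ) * (Δ * κ) ≤ 2 ^ D * T) (t : V) :
    ∑ L ∈ sL G R t, ∑ P ∈ L.powerset,
      pr (fun q : Om G (HV.cen v0 0 : HV V E D) v0 => Exc G v0 L P t ∧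
        ∀ e ∈ L, Tch G q.1.2 (visit ext loc A (q.1.1 + FrC.Pth G q.1.2 (yc G v0 L P t))) e) ≤
      (1 / 2) ^ R * 2 ^ (2 * T) := by
  by_cases hst : (G.star t).Nonempty
  swap
  · have h0 : sL G R t = ∅ := by
      unfold sL
      refine Finset.filter_eq_empty_iff.2 fun L _ h => hst h.1
    rw [h0, Finset.sum_empty]
    positivity
  set p : Finset E → ℝ := fun L => pr (fun q : Om G (HV.cen v0 0 : HV V E D) t =>
      ∀ e ∈ L, Tch G q.1.2 (visit ext loc A q.1.1) e) with hp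
  have hsum : ∑ L ∈ sL G R t, (4 : ℝ) ^ L.card * p L ≤ 2 ^ (2 * T) := by
    refine pr_Om_sum G (sL G R t) (fun L => (4 : ℝ) ^ L.card) (fun L _ => by positivity) v0 0 t
      (fun w w' => exists_bd_star G hl hD hst w w')
      (fun L β a => ∀ e ∈ L, Tch G a (visit ext loc A β) e) (2 ^ (2 * T)) (by positivity)
      (fun β w' => ?_)
    have h1 := sum_Tch_all G hl hD hΔ hdeg 4 (by norm_num) (visit ext loc A β) t w' (sL G R t)
      (fun L hL => by
        unfold sL at hL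
        exact (Finset.mem_filter.1 hL).2.2.2)
    refine h1.trans (mul_le_mul_of_nonneg_right ?_ (pr_nonneg _))
    refine le_trans (Real.exp_le_exp.2 ?_) (exp_le_st T)
    have h2 : (visit ext loc A β).card ≤ κ := (visit_card A β).trans hA
    have h3 : (0 : ℝ) < 2 ^ D := by positivity
    rw [div_le_iff₀ h3]
    have h4 : ((5 ^ (2 * Δ) * (Δ * (visit ext loc A β).card) : ℕ) : ℝ) ≤
        ((2 ^ D * T : ℕ) : ℝ) := by
      exact_mod_cast (Nat.mul_le_mul_left _ (Nat.mul_le_mul_left _ h2)).trans hD2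
    push_cast at h4
    have h5 : (1 + 4 : ℝ) = 5 := by norm_num
    rw [h5]
    linarith
  calc _ ≤ ∑ L ∈ sL G R t, ∑ _P ∈ L.powerset, p L := by
        refine Finset.sum_le_sum fun L _ => Finset.sum_le_sum fun P _ => ?_
        exact one_st G v0 hD ext loc A t L P
    _ ≤ ∑ L ∈ sL G R t, (1 / 2) ^ R * ((4 : ℝ) ^ L.card * p L) := by
        refine Finset.sum_le_sum fun L hL => ?_
        unfold sL at hL
        have hR : R ≤ L.card := (Finset.mem_filter.1 hL).2.2.1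
        rw [Finset.sum_const, Finset.card_powerset, nsmul_eq_mul, ← mul_assoc]
        refine mul_le_mul_of_nonneg_right ?_ (pr_nonneg _)
        obtain ⟨d, hd⟩ := Nat.exists_eq_add_of_le hR
        rw [hd]
        push_cast
        have h6 : (4 : ℝ) ^ (R + d) = 2 ^ (R + d) * (2 ^ R * 2 ^ d) := by
          rw [← pow_add, ← mul_pow]
          norm_num
        rw [h6]
        have h7 : ((1 : ℝ) / 2) ^ R * 2 ^ R = 1 := by
          rw [← mul_pow]
          norm_num
        calc (2 : ℝ) ^ (R + d) = 2 ^ (R + d) * (((1 : ℝ) / 2) ^ R * 2 ^ R) * 1 := by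
              rw [h7, mul_one, mul_one]
          _ ≤ 2 ^ (R + d) * (((1 : ℝ) / 2) ^ R * 2 ^ R) * 2 ^ d := by
              apply mul_le_mul_of_nonneg_left _ (by positivity)
              exact one_le_pow₀ (by norm_num)
          _ = _ := by ring
    _ = (1 / 2) ^ R * ∑ L ∈ sL G R t, (4 : ℝ) ^ L.card * p L := by rw [Finset.mul_sum]
    _ ≤ _ := mul_le_mul_of_nonneg_left hsum (by positivity)

/-- **stage 0** -/
theorem exists_stage0 {Δ κ R T : ℕ} (hl : G.NoLoop) (hD : 0 < D) (hΔ : 1 ≤ Δ)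
    (hdeg : G.Deg Δ) (hst : (G.star v0).Nonempty) (ext : (Xt E D → ZMod 2) → X → Bool)
    (loc : X → HV V E D)
    (hloc : ∀ x y y', (∀ e ∈ (G.blow D).inc {loc x}, y e = y' e) → ext y x = ext y' x)
    (As : Finset (Dtree X)) (hAs : ∀ A ∈ As, A.depth ≤ κ)
    (hD2 : 5 ^ (2 * Δ) * (Δ * κ) ≤ 2 ^ D * T)
    (hcard : As.card * Fintype.card V * 2 ^ (2 * T) < 2 ^ R) :
    ∃ (α : Xt E D → ZMod 2) (a : V → FrC.A D),
      (G.blow D).bd α = FrC.pt (FrC.HV.cen v0 0) + FrC.pt (FrC.ctr a v0) ∧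
      ∀ A ∈ As, NoVis G v0 α a ext loc A R := by
  classical
  have hne : Nonempty (Om G (HV.cen v0 0 : HV V E D) v0) := by
    refine ⟨⟨((0 : Xt E D → ZMod 2), fun _ => 0), ?_⟩⟩
    rw [Gph.bd_zero]
    exact (add_self2 (FrC.pt (HV.cen v0 0 : HV V E D) : HV V E D → ZMod 2)).symm
  have hfinal : pr (fun q : Om G (HV.cen v0 0 : HV V E D) v0 =>
      ∃ A ∈ As, ¬ NoVis G v0 q.1.1 q.1.2 ext loc A R) < 1 := by
    calc pr (fun q : Om G (HV.cen v0 0 : HV V E D) v0 =>
          ∃ A ∈ As, ¬ NoVis G v0 q.1.1 q.1.2 ext loc A R)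
        ≤ pr (fun q : Om G (HV.cen v0 0 : HV V E D) v0 => ∃ A ∈ As, ∃ t ∈ (univ : Finset V),
            ∃ L ∈ sL G R t, ∃ P ∈ L.powerset, Exc G v0 L P t ∧ ∀ e ∈ L, Tch G q.1.2
              (visit ext loc A (q.1.1 + FrC.Pth G q.1.2 (yc G v0 L P t))) e) := by
          apply pr_mono
          rintro q ⟨A, hA, hq⟩
          exact ⟨A, hA, cover_st G v0 hst ext loc hloc A R q.1.1 q.1.2 hq⟩
      _ ≤ ∑ A ∈ As, (Fintype.card V : ℝ) * ((1 / 2) ^ R * 2 ^ (2 * T)) := by
          refine (pr_exists_le _ _).trans (Finset.sum_le_sum fun A hA => ?_)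
          refine (pr_exists_le _ _).trans ?_
          calc _ ≤ ∑ _t ∈ (univ : Finset V), ((1 : ℝ) / 2) ^ R * 2 ^ (2 * T) := by
                refine Finset.sum_le_sum fun t _ => ?_
                refine (pr_exists_le _ _).trans ?_
                refine le_trans (Finset.sum_le_sum fun L _ => pr_exists_le _ _) ?_
                exact sum_st G v0 hl hD hΔ hdeg ext loc A (hAs A hA) hD2 t
            _ = _ := by rw [Finset.sum_const, Finset.card_univ, nsmul_eq_mul]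
      _ = ((As.card * Fintype.card V * 2 ^ (2 * T) : ℕ) : ℝ) * (1 / 2) ^ R := by
          rw [Finset.sum_const, nsmul_eq_mul]
          push_cast
          ring
      _ < 2 ^ R * (1 / 2) ^ R := by
          apply mul_lt_mul_of_pos_right _ (by positivity)
          exact_mod_cast hcard
      _ = 1 := by rw [← mul_pow]; norm_num
  obtain ⟨q, hq⟩ := exists_of_pr_lt_one hfinal
  refine ⟨q.1.1, q.1.2, q.2, ?_⟩
  intro A hA
  by_contra hcon
  exact hq ⟨A, hA, hcon⟩

end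

end FrU
end

section

/-!
The Tseitin CNF of the union graph is hard if one of its components is hard.

PROOF of `no_ref_uni`.  Let `F = (Fts U u0 root).map enc`, `U = uniG G v pos`, `root = uroot v`.  Apply `hard : HardX (G i0) (v i0)
d κ k t r` to `X = ℕ`, `ext y m = tb (uniExt G pos i0 y (dec m))`, `loc m` the vertex of `uni_loc` for `dec m` (choice),
`Ls = π.toFinset`, `Ax = parts F ∪ {A | Shallow κr A ∧ ∀ x, A.eval x = true}`, `τ = fun x => x` (`b.map τ = b`: `FrT.map_id'`).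
 * Levels: `A = B.subst σ`: `FrG.lev_subst (bas_ShT hκ1) B _ hσ` with `ShT κ (σ x)` from `Shallow κr (σ x)` (`shT_map` with the
   identity map and `map_id'`, or directly from the definitions and `hκ`).
 * Axioms.  A tautology: `AndOf.base` with any vertex.  Parts of `F`: as in `FrT.exists_valnT` (T/ValT.lean): `parts (f.map enc) =
   (Fm.map enc) '' parts f` (`FrT.parts_map`); by `FrC.Fts_induction` all parts of `Fts U u0 root` are (after `map enc`)
   `AndOf ..`: for a clause `p ∈ clauses U root`, `parts (clause ..) = {clause ..}` (private `valT_parts_disj` in T/ValT.lean, copy),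
   `(clause ..).map enc` has at most `3` leaves (`FrC.leaves_clause`, `deg_uni`; `leaves` of a map), so it is
   `ShT κ` (`shT_of_leaves`, `3 ≤ κ`).  Its vertex `p.1 = ⟨i, (w, j)⟩`: take `v' = w` if `i = i0` and `v' = v i0` otherwise.  For
   `(G i0).bd y = pt (v i0) + pt t'`, `t' ≠ v'`: by `bd_uniExt` the boundary of `x = uniExt G pos i0 y` is
   `pt root + pt ⟨i0, (t', 0)⟩`, and `p.1 ≠ ⟨i0, (t', 0)⟩`, so `U.bd x p.1 = chg root p.1`, and by `FrC.clause_true` the clause is true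
   at `tb ∘ x`; `((clause ..).map enc).eval (ext y) = (clause ..).eval (fun e => ext y (enc e))` (`Fm.eval_map`) and
   `dec (enc e) = e`.
-/

set_option linter.unusedSectionVars false

namespace FrU

open Finset Fr56 FrC FrG FrT
open scoped Classical

section
variable {N q : ℕ} {V E : Fin (N + 1) → Type} [∀ i, Fintype (V i)] [∀ i, Fintype (E i)]
  [∀ i, DecidableEq (V i)] [∀ i, DecidableEq (E i)]
  (G : ∀ i, Gph (V i) (E i)) (v : ∀ i, V i) (pos : ∀ i, E i → Bool → Fin (q + 1))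

private theorem uniH_parts_disj {X : Type} (d : Fm X) (hd : parts d = {d}) (l : List (Fm X))
    (hl : ∀ f ∈ l, parts f = {f}) : parts (Fm.disj d l) = {Fm.disj d l} := by
  cases l with
  | nil => exact hd
  | cons f l =>
    cases l with
    | nil => exact hl f (by simp)
    | cons g l => rfl

private theorem uniH_parts_clause {V E : Type} [Fintype V] [Fintype E] [DecidableEq V]
    [DecidableEq E] (G : Gph V E) (u0 : E) (h : V) (T : Finset E) :
    parts (FrC.clause G u0 h T) = {FrC.clause G u0 h T} := by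
  unfold FrC.clause
  refine uniH_parts_disj _ rfl _ fun f hf => ?_
  rw [List.mem_map] at hf
  obtain ⟨u, _, rfl⟩ := hf
  split_ifs <;> rfl

/-- **a component that is hard makes the whole CNF hard** -/
theorem no_ref_uni (hl : ∀ i, (G i).NoLoop) (hpos : ∀ i, PosOk (G i) (pos i)) (hq : 0 < q)
    (u0 : UE V E q) (enc : UE V E q → ℕ) (dec : ℕ → UE V E q) (hdec : ∀ e, dec (enc e) = e)
    (i0 : Fin (N + 1)) {d κ k t r : ℕ} (hκ3 : 3 ≤ κ) (hard : HardX (G i0) (v i0) d κ k t r)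
    {κr : ℝ} (hκ : ∀ p : ℕ, (p : ℝ) ≤ κr → p ≤ κ) (R : List Rule) (hR : ∀ p ∈ R, p.Sound)
    (hRr : ∀ p ∈ R, p.nodes + 1 ≤ r) (b : Fm ℕ) (hb : b.Unsat) (hbr : b.size + 1 ≤ r)
    (π : List (Fm ℕ))
    (hπ : Derives R (parts ((Fts (uniG G v pos) u0 (uroot v)).map enc) ∪
      {A | Shallow κr A ∧ ∀ x, A.eval x = true}) π) (hbπ : b ∈ π)
    (hcard : π.toFinset.card ≤ 2 ^ t) (hsub : ∀ A ∈ π, A.subs.toFinset.card ≤ 2 ^ k)
    (hlines : ∀ A ∈ π, ∃ (B : Fm ℕ) (σ : ℕ → Fm ℕ), A = B.subst σ ∧ FrC.depth B ≤ d ∧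
      ∀ x, Shallow κr (σ x)) : False := by
  have hκ1 : 1 ≤ κ := by omega
  choose loc0 hloc0 using fun e : UE V E q => uni_loc G v pos i0 e
  have hstar : ((uniG G v pos).star (uroot v)).Nonempty := star_uni G v pos hq _
  -- the clauses are true in the component
  have hcl : ∀ p ∈ FrC.clauses (uniG G v pos) (uroot v),
      (∃ w : V i0, ∀ y t', (G i0).bd y = FrC.pt (v i0) + FrC.pt t' → t' ≠ w →
        ((FrC.clause (uniG G v pos) u0 p.1 p.2).map enc).eval
          (fun m => FrC.tb (uniExt G pos i0 y (dec m))) = true) := by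
    intro p hp
    have hev : ∀ y : E i0 → ZMod 2, ((FrC.clause (uniG G v pos) u0 p.1 p.2).map enc).eval
        (fun m => FrC.tb (uniExt G pos i0 y (dec m))) =
        (FrC.clause (uniG G v pos) u0 p.1 p.2).eval (fun u => FrC.tb (uniExt G pos i0 y u)) := by
      intro y
      rw [Fm.eval_map]
      congr 1
      funext u
      show FrC.tb (uniExt G pos i0 y (dec (enc u))) = _
      rw [hdec]
    have hmain : ∀ (y : E i0 → ZMod 2) (t' : V i0), (G i0).bd y = FrC.pt (v i0) + FrC.pt t' →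
        p.1 ≠ (⟨i0, (t', 0)⟩ : UV V q) →
        ((FrC.clause (uniG G v pos) u0 p.1 p.2).map enc).eval
          (fun m => FrC.tb (uniExt G pos i0 y (dec m))) = true := by
      intro y t' hbd hne
      rw [hev y]
      refine FrC.clause_true (uniG G v pos) (noLoop_uni G v pos hl) u0 (uroot v) p hp _ ?_
      rw [bd_uniExt G v pos hpos i0 y t' hbd, Pi.add_apply]
      unfold FrC.pt FrC.chg
      rw [Pi.single_apply, Pi.single_apply, if_neg hne, add_zero]
    by_cases hi : p.1.1 = i0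
    · obtain ⟨p1, p2⟩ := p
      obtain ⟨i, w, j⟩ := p1
      have hi' : i = i0 := hi
      subst hi'
      refine ⟨w, fun y t' hbd hne => hmain y t' hbd fun h => hne ?_⟩
      exact ((Prod.mk.inj (eq_of_heq (Sigma.mk.inj_iff.1 h).2)).1).symm
    · refine ⟨v i0, fun y t' hbd _ => hmain y t' hbd fun h => hi ?_⟩
      rw [h]
  refine hard ℕ (fun y m => FrC.tb (uniExt G pos i0 y (dec m))) (fun m => loc0 (dec m)) ?_ π.toFinset
    hcard (fun A hA => hsub A (List.mem_toFinset.1 hA)) R hR hRr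
    (parts ((Fts (uniG G v pos) u0 (uroot v)).map enc) ∪ {A | Shallow κr A ∧ ∀ x, A.eval x = true})
    ?_ b hb hbr (fun x => x) π hπ ?_ ?_
  · intro m y y' h
    show FrC.tb (uniExt G pos i0 y (dec m)) = FrC.tb (uniExt G pos i0 y' (dec m))
    rw [hloc0 (dec m) y y' h]
  · rintro F (hF | hF)
    · rw [parts_map] at hF
      obtain ⟨F', hF', rfl⟩ := hF
      revert F' hF'
      refine FrC.Fts_induction (uniG G v pos) u0 (uroot v) hstar (fun H => ∀ F' ∈ parts H,
        AndOf (fun f => ShT κ f ∧ ∃ w : V i0, ∀ y t',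
          (G i0).bd y = FrC.pt (v i0) + FrC.pt t' → t' ≠ w →
          f.eval (fun m => FrC.tb (uniExt G pos i0 y (dec m))) = true) (F'.map enc)) ?_ ?_
      · intro p hp _ F' hF'
        rw [uniH_parts_clause, Set.mem_singleton_iff] at hF'
        subst hF'
        refine AndOf.base _ ⟨shT_of_leaves ?_, hcl p hp⟩
        rw [Fm.leaves_map]
        exact (FrC.leaves_clause (uniG G v pos) (by norm_num) (deg_uni G v pos hpos) u0 p.1
          p.2).trans hκ3
      · intro f g hf hg _ F' hF'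
        rcases hF' with hF' | hF' | hF'
        · rw [Set.mem_singleton_iff] at hF'
          subst hF'
          exact AndOf.and _ _ (hf f (self_mem_parts f)) (hg g (self_mem_parts g))
        · exact hf F' hF'
        · exact hg F' hF'
    · refine AndOf.base F ⟨?_, v i0, fun y t' _ _ => hF.2 _⟩
      have h1 := shT_map (fun x : ℕ => x) hκ hF.1
      rw [FrT.map_id'] at h1
      exact h1
  · rw [FrT.map_id']
    exact hbπ
  · intro A hA
    refine ⟨List.mem_toFinset.2 hA, ?_⟩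
    obtain ⟨B, σ, rfl, hB, hσ⟩ := hlines A hA
    refine (FrG.lev_subst (bas_ShT hκ1) B _ fun x => ?_).trans hB
    have h1 := shT_map (fun x : ℕ => x) hκ (hσ x)
    rw [FrT.map_id'] at h1
    exact h1

end

end FrU
end

section

/-!
Stage 0: the decision trees of the restricted formulas, and hardness of the blow-up.

Let `ends L = L.biUnion fun e => {src e, tgt e}` (at most `2 |L|` vertices).

PROOF of `dec_stage0`.  Claim, by induction on the tree `A'`: if `Reach ext loc (α + Pth G a y) A W A'`, `U = ends (cov G a W)`,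
`Fr.Ok v0 U y`, `|cov G a W| < R`, then `Dec Fr v0 (QX ..) (2 R - |U|) U y`.  (Start: `W = ∅`, `cov G a ∅ = ∅`.)
For `y'` that agrees with `y` on `U`: `α + Pth a y'` agrees with `α + Pth a y` on the edges touching `W` (live edges
there are over edges in `cov G a W`, which touch `U`), so `Reach .. (α + Pth a y') A W A'` by `reach_congr`.
Leaf `b`: `QX` holds with the value `b` by `reach_eval` and `hA`.
Node `x l r`: `W1 = insert (loc x) W`, `U1 = ends (cov G a W1) ⊇ U`; `|cov G a W1| ≤ |cov G a W| + Δ < R + Δ` (`FrC.card_cov`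
for `{loc x}`; `cov` of a union), so `|U1| ≤ 2 (R + Δ) ≤ Fr.m`, and by `Fr.move` there is `y1` that agrees with `y` on `U`,
with violated vertex `t1` free for `U1`, so `t1 ∉ U1`; by `NoVis` for `y1, t1, W1` and the child (`Reach.step`)
`|cov G a W1| < R`, hence `|U1| ≤ 2 R`.  Now `Dec.node` with `N = U1 \ U`: for `y1` that agrees with `y` on `U`,
`Ok (U ∪ N) y1` use the induction hypothesis for the child `if ext (α + Pth a y1) x then r else l`.
Budget: `|U1 \ U| + (2 R - |U1|) = 2 R - |U|`.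

PROOF of `hard_stage0`.  Given `X`, `ext`, `loc`, `Ls`, ...: let `Fs` be the set of all `f ∈ A.subs`, `A ∈ Ls`, with
`ShT κ f`; `|Fs| ≤ 2^t 2^k`; choose for each a decision tree of depth at most `κ`; `As` the set of these trees.
`exists_stage0` gives `α, a`.  Let `ext' y = ext (α + Pth G a y)`.  `hard_of_ext` with `B = ShT κ`, `κ' = 2 R`,
`hdec` by `dec_stage0`.  Axioms: let `f` have the vertex `h : HV V E D`; take `v = u` if `h = cen u w`, and `v = v0`
otherwise.  For `G.bd y = pt v0 + pt t'`, `t' ≠ v`: `(G.blow D).bd (α + Pth G a y) = pt (cen v0 0) + pt (ctr a t')`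
(`FrC.bd_Pth_path`), and `ctr a t' = cen t' (a t') ≠ h`.
-/

set_option linter.unusedSectionVars false

namespace FrU

open Finset Fr56 FrC FrG FrT
open scoped Classical

section
variable {V E X : Type} [Fintype V] [Fintype E] [DecidableEq V] [DecidableEq E] {G : Gph V E}
  (Fr : Frame G) (v0 : V) {D : ℕ}

/-- the ends of the edges in `L` -/
private noncomputable def endsV (G : Gph V E) (L : Finset E) : Finset V :=
  L.biUnion fun e => {G.src e, G.tgt e}

private theorem mem_endsV {L : Finset E} {v : V} :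
    v ∈ endsV G L ↔ ∃ e ∈ L, v = G.src e ∨ v = G.tgt e := by
  unfold endsV
  rw [Finset.mem_biUnion]
  refine exists_congr fun e => and_congr_right fun _ => ?_
  rw [Finset.mem_insert, Finset.mem_singleton]

private theorem card_endsV (L : Finset E) : (endsV G L).card ≤ 2 * L.card := by
  unfold endsV
  refine Finset.card_biUnion_le.trans ?_
  refine (Finset.sum_le_card_nsmul _ _ 2 fun e _ => Finset.card_le_two).trans ?_
  rw [smul_eq_mul, Nat.mul_comm]

private theorem mem_cov_s {a : V → FrC.A D} {W : Finset (HV V E D)} {e : E} :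
    e ∈ cov G a W ↔ Tch G a W e := by
  unfold cov
  rw [Finset.mem_filter]
  exact ⟨fun h => h.2, fun h => ⟨Finset.mem_univ _, h⟩⟩

private theorem cov_mono_s {a : V → FrC.A D} {W W' : Finset (HV V E D)} (h : W ⊆ W') :
    cov G a W ⊆ cov G a W' := by
  intro e he
  rw [mem_cov_s] at he ⊢
  obtain ⟨u, hue, hul, hui⟩ := he
  exact ⟨u, hue, hul, Gph.inc_mono _ h hui⟩

private theorem cov_insert_s {a : V → FrC.A D} {W : Finset (HV V E D)} {h : HV V E D} :
    cov G a (insert h W) ⊆ cov G a W ∪ cov G a {h} := by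
  intro e he
  rw [mem_cov_s] at he
  obtain ⟨u, hue, hul, hui⟩ := he
  rw [Finset.mem_union, mem_cov_s, mem_cov_s]
  rcases hui with h1 | h1
  · rcases Finset.mem_insert.1 h1 with h2 | h2
    · exact Or.inr ⟨u, hue, hul, Or.inl (Finset.mem_singleton.2 h2)⟩
    · exact Or.inl ⟨u, hue, hul, Or.inl h2⟩
  · rcases Finset.mem_insert.1 h1 with h2 | h2
    · exact Or.inr ⟨u, hue, hul, Or.inr (Finset.mem_singleton.2 h2)⟩
    · exact Or.inl ⟨u, hue, hul, Or.inr h2⟩

private theorem endsV_mono {L L' : Finset E} (h : L ⊆ L') : endsV G L ⊆ endsV G L' :=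
  Finset.biUnion_subset_biUnion_of_subset_left _ h

private theorem agree_s {α : Xt E D → ZMod 2} {a : V → FrC.A D} {W : Finset (HV V E D)}
    {y y' : E → ZMod 2} (h : G.Agree (endsV G (cov G a W)) y y') :
    ∀ u ∈ (G.blow D).inc W, (α + Pth G a y) u = (α + Pth G a y') u := by
  intro u hu
  simp only [Pi.add_apply]
  congr 1
  unfold FrC.Pth
  by_cases hl : live G a u
  · rw [if_pos hl, if_pos hl]
    refine h u.e (Or.inl ?_)
    rw [mem_endsV]
    exact ⟨u.e, mem_cov_s.2 ⟨u, rfl, hl, hu⟩, Or.inl rfl⟩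
  · rw [if_neg hl, if_neg hl]

private theorem dec_aux_s {Δ R : ℕ} (hΔ : 1 ≤ Δ) (hdeg : G.Deg Δ) {α : Xt E D → ZMod 2}
    {a : V → FrC.A D} {ext : (Xt E D → ZMod 2) → X → Bool} {loc : X → HV V E D}
    (hloc : ∀ x y y', (∀ e ∈ (G.blow D).inc {loc x}, y e = y' e) → ext y x = ext y' x)
    {A : Dtree X} (hno : NoVis G v0 α a ext loc A R) (hm : 2 * (R + Δ) ≤ Fr.m)
    {f : Fm X} (hA : ∀ x, A.eval x = f.eval x) (A' : Dtree X) :
    ∀ (W : Finset (HV V E D)) (y : E → ZMod 2), Reach ext loc (α + Pth G a y) A W A' →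
      Fr.Ok v0 (endsV G (cov G a W)) y → (cov G a W).card < R →
      Dec Fr v0 (QX G (fun y => ext (α + Pth G a y)) f)
        (2 * R - (endsV G (cov G a W)).card) (endsV G (cov G a W)) y := by
  induction A' with
  | leaf b =>
    intro W y hr _ _
    refine Dec.leaf b fun y' hy' => ?_
    have h1 := reach_congr (G := G.blow D) hloc hr (agree_s (α := α) hy')
    have h2 := reach_eval h1
    rw [← hA, h2]
    rfl
  | node x l r ihl ihr =>
    intro W y hr hok hR
    obtain ⟨W1, hW1⟩ : ∃ W1, W1 = insert (loc x) W := ⟨_, rfl⟩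
    have hWW : W ⊆ W1 := by
      rw [hW1]
      exact Finset.subset_insert _ _
    have hc1 : (cov G a W1).card ≤ (cov G a W).card + Δ := by
      have h1 := card_cov G hΔ hdeg a ({loc x} : Finset (HV V E D))
      rw [Finset.card_singleton, mul_one] at h1
      rw [hW1]
      exact (Finset.card_le_card cov_insert_s).trans ((Finset.card_union_le _ _).trans
        (Nat.add_le_add_left h1 _))
    have hUU : endsV G (cov G a W) ⊆ endsV G (cov G a W1) := endsV_mono (cov_mono_s hWW)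
    have hU1 := card_endsV (G := G) (cov G a W1)
    have hstep : ∀ y', G.Agree (endsV G (cov G a W)) y y' →
        Reach ext loc (α + Pth G a y') A W1 (if ext (α + Pth G a y') x then r else l) := by
      intro y' hy'
      rw [hW1]
      exact Reach.step (reach_congr (G := G.blow D) hloc hr (agree_s (α := α) hy'))
    obtain ⟨y1, hag1, t1, hb1, hf1⟩ := Fr.move hUU (by omega) hok
    have hlt : (cov G a W1).card < R := by
      refine hno y1 t1 W1 _ hb1 (hstep y1 hag1) fun e he => ?_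
      constructor
      · intro h
        refine Fr.disj hf1 ?_
        rw [mem_endsV]
        exact ⟨e, he, Or.inl h.symm⟩
      · intro h
        refine Fr.disj hf1 ?_
        rw [mem_endsV]
        exact ⟨e, he, Or.inr h.symm⟩
    have hUun : endsV G (cov G a W) ∪ (endsV G (cov G a W1) \ endsV G (cov G a W)) =
        endsV G (cov G a W1) := Finset.union_sdiff_of_subset hUU
    have hcs := Finset.card_sdiff_add_card_eq_card hUU
    have hbud : 2 * R - (endsV G (cov G a W)).card =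
        (endsV G (cov G a W1) \ endsV G (cov G a W)).card +
          (2 * R - (endsV G (cov G a W1)).card) := by omega
    rw [hbud]
    refine Dec.node (endsV G (cov G a W1) \ endsV G (cov G a W)) le_rfl ?_
    intro y2 hag2 hok2
    rw [hUun] at hok2 ⊢
    have h3 := hstep y2 hag2
    by_cases hb : ext (α + Pth G a y2) x = true
    · rw [if_pos hb] at h3
      exact ihr W1 y2 h3 hok2 hlt
    · rw [if_neg hb] at h3
      exact ihl W1 y2 h3 hok2 hlt

theorem dec_stage0 {Δ R : ℕ} (hΔ : 1 ≤ Δ) (hdeg : G.Deg Δ) {α : Xt E D → ZMod 2}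
    {a : V → FrC.A D} {ext : (Xt E D → ZMod 2) → X → Bool} {loc : X → HV V E D}
    (hloc : ∀ x y y', (∀ e ∈ (G.blow D).inc {loc x}, y e = y' e) → ext y x = ext y' x)
    {A : Dtree X} (hno : NoVis G v0 α a ext loc A R) (hR : 0 < R) (hm : 2 * (R + Δ) ≤ Fr.m)
    {f : Fm X} (hA : ∀ x, A.eval x = f.eval x) (y : E → ZMod 2) (hok : Fr.Ok v0 ∅ y) :
    Dec Fr v0 (QX G (fun y => ext (α + Pth G a y)) f) (2 * R) ∅ y := by
  have hcov : cov G a (∅ : Finset (HV V E D)) = ∅ := by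
    rw [Finset.eq_empty_iff_forall_notMem]
    intro e he
    rw [mem_cov_s] at he
    obtain ⟨u, -, -, hu⟩ := he
    rcases hu with h1 | h1
    · exact absurd h1 (Finset.notMem_empty _)
    · exact absurd h1 (Finset.notMem_empty _)
  have hends : endsV G (cov G a (∅ : Finset (HV V E D))) = ∅ := by
    rw [hcov]
    rfl
  have h := dec_aux_s Fr v0 hΔ hdeg hloc hno hm hA A ∅ y Reach.refl (by rw [hends]; exact hok)
    (by rw [hcov, Finset.card_empty]; exact hR)
  rw [hends, Finset.card_empty, Nat.sub_zero] at h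
  exact h

/-- **hardness of the blow-up for deeper trees** -/
theorem hard_stage0 {d κ r k t R T Δ : ℕ} (hκ : 1 ≤ κ) (hR : 0 < R)
    (hkill : KillsM Fr v0 d 0 (2 * R) 3 r k t) (hl : G.NoLoop) (hD : 0 < D) (hΔ : 1 ≤ Δ)
    (hdeg : G.Deg Δ) (hst : (G.star v0).Nonempty) (hm : 6 * R + 2 * Δ + 1 ≤ Fr.m)
    (hD2 : 5 ^ (2 * Δ) * (Δ * κ) ≤ 2 ^ D * T)
    (hcard : 2 ^ (t + k) * Fintype.card V * 2 ^ (2 * T) < 2 ^ R) :
    HardX (G.blow D) (HV.cen v0 0) d κ k t r := by
  intro X ext loc hloc Ls hLt hLk Rl hR' hRr Ax hAx b hb hbr τ π hπ hbπ hlev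
  obtain ⟨Fs, hFs⟩ : ∃ Fs : Finset (Fm X), Fs =
      (Ls.biUnion fun A => A.subs.toFinset).filter (ShT κ) := ⟨_, rfl⟩
  have hFc : Fs.card ≤ 2 ^ (t + k) := by
    rw [hFs]
    refine (Finset.card_filter_le _ _).trans ?_
    refine (Finset.card_biUnion_le_card_mul Ls _ (2 ^ k) hLk).trans ?_
    rw [pow_add]
    exact Nat.mul_le_mul_right _ hLt
  have hex : ∀ f : Fm X, ∃ T' : Dtree X, ShT κ f → T'.depth ≤ κ ∧ ∀ x, T'.eval x = f.eval x := by
    intro f
    by_cases hf : ShT κ f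
    · obtain ⟨T', hT'⟩ := hf f (Fm.self_mem_subs f)
      exact ⟨T', fun _ => hT'⟩
    · exact ⟨Dtree.leaf true, fun h => absurd h hf⟩
  choose tr htr using hex
  have hAs : ∀ A ∈ Fs.image tr, A.depth ≤ κ := by
    intro A hA
    obtain ⟨f, hf, rfl⟩ := Finset.mem_image.1 hA
    rw [hFs, Finset.mem_filter] at hf
    exact (htr f hf.2).1
  have hcard' : (Fs.image tr).card * Fintype.card V * 2 ^ (2 * T) < 2 ^ R := by
    refine lt_of_le_of_lt ?_ hcard
    exact Nat.mul_le_mul_right _ (Nat.mul_le_mul_right _ (Finset.card_image_le.trans hFc))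
  obtain ⟨α, a, hα, hno⟩ := exists_stage0 G v0 hl hD hΔ hdeg hst ext loc hloc (Fs.image tr) hAs
    hD2 hcard'
  refine hard_of_ext Fr v0 hkill (by omega) (fun y => ext (α + Pth G a y)) (bas_ShT hκ) Ls hLt hLk
    ?_ Rl hR' hRr Ax ?_ b hb hbr τ π hπ hbπ hlev
  · intro A hA f hf hfS y hok
    have hfF : f ∈ Fs := by
      rw [hFs, Finset.mem_filter, Finset.mem_biUnion]
      exact ⟨⟨A, hA, List.mem_toFinset.2 hf⟩, hfS⟩
    exact dec_stage0 Fr v0 hΔ hdeg hloc (hno (tr f) (Finset.mem_image_of_mem tr hfF)) hR (by omega)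
      (htr f hfS).2 y hok
  · intro F hF
    refine (hAx F hF).mono fun f _ hf => ?_
    obtain ⟨hfS, h, hh⟩ := hf
    refine ⟨hfS, (match h with | FrC.HV.cen u _ => u | FrC.HV.mid _ _ _ => v0), fun y t' hy ht' => ?_⟩
    refine hh (α + Pth G a y) (FrC.ctr a t') ?_ ?_
    · rw [Gph.bd_add, hα, bd_Pth_path _ hD a y v0 t' hy, add_assoc, ← add_assoc (FrC.pt (FrC.ctr a v0)),
        add_self2, zero_add]
    · rintro rfl
      exact ht' rfl

end

end FrU
end

section

/-!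
Graphs for the iterated switching step: one more level (see TowA.lean).

PROOF of `lvl_succM`.  Let the level `j` with `T = s^6 T'` be given: `G, Fr, SF, v0, C₂, De`, `|V| ≤ s^6 T' k^j s^(88 (j+1))`.
`exists_DM` with `x = s^75 (s k) = s^76 k` gives `D` (`s^76 k ≤ n s^200 ≤ 2^(s-1)`).  `step_M` with `u = T'`, `ℓ' = s k` gives
`KillsM (Fr.blow ..) .. (j + 1) T' (s k) 3 s k t` (`s^8 T' = s^2 (s^6 T') ≤ Fr.m`; `|HV| + 1 ≤ 2^s` as
`|HV| ≤ |V| s^3 2^D ≤ s^6 T' k^j s^(88 (j+1)) s^3 * 2 s^76 k ≤ T' k^(j+1) s^(88 (j+2)) ≤ n ≤ 2^(s-1)`, by `blow_cardM`).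
Let `B = (G.tall s).blow D` (`Deg 74`: `FrC.deg_blow`, `deg_tall`), `pos` from `exists_pos` with `q = 74`,
`P0 = splitG B pos` (`Deg 3`), `X` an expander on `HV .. × Fin 75`, `P = addG P0 X` (`Deg 19`, `Expd 16` by
`expd_add`, no loops), `N = |HV| * 75`.  `exists_prodM` with `m = Fr.m / 2`.  The embedding is
`embComp (embComp (embSplit B pos hpos) (embAdd P0 X)) (embProd P Y l0)`, with constant `c = 75 * 1 * cN N`.
`kills_emb` gives `ρ = c * 3 ≤ s` (`hg.fib`; `N ≤ n`), and `kills_mono_rho` `ρ = s`.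
Size: `N cN N ≤ |HV| * 75 * s ≤ s^6 T' k^j s^(88 (j+1)) s^3 * 2 s^76 k * 75 s ≤ T' k^(j+1) s^(88 (j+2))`
(`6 + 3 + 76 + 1 = 86`, and `2 * 75 ≤ s`).
`77824 (Fr.m / 2) ≤ 77824 Fr.m ≤ |V| ≤ |HV| ≤ N ≤ N cN N`.  Capacity: `s^2 T' ≤ Fr.m / 2` as `s^2 (s^6 T') ≤ Fr.m`.
`Free ∅`: `bFree_cen` as in `FrT.towersT`, and the definition of `embFrame`.  `Γ`: images only decrease.
-/

set_option linter.unusedSectionVars false

namespace FrU

open Finset Fr56 FrC FrG FrT
open scoped Classical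

private theorem le_XM_aux (C : ℕ) : C ≤ XM KU 73 C 35 := by
  have hKU : 1 ≤ KU := by unfold KU; omega
  obtain ⟨K, hK⟩ : ∃ K, K = KU := ⟨_, rfl⟩
  rw [← hK] at hKU ⊢
  have h4 : C ≤ K3c K 73 C 35 := by
    unfold K3c
    calc C ≤ 1 * (2 + 73) * (1 + C * 35) := by omega
      _ ≤ K * (2 + 73) * (1 + C * 35) := by gcongr
  have h3 : C ≤ 35 * (K * (2 + K3c K 73 C 35)) := by
    calc C ≤ 1 * (1 * (2 + K3c K 73 C 35)) := by omega
      _ ≤ 35 * (K * (2 + K3c K 73 C 35)) := by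
        gcongr
        norm_num
  unfold XM YM
  calc C ≤ 2 ^ (35 * (K * (2 + K3c K 73 C 35))) := h3.trans Nat.lt_two_pow_self.le
    _ ≤ 2 * 2 ^ (35 * (K * (2 + K3c K 73 C 35))) := Nat.le_mul_of_pos_left _ (by norm_num)
    _ ≤ 2 * 2 ^ (35 * (K * (2 + K3c K 73 C 35))) * 2 ^ JM K 73 35 :=
        Nat.le_mul_of_pos_right _ (Nat.two_pow_pos _)

/-- splitting, an expander and the product -/
private theorem lvl_aux {VB EB : Type} [Fintype VB] [Fintype EB] [DecidableEq VB] [DecidableEq EB]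
    {B : Gph VB EB} {n s k t T' j : ℕ} (hg : GoodS n s) (Fr : Frame B) (SF : SFrame Fr) (w0 : VB)
    (hnlB : B.NoLoop) (hdegB : B.Deg 74) (hfree : Fr.Free ∅ w0)
    (hNn : Fintype.card VB * 75 ≤ n)
    (hN : Fintype.card VB * 75 * s ≤ T' * k ^ (j + 1) * s ^ (88 * (j + 2)))
    (hΓ : SF.Γ.card + 1 ≤ 2 ^ s) (h77 : 77824 * Fr.m ≤ Fintype.card VB) (hm : s ^ 2 * T' ≤ Fr.m)
    (hkill : KillsM Fr w0 (j + 1) T' (s * k) 3 s k t) : HasLvlM (j + 1) T' k t s := by
  obtain ⟨pos, hpos⟩ := exists_pos B hnlB hdegB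
  obtain ⟨E', iE', dE', X, hXl, hXd, hXe, hXc⟩ := exists_expander (VB × Fin (74 + 1))
  have hcard : Fintype.card (VB × Fin (74 + 1)) = Fintype.card VB * 75 := by
    rw [Fintype.card_prod, Fintype.card_fin]
  obtain ⟨N, hN'⟩ : ∃ N, N = Fintype.card (VB × Fin (74 + 1)) := ⟨_, rfl⟩
  have hlP : (addG (splitG B pos) X).NoLoop := noLoop_add (noLoop_split _ pos hnlB) hXl
  have hdP : (addG (splitG B pos) X).Deg 19 :=
    deg_add (Δ := 3) (Δ' := 16) (deg_split _ pos hpos) hXd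
  have heP : Expd (addG (splitG B pos) X) 16 := expd_add hXe
  have hNn' : Fintype.card (VB × Fin (74 + 1)) ≤ n := by
    rw [hcard]; exact hNn
  have hxm := hg.xm _ hNn'
  have hfib := hg.fib _ hNn'
  have hC2 := (le_XM_aux _).trans hxm
  obtain ⟨F, iF, dF, Y, l0, De', hl', hd'⟩ := exists_prodM (m := Fr.m) (s := s)
    (addG (splitG B pos) X) hlP hdP heP (by rw [hcard]; omega) hC2
  have hc0 : 0 < cN (Fintype.card (VB × Fin (74 + 1))) :=
    Nat.pos_of_ne_zero fun h0 => by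
      have := l0.2
      omega
  have Em : Emb B (prodG (addG (splitG B pos) X) Y)
      (((74 + 1) * 1) * Fintype.card (Fin (cN (Fintype.card (VB × Fin (74 + 1)))))) :=
    embComp (embComp (embSplit B pos hpos) (embAdd (splitG B pos) X))
      (embProd (addG (splitG B pos) X) Y l0)
  have hkill1 := kills_emb Fr w0 Em (by
    rw [Fintype.card_fin]
    omega) (by norm_num) hkill
  refine ⟨(VB × Fin (74 + 1)) × Fin (cN (Fintype.card (VB × Fin (74 + 1)))), _,
    _, _, _, inferInstance, prodG (addG (splitG B pos) X) Y, embFrame Fr Em, embSFrame Em SF,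
    Em.base w0, C2N (Fintype.card (VB × Fin (74 + 1))), De', hxm, hl', hd', ?_, ?_, ?_, ?_, hm,
    kills_mono_rho _ _ hkill1 ?_⟩
  · show Em.base w0 = Em.base (Em.prj (Em.base w0)) ∧
      Fr.Free ((∅ : Finset _).image Em.prj) (Em.prj (Em.base w0))
    rw [Em.prj_base, Finset.image_empty]
    exact ⟨rfl, hfree⟩
  · rw [Fintype.card_prod, hcard, Fintype.card_fin]
    refine le_trans (Nat.mul_le_mul_left _ ?_) hN
    rw [← hcard]
    omega
  · refine le_trans (Nat.add_le_add_right ?_ 1) hΓ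
    exact Finset.card_image_le
  · show 77824 * Fr.m ≤ _
    rw [Fintype.card_prod, hcard, Fintype.card_fin]
    calc 77824 * Fr.m ≤ Fintype.card VB := h77
      _ ≤ Fintype.card VB * 75 := by omega
      _ ≤ _ := Nat.le_mul_of_pos_right _ (by rw [← hcard]; exact hc0)
  · rw [Fintype.card_fin]
    omega

theorem lvl_succM {n s k t T' j : ℕ} (hg : GoodS n s) (hk : 1 ≤ k) (hkt : k ≤ t) (htT : t ≤ T')
    (hT : T' * k ^ (j + 1) * s ^ (88 * (j + 2)) ≤ n) (h : HasLvlM j (s ^ 6 * T') k t s) :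
    HasLvlM (j + 1) T' k t s := by
  obtain ⟨V, E, iV, iE, dV, dE, G, Fr, SF, v0, C₂, De, hX, hnl, hdeg, hfree, hcV, hΓ, h77, hm,
    hkill⟩ := h
  have hcst := hg.cst
  have hs150 : 150 ≤ s := by
    refine le_trans ?_ hcst
    unfold cstU
    have : 150 ≤ 185 * 5 ^ 74 := by norm_num
    omega
  have hT'1 : 1 ≤ T' := by omega
  have hQ0 : 0 < s := by omega
  have hkn : k ≤ n := by
    refine le_trans ?_ hT
    calc k = 1 * k ^ 1 * 1 := by ring
      _ ≤ T' * k ^ (j + 1) * s ^ (88 * (j + 2)) := by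
          refine Nat.mul_le_mul (Nat.mul_le_mul hT'1 (Nat.pow_le_pow_right hk (by omega))) ?_
          exact Nat.one_le_pow _ _ hQ0
  have hbig := hg.big
  have hx1 : 1 ≤ s ^ 76 * k := Nat.mul_pos (Nat.pow_pos hQ0) hk
  have hx2 : s ^ 76 * k ≤ 2 ^ (s - 1) := by
    refine le_trans ?_ hbig
    rw [mul_comm]
    exact Nat.mul_le_mul hkn (Nat.pow_le_pow_right hQ0 (by omega))
  obtain ⟨D, hD0, hDs, hD1, hD2⟩ := exists_DM hx1 hx2 hQ0
  obtain ⟨H, hH⟩ : ∃ H, H = Fintype.card (HV (TV V s) (TE V E s) D) := ⟨_, rfl⟩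
  -- size of the blow-up
  have hHle : H ≤ 2 * (T' * k ^ (j + 1) * s ^ (88 * (j + 1) + 85)) := by
    rw [hH]
    refine (blow_cardM hdeg (by omega) hDs).trans ?_
    calc Fintype.card V * s ^ 3 * 2 ^ D
        ≤ (s ^ 6 * T' * k ^ j * s ^ (88 * (j + 1))) * s ^ 3 * (2 * (s ^ 76 * k)) := by gcongr
      _ = 2 * (T' * k ^ (j + 1) * (s ^ 6 * s ^ (88 * (j + 1)) * s ^ 3 * s ^ 76)) := by
          rw [pow_succ k j]; ring
      _ = 2 * (T' * k ^ (j + 1) * s ^ (88 * (j + 1) + 85)) := by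
          congr 2
          rw [← pow_add, ← pow_add, ← pow_add]
          congr 1
          omega
  have hmul : ∀ a b : ℕ, a ≤ s → b ≤ s → a * b * (T' * k ^ (j + 1) * s ^ (88 * (j + 1) + 85)) ≤
      T' * k ^ (j + 1) * s ^ (88 * (j + 2) - 1) := by
    intro a b ha hb
    calc a * b * (T' * k ^ (j + 1) * s ^ (88 * (j + 1) + 85))
        ≤ s * s * (T' * k ^ (j + 1) * s ^ (88 * (j + 1) + 85)) :=
          Nat.mul_le_mul_right _ (Nat.mul_le_mul ha hb)
      _ = T' * k ^ (j + 1) * s ^ (88 * (j + 1) + 85 + 2) := by rw [pow_add s _ 2]; ring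
      _ = T' * k ^ (j + 1) * s ^ (88 * (j + 2) - 1) := by
          congr 2
  have hpow1 : T' * k ^ (j + 1) * s ^ (88 * (j + 2) - 1) ≤
      T' * k ^ (j + 1) * s ^ (88 * (j + 2)) :=
    Nat.mul_le_mul_left _ (Nat.pow_le_pow_right hQ0 (by omega))
  have hN : H * 75 ≤ T' * k ^ (j + 1) * s ^ (88 * (j + 2) - 1) := by
    refine le_trans ?_ (hmul 150 1 hs150 hQ0)
    omega
  have hNn : H * 75 ≤ n := hN.trans (hpow1.trans hT)
  have hHn : H ≤ n := by omega
  have hn2 : n ≤ 2 ^ (s - 1) := by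
    refine le_trans ?_ hbig
    exact Nat.le_mul_of_pos_right _ (Nat.pow_pos hQ0)
  have hHs : H + 1 ≤ 2 ^ s := by
    have h1 : 2 ^ s = 2 ^ (s - 1) + 2 ^ (s - 1) := by
      obtain ⟨r, hr⟩ : ∃ r, s = r + 1 := ⟨s - 1, by omega⟩
      rw [hr, Nat.add_sub_cancel, pow_succ]
      ring
    have h2 : 1 ≤ 2 ^ (s - 1) := Nat.one_le_two_pow
    omega
  have hcVH : Fintype.card V ≤ H := by
    rw [hH]
    refine le_trans ?_ (le_blow_card (V := V) (E := E) s D)
    exact Nat.le_mul_of_pos_right _ hQ0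
  have hm8 : s ^ 8 * T' ≤ Fr.m := by
    refine le_trans (le_of_eq ?_) hm
    ring
  have hkill' := step_M Fr v0 SF (u := T') (T' := T') (ℓ' := s * k) De hnl hdeg hkill hcst hX hk
    hkt htT le_rfl (Nat.mul_pos hQ0 hk) (Nat.mul_le_mul_left _ (hkt.trans htT))
    (by rw [← hH]; exact hHs) hΓ hm8 hQ0 hD0 (by
      refine le_trans (le_of_eq ?_) hD1
      ring)
  refine lvl_aux hg (Fr.blow s D hQ0 hD0) (sframeBlow SF hQ0 hD0) (HV.cen (v0, 0) 0)
    (noLoop_blow _ hD0 (noLoop_tall G hnl))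
    (deg_blow (G.tall s) (noLoop_tall G hnl) (by omega) (deg_tall G hdeg))
    (bFree_cen Fr s D 0 (by simpa [Unc] using hfree)) (by rw [← hH]; exact hNn) ?_ ?_ ?_ ?_ hkill'
  · rw [← hH]
    calc H * 75 * s ≤ T' * k ^ (j + 1) * s ^ (88 * (j + 2) - 1) * s := Nat.mul_le_mul_right _ hN
      _ = T' * k ^ (j + 1) * s ^ (88 * (j + 2)) := by
          rw [mul_assoc, ← pow_succ]
          congr 2
  · refine le_trans (Nat.add_le_add_right ?_ 1) hΓ
    exact Finset.card_image_le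
  · rw [← hH]
    have : (Fr.blow s D hQ0 hD0).m ≤ Fr.m := Nat.div_le_self _ _
    omega
  · show s ^ 2 * T' ≤ Fr.m / 2
    rw [Nat.le_div_iff_mul_le (by norm_num)]
    refine le_trans ?_ hm8
    calc s ^ 2 * T' * 2 ≤ s ^ 2 * T' * s := Nat.mul_le_mul_left _ (by omega)
      _ = s ^ 3 * T' := by ring
      _ ≤ s ^ 8 * T' := Nat.mul_le_mul_right _ (Nat.pow_le_pow_right hQ0 (by omega))

/-- **graphs for the iterated switching step** -/
theorem towersM {n s k t : ℕ} (hg : GoodS n s) (hk : 1 ≤ k) (hkt : k ≤ t) (j : ℕ) :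
    ∀ T, t ≤ T → T * k ^ j * s ^ (88 * (j + 1)) ≤ n → HasLvlM j T k t s := by
  induction j with
  | zero =>
    intro T htT hT
    refine lvl_zeroM hg (by omega) ?_
    simpa using hT
  | succ j ih =>
    intro T htT hT
    have hs1 : 1 ≤ s := by
      have h1 := hg.cst
      have h2 : 1 ≤ cstU := by
        unfold cstU
        have : 1 ≤ 185 * 5 ^ 74 := by norm_num
        omega
      omega
    refine lvl_succM hg hk hkt htT hT (ih (s ^ 6 * T) ?_ ?_)
    · exact htT.trans (Nat.le_mul_of_pos_left _ (Nat.pow_pos hs1))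
    · refine le_trans ?_ hT
      have h1 : s ^ (6 + 88 * (j + 1)) ≤ s ^ (88 * (j + 1 + 1)) :=
        Nat.pow_le_pow_right hs1 (by omega)
      have h2 : k ^ j ≤ k ^ (j + 1) := Nat.pow_le_pow_right hk (by omega)
      calc s ^ 6 * T * k ^ j * s ^ (88 * (j + 1)) = T * k ^ j * s ^ (6 + 88 * (j + 1)) := by
            rw [pow_add]; ring
        _ ≤ T * k ^ (j + 1) * s ^ (88 * (j + 1 + 1)) :=
            Nat.mul_le_mul (Nat.mul_le_mul_left _ h2) h1

end FrU
end

section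

/-!
The components of the final graph: one for each choice of the depth `d`, the tree depth `κ` and the
line size `2^k`.

PROOF of `comp_exists`.  Let `j = d - 1`.  Write `x = t * k ^ (d - 1)`; `1 ≤ t, k, s`; `10 ≤ s`.

Case A, `κ ≤ s * t`.  `towersM` with `T = s^6 t` (`t ≤ T`; `T k^j s^(88 d) = x s^(88 d + 6) ≤ n`) gives the level
`HasLvlM j (s^6 t) k t s`: `G, Fr, SF, v0, De`.  `exists_DM` with `s^75 κ` (`≤ n s^200 ≤ 2^(s-1)`, `κ ≤ n`) gives `D`.
`step_M` with `u = t`, `T' = 0`, `ℓ' = κ` gives `KillsM (Fr.blow ..) (cen (v0, 0) 0) d 0 κ 3 s k t`; here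
`|HV| ≤ |V| s^3 2^D ≤ x s^(88 d + 6) s^3 * 2 s^75 κ ≤ x κ s^(88 d + 85) ≤ n` (`blow_cardM`), so `|HV| + 1 ≤ 2^s`
(`n ≤ 2^(s-1)` by `hg.big`).  `hard_direct` with `(Fr.blow ..).m = Fr.m / 2 ≥ s^8 t / 2 ≥ 3 κ + 1`.  The graph is
`(G.tall s).blow D`, of degree `2 (35 + 2) = 74 ≤ 148`, no loops.

Case B, `s * t < κ`.  `T = s^6 (2 t)`, `T k^j s^(88 d) = 2 x s^(88 d + 6) ≤ n`.  `exists_DM` with
`s^75 (2 s t)`: `2^D ≤ 4 s^76 t`.  `step_M` with `u = 2 t`, `T' = 0`, `ℓ' = 2 (s t)`: `KillsM (Fr.blow ..) .. d 0 (2 (s t)) 3 s k t`,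
on the graph `G1 = (G.tall s).blow D`, `Deg 74`, with
`|V1| ≤ |V| s^3 2^D ≤ 2 x s^(88 d + 6) s^3 * 4 s^76 t ≤ x t s^(88 d + 86) ≤ x κ s^(88 d + 86) ≤ n`.
`hard_stage0` with `R = s t`, `T = t`, `Δ = 74` and the depth `D0 = Nat.log 2 (s^2 κ / t) + 1`: then
`s^2 κ ≤ 2^D0 t` (`s^2 κ / t < 2^D0`), `2^D0 t ≤ 2 s^2 κ` (`2^(Nat.log 2 q) ≤ q`, `q = s^2 κ / t ≥ 1`, `q t ≤ s^2 κ`),
`5^(2 * 74) (74 κ) ≤ s^2 κ` as `185 * 5^74 ≤ s`; `D0 ≤ s` (`2^(D0 - 1) ≤ s^2 κ ≤ n s^200 / 2`...; `hg.big`).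
`hcard`: `2^(t + k) |V1| 2^(2 t) < 2^(s t)`: `k ≤ t`; `|V1| 2^200 ≤ n s^200 ≤ 2^(s - 1)`, so it suffices that
`4 t + (s - 1) - 200 < s t`: for `t = 1` clear, for `t ≥ 2` `s t - s ≥ s t / 2 ≥ 4 t`.
`hm`: `(Fr.blow ..).m = Fr.m / 2 ≥ s^8 t ≥ 6 s t + 149` (`s^2 T = 2 s^8 t ≤ Fr.m`).  The star of `cen (v0, 0) 0` is not
empty: `FrC.mem_star_cen` (as in T/FinalT.lean).
The graph is `G1.blow D0`, of degree `148`; `FrC.card_HV`: its number of vertices is
`|V1| 2^D0 + |E1| D0 2^D0 ≤ |V1| 2^D0 (1 + 74 D0) ≤ |V1| 2^D0 s^2` (`FrT.card_E_le`), and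
`|V1| 2^D0 s^2 ≤ x t s^(88 d + 86) 2^D0 s^2 ≤ x s^(88 d + 88) * 2 s^2 κ ≤ x κ s^(88 d + 91) ≤ n`.
-/

set_option linter.unusedSectionVars false

namespace FrU

open Finset Fr56 FrC FrG FrT
open scoped Classical

private theorem deg_mono {V E : Type} [Fintype E] [DecidableEq V] {G : Gph V E} {Δ Δ' : ℕ}
    (h : G.Deg Δ) (hh : Δ ≤ Δ') : G.Deg Δ' := fun v => (h v).trans hh

/-- **the components** -/
theorem comp_exists {n s d κ k t : ℕ} (hg : GoodS n s) (hd : 1 ≤ d) (hκ : 1 ≤ κ) (hk : 1 ≤ k)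
    (hkt : k ≤ t) (h : t * k ^ (d - 1) * κ * s ^ (88 * d + 92) ≤ n) :
    ∃ (V E : Type) (_ : Fintype V) (_ : Fintype E) (_ : DecidableEq V) (_ : DecidableEq E)
      (G : Gph V E) (v0 : V), G.NoLoop ∧ G.Deg 148 ∧ Fintype.card V ≤ n ∧
      HardX G v0 d κ k t s := by
  obtain ⟨j, rfl⟩ : ∃ j, d = j + 1 := ⟨d - 1, by omega⟩
  rw [Nat.add_sub_cancel] at h
  have hcst : 185 * 5 ^ 74 ≤ s := by
    have h1 := hg.cst
    unfold cstU at h1
    omega
  obtain ⟨cc, hcc⟩ : ∃ cc : ℕ, cc = 5 ^ 74 := ⟨_, rfl⟩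
  have hcc1 : 1000 ≤ cc := by rw [hcc]; norm_num
  rw [← hcc] at hcst
  have hs1 : 185000 ≤ s := by omega
  have ht : 1 ≤ t := hk.trans hkt
  have hQ : 0 < s := by omega
  obtain ⟨A, hA⟩ : ∃ A, A = s ^ (88 * (j + 1)) := ⟨_, rfl⟩
  have hA1 : 1 ≤ A := by rw [hA]; exact Nat.pow_pos hQ
  have hkj : 1 ≤ k ^ j := Nat.pow_pos hk
  obtain ⟨x, hx⟩ : ∃ x, x = t * k ^ j * A := ⟨_, rfl⟩
  have hx1 : 1 ≤ x := by
    rw [hx]
    exact Nat.mul_pos (Nat.mul_pos ht hkj) hA1
  have hxt : t ≤ x := by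
    rw [hx, mul_assoc]
    exact Nat.le_mul_of_pos_right _ (Nat.mul_pos hkj hA1)
  have h' : x * κ * s ^ 92 ≤ n := by
    refine le_trans (le_of_eq ?_) h
    rw [hx, pow_add, ← hA]
    ring
  have key : ∀ c e, c ≤ s → e ≤ 91 → c * (x * κ) * s ^ e ≤ n := by
    intro c e hc he
    calc c * (x * κ) * s ^ e ≤ s * (x * κ) * s ^ 91 :=
          Nat.mul_le_mul (Nat.mul_le_mul_right _ hc) (Nat.pow_le_pow_right hQ he)
      _ = x * κ * s ^ 92 := by ring
      _ ≤ n := h'
  have hxκ : x * κ ≤ n := by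
    have := key 1 0 (by omega) (by omega)
    simpa using this
  have hκn : κ ≤ n := le_trans (Nat.le_mul_of_pos_left _ hx1) hxκ
  have htn : t ≤ n := le_trans (hxt.trans (Nat.le_mul_of_pos_right _ hκ)) hxκ
  have hbig := hg.big
  have hbn : ∀ c e, c ≤ s → e ≤ 199 → c * n * s ^ e ≤ 2 ^ (s - 1) := by
    intro c e hc he
    calc c * n * s ^ e ≤ s * n * s ^ 199 :=
          Nat.mul_le_mul (Nat.mul_le_mul_right _ hc) (Nat.pow_le_pow_right hQ he)
      _ = n * s ^ 200 := by ring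
      _ ≤ 2 ^ (s - 1) := hbig
  have h2s : 2 ^ s = 2 * 2 ^ (s - 1) := by
    rw [← pow_succ']
    congr 1
    omega
  have hn2 : n + 1 ≤ 2 ^ s := by
    have h1 := hbn 1 0 (by omega) (by omega)
    rw [one_mul, pow_zero, mul_one] at h1
    have h3 : 1 ≤ 2 ^ (s - 1) := Nat.one_le_two_pow
    omega
  by_cases hcase : κ ≤ s * t
  · -- direct
    have hT : s ^ 6 * t * k ^ j * s ^ (88 * (j + 1)) ≤ n := by
      rw [← hA]
      calc s ^ 6 * t * k ^ j * A = x * 1 * s ^ 6 := by rw [hx]; ring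
        _ ≤ x * κ * s ^ 6 := Nat.mul_le_mul_right _ (Nat.mul_le_mul_left _ hκ)
        _ = 1 * (x * κ) * s ^ 6 := by ring
        _ ≤ n := key 1 6 (by omega) (by omega)
    obtain ⟨V, E, iV, iE, dV, dE, G, Fr, SF, v0, C₂, De, hX, hnl, hdeg, hfree, hcV, hΓ, -, hm,
      hkill⟩ := towersM hg hk hkt j (s ^ 6 * t)
        (Nat.le_mul_of_pos_left _ (Nat.pow_pos hQ)) hT
    obtain ⟨D, hD0, hDs, hD1, hD2⟩ := exists_DM (x := s ^ 75 * κ) (s := s)
      (Nat.mul_pos (Nat.pow_pos hQ) hκ) (by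
        calc s ^ 75 * κ ≤ s ^ 75 * n := Nat.mul_le_mul_left _ hκn
          _ = 1 * n * s ^ 75 := by ring
          _ ≤ _ := hbn 1 75 (by omega) (by omega)) (by omega)
    have hcard : Fintype.card (HV (TV V s) (TE V E s) D) ≤ n := by
      calc Fintype.card (HV (TV V s) (TE V E s) D) ≤ Fintype.card V * s ^ 3 * 2 ^ D :=
            blow_cardM hdeg (by omega) hDs
        _ ≤ (s ^ 6 * t * k ^ j * s ^ (88 * (j + 1))) * s ^ 3 * (2 * (s ^ 75 * κ)) :=
            Nat.mul_le_mul (Nat.mul_le_mul_right _ hcV) hD2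
        _ = 2 * (x * κ) * s ^ 84 := by rw [← hA, hx]; ring
        _ ≤ n := key 2 84 (by omega) (by omega)
    have hmm : s ^ 8 * t ≤ Fr.m := by
      refine le_trans (le_of_eq ?_) hm
      ring
    have hkill' := step_M Fr v0 SF (u := t) (T' := 0) (ℓ' := κ) De hnl hdeg hkill hg.cst hX hk
      hkt le_rfl (Nat.zero_le _) hκ hcase (le_trans (Nat.add_le_add_right hcard 1) hn2) hΓ hmm hQ
      hD0 hD1
    have hdeg' : ((G.tall s).blow D).Deg (2 * (35 + 2)) :=
      deg_blow (G.tall s) (noLoop_tall G hnl) (by omega) (deg_tall G hdeg)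
    refine ⟨HV (TV V s) (TE V E s) D, Xt (TE V E s) D, inferInstance, inferInstance,
      inferInstance, inferInstance, (G.tall s).blow D, HV.cen (v0, 0) 0,
      noLoop_blow _ hD0 (noLoop_tall G hnl), deg_mono hdeg' (by norm_num), hcard, ?_⟩
    refine hard_direct (Fr.blow s D hQ hD0) (HV.cen (v0, 0) 0) hκ hkill' ?_
    show 3 * κ + 1 ≤ Fr.m / 2
    rw [Nat.le_div_iff_mul_le (by norm_num)]
    refine le_trans ?_ hmm
    have e1 : s * (s * t) ≤ s ^ 8 * t := by
      calc s * (s * t) = s ^ 2 * t := by ring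
        _ ≤ s ^ 8 * t := Nat.mul_le_mul_right _ (Nat.pow_le_pow_right hQ (by norm_num))
    refine le_trans ?_ e1
    have e2 : 185000 * (s * t) ≤ s * (s * t) := Nat.mul_le_mul_right _ hs1
    have e3 : 1 ≤ s * t := Nat.mul_pos hQ ht
    omega
  · -- stage 0
    have hst : s * t < κ := not_le.1 hcase
    have hT : s ^ 6 * (2 * t) * k ^ j * s ^ (88 * (j + 1)) ≤ n := by
      rw [← hA]
      calc s ^ 6 * (2 * t) * k ^ j * A = 2 * (x * 1) * s ^ 6 := by rw [hx]; ring
        _ ≤ 2 * (x * κ) * s ^ 6 :=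
          Nat.mul_le_mul_right _ (Nat.mul_le_mul_left _ (Nat.mul_le_mul_left _ hκ))
        _ ≤ n := key 2 6 (by omega) (by omega)
    obtain ⟨V, E, iV, iE, dV, dE, G, Fr, SF, v0, C₂, De, hX, hnl, hdeg, hfree, hcV, hΓ, -, hm,
      hkill⟩ := towersM hg hk hkt j (s ^ 6 * (2 * t))
        (le_trans (by omega : t ≤ 2 * t) (Nat.le_mul_of_pos_left _ (Nat.pow_pos hQ))) hT
    obtain ⟨D, hD0, hDs, hD1, hD2⟩ := exists_DM (x := s ^ 75 * (2 * (s * t))) (s := s)
      (Nat.mul_pos (Nat.pow_pos hQ) (Nat.mul_pos (by norm_num) (Nat.mul_pos hQ ht))) (by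
        calc s ^ 75 * (2 * (s * t)) ≤ s ^ 75 * (2 * (s * n)) := by gcongr
          _ = 2 * n * s ^ 76 := by ring
          _ ≤ _ := hbn 2 76 (by omega) (by omega)) (by omega)
    have hcard1 : Fintype.card (HV (TV V s) (TE V E s) D) ≤ 8 * (x * (s * t)) * s ^ 84 := by
      calc Fintype.card (HV (TV V s) (TE V E s) D) ≤ Fintype.card V * s ^ 3 * 2 ^ D :=
            blow_cardM hdeg (by omega) hDs
        _ ≤ (s ^ 6 * (2 * t) * k ^ j * s ^ (88 * (j + 1))) * s ^ 3 *
            (2 * (s ^ 75 * (2 * (s * t)))) :=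
            Nat.mul_le_mul (Nat.mul_le_mul_right _ hcV) hD2
        _ = 8 * (x * (s * t)) * s ^ 84 := by rw [← hA, hx]; ring
    have hcard : Fintype.card (HV (TV V s) (TE V E s) D) ≤ n := by
      refine hcard1.trans (le_trans ?_ (key 8 84 (by omega) (by omega)))
      gcongr
    have hmm : s ^ 8 * (2 * t) ≤ Fr.m := by
      refine le_trans (le_of_eq ?_) hm
      ring
    have hkill' := step_M Fr v0 SF (u := 2 * t) (T' := 0) (ℓ' := 2 * (s * t)) De hnl hdeg hkill
      hg.cst hX hk hkt (by omega) (Nat.zero_le _)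
      (by have := Nat.mul_pos hQ ht; omega) (le_of_eq (by ring))
      (le_trans (Nat.add_le_add_right hcard 1) hn2) hΓ hmm hQ hD0 hD1
    have hdeg' : ((G.tall s).blow D).Deg 74 :=
      deg_blow (G.tall s) (noLoop_tall G hnl) (by omega) (deg_tall G hdeg)
    have hnl' : ((G.tall s).blow D).NoLoop := noLoop_blow _ hD0 (noLoop_tall G hnl)
    -- the second depth
    obtain ⟨y, hy⟩ : ∃ y, y = s ^ 2 * κ / t := ⟨_, rfl⟩
    have hy1 : y * t ≤ s ^ 2 * κ := by rw [hy]; exact Nat.div_mul_le_self _ _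
    have hy0 : y ≠ 0 := by
      rw [hy]
      have h1 : t ≤ s ^ 2 * κ := by
        calc t ≤ s * t := Nat.le_mul_of_pos_left _ hQ
          _ ≤ κ := hst.le
          _ ≤ s ^ 2 * κ := Nat.le_mul_of_pos_left _ (Nat.pow_pos hQ)
      exact (Nat.div_pos h1 ht).ne'
    obtain ⟨D0, hD0'⟩ : ∃ D0, D0 = Nat.log 2 y + 1 := ⟨_, rfl⟩
    have hDpos : 0 < D0 := by omega
    have hlow : s ^ 2 * κ ≤ 2 ^ D0 * t := by
      have h1 : y < 2 ^ D0 := by
        rw [hD0']
        exact Nat.lt_pow_succ_log_self (by norm_num) _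
      rw [hy, Nat.div_lt_iff_lt_mul ht] at h1
      exact h1.le
    have hup : 2 ^ D0 * t ≤ 2 * (s ^ 2 * κ) := by
      have h1 : 2 ^ D0 ≤ 2 * y := by
        rw [hD0', pow_succ, mul_comm]
        exact Nat.mul_le_mul_left _ (Nat.pow_log_le_self 2 hy0)
      calc 2 ^ D0 * t ≤ 2 * y * t := Nat.mul_le_mul_right _ h1
        _ = 2 * (y * t) := by ring
        _ ≤ _ := Nat.mul_le_mul_left _ hy1
    have hD0s : D0 ≤ s := by
      have h1 : 2 ^ Nat.log 2 y ≤ 2 ^ (s - 1) := by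
        calc 2 ^ Nat.log 2 y ≤ y := Nat.pow_log_le_self 2 hy0
          _ ≤ y * t := Nat.le_mul_of_pos_right _ ht
          _ ≤ s ^ 2 * κ := hy1
          _ ≤ s ^ 2 * n := Nat.mul_le_mul_left _ hκn
          _ = 1 * n * s ^ 2 := by ring
          _ ≤ 2 ^ (s - 1) := hbn 1 2 (by omega) (by omega)
      have h2 : Nat.log 2 y ≤ s - 1 := (Nat.pow_le_pow_iff_right (by norm_num)).1 h1
      omega
    have hD2' : 5 ^ (2 * 74) * (74 * κ) ≤ 2 ^ D0 * t := by
      refine le_trans ?_ hlow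
      have e1 : (5 : ℕ) ^ (2 * 74) = cc * cc := by rw [hcc, ← pow_add]
      rw [e1]
      calc cc * cc * (74 * κ) = (74 * cc) * cc * κ := by ring
        _ ≤ s * s * κ := by
            gcongr
            · omega
            · omega
        _ = s ^ 2 * κ := by ring
    have hc4 : 2 ^ (t + k) * Fintype.card (HV (TV V s) (TE V E s) D) * 2 ^ (2 * t) <
        2 ^ (s * t) := by
      have e1 : Fintype.card (HV (TV V s) (TE V E s) D) * 2 ^ 200 ≤ 2 ^ (s - 1) := by
        refine le_trans ?_ hbig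
        exact Nat.mul_le_mul hcard (Nat.pow_le_pow_left (by omega) 200)
      have e2 : 4 * t + s ≤ s * t + 200 := by
        rcases Nat.lt_or_ge t 2 with h2 | h2
        · have : t = 1 := by omega
          subst this
          omega
        · obtain ⟨w, rfl⟩ : ∃ w, t = w + 2 := ⟨t - 2, by omega⟩
          have e3 : 8 * (w + 1) ≤ s * (w + 1) := Nat.mul_le_mul_right _ (by omega)
          have e4 : s * (w + 2) = s * (w + 1) + s := by ring
          omega
      have e5 : 2 ^ (t + k) * Fintype.card (HV (TV V s) (TE V E s) D) * 2 ^ (2 * t) * 2 ^ 200 <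
          2 ^ (s * t) * 2 ^ 200 := by
        calc 2 ^ (t + k) * Fintype.card (HV (TV V s) (TE V E s) D) * 2 ^ (2 * t) * 2 ^ 200
            = 2 ^ (t + k) * 2 ^ (2 * t) *
              (Fintype.card (HV (TV V s) (TE V E s) D) * 2 ^ 200) := by ring
          _ ≤ 2 ^ (t + k) * 2 ^ (2 * t) * 2 ^ (s - 1) := Nat.mul_le_mul_left _ e1
          _ = 2 ^ (t + k + 2 * t + (s - 1)) := by rw [← pow_add, ← pow_add]
          _ < 2 ^ (s * t + 200) := Nat.pow_lt_pow_right (by norm_num) (by omega)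
          _ = 2 ^ (s * t) * 2 ^ 200 := pow_add _ _ _
      exact Nat.lt_of_mul_lt_mul_right e5
    have hm0 : 6 * (s * t) + 2 * 74 + 1 ≤ (Fr.blow s D hQ hD0).m := by
      show 6 * (s * t) + 2 * 74 + 1 ≤ Fr.m / 2
      rw [Nat.le_div_iff_mul_le (by norm_num)]
      refine le_trans ?_ hmm
      have e1 : s * (s * t) ≤ s ^ 8 * (2 * t) := by
        calc s * (s * t) = s ^ 2 * t := by ring
          _ ≤ s ^ 8 * (2 * t) :=
            Nat.mul_le_mul (Nat.pow_le_pow_right hQ (by norm_num)) (by omega)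
      refine le_trans ?_ e1
      have e2 : 185000 * (s * t) ≤ s * (s * t) := Nat.mul_le_mul_right _ hs1
      have e3 : 1 ≤ s * t := Nat.mul_pos hQ ht
      omega
    have hstar : (((G.tall s).blow D).star (HV.cen (v0, 0) 0)).Nonempty :=
      ⟨_, mem_star_cen (G.tall s) hD0 (Sum.inr (v0, ⟨0, hQ⟩)) 0⟩
    refine ⟨HV (HV (TV V s) (TE V E s) D) (Xt (TE V E s) D) D0, Xt (Xt (TE V E s) D) D0,
      inferInstance, inferInstance, inferInstance, inferInstance, ((G.tall s).blow D).blow D0,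
      HV.cen (HV.cen (v0, 0) 0) 0, noLoop_blow _ hDpos hnl', ?_, ?_, ?_⟩
    · exact deg_blow _ hnl' (by omega) hdeg'
    · rw [card_HV]
      have hE := card_E_le hdeg'
      obtain ⟨v, hv⟩ : ∃ v, v = Fintype.card (HV (TV V s) (TE V E s) D) := ⟨_, rfl⟩
      rw [← hv] at hE hcard1 ⊢
      have e1 : 1 + 74 * s ≤ s ^ 2 := by nlinarith
      calc v * 2 ^ D0 + Fintype.card (Xt (TE V E s) D) * (D0 * 2 ^ D0)
          ≤ v * 2 ^ D0 + (74 * v) * (s * 2 ^ D0) := by gcongr
        _ = v * 2 ^ D0 * (1 + 74 * s) := by ring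
        _ ≤ v * 2 ^ D0 * s ^ 2 := Nat.mul_le_mul_left _ e1
        _ ≤ (8 * (x * (s * t)) * s ^ 84) * 2 ^ D0 * s ^ 2 := by gcongr
        _ = 8 * x * s ^ 87 * (2 ^ D0 * t) := by ring
        _ ≤ 8 * x * s ^ 87 * (2 * (s ^ 2 * κ)) := Nat.mul_le_mul_left _ hup
        _ = 16 * (x * κ) * s ^ 89 := by ring
        _ ≤ n := key 16 89 (by omega) (by omega)
    · exact hard_stage0 (Fr.blow s D hQ hD0) (HV.cen (v0, 0) 0) hκ (Nat.mul_pos hQ ht) hkill'
        hnl' hDpos (by norm_num) hdeg' hstar hm0 hD2' hc4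

end FrU
end

section

/-!
The final CNF for a given `n`: the union of all components.

PROOF of `inst_U`.  Let `L = Nat.log 2 n + 1`, `N = L ^ 3`.  The component `0` is the graph with `n` vertices and no edges
(`V = Fin n`, `E = Empty`).  The component `i ≥ 1` has the parameters `d = (i - 1) / L ^ 2`,
`p = (i - 1) / L % L`, `e = (i - 1) % L`, `κ = 4 * 2 ^ p`, `k = 2 ^ e`, `t_i = n / (k ^ (d - 1) * κ * s ^ (88 * d + 92))`;
if `1 ≤ d` and `k ≤ t_i` it is the graph of `comp_exists` for `t_i`, otherwise again the graph without edges.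
So for each `i : Fin (N + 1)` there are `V, E, ..., G, v` with no loops, `Deg 148`, `|V| ≤ n`, (`i = 0 → |V| = n`), and:
for all `d p e t` with `i = d * L ^ 2 + p * L + e + 1`, `p < L`, `e < L`, `1 ≤ d`, `2 ^ e ≤ t`,
`t * (2 ^ e) ^ (d - 1) * (4 * 2 ^ p) * s ^ (88 * d + 92) ≤ n`: `HardX G v d (4 * 2 ^ p) (2 ^ e) t s` (as `t ≤ t_i`;
`HardX` is antitone in `t`: `hardX_mono`).  Use `choose`, then `exists_pos` for `pos` (`q = 148`).
`u0 = inl ⟨0, inr (v 0, 0)⟩`, `enc`, `dec` from `Fintype.equivFin` (`enc e < card`; `dec m = u0` for other `m`).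
`F = (Fts (uniG G v pos) u0 (uroot v)).map enc`: unsatisfiable by `FrC.Fts_unsat` (`noLoop_uni`, `star_uni`,
`Fm.eval_map`), a 3-CNF by `FrC.Fts_cnf` and `deg_uni` (`FrS.isCNF_map`), size at least the number of vertices with
nonempty star, i.e. `|UV| ≥ |V 0| = n` (`le_Fts_size`, `star_uni`, `le_card_uni`), and at most
`|UV| * (2 ^ 3 * (3 * 3 + 1)) ≤ (N + 1) (n * 149) * 80 ≤ n * L ^ 3 * 23840` (`Fts_size`, `card_uni`, `N + 1 ≤ 2 L ^ 3`) (compare
`inst_T` in T/FinalT.lean for all of these).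
Given `d p q t` as in the statement (call `q` `e`): `p < L` since `2 ^ p ≤ n`, `e < L` since `2 ^ e ≤ t ≤ n`, `d < L` since
`2 ^ d ≤ s ^ d ≤ n` (`2 ≤ cstU ≤ s`; `2 ^ x ≤ n` gives `x ≤ Nat.log 2 n`: `Nat.le_log_of_pow_le` or similar).  So
`i0 = d * L ^ 2 + p * L + e + 1 ≤ N` is a component; `no_ref_uni` with `κ = 4 * 2 ^ p ≥ 3`.
-/

set_option linter.unusedSectionVars false

namespace FrU

open Finset Fr56 FrC FrG FrT
open scoped Classical

theorem hardX_mono {V E : Type} [Fintype E] [DecidableEq V] {G : Gph V E} {v0 : V}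
    {d κ k t t' r : ℕ} (h : HardX G v0 d κ k t r) (ht : t' ≤ t) : HardX G v0 d κ k t' r := by
  intro X ext loc hl Ls hLs
  exact h X ext loc hl Ls (hLs.trans (Nat.pow_le_pow_right (by norm_num) ht))

private theorem iu_digits {L d p e d' p' e' : ℕ} (hp : p < L) (he : e < L) (hp' : p' < L)
    (he' : e' < L) (h : d * L ^ 2 + p * L + e + 1 = d' * L ^ 2 + p' * L + e' + 1) :
    d = d' ∧ p = p' ∧ e = e' := by
  have hL : 0 < L := by omega
  have h1 : L * (L * d + p) + e = L * (L * d' + p') + e' := by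
    have e1 : L * (L * d + p) + e = d * L ^ 2 + p * L + e := by ring
    have e2 : L * (L * d' + p') + e' = d' * L ^ 2 + p' * L + e' := by ring
    rw [e1, e2]
    omega
  have h2 : e = e' := by
    have h3 := congrArg (fun x => x % L) h1
    simp only [Nat.mul_add_mod, Nat.mod_eq_of_lt he, Nat.mod_eq_of_lt he'] at h3
    exact h3
  subst h2
  have h3 : L * d + p = L * d' + p' := Nat.eq_of_mul_eq_mul_left hL (Nat.add_right_cancel h1)
  have h4 : p = p' := by
    have h5 := congrArg (fun x => x % L) h3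
    simp only [Nat.mul_add_mod, Nat.mod_eq_of_lt hp, Nat.mod_eq_of_lt hp'] at h5
    exact h5
  subst h4
  exact ⟨Nat.eq_of_mul_eq_mul_left hL (Nat.add_right_cancel h3), rfl, rfl⟩

private theorem iu_comp {n s : ℕ} (hg : GoodS n s) (L i : ℕ) :
    ∃ (V E : Type) (_ : Fintype V) (_ : Fintype E) (_ : DecidableEq V) (_ : DecidableEq E)
      (G : Gph V E) (v : V), G.NoLoop ∧ G.Deg 148 ∧ Fintype.card V ≤ n ∧
      (i = 0 → Fintype.card V = n) ∧
      ∀ d p e t : ℕ, i = d * L ^ 2 + p * L + e + 1 → p < L → e < L → 1 ≤ d → 2 ^ e ≤ t →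
        t * (2 ^ e) ^ (d - 1) * (4 * 2 ^ p) * s ^ (88 * d + 92) ≤ n →
        HardX G v d (4 * 2 ^ p) (2 ^ e) t s := by
  have hs : 0 < s := by
    have h1 := hg.cst
    unfold cstU at h1
    have h2 : 0 < 185 * 5 ^ 74 := by norm_num
    omega
  by_cases hex : ∃ d p e t : ℕ, i = d * L ^ 2 + p * L + e + 1 ∧ p < L ∧ e < L ∧ 1 ≤ d ∧ 2 ^ e ≤ t ∧
      t * (2 ^ e) ^ (d - 1) * (4 * 2 ^ p) * s ^ (88 * d + 92) ≤ n
  · obtain ⟨d, p, e, t, hi, hp, he, hd, hkt, hb⟩ := hex
    obtain ⟨M, hM⟩ : ∃ M, M = (2 ^ e) ^ (d - 1) * (4 * 2 ^ p) * s ^ (88 * d + 92) := ⟨_, rfl⟩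
    have hM0 : 0 < M := by
      rw [hM]
      exact Nat.mul_pos (Nat.mul_pos (Nat.pow_pos (Nat.pow_pos (by norm_num)))
        (Nat.mul_pos (by norm_num) (Nat.pow_pos (by norm_num)))) (Nat.pow_pos hs)
    have hle : ∀ t' : ℕ, t' * (2 ^ e) ^ (d - 1) * (4 * 2 ^ p) * s ^ (88 * d + 92) ≤ n →
        t' ≤ n / M := by
      intro t' h
      rw [Nat.le_div_iff_mul_le hM0, hM]
      refine le_trans (le_of_eq ?_) h
      ring
    have hge : n / M * (2 ^ e) ^ (d - 1) * (4 * 2 ^ p) * s ^ (88 * d + 92) ≤ n := by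
      refine le_trans (le_of_eq ?_) (Nat.div_mul_le_self n M)
      rw [hM]
      ring
    obtain ⟨V, E, iV, iE, dV, dE, G, v0, hnl, hdeg, hcard, hhard⟩ := comp_exists hg hd
      (κ := 4 * 2 ^ p) (k := 2 ^ e) (t := n / M)
      (Nat.mul_pos (by norm_num) (Nat.pow_pos (by norm_num))) Nat.one_le_two_pow
      (hkt.trans (hle t hb)) hge
    refine ⟨V, E, iV, iE, dV, dE, G, v0, hnl, hdeg, hcard, fun h0 => by omega, ?_⟩
    intro d' p' e' t' hi' hp' he' _ _ hb'
    obtain ⟨h1, h2, h3⟩ := iu_digits hp he hp' he' (hi.symm.trans hi')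
    subst h1
    subst h2
    subst h3
    exact hardX_mono hhard (hle t' hb')
  · have hn := hg.pos
    refine ⟨Fin n, Empty, inferInstance, inferInstance, inferInstance, inferInstance,
      ⟨fun e => e.elim, fun e => e.elim⟩, ⟨0, hn⟩, fun e => e.elim, fun v => ?_,
      le_of_eq (Fintype.card_fin n), fun _ => Fintype.card_fin n, ?_⟩
    · refine le_trans (Finset.card_le_univ _) ?_
      simp
    · intro d p e t h1 h2 h3 h4 h5 h6
      exact absurd ⟨d, p, e, t, h1, h2, h3, h4, h5, h6⟩ hex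

/-- **the CNF for a given `n`** -/
theorem inst_U {n s : ℕ} (hg : GoodS n s) : ∃ F : Fm ℕ, F.Unsat ∧ F.IsCNF 3 ∧ n ≤ F.size ∧
    F.size ≤ n * (Nat.log 2 n + 1) ^ 3 * 23840 ∧ ∀ d p q t : ℕ, 1 ≤ d → 2 ^ q ≤ t →
    t * (2 ^ q) ^ (d - 1) * (4 * 2 ^ p) * s ^ (88 * d + 92) ≤ n →
    ∀ κr : ℝ, (∀ a : ℕ, (a : ℝ) ≤ κr → a ≤ 4 * 2 ^ p) → ∀ R : List Rule, (∀ r ∈ R, r.Sound) →
    (∀ r ∈ R, r.nodes + 1 ≤ s) → ∀ b : Fm ℕ, b.Unsat → b.size + 1 ≤ s → ∀ π : List (Fm ℕ),
    Derives R (parts F ∪ {A | Shallow κr A ∧ ∀ x, A.eval x = true}) π → b ∈ π →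
    π.toFinset.card ≤ 2 ^ t → (∀ A ∈ π, A.subs.toFinset.card ≤ 2 ^ (2 ^ q)) →
    (∀ A ∈ π, ∃ (B : Fm ℕ) (σ : ℕ → Fm ℕ), A = B.subst σ ∧ FrC.depth B ≤ d ∧
      ∀ x, Shallow κr (σ x)) → False := by
  have hs : 2 ≤ s := by
    have h1 := hg.cst
    unfold cstU at h1
    have h2 : 2 ≤ 185 * 5 ^ 74 := by norm_num
    omega
  have hn := hg.pos
  obtain ⟨L, hL⟩ : ∃ L, L = Nat.log 2 n + 1 := ⟨_, rfl⟩
  rw [← hL]
  have hL1 : 1 ≤ L := by omega
  obtain ⟨N, hN⟩ : ∃ N, N = L ^ 3 := ⟨_, rfl⟩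
  have hN1 : 1 ≤ N := by rw [hN]; exact Nat.pow_pos hL1
  choose V E iV iE dV dE G v hnl hdeg hcV hc0 hhard using
    fun i : Fin (N + 1) => iu_comp hg L i.val
  have hposE : ∀ i, ∃ pos : E i → Bool → Fin (148 + 1), PosOk (G i) pos :=
    fun i => exists_pos (G i) (hnl i) (hdeg i)
  choose pos hpos using hposE
  obtain ⟨u0, hu0⟩ : ∃ u0 : UE V E 148, u0 = Sum.inl ⟨0, Sum.inr (v 0, 0)⟩ := ⟨_, rfl⟩
  obtain ⟨enc, henc⟩ : ∃ enc : UE V E 148 → ℕ, enc = fun e => (Fintype.equivFin _ e : ℕ) :=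
    ⟨_, rfl⟩
  obtain ⟨dec, hdec0⟩ : ∃ dec : ℕ → UE V E 148, dec = fun m =>
      if h : m < Fintype.card (UE V E 148) then (Fintype.equivFin _).symm ⟨m, h⟩ else u0 :=
    ⟨_, rfl⟩
  have hdec : ∀ e, dec (enc e) = e := by
    intro e
    rw [hdec0, henc]
    show (if h : _ then _ else _) = _
    rw [dif_pos (Fintype.equivFin _ e).isLt]
    exact (Fintype.equivFin _).symm_apply_apply e
  obtain ⟨T, hT⟩ : ∃ T, T = Fts (uniG G v pos) u0 (uroot v) := ⟨_, rfl⟩
  have hnlU : (uniG G v pos).NoLoop := noLoop_uni G v pos hnl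
  have hdegU : (uniG G v pos).Deg 3 := deg_uni G v pos hpos
  have hstar : ∀ w, ((uniG G v pos).star w).Nonempty := star_uni G v pos (by norm_num)
  refine ⟨T.map enc, ?_, ?_, ?_, ?_, ?_⟩
  · intro x
    rw [Fm.eval_map, hT]
    exact Fts_unsat _ hnlU _ _ (hstar _) _
  · rw [hT]
    exact FrS.isCNF_map _ (Fts_cnf _ hdegU _ _ (hstar _))
  · rw [Fm.size_map, hT]
    refine le_trans ?_ (le_Fts_size _ _ _)
    rw [Finset.filter_true_of_mem fun w _ => hstar w, Finset.card_univ]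
    calc n = Fintype.card (V 0) := (hc0 0 rfl).symm
      _ ≤ _ := le_card_uni 0
  · rw [Fm.size_map, hT]
    refine (Fts_size _ (by norm_num) hdegU _ _ (hstar _)).trans ?_
    calc Fintype.card (UV V 148) * (2 ^ 3 * (3 * 3 + 1))
        ≤ (N + 1) * (n * (148 + 1)) * (2 ^ 3 * (3 * 3 + 1)) :=
          Nat.mul_le_mul_right _ (card_uni hcV)
      _ = n * (N + 1) * 11920 := by ring
      _ ≤ n * (2 * N) * 11920 := by gcongr; omega
      _ = n * L ^ 3 * 23840 := by rw [← hN]; ring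
  · intro d p q t hd hqt hb κr hκ R hR hRs b hbU hbs π hπ hbπ hcard hsub hlines
    have ht1 : 1 ≤ t := Nat.one_le_two_pow.trans hqt
    have hk1 : 1 ≤ (2 ^ q) ^ (d - 1) := Nat.pow_pos (Nat.pow_pos (by norm_num))
    have hp1 : 1 ≤ 4 * 2 ^ p := Nat.mul_pos (by norm_num) (Nat.pow_pos (by norm_num))
    have hs1 : 1 ≤ s ^ (88 * d + 92) := Nat.pow_pos (by omega)
    have htn : t ≤ n := by
      refine le_trans ?_ hb
      calc t = t * 1 * 1 * 1 := by ring
        _ ≤ _ := by gcongr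
    have hpn : 4 * 2 ^ p ≤ n := by
      refine le_trans ?_ hb
      calc 4 * 2 ^ p = 1 * 1 * (4 * 2 ^ p) * 1 := by ring
        _ ≤ _ := by gcongr
    have hdn : 2 ^ d ≤ n := by
      refine le_trans ?_ hb
      calc 2 ^ d ≤ s ^ d := Nat.pow_le_pow_left hs d
        _ ≤ s ^ (88 * d + 92) := Nat.pow_le_pow_right (by omega) (by omega)
        _ = 1 * 1 * 1 * s ^ (88 * d + 92) := by ring
        _ ≤ _ := by gcongr
    have hlog : ∀ x, 2 ^ x ≤ n → x < L := by
      intro x hx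
      have := Nat.le_log_of_pow_le (by norm_num) hx
      omega
    have hpL : p < L := hlog p (by omega)
    have hqL : q < L := hlog q (hqt.trans htn)
    have hdL : d < L := hlog d hdn
    have hi0 : d * L ^ 2 + p * L + q + 1 < N + 1 := by
      obtain ⟨l, rfl⟩ : ∃ l, L = l + 1 := ⟨L - 1, by omega⟩
      have h1 : d * (l + 1) ^ 2 ≤ l * (l + 1) ^ 2 := Nat.mul_le_mul_right _ (by omega)
      have h2 : p * (l + 1) ≤ l * (l + 1) := Nat.mul_le_mul_right _ (by omega)
      have h3 : l * (l + 1) ^ 2 + l * (l + 1) + l + 1 = N := by rw [hN]; ring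
      omega
    exact no_ref_uni G v pos hnl hpos (by norm_num) u0 enc dec hdec ⟨_, hi0⟩ (κ := 4 * 2 ^ p)
      (by have : 1 ≤ 2 ^ p := Nat.one_le_two_pow; omega)
      (hhard ⟨_, hi0⟩ d p q t rfl hpL hqL hd hqt hb) hκ R hR hRs b hbU hbs π
      (by rw [← hT]; exact hπ) hbπ hcard hsub hlines

end FrU
end

section

/-!
Program U: the main theorem.
-/

set_option linter.unusedSectionVars false

namespace FrU

open Finset Fr56 FrC FrG FrT
open scoped Classical

/-- **number of lines against line size** -/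
theorem main_U : ∃ (C : ℕ) (F : ℕ → Fm ℕ),
    (∀ n, (F n).Unsat ∧ (F n).IsCNF 3 ∧ n ≤ (F n).size) ∧
    ∀ R : List Rule, (∀ r ∈ R, r.Sound) → ∀ b : Fm ℕ, b.Unsat →
      ∃ n₀, ∀ n ≥ n₀, ∀ d κ M : ℕ, 1 ≤ d → 1 ≤ κ → 2 ≤ M → ∀ π : List (Fm ℕ),
        Derives R (parts (F n) ∪ {A | Shallow κ A ∧ ∀ x, A.eval x = true}) π → b ∈ π →
        (∀ A ∈ π, {f | f ∈ A.subs}.ncard ≤ M ∧ ∃ (B : Fm ℕ) (σ : ℕ → Fm ℕ), A = B.subst σ ∧
          FrC.depth B ≤ d ∧ ∀ v, Shallow κ (σ v)) →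
        (2 : ℝ) ^ (((F n).size : ℝ) / (κ * Real.logb 2 (F n).size ^ (C * d) *
          Real.logb 2 M ^ (d - 1))) ≤ (M : ℝ) * ({A | A ∈ π}.ncard : ℕ) := by
  obtain ⟨C₀, a₀, hC₀, ha₀, hgood⟩ := exists_good
  obtain ⟨C, n₁, hnum⟩ := num_U C₀ a₀ hC₀
  have hg : ∀ n : ℕ, GoodS (n + n₁ + 1) (C₀ * (Nat.log 2 (n + n₁ + 1) + 1) ^ a₀) :=
    fun n => hgood _ _ (by omega) le_rfl
  choose F hF using fun n : ℕ => inst_U (hg n)
  refine ⟨C, F, fun n => ⟨(hF n).1, (hF n).2.1, le_trans (by omega) (hF n).2.2.1⟩,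
    fun R hR b hb => ?_⟩
  obtain ⟨c, hc, hcb⟩ : ∃ c, (∀ r ∈ R, r.nodes + 1 ≤ c) ∧ b.size + 1 ≤ c := by
    refine ⟨(R.map fun r => r.nodes + 1).sum + (b.size + 1), fun r hr => ?_, by omega⟩
    have := List.single_le_sum (l := R.map fun r => r.nodes + 1) (by simp) _
      (List.mem_map_of_mem hr)
    omega
  refine ⟨2 ^ c, fun n hn d κ M hd hκ hM π hπ hbπ hlines => ?_⟩
  obtain ⟨-, -, hlow, hup, hmain⟩ := hF n
  have hcs : c ≤ C₀ * (Nat.log 2 (n + n₁ + 1) + 1) ^ a₀ := by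
    have h1 : c ≤ Nat.log 2 (n + n₁ + 1) := by
      refine Nat.le_log_of_pow_le (by norm_num) (le_trans hn (by omega))
    calc c ≤ Nat.log 2 (n + n₁ + 1) + 1 := by omega
      _ = 1 * (Nat.log 2 (n + n₁ + 1) + 1) ^ 1 := by ring
      _ ≤ C₀ * (Nat.log 2 (n + n₁ + 1) + 1) ^ a₀ :=
        Nat.mul_le_mul hC₀ (Nat.pow_le_pow_right (by omega) ha₀)
  have hcardπ : ({A | A ∈ π} : Set (Fm ℕ)).ncard = π.toFinset.card := by
    rw [← Set.ncard_coe_finset]
    congr 1
    ext A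
    simp
  have hcardA : ∀ A : Fm ℕ, ({f | f ∈ A.subs} : Set (Fm ℕ)).ncard = A.subs.toFinset.card := by
    intro A
    rw [← Set.ncard_coe_finset]
    congr 1
    ext f
    simp
  rw [hcardπ]
  by_contra hlt
  push Not at hlt
  have hN : 1 ≤ π.toFinset.card :=
    Finset.card_pos.2 ⟨b, List.mem_toFinset.2 hbπ⟩
  obtain ⟨p, q, t, hκp, hMq, hqt, hNt, hle⟩ :=
    hnum (n + n₁ + 1) (by omega) (F n).size hlow hup d κ M π.toFinset.card hd hκ hM hN hlt
  refine hmain d p q t hd hqt hle κ (fun a ha => ?_) R hR (fun r hr => (hc r hr).trans hcs) b hb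
    (hcb.trans hcs) π hπ hbπ hNt (fun A hA => ?_) (fun A hA => (hlines A hA).2)
  · have h1 : a ≤ κ := by exact_mod_cast ha
    omega
  · have h1 := (hlines A hA).1
    rw [hcardA] at h1
    exact h1.trans hMq

end FrU
end
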