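import Mathlib
import Pool.Agent.Lib.MP_51bb46_lc.U.CodeMP
import Pool.Agent.Lib.MP_51bb46_lc.T.ValT
import Pool.Agent.Lib.MP_51bb46_lc.U.StA

section

/-!
The final estimates.

PROOF of `num_U`.  Let `A = 40 * 4 * 23840`, `C = 4 + 180 * a₀`, `L = Nat.log 2 n + 1`, `s = C₀ * L ^ a₀ ≥ 1`,
`LS = Real.logb 2 S`.  `LS ≥ Real.logb 2 n ≥ L - 1`, and `L - 1` tends to infinity with `n`; choose `n₁` such
that `2 ≤ L` and `A * C₀ ^ 180 * 2 ^ (3 + 180 * a₀) ≤ L - 1` for `n ≥ n₁` (e.g. `n₁ = 2 ^ (that number + 2)`); so `L ≤ 2 * LS`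
and `A * C₀ ^ 180 * 2 ^ (3 + 180 a₀) ≤ LS`.
Let `e = S / (κ * LS ^ (C d) * (logb 2 M) ^ (d - 1))` (denominator positive: `LS > 0`, `logb 2 M ≥ 1`).  As
`2 ≤ M * N < 2 ^ e`: `1 < e`; `logb 2 M < e` and `N < 2 ^ e` (as `N ≥ 1`, `M ≥ 1`).
Let `p = Nat.clog 2 κ`: `κ ≤ 2 ^ p ≤ 2 κ`.  Let `m = Nat.clog 2 M ≥ 1`: `M ≤ 2 ^ m`, `m ≤ logb 2 M + 1 ≤ 2 logb 2 M`
(`2 ^ (m - 1) < M`).  Let `q = Nat.clog 2 m`: `m ≤ 2 ^ q ≤ 2 m ≤ 4 logb 2 M`.  `M ≤ 2 ^ m ≤ 2 ^ (2 ^ q)`.
Let `t = ⌈4 e⌉₊`: `2 ^ q ≤ 4 logb 2 M < 4 e ≤ t`, `N < 2 ^ e ≤ 2 ^ t`, `t ≤ 4 e + 1 ≤ 5 e`.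
Then (in `ℝ`), with `88 d + 92 ≤ 180 d` and `1 ≤ s`:
`t (2 ^ q) ^ (d - 1) (4 * 2 ^ p) s ^ (88 d + 92) ≤ 5 e (4 logb 2 M) ^ (d - 1) (8 κ) s ^ (180 d)
= 40 * 4 ^ (d - 1) s ^ (180 d) S / LS ^ (C d) ≤ 40 * 4 ^ d (n L ^ 3 * 23840) s ^ (180 d) / LS ^ (C d) ≤ n`, as
`40 * 4 ^ d * 23840 * L ^ 3 * s ^ (180 d) ≤ (A L ^ 3 (C₀ L ^ a₀) ^ 180) ^ d = (A C₀ ^ 180 L ^ (3 + 180 a₀)) ^ d
≤ (A C₀ ^ 180 (2 LS) ^ (3 + 180 a₀)) ^ d ≤ (LS * LS ^ (3 + 180 a₀)) ^ d = LS ^ (C d)`.
-/

namespace FrU

private theorem clog_bd (x : ℕ) (hx : 1 ≤ x) : x ≤ 2 ^ Nat.clog 2 x ∧ 2 ^ Nat.clog 2 x ≤ 2 * x := by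
  refine ⟨Nat.le_pow_clog (by norm_num) x, ?_⟩
  rcases Nat.lt_or_ge 1 x with h | h
  · have h1 := Nat.pow_pred_clog_lt_self (b := 2) (by norm_num) h
    have h2 : 0 < Nat.clog 2 x := Nat.clog_pos (by norm_num) h
    obtain ⟨c, hc⟩ : ∃ c, Nat.clog 2 x = c + 1 := ⟨Nat.clog 2 x - 1, by omega⟩
    rw [hc] at h1 ⊢
    rw [Nat.pred_succ] at h1
    rw [pow_succ]
    omega
  · have : x = 1 := by omega
    subst this
    simp

private theorem num_core (L LS c : ℝ) (a₀ e : ℕ) (hL : 1 ≤ L) (hLS : L ≤ 2 * LS) (hc : 1 ≤ c)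
    (hB : 3814400 * c ^ 180 * 2 ^ (3 + 180 * a₀) ≤ LS) :
    40 * 4 ^ e * (23840 * L ^ 3) * (c * L ^ a₀) ^ (180 * (e + 1)) ≤
      LS ^ ((4 + 180 * a₀) * (e + 1)) := by
  have hLS0 : 0 < LS := by linarith
  have hL0 : 0 < L := by linarith
  have hc0 : 0 < c := by linarith
  obtain ⟨w, hw⟩ : ∃ w : ℝ, w = (c * L ^ a₀) ^ 180 := ⟨_, rfl⟩
  have hw0 : 0 < w := by rw [hw]; positivity
  have hZ : 3814400 * L ^ 3 * w ≤ LS ^ (4 + 180 * a₀) := by
    have e1 : 3814400 * L ^ 3 * w = 3814400 * c ^ 180 * L ^ (3 + 180 * a₀) := by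
      rw [hw, mul_pow, ← pow_mul, mul_comm a₀ 180, pow_add]
      ring
    have e2 : L ^ (3 + 180 * a₀) ≤ (2 * LS) ^ (3 + 180 * a₀) :=
      pow_le_pow_left₀ hL0.le hLS _
    have e3 : (2 * LS) ^ (3 + 180 * a₀) = 2 ^ (3 + 180 * a₀) * LS ^ (3 + 180 * a₀) := mul_pow _ _ _
    have e4 : LS ^ (4 + 180 * a₀) = LS * LS ^ (3 + 180 * a₀) := by
      rw [show 4 + 180 * a₀ = (3 + 180 * a₀) + 1 by ring, pow_succ, mul_comm]
    rw [e1, e4]
    calc 3814400 * c ^ 180 * L ^ (3 + 180 * a₀)
        ≤ 3814400 * c ^ 180 * (2 ^ (3 + 180 * a₀) * LS ^ (3 + 180 * a₀)) := by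
          rw [← e3]
          exact mul_le_mul_of_nonneg_left e2 (by positivity)
      _ = (3814400 * c ^ 180 * 2 ^ (3 + 180 * a₀)) * LS ^ (3 + 180 * a₀) := by ring
      _ ≤ LS * LS ^ (3 + 180 * a₀) := mul_le_mul_of_nonneg_right hB (by positivity)
  have hZ0 : 0 < 3814400 * L ^ 3 * w := by positivity
  have hL3 : 1 ≤ L ^ 3 := one_le_pow₀ hL
  have h4 : 4 * w ≤ 3814400 * L ^ 3 * w := by
    refine mul_le_mul_of_nonneg_right ?_ hw0.le
    linarith
  calc 40 * 4 ^ e * (23840 * L ^ 3) * (c * L ^ a₀) ^ (180 * (e + 1))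
      = (4 * w) ^ e * (953600 * L ^ 3 * w) := by
        rw [pow_mul, ← hw, mul_pow, pow_succ]
        ring
    _ ≤ (3814400 * L ^ 3 * w) ^ e * (3814400 * L ^ 3 * w) := by
        refine mul_le_mul (pow_le_pow_left₀ (by positivity) h4 _) ?_ (by positivity)
          (by positivity)
        refine mul_le_mul_of_nonneg_right ?_ hw0.le
        refine mul_le_mul_of_nonneg_right (by norm_num) (by positivity)
    _ = (3814400 * L ^ 3 * w) ^ (e + 1) := (pow_succ _ _).symm
    _ ≤ (LS ^ (4 + 180 * a₀)) ^ (e + 1) := pow_le_pow_left₀ hZ0.le hZ _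
    _ = LS ^ ((4 + 180 * a₀) * (e + 1)) := (pow_mul _ _ _).symm

/-- **the final estimates** -/
theorem num_U (C₀ a₀ : ℕ) (hC₀ : 1 ≤ C₀) : ∃ C n₁ : ℕ, ∀ n ≥ n₁, ∀ S : ℕ, n ≤ S →
    S ≤ n * (Nat.log 2 n + 1) ^ 3 * 23840 → ∀ d κ M N : ℕ, 1 ≤ d → 1 ≤ κ → 2 ≤ M → 1 ≤ N →
    (M : ℝ) * N < (2 : ℝ) ^ ((S : ℝ) /
      (κ * Real.logb 2 S ^ (C * d) * Real.logb 2 M ^ (d - 1))) →
    ∃ p q t : ℕ, κ ≤ 2 ^ p ∧ M ≤ 2 ^ (2 ^ q) ∧ 2 ^ q ≤ t ∧ N ≤ 2 ^ t ∧
      t * (2 ^ q) ^ (d - 1) * (4 * 2 ^ p) *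
        (C₀ * (Nat.log 2 n + 1) ^ a₀) ^ (88 * d + 92) ≤ n := by
  refine ⟨4 + 180 * a₀, 2 ^ (3814400 * C₀ ^ 180 * 2 ^ (3 + 180 * a₀) + 2), ?_⟩
  intro n hn S hnS hS d κ M N hd hκ hM hN h
  obtain ⟨B, hB⟩ : ∃ B, B = 3814400 * C₀ ^ 180 * 2 ^ (3 + 180 * a₀) := ⟨_, rfl⟩
  rw [← hB] at hn
  have hn1 : 1 ≤ n := le_trans Nat.one_le_two_pow hn
  have hlog : B + 2 ≤ Nat.log 2 n := Nat.le_log_of_pow_le (by norm_num) hn
  obtain ⟨e, rfl⟩ : ∃ e, d = e + 1 := ⟨d - 1, by omega⟩
  rw [Nat.add_sub_cancel] at h ⊢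
  obtain ⟨L, hL⟩ : ∃ L, L = Nat.log 2 n + 1 := ⟨_, rfl⟩
  rw [← hL] at hS ⊢
  obtain ⟨LS, hLS⟩ : ∃ LS, LS = Real.logb 2 S := ⟨_, rfl⟩
  obtain ⟨lM, hlM⟩ : ∃ lM, lM = Real.logb 2 M := ⟨_, rfl⟩
  rw [← hLS, ← hlM] at h
  have hnR : (1 : ℝ) ≤ n := by exact_mod_cast hn1
  have hnSR : (n : ℝ) ≤ S := by exact_mod_cast hnS
  have hLS1 : (L : ℝ) - 1 ≤ LS := by
    have h1 : ((Nat.log 2 n : ℕ) : ℝ) ≤ Real.logb 2 n := by
      have := Real.natLog_le_logb n 2
      exact_mod_cast this
    have h2 : Real.logb 2 n ≤ Real.logb 2 S :=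
      Real.logb_le_logb_of_le (by norm_num) (by linarith) hnSR
    rw [hLS, hL]
    push_cast
    linarith
  have hLB : (B : ℝ) + 2 ≤ (L : ℝ) - 1 := by
    rw [hL]
    push_cast
    have : ((B + 2 : ℕ) : ℝ) ≤ (Nat.log 2 n : ℕ) := by exact_mod_cast hlog
    push_cast at this
    linarith
  have hB0 : (0 : ℝ) ≤ B := Nat.cast_nonneg _
  have hLSB : (B : ℝ) ≤ LS := by linarith
  have hLS2 : (2 : ℝ) ≤ LS := by linarith
  have hL1 : (1 : ℝ) ≤ L := by linarith
  have hLL : (L : ℝ) ≤ 2 * LS := by linarith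
  have hCR : (1 : ℝ) ≤ C₀ := by exact_mod_cast hC₀
  have hBR : 3814400 * (C₀ : ℝ) ^ 180 * 2 ^ (3 + 180 * a₀) ≤ LS := by
    rw [hB] at hLSB
    push_cast at hLSB
    exact hLSB
  have hcore := num_core (L : ℝ) LS (C₀ : ℝ) a₀ e hL1 hLL hCR hBR
  have hMR : (2 : ℝ) ≤ M := by exact_mod_cast hM
  have hNR : (1 : ℝ) ≤ N := by exact_mod_cast hN
  have hκR : (1 : ℝ) ≤ κ := by exact_mod_cast hκ
  have hlM1 : 1 ≤ lM := by
    rw [hlM, Real.le_logb_iff_rpow_le (by norm_num) (by linarith), Real.rpow_one]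
    exact hMR
  have hD0 : 0 < (κ : ℝ) * LS ^ ((4 + 180 * a₀) * (e + 1)) * lM ^ e := by
    have : 0 < LS := by linarith
    positivity
  obtain ⟨E, hE⟩ : ∃ E, E = (S : ℝ) / (κ * LS ^ ((4 + 180 * a₀) * (e + 1)) * lM ^ e) := ⟨_, rfl⟩
  rw [← hE] at h
  have hE1 : 1 < E := by
    have h1 : (2 : ℝ) ^ (1 : ℝ) < (2 : ℝ) ^ E := by
      rw [Real.rpow_one]
      nlinarith
    exact (Real.rpow_lt_rpow_left_iff (by norm_num)).1 h1
  have hlME : lM ≤ E := by
    rw [hlM, Real.logb_le_iff_le_rpow (by norm_num) (by linarith)]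
    nlinarith
  have hNE : (N : ℝ) ≤ (2 : ℝ) ^ E := by nlinarith
  obtain ⟨hp1, hp2⟩ := clog_bd κ hκ
  have hm1 : 1 ≤ Nat.clog 2 M := Nat.clog_pos (by norm_num) (by omega)
  obtain ⟨hM1, -⟩ := clog_bd M (by omega)
  have hmR : ((Nat.clog 2 M : ℕ) : ℝ) ≤ 2 * lM := by
    have h1 := Nat.pow_pred_clog_lt_self (b := 2) (by norm_num) (by omega : 1 < M)
    obtain ⟨c, hc⟩ : ∃ c, Nat.clog 2 M = c + 1 := ⟨Nat.clog 2 M - 1, by omega⟩
    rw [hc] at h1 ⊢
    rw [Nat.pred_succ] at h1
    have h2 : (c : ℝ) ≤ lM := by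
      rw [hlM, Real.le_logb_iff_rpow_le (by norm_num) (by linarith), Real.rpow_natCast]
      exact_mod_cast h1.le
    push_cast
    linarith
  obtain ⟨hq1, hq2⟩ := clog_bd (Nat.clog 2 M) hm1
  refine ⟨Nat.clog 2 κ, Nat.clog 2 (Nat.clog 2 M), ⌈4 * E⌉₊, hp1, ?_, ?_, ?_, ?_⟩
  · exact hM1.trans (Nat.pow_le_pow_right (by norm_num) hq1)
  · have h1 : ((2 ^ Nat.clog 2 (Nat.clog 2 M) : ℕ) : ℝ) ≤ (2 * Nat.clog 2 M : ℕ) := by
      exact_mod_cast hq2
    have h2 : 4 * E ≤ (⌈4 * E⌉₊ : ℝ) := Nat.le_ceil _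
    have h3 : ((2 * Nat.clog 2 M : ℕ) : ℝ) = 2 * (Nat.clog 2 M : ℕ) := by push_cast; ring
    have h4 : ((2 ^ Nat.clog 2 (Nat.clog 2 M) : ℕ) : ℝ) ≤ (⌈4 * E⌉₊ : ℝ) := by
      rw [h3] at h1
      linarith
    exact_mod_cast h4
  · have h2 : 4 * E ≤ (⌈4 * E⌉₊ : ℝ) := Nat.le_ceil _
    have h3 : (N : ℝ) ≤ (2 : ℝ) ^ ((⌈4 * E⌉₊ : ℕ) : ℝ) :=
      hNE.trans (Real.rpow_le_rpow_of_exponent_le (by norm_num) (by linarith))
    rw [Real.rpow_natCast] at h3
    exact_mod_cast h3
  · have ht : ((⌈4 * E⌉₊ : ℕ) : ℝ) ≤ 5 * E := by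
      have := Nat.ceil_lt_add_one (by linarith : 0 ≤ 4 * E)
      linarith
    have hqR : ((2 ^ Nat.clog 2 (Nat.clog 2 M) : ℕ) : ℝ) ≤ 4 * lM := by
      have h1 : ((2 ^ Nat.clog 2 (Nat.clog 2 M) : ℕ) : ℝ) ≤ (2 * Nat.clog 2 M : ℕ) := by
        exact_mod_cast hq2
      have h3 : ((2 * Nat.clog 2 M : ℕ) : ℝ) = 2 * (Nat.clog 2 M : ℕ) := by push_cast; ring
      rw [h3] at h1
      linarith
    have hpR : ((2 ^ Nat.clog 2 κ : ℕ) : ℝ) ≤ 2 * κ := by
      have : ((2 ^ Nat.clog 2 κ : ℕ) : ℝ) ≤ (2 * κ : ℕ) := by exact_mod_cast hp2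
      push_cast at this ⊢
      exact this
    obtain ⟨t, ht'⟩ : ∃ t, t = ⌈4 * E⌉₊ := ⟨_, rfl⟩
    obtain ⟨Q, hQ⟩ : ∃ Q, Q = 2 ^ Nat.clog 2 (Nat.clog 2 M) := ⟨_, rfl⟩
    obtain ⟨P, hP⟩ : ∃ P, P = 2 ^ Nat.clog 2 κ := ⟨_, rfl⟩
    rw [← ht'] at ht ⊢
    rw [← hQ] at hqR ⊢
    rw [← hP] at hpR ⊢
    obtain ⟨s, hs⟩ : ∃ s, s = C₀ * L ^ a₀ := ⟨_, rfl⟩
    have hsR : (s : ℝ) = C₀ * (L : ℝ) ^ a₀ := by
      rw [hs]
      push_cast
      ring
    rw [← hsR] at hcore
    rw [← hs]
    have hs1 : (1 : ℝ) ≤ s := by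
      rw [hsR]
      exact one_le_mul_of_one_le_of_one_le hCR (one_le_pow₀ hL1)
    have hSR : (S : ℝ) ≤ n * (L : ℝ) ^ 3 * 23840 := by exact_mod_cast hS
    have hES : E * (κ * lM ^ e) * LS ^ ((4 + 180 * a₀) * (e + 1)) = S := by
      rw [hE, div_mul_eq_mul_div, div_mul_eq_mul_div, div_eq_iff hD0.ne']
      ring
    have hW0 : 0 < LS ^ ((4 + 180 * a₀) * (e + 1)) := pow_pos (by linarith) _
    have hE0 : 0 < E := by linarith
    have hlM0 : 0 < lM := by linarith
    have hs0 : (0 : ℝ) < s := by linarith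
    have hκ0 : (0 : ℝ) < κ := by linarith
    have hpw : (s : ℝ) ^ (88 * (e + 1) + 92) ≤ (s : ℝ) ^ (180 * (e + 1)) :=
      pow_le_pow_right₀ hs1 (by omega)
    have hmain : (t : ℝ) * (Q : ℝ) ^ e * (4 * P) * (s : ℝ) ^ (88 * (e + 1) + 92) ≤ n := by
      calc (t : ℝ) * (Q : ℝ) ^ e * (4 * P) * (s : ℝ) ^ (88 * (e + 1) + 92)
          ≤ (5 * E) * (4 * lM) ^ e * (4 * (2 * κ)) * (s : ℝ) ^ (180 * (e + 1)) := by
            gcongr
        _ = 40 * 4 ^ e * (E * (κ * lM ^ e)) * (s : ℝ) ^ (180 * (e + 1)) := by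
            rw [mul_pow]
            ring
        _ ≤ n := by
            refine le_of_mul_le_mul_right ?_ hW0
            calc 40 * 4 ^ e * (E * (κ * lM ^ e)) * (s : ℝ) ^ (180 * (e + 1)) *
                  LS ^ ((4 + 180 * a₀) * (e + 1))
                = 40 * 4 ^ e * (s : ℝ) ^ (180 * (e + 1)) *
                  (E * (κ * lM ^ e) * LS ^ ((4 + 180 * a₀) * (e + 1))) := by ring
              _ = 40 * 4 ^ e * (s : ℝ) ^ (180 * (e + 1)) * S := by rw [hES]
              _ ≤ 40 * 4 ^ e * (s : ℝ) ^ (180 * (e + 1)) * (n * (L : ℝ) ^ 3 * 23840) :=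
                  mul_le_mul_of_nonneg_left hSR (by positivity)
              _ = n * (40 * 4 ^ e * (23840 * (L : ℝ) ^ 3) * (s : ℝ) ^ (180 * (e + 1))) := by
                  ring
              _ ≤ n * LS ^ ((4 + 180 * a₀) * (e + 1)) :=
                  mul_le_mul_of_nonneg_left hcore (by positivity)
    exact_mod_cast hmain

end FrU
end

section

/-!
Formulas over arbitrary variables `X` whose values are functions of the chain `y`.

PROOFS.  `valX`: as `FrT.baseVal` (T/ValT.lean).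
`hard_of_ext`: apply `hkill` to `X`, `B`, `Ls`, `i0 = 0`, `cap = 3 κ'`, the valuation `valX`.
`CDcds .. 0 κ'`: the outer tree is a leaf; `f ∈ A.subs` with `lev B f ≤ 0` satisfies `B f` (`FrG.lev_eq_zero_iff`),
and for `Ok ∅ y` we have the tree by `hdec`.
Axioms: `AndOf.mono`: let `B f`, `v` as in `hAx`, `|U| ≤ 0 + κ'`, `Ok U y`, `QX f false U y`.  By `Fr.move` to
`insert v U` there is `y1` that agrees with `y` on `U`, with violated vertex `t1` free for `insert v U`, so
`t1 ≠ v` (`Fr.disj`), and `f.eval (ext y1) = true`; contradiction.  `lev B f = 0`.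
`hard_direct`: `hard_of_ext` with `B = ShT κ` (`bas_ShT`), `κ' = κ`.  `hdec`: a formula `f` with `ShT κ f` has a
decision tree `A` of depth at most `κ`; claim by induction on the tree `A'` (as `valT_dec` in T/ValT.lean): if
`f.eval (ext y') = A'.eval (ext y')` for all `y'` with `G.Agree U y y'` then `Dec Fr v0 (QX G ext f) A'.depth U y`;
at a node `x l r` reveal `{loc x}`: all `y'` with `G.Agree (U ∪ {loc x}) y1 y'` have `ext y' x = ext y1 x`.
-/

set_option linter.unusedSectionVars false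

namespace FrU

open Finset Fr56 FrC FrG FrT
open scoped Classical

section
variable {V E X : Type} [Fintype E] [DecidableEq V] (G : Gph V E)

/-- the local truth value of a formula -/
def QX (ext : (E → ZMod 2) → X → Bool) (f : Fm X) (b : Bool) (U : Finset V)
    (y : E → ZMod 2) : Prop :=
  ∀ y' : E → ZMod 2, G.Agree U y y' → f.eval (ext y') = b

/-- `G` with the root `v0` is hard: no refutation of size `2^t` with lines of depth `d` over formulas of
decision tree depth `κ`, with at most `2^k` subformulas in each line, for all ways to read the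
variables off from a chain of `G` -/
def HardX (v0 : V) (d κ k t r : ℕ) : Prop :=
  ∀ (X : Type) (ext : (E → ZMod 2) → X → Bool) (loc : X → V),
    (∀ x y y', (∀ e ∈ G.inc {loc x}, y e = y' e) → ext y x = ext y' x) →
  ∀ Ls : Finset (Fm X), Ls.card ≤ 2 ^ t → (∀ A ∈ Ls, A.subs.toFinset.card ≤ 2 ^ k) →
  ∀ R : List Rule, (∀ q ∈ R, q.Sound) → (∀ q ∈ R, q.nodes + 1 ≤ r) →
  ∀ Ax : Set (Fm X), (∀ F ∈ Ax, AndOf (fun f => ShT κ f ∧ ∃ v : V, ∀ y t',
    G.bd y = FrC.pt v0 + FrC.pt t' → t' ≠ v → f.eval (ext y) = true) F) →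
  ∀ b : Fm ℕ, b.Unsat → b.size + 1 ≤ r →
  ∀ (τ : ℕ → X) (π : List (Fm X)), Derives R Ax π → b.map τ ∈ π →
  (∀ A ∈ π, A ∈ Ls ∧ lev (ShT κ) A ≤ d) → False

end

section
variable {V E X : Type} [Fintype V] [Fintype E] [DecidableEq V] {G : Gph V E} (Fr : Frame G)
  (v0 : V)

/-- the valuation -/
def valX (ext : (E → ZMod 2) → X → Bool) (Φ : Set (Fm X)) (cap : ℕ) : Valn Fr v0 X Φ cap where
  Q f b U y := QX G ext f b U y
  mono := by
    intro f _ b U U' y y' hU _ h hag _ y'' h2
    exact h y'' (hag.trans (h2.mono hU))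
  uniq := by
    intro f _ U y _ _ h1 h2
    have h3 := (h1 y (Gph.Agree.refl G U y)).symm.trans (h2 y (Gph.Agree.refl G U y))
    exact Bool.noConfusion h3
  neg := by
    intro f _ _ b b' U y _ _ h1 h2
    rw [← h1 y (Gph.Agree.refl G U y), ← h2 y (Gph.Agree.refl G U y)]
    rfl
  and := by
    intro f g _ _ _ b b' b'' U y _ _ h1 h2 h3
    rw [← h1 y (Gph.Agree.refl G U y), ← h2 y (Gph.Agree.refl G U y),
      ← h3 y (Gph.Agree.refl G U y)]
    rfl
  or := by
    intro f g _ _ _ b b' b'' U y _ _ h1 h2 h3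
    rw [← h1 y (Gph.Agree.refl G U y), ← h2 y (Gph.Agree.refl G U y),
      ← h3 y (Gph.Agree.refl G U y)]
    rfl

theorem hard_of_ext {d κ' r k t : ℕ} (hkill : KillsM Fr v0 d 0 κ' 3 r k t)
    (hm : 3 * κ' + 1 ≤ Fr.m) (ext : (E → ZMod 2) → X → Bool) {B : Fm X → Prop} (hB : Bas B)
    (Ls : Finset (Fm X)) (hLt : Ls.card ≤ 2 ^ t) (hLk : ∀ A ∈ Ls, A.subs.toFinset.card ≤ 2 ^ k)
    (hdec : ∀ A ∈ Ls, ∀ f ∈ A.subs, B f → ∀ y, Fr.Ok v0 ∅ y → Dec Fr v0 (QX G ext f) κ' ∅ y)
    (R : List Rule) (hR : ∀ q ∈ R, q.Sound) (hRr : ∀ q ∈ R, q.nodes + 1 ≤ r) (Ax : Set (Fm X))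
    (hAx : ∀ F ∈ Ax, AndOf (fun f => B f ∧ ∃ v : V, ∀ y t',
      G.bd y = FrC.pt v0 + FrC.pt t' → t' ≠ v → f.eval (ext y) = true) F)
    (b : Fm ℕ) (hb : b.Unsat) (hbr : b.size + 1 ≤ r) (τ : ℕ → X) (π : List (Fm X))
    (hπ : Derives R Ax π) (hbπ : b.map τ ∈ π) (hlev : ∀ A ∈ π, A ∈ Ls ∧ lev B A ≤ d) :
    False := by
  refine hkill X B Ls 0 (3 * κ') (valX Fr v0 ext _ _) hB hLt hLk (by omega) (by omega) ?_ R hR hRr
    Ax ?_ b hb hbr τ π hπ hbπ fun A hA => ⟨(hlev A hA).1, ?_⟩
  · intro A hA y hok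
    refine Dec.leaf true fun f hf hΦ => ?_
    exact hdec A hA f hf ((lev_eq_zero_iff hB f).1 (Nat.le_zero.1 hΦ.2)) y hok
  · intro F hF _
    refine (hAx F hF).mono fun f _ hf => ?_
    obtain ⟨hBf, v, hv⟩ := hf
    refine ⟨le_of_eq (rank_small hB f hBf), fun U y hU hok hQ => ?_⟩
    obtain ⟨y1, hag, t1, hbd, hfree⟩ := Fr.move (U' := insert v U) (Finset.subset_insert _ _)
      ((Finset.card_insert_le _ _).trans (by omega)) hok
    have ht : t1 ≠ v := by
      rintro rfl
      exact Fr.disj hfree (Finset.mem_insert_self _ _)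
    have h1 := hv y1 t1 hbd ht
    have h2 := hQ y1 hag
    rw [h1] at h2
    exact Bool.noConfusion h2
  · rw [Nat.zero_add]
    exact (hlev A hA).2

private theorem valX_dec (ext : (E → ZMod 2) → X → Bool) (loc : X → V)
    (hloc : ∀ x y y', (∀ e ∈ G.inc {loc x}, y e = y' e) → ext y x = ext y' x) (f : Fm X)
    (A : Dtree X) : ∀ (U : Finset V) (y : E → ZMod 2),
    (∀ y', G.Agree U y y' → f.eval (ext y') = A.eval (ext y')) →
    Dec Fr v0 (QX G ext f) A.depth U y := by
  induction A with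
  | leaf b =>
    intro U y h
    exact Dec.leaf b fun y' h' => h y' h'
  | node x l r ihl ihr =>
    intro U y h
    have h1 : Dec Fr v0 (QX G ext f) (1 + max l.depth r.depth) U y := by
      refine Dec.node {loc x} (by simp) fun y1 hag _ => ?_
      have hx : ∀ y', G.Agree (U ∪ {loc x}) y1 y' → ext y' x = ext y1 x := by
        intro y' h'
        refine (hloc x y1 y' fun e he => h' e ?_).symm
        exact G.inc_mono Finset.subset_union_right he
      by_cases hb : ext y1 x = true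
      · refine Dec.mono (ihr (U ∪ {loc x}) y1 fun y' h' => ?_) (le_max_right _ _)
        rw [h y' (hag.trans (h'.mono Finset.subset_union_left))]
        simp only [Dtree.eval]
        have h3 : ext y' x = true := by rw [hx y' h']; exact hb
        exact if_pos h3
      · refine Dec.mono (ihl (U ∪ {loc x}) y1 fun y' h' => ?_) (le_max_left _ _)
        rw [h y' (hag.trans (h'.mono Finset.subset_union_left))]
        simp only [Dtree.eval]
        have h3 : ¬ ext y' x = true := by rw [hx y' h']; exact hb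
        exact if_neg h3
    rw [Nat.add_comm] at h1
    exact h1

/-- trees of small depth are decided by few vertices -/
theorem dec_loc (ext : (E → ZMod 2) → X → Bool) (loc : X → V)
    (hloc : ∀ x y y', (∀ e ∈ G.inc {loc x}, y e = y' e) → ext y x = ext y' x) (f : Fm X)
    (A : Dtree X) (hA : ∀ x, A.eval x = f.eval x) (y : E → ZMod 2) :
    Dec Fr v0 (QX G ext f) A.depth ∅ y :=
  valX_dec Fr v0 ext loc hloc f A ∅ y fun y' _ => (hA (ext y')).symm

theorem hard_direct {d κ r k t : ℕ} (hκ : 1 ≤ κ) (hkill : KillsM Fr v0 d 0 κ 3 r k t)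
    (hm : 3 * κ + 1 ≤ Fr.m) : HardX G v0 d κ k t r := by
  intro X ext loc hloc Ls hLt hLk R hR hRr Ax hAx b hb hbr τ π hπ hbπ hlev
  refine hard_of_ext Fr v0 hkill hm ext (bas_ShT hκ) Ls hLt hLk ?_ R hR hRr Ax hAx b hb hbr τ π hπ
    hbπ hlev
  intro A _ f _ hf y _
  obtain ⟨T, hT, hev⟩ := hf f (Fm.self_mem_subs f)
  exact Dec.mono (dec_loc Fr v0 ext loc hloc f T hev y) hT

end

end FrU
end

section

section

/-!
The union of finitely many graphs: each graph is split (so that all degrees are at most 3), and the roots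
are joined by a path.

Notation: `N + 1` graphs `G i` with roots `v i` and positions `pos i` (`PosOk`), all degrees at most `q`.
Vertices of the union: `⟨i, (w, j)⟩`; edges: `inl ⟨i, e⟩` (edges of the split graph `i`), and `inr j` joining the
roots `⟨j, (v j, 0)⟩` and `⟨j + 1, (v (j + 1), 0)⟩`.

PROOFS.
`bd_uni`: at `⟨i, (w, j)⟩` the edges `inl ⟨i', e⟩` with `i' ≠ i` contribute nothing; those with `i' = i` contribute the
boundary of the chain of the split graph: `(embSplit (G i) (pos i) _).bd_ext`: it is `(G i).bd (Y i) w` if `j = 0`, and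
`0` otherwise.  The path edges contribute only at `(v i, 0)`, namely
`∑ j', ((if j'.castSucc = i then b j' else 0) + (if j'.succ = i then b j' else 0))`.
`bd_uniExt`: `Y = Pi.single i0 y` (`Y i = y` for `i = i0`, `0` otherwise; `(G i).bd 0 = 0`), `b j = 1` iff `j < i0`.  The path
sum at `i` is `[i < i0] + [1 ≤ i ≤ i0] = [i = 0] + [i = i0]` in `ZMod 2`.  Compare both sides at every vertex
`⟨i, (w, j)⟩`: for `i = i0`, `j = 0`: `(pt (v i0) + pt t') w + (if w = v i0 then [i0 = 0] + 1 else 0)`.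
`deg_uni`: the star of `⟨i, (w, j)⟩` consists of the star in the split graph (at most `3` edges, at most `1` if
`j = 0`: `deg_split`, `deg_split_base`) and, for `(w, j) = (v i, 0)`, of at most two path edges.
`noLoop_uni`: `noLoop_split`; `j.castSucc ≠ j.succ`.
`star_uni`: `star_split`.
`uni_loc`: a value of `uniExt` depends only on the values of `y` on the edges at one vertex: for
`inl ⟨i0, inl e⟩` at `src e`, for `inl ⟨i0, inr (w, _)⟩` at `w`; all other values do not depend on `y`.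
`card_uni`: `Fintype.card_sigma`, `Finset.sum_le_card_nsmul`.
-/

set_option linter.unusedSectionVars false

namespace FrU

open Finset Fr56 FrC FrG FrT
open scoped Classical

section
variable {N q : ℕ} {V E : Fin (N + 1) → Type} [∀ i, Fintype (V i)] [∀ i, Fintype (E i)]
  [∀ i, DecidableEq (V i)] [∀ i, DecidableEq (E i)]

/-- vertices of the union -/
abbrev UV (V : Fin (N + 1) → Type) (q : ℕ) := Σ i, V i × Fin (q + 1)

/-- edges of the union -/
abbrev UE (V E : Fin (N + 1) → Type) (q : ℕ) := (Σ i, E i ⊕ (V i × Fin q)) ⊕ Fin N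

variable (G : ∀ i, Gph (V i) (E i)) (v : ∀ i, V i) (pos : ∀ i, E i → Bool → Fin (q + 1))

/-- the union graph -/
def uniG : Gph (UV V q) (UE V E q) where
  src := Sum.elim (fun p => ⟨p.1, (splitG (G p.1) (pos p.1)).src p.2⟩)
    (fun j => ⟨j.castSucc, (v j.castSucc, 0)⟩)
  tgt := Sum.elim (fun p => ⟨p.1, (splitG (G p.1) (pos p.1)).tgt p.2⟩)
    (fun j => ⟨j.succ, (v j.succ, 0)⟩)

/-- the root of the union -/
def uroot : UV V q := ⟨0, (v 0, 0)⟩

/-- chains of the components and values on the path -/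
def uniY (Y : ∀ i, E i → ZMod 2) (b : Fin N → ZMod 2) : UE V E q → ZMod 2 :=
  Sum.elim (fun p => Sum.elim (Y p.1) (fun r => extS (G p.1) (pos p.1) (Y p.1) r.1 r.2.val) p.2) b

/-- the chain of the union given by a chain of the component `i0` -/
def uniExt (i0 : Fin (N + 1)) (y : E i0 → ZMod 2) : UE V E q → ZMod 2 :=
  uniY G pos (Pi.single i0 y) (fun j => if j.val < i0.val then 1 else 0)

private theorem sig_iff (i i' : Fin (N + 1)) (w : V i) (j : Fin (q + 1)) :
    ((⟨i', (v i', 0)⟩ : UV V q) = ⟨i, (w, j)⟩) ↔ (i' = i ∧ w = v i ∧ j = 0) := by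
  constructor
  · intro h
    obtain ⟨h1, h2⟩ := Sigma.mk.inj_iff.1 h
    subst h1
    have h3 := Prod.mk.inj (eq_of_heq h2)
    exact ⟨rfl, h3.1.symm, h3.2.symm⟩
  · rintro ⟨rfl, rfl, rfl⟩
    rfl

theorem bd_uni (hpos : ∀ i, PosOk (G i) (pos i)) (Y : ∀ i, E i → ZMod 2) (b : Fin N → ZMod 2)
    (i : Fin (N + 1)) (w : V i) (j : Fin (q + 1)) :
    (uniG G v pos).bd (uniY G pos Y b) ⟨i, (w, j)⟩ = if j = 0 then (G i).bd (Y i) w +
      (if w = v i then ∑ j' : Fin N, ((if j'.castSucc = i then b j' else 0) +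
        (if j'.succ = i then b j' else 0)) else 0) else 0 := by
  have hE' : (splitG (G i) (pos i)).bd
      (Sum.elim (Y i) (fun r => extS (G i) (pos i) (Y i) r.1 r.2.val)) (w, j) =
      if j = 0 then (G i).bd (Y i) w else 0 := by
    refine ((embSplit (G i) (pos i) (hpos i)).bd_ext (Y i) (w, j)).trans ?_
    show (if (w, j) = (w, 0) then (G i).bd (Y i) w else 0) = _
    by_cases hj : j = 0
    · subst hj
      rw [if_pos rfl, if_pos rfl]
    · rw [if_neg hj, if_neg]
      intro h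
      exact hj (Prod.mk.inj h).2
  have h2 : (uniG G v pos).bd (uniY G pos Y b) ⟨i, (w, j)⟩ = (splitG (G i) (pos i)).bd
      (Sum.elim (Y i) (fun r => extS (G i) (pos i) (Y i) r.1 r.2.val)) (w, j) +
      ∑ j' : Fin N, ((if j'.castSucc = i ∧ w = v i ∧ j = 0 then b j' else 0) +
        (if j'.succ = i ∧ w = v i ∧ j = 0 then b j' else 0)) := by
    unfold Gph.bd
    rw [Fintype.sum_sum_type]
    congr 1
    · rw [Fintype.sum_sigma, Finset.sum_eq_single i]
      · refine Finset.sum_congr rfl fun e _ => ?_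
        simp only [uniG, uniY, Sum.elim_inl, Sigma.mk.injEq, heq_eq_eq, true_and]
      · intro i' _ hi'
        refine Finset.sum_eq_zero fun e _ => ?_
        rw [if_neg, if_neg, add_zero]
        · intro h
          exact hi' (Sigma.mk.inj_iff.1 h).1
        · intro h
          exact hi' (Sigma.mk.inj_iff.1 h).1
      · intro h
        exact absurd (Finset.mem_univ _) h
    · refine Finset.sum_congr rfl fun j' _ => ?_
      simp only [uniG, uniY, Sum.elim_inr, sig_iff]
  rw [h2, hE']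
  by_cases hj : j = 0
  · by_cases hw : w = v i
    · simp only [hj, hw, and_true, if_true]
    · simp only [hj, hw, and_false, false_and, if_false, if_true, add_zero,
        Finset.sum_const_zero]
  · simp only [hj, and_false, if_false, add_zero, Finset.sum_const_zero]

private theorem sum_castSucc (i i0 : Fin (N + 1)) :
    (∑ j' : Fin N, if j'.castSucc = i then (if j'.val < i0.val then (1 : ZMod 2) else 0) else 0) =
      if i.val < i0.val then 1 else 0 := by
  induction i using Fin.lastCases with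
  | last =>
    rw [if_neg]
    · refine Finset.sum_eq_zero fun j' _ => ?_
      rw [if_neg (Fin.castSucc_ne_last j')]
    · have := i0.isLt
      rw [Fin.val_last]
      omega
  | cast i =>
    rw [Finset.sum_eq_single i]
    · rw [if_pos rfl]
      rfl
    · intro j' _ hj'
      rw [if_neg]
      intro h
      exact hj' (Fin.castSucc_injective N h)
    · intro h
      exact absurd (Finset.mem_univ _) h

private theorem sum_succ' (i i0 : Fin (N + 1)) :
    (∑ j' : Fin N, if j'.succ = i then (if j'.val < i0.val then (1 : ZMod 2) else 0) else 0) =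
      if i ≠ 0 ∧ i.val ≤ i0.val then 1 else 0 := by
  induction i using Fin.cases with
  | zero =>
    rw [if_neg (by simp)]
    refine Finset.sum_eq_zero fun j' _ => ?_
    rw [if_neg (Fin.succ_ne_zero j')]
  | succ i =>
    rw [Finset.sum_eq_single i]
    · rw [if_pos rfl]
      by_cases h : i.val < i0.val
      · rw [if_pos h, if_pos ⟨Fin.succ_ne_zero i, by rw [Fin.val_succ]; omega⟩]
      · rw [if_neg h, if_neg]
        rintro ⟨-, h2⟩
        rw [Fin.val_succ] at h2
        omega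
    · intro j' _ hj'
      rw [if_neg]
      intro h
      exact hj' (Fin.succ_injective N h)
    · intro h
      exact absurd (Finset.mem_univ _) h

private theorem sum_path (i i0 : Fin (N + 1)) :
    (∑ j' : Fin N, ((if j'.castSucc = i then (if j'.val < i0.val then (1 : ZMod 2) else 0) else 0) +
      (if j'.succ = i then (if j'.val < i0.val then (1 : ZMod 2) else 0) else 0))) =
      (if i = 0 then 1 else 0) + (if i = i0 then 1 else 0) := by
  rw [Finset.sum_add_distrib, sum_castSucc, sum_succ']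
  have h11 : (1 : ZMod 2) + 1 = 0 := by decide
  rcases lt_trichotomy i.val i0.val with h | h | h
  · have hne : i ≠ i0 := fun h' => by rw [h'] at h; omega
    rw [if_pos h, if_neg hne, add_zero]
    by_cases h0 : i = 0
    · rw [if_pos h0, if_neg (fun h' => h'.1 h0), add_zero]
    · rw [if_neg h0, if_pos ⟨h0, h.le⟩, h11]
  · have he : i = i0 := Fin.ext h
    rw [if_neg (by omega), if_pos he, zero_add]
    by_cases h0 : i = 0
    · rw [if_pos h0, if_neg (fun h' => h'.1 h0), h11]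
    · rw [if_neg h0, if_pos ⟨h0, h.le⟩, zero_add]
  · have hne : i ≠ i0 := fun h' => by rw [h'] at h; omega
    have h0 : i ≠ 0 := by
      intro h'
      rw [h'] at h
      simp at h
    rw [if_neg (by omega), if_neg (fun h' => absurd h'.2 (by omega)), if_neg h0, if_neg hne]

theorem bd_uniExt (hpos : ∀ i, PosOk (G i) (pos i)) (i0 : Fin (N + 1)) (y : E i0 → ZMod 2)
    (t' : V i0) (h : (G i0).bd y = FrC.pt (v i0) + FrC.pt t') :
    (uniG G v pos).bd (uniExt G pos i0 y) =
      FrC.pt (uroot v : UV V q) + FrC.pt (⟨i0, (t', 0)⟩ : UV V q) := by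
  funext p
  obtain ⟨i, w, j⟩ := p
  unfold uniExt
  rw [bd_uni G v pos hpos, sum_path]
  have hR : (FrC.pt (uroot v : UV V q) + FrC.pt (⟨i0, (t', 0)⟩ : UV V q)) ⟨i, (w, j)⟩ =
      (if i = 0 ∧ w = v i ∧ j = 0 then 1 else 0) +
        (if (⟨i0, (t', 0)⟩ : UV V q) = ⟨i, (w, j)⟩ then 1 else 0) := by
    unfold FrC.pt uroot
    rw [Pi.add_apply, Pi.single_apply, Pi.single_apply]
    congr 1
    · refine if_congr ?_ rfl rfl
      rw [eq_comm, sig_iff, eq_comm]
    · exact if_congr eq_comm rfl rfl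
  rw [hR]
  by_cases hj : j = 0
  · subst hj
    rw [if_pos rfl]
    by_cases hi : i = i0
    · subst hi
      rw [Pi.single_eq_same, h, if_pos (rfl : i = i)]
      have h3 : (FrC.pt (v i) + FrC.pt t') w = (if w = v i then 1 else 0) +
          (if w = t' then 1 else 0) := by
        unfold FrC.pt
        rw [Pi.add_apply, Pi.single_apply, Pi.single_apply]
      have h4 : (if (⟨i, (t', 0)⟩ : UV V q) = ⟨i, (w, 0)⟩ then (1 : ZMod 2) else 0) =
          if w = t' then 1 else 0 := by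
        refine if_congr ?_ rfl rfl
        constructor
        · intro h
          exact (Prod.mk.inj (eq_of_heq (Sigma.mk.inj_iff.1 h).2)).1.symm
        · rintro rfl
          rfl
      rw [h3, h4]
      generalize (if w = t' then (1 : ZMod 2) else 0) = z
      have h11 : (1 : ZMod 2) + 1 = 0 := by decide
      by_cases hw : w = v i
      · by_cases h0 : i = 0
        · rw [if_pos hw, if_pos hw, if_pos h0, if_pos ⟨h0, hw, rfl⟩]
          linear_combination h11
        · rw [if_pos hw, if_pos hw, if_neg h0, if_neg (fun h' => h0 h'.1)]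
          linear_combination h11
      · rw [if_neg hw, if_neg hw, if_neg (fun h' => hw h'.2.1)]
        ring
    · rw [Pi.single_eq_of_ne hi, if_neg hi]
      have h3 : (G i).bd (0 : E i → ZMod 2) w = 0 := by
        unfold Gph.bd
        simp
      have h4 : ¬((⟨i0, (t', 0)⟩ : UV V q) = ⟨i, (w, 0)⟩) := by
        intro h
        exact hi (Sigma.mk.inj_iff.1 h).1.symm
      rw [h3, if_neg h4, zero_add, add_zero, add_zero]
      by_cases hw : w = v i
      · by_cases h0 : i = 0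
        · rw [if_pos hw, if_pos h0, if_pos ⟨h0, hw, rfl⟩]
        · rw [if_pos hw, if_neg h0, if_neg (fun h' => h0 h'.1)]
      · rw [if_neg hw, if_neg (fun h' => hw h'.2.1)]
  · rw [if_neg hj, if_neg (fun h' => hj h'.2.2), if_neg, add_zero]
    intro h
    obtain ⟨h1, h2⟩ := Sigma.mk.inj_iff.1 h
    subst h1
    exact hj (Prod.mk.inj (eq_of_heq h2)).2.symm

include v in
theorem uni_loc (i0 : Fin (N + 1)) (e : UE V E q) : ∃ w : V i0, ∀ y y' : E i0 → ZMod 2,
    (∀ e' ∈ (G i0).inc {w}, y e' = y' e') → uniExt G pos i0 y e = uniExt G pos i0 y' e := by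
  rcases e with ⟨i, e⟩ | j
  · by_cases hi : i = i0
    · subst hi
      rcases e with e | r
      · refine ⟨(G i).src e, fun y y' h => ?_⟩
        show (Pi.single i y : ∀ i, E i → ZMod 2) i e = (Pi.single i y' : ∀ i, E i → ZMod 2) i e
        rw [Pi.single_eq_same, Pi.single_eq_same]
        exact h e (Or.inl (Finset.mem_singleton_self _))
      · refine ⟨r.1, fun y y' h => ?_⟩
        show extS (G i) (pos i) ((Pi.single i y : ∀ i, E i → ZMod 2) i) r.1 r.2.val =
          extS (G i) (pos i) ((Pi.single i y' : ∀ i, E i → ZMod 2) i) r.1 r.2.val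
        rw [Pi.single_eq_same, Pi.single_eq_same]
        unfold extS
        refine Finset.sum_congr rfl fun e _ => ?_
        congr 1
        · by_cases h1 : (G i).src e = r.1
          · rw [h e (Or.inl (by rw [h1]; exact Finset.mem_singleton_self _))]
          · rw [if_neg (fun h' => h1 h'.1), if_neg (fun h' => h1 h'.1)]
        · by_cases h1 : (G i).tgt e = r.1
          · rw [h e (Or.inr (by rw [h1]; exact Finset.mem_singleton_self _))]
          · rw [if_neg (fun h' => h1 h'.1), if_neg (fun h' => h1 h'.1)]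
    · refine ⟨v i0, fun y y' _ => ?_⟩
      show Sum.elim ((Pi.single i0 y : ∀ i, E i → ZMod 2) i)
          (fun r => extS (G i) (pos i) ((Pi.single i0 y : ∀ i, E i → ZMod 2) i) r.1 r.2.val) e =
        Sum.elim ((Pi.single i0 y' : ∀ i, E i → ZMod 2) i)
          (fun r => extS (G i) (pos i) ((Pi.single i0 y' : ∀ i, E i → ZMod 2) i) r.1 r.2.val) e
      rw [Pi.single_eq_of_ne hi, Pi.single_eq_of_ne hi]
  · exact ⟨v i0, fun y y' _ => rfl⟩

theorem deg_uni (hpos : ∀ i, PosOk (G i) (pos i)) : (uniG G v pos).Deg 3 := by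
  rintro ⟨i, w, j⟩
  have hA : (((splitG (G i) (pos i)).star (w, j)).image
      (fun x => (Sum.inl ⟨i, x⟩ : UE V E q))).card ≤ ((splitG (G i) (pos i)).star (w, j)).card :=
    Finset.card_image_le
  have hB : (((univ : Finset (Fin N)).filter fun j' => j'.castSucc = i).image
      (fun x => (Sum.inr x : UE V E q))).card ≤ 1 := by
    refine Finset.card_image_le.trans (Finset.card_le_one.2 ?_)
    intro a ha b hb
    exact Fin.castSucc_injective N
      ((Finset.mem_filter.1 ha).2.trans (Finset.mem_filter.1 hb).2.symm)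
  have hC : (((univ : Finset (Fin N)).filter fun j' => j'.succ = i).image
      (fun x => (Sum.inr x : UE V E q))).card ≤ 1 := by
    refine Finset.card_image_le.trans (Finset.card_le_one.2 ?_)
    intro a ha b hb
    exact Fin.succ_injective N
      ((Finset.mem_filter.1 ha).2.trans (Finset.mem_filter.1 hb).2.symm)
  have hmem : ∀ x ∈ (uniG G v pos).star ⟨i, (w, j)⟩,
      (x ∈ ((splitG (G i) (pos i)).star (w, j)).image (fun x => (Sum.inl ⟨i, x⟩ : UE V E q))) ∨
      (j = 0 ∧ (x ∈ (((univ : Finset (Fin N)).filter fun j' => j'.castSucc = i).image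
        (fun x => (Sum.inr x : UE V E q))) ∨
        x ∈ (((univ : Finset (Fin N)).filter fun j' => j'.succ = i).image
        (fun x => (Sum.inr x : UE V E q))))) := by
    intro x hx
    rcases x with ⟨i', e⟩ | j'
    · left
      have h1 := (Finset.mem_filter.1 hx).2
      have h2 : i' = i := by
        rcases h1 with h | h
        · exact (Sigma.mk.inj_iff.1 h).1
        · exact (Sigma.mk.inj_iff.1 h).1
      subst h2
      refine Finset.mem_image.2 ⟨e, Finset.mem_filter.2 ⟨Finset.mem_univ _, ?_⟩, rfl⟩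
      rcases h1 with h | h
      · exact Or.inl (eq_of_heq (Sigma.mk.inj_iff.1 h).2)
      · exact Or.inr (eq_of_heq (Sigma.mk.inj_iff.1 h).2)
    · right
      rcases (Finset.mem_filter.1 hx).2 with h | h
      · have h1 := (sig_iff v i _ w j).1 h
        exact ⟨h1.2.2, Or.inl (Finset.mem_image.2
          ⟨j', Finset.mem_filter.2 ⟨Finset.mem_univ _, h1.1⟩, rfl⟩)⟩
      · have h1 := (sig_iff v i _ w j).1 h
        exact ⟨h1.2.2, Or.inr (Finset.mem_image.2
          ⟨j', Finset.mem_filter.2 ⟨Finset.mem_univ _, h1.1⟩, rfl⟩)⟩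
  by_cases hj : j = 0
  · have hsub : (uniG G v pos).star ⟨i, (w, j)⟩ ⊆
        (((splitG (G i) (pos i)).star (w, j)).image (fun x => (Sum.inl ⟨i, x⟩ : UE V E q))) ∪
        ((((univ : Finset (Fin N)).filter fun j' => j'.castSucc = i).image
          (fun x => (Sum.inr x : UE V E q))) ∪
        (((univ : Finset (Fin N)).filter fun j' => j'.succ = i).image
          (fun x => (Sum.inr x : UE V E q)))) := by
      intro x hx
      rcases hmem x hx with h | ⟨-, h | h⟩
      · exact Finset.mem_union_left _ h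
      · exact Finset.mem_union_right _ (Finset.mem_union_left _ h)
      · exact Finset.mem_union_right _ (Finset.mem_union_right _ h)
    have h1 := (Finset.card_le_card hsub).trans (Finset.card_union_le _ _)
    have h2 := Finset.card_union_le
      (((univ : Finset (Fin N)).filter fun j' => j'.castSucc = i).image
          (fun x => (Sum.inr x : UE V E q)))
      (((univ : Finset (Fin N)).filter fun j' => j'.succ = i).image
          (fun x => (Sum.inr x : UE V E q)))
    have h3 : ((splitG (G i) (pos i)).star (w, j)).card ≤ 1 := by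
      rw [hj]
      exact deg_split_base (G i) (pos i) (hpos i) w
    omega
  · have hsub : (uniG G v pos).star ⟨i, (w, j)⟩ ⊆
        (((splitG (G i) (pos i)).star (w, j)).image (fun x => (Sum.inl ⟨i, x⟩ : UE V E q))) := by
      intro x hx
      rcases hmem x hx with h | ⟨h, -⟩
      · exact h
      · exact absurd h hj
    exact (Finset.card_le_card hsub).trans (hA.trans (deg_split (G i) (pos i) (hpos i) (w, j)))

theorem noLoop_uni (hl : ∀ i, (G i).NoLoop) : (uniG G v pos).NoLoop := by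
  rintro (⟨i, e⟩ | j) h
  · exact noLoop_split (G i) (pos i) (hl i) e (eq_of_heq (Sigma.mk.inj_iff.1 h).2)
  · exact absurd (Sigma.mk.inj_iff.1 h).1 (Fin.castSucc_lt_succ (i := j)).ne

theorem star_uni (hq : 0 < q) (p : UV V q) : ((uniG G v pos).star p).Nonempty := by
  obtain ⟨i, x⟩ := p
  obtain ⟨e, he⟩ := star_split (G i) hq (pos i) x
  refine ⟨Sum.inl ⟨i, e⟩, Finset.mem_filter.2 ⟨Finset.mem_univ _, ?_⟩⟩
  rcases (Finset.mem_filter.1 he).2 with h | h
  · left
    show (⟨i, (splitG (G i) (pos i)).src e⟩ : UV V q) = ⟨i, x⟩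
    rw [h]
  · right
    show (⟨i, (splitG (G i) (pos i)).tgt e⟩ : UV V q) = ⟨i, x⟩
    rw [h]

theorem card_uni {n : ℕ} (h : ∀ i, Fintype.card (V i) ≤ n) :
    Fintype.card (UV V q) ≤ (N + 1) * (n * (q + 1)) := by
  rw [Fintype.card_sigma]
  calc (∑ i, Fintype.card (V i × Fin (q + 1))) ≤ ∑ _i : Fin (N + 1), n * (q + 1) := by
        refine Finset.sum_le_sum fun i _ => ?_
        rw [Fintype.card_prod, Fintype.card_fin]
        exact Nat.mul_le_mul_right _ (h i)
    _ = (N + 1) * (n * (q + 1)) := by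
        rw [Finset.sum_const, Finset.card_univ, Fintype.card_fin, smul_eq_mul]

theorem le_card_uni (i : Fin (N + 1)) : Fintype.card (V i) ≤ Fintype.card (UV V q) := by
  refine Fintype.card_le_of_injective (fun w : V i => (⟨i, (w, 0)⟩ : UV V q)) ?_
  intro a b h
  exact (Prod.mk.inj (eq_of_heq (Sigma.mk.inj_iff.1 h).2)).1

end

end FrU
end

section

/-!
Reading a decision tree on a chain of the blow-up (no tall graph): definitions and basic facts.

`Reach ext loc β A W A'`: when the tree `A` is evaluated at `ext β`, we arrive at the subtree `A'` after reading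
variables located at the vertices in `W`.

PROOFS: inductions.  `reach_congr`: induction on `Reach`: in a step from `(W, node x l r)` to
`(insert (loc x) W, ..)` `β` and `β'` agree on the edges touching `insert (loc x) W`, in particular on those
touching `{loc x}`, so `ext β' x = ext β x` (`hloc`).  `reach_card`: `|W| + A'.depth ≤ A.depth`.
`reach_visit`: `Reach ext loc β A W A'` implies `visit ext loc A β = W ∪ visit ext loc A' β` (induction), in particular
`W ⊆ visit ..`.  `reach_eval`: the value of `A` is that of `A'`.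
`visit_card`: induction on the tree.
-/

set_option linter.unusedSectionVars false

namespace FrU

open Finset Fr56 FrC FrG FrT
open scoped Classical

section
variable {V E X : Type} [DecidableEq V] (ext : (E → ZMod 2) → X → Bool) (loc : X → V)

/-- the locations read by the tree -/
def visit : Dtree X → (E → ZMod 2) → Finset V
  | .leaf _, _ => ∅
  | .node x l r, β => insert (loc x) (if ext β x then visit r β else visit l β)

/-- `Reach ext loc β A W A'`: after reading the variables at `W` the evaluation of `A` is at `A'` -/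
inductive Reach (β : E → ZMod 2) (A : Dtree X) : Finset V → Dtree X → Prop
  | refl : Reach β A ∅ A
  | step {W : Finset V} {x : X} {l r : Dtree X} (h : Reach β A W (.node x l r)) :
      Reach β A (insert (loc x) W) (if ext β x then r else l)

variable {ext loc} {G : Gph V E}

theorem reach_congr (hloc : ∀ x y y', (∀ e ∈ G.inc {loc x}, y e = y' e) → ext y x = ext y' x)
    {β β' : E → ZMod 2} {A A' : Dtree X} {W : Finset V} (h : Reach ext loc β A W A')
    (hβ : ∀ e ∈ G.inc W, β e = β' e) : Reach ext loc β' A W A' := by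
  induction h with
  | refl => exact Reach.refl
  | @step W x l r h ih =>
    have h1 : Reach ext loc β' A W (.node x l r) :=
      ih fun e he => hβ e (G.inc_mono (Finset.subset_insert _ _) he)
    have h2 : ext β x = ext β' x := by
      apply hloc
      intro e he
      apply hβ
      refine G.inc_mono ?_ he
      intro v hv
      rw [Finset.mem_singleton] at hv
      subst hv
      exact Finset.mem_insert_self _ _
    have h3 := Reach.step h1
    rw [← h2] at h3
    exact h3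

theorem reach_card {β : E → ZMod 2} {A A' : Dtree X} {W : Finset V}
    (h : Reach ext loc β A W A') : W.card + A'.depth ≤ A.depth := by
  induction h with
  | refl => simp
  | @step W x l r h ih =>
    have h1 : (insert (loc x) W).card ≤ W.card + 1 := Finset.card_insert_le _ _
    have h2 : (if ext β x then r else l).depth ≤ max l.depth r.depth := by
      split_ifs
      · exact le_max_right _ _
      · exact le_max_left _ _
    have h3 : (Dtree.node x l r).depth = max l.depth r.depth + 1 := rfl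
    omega

theorem reach_visit {β : E → ZMod 2} {A A' : Dtree X} {W : Finset V}
    (h : Reach ext loc β A W A') : W ⊆ visit ext loc A β := by
  suffices h' : visit ext loc A β = W ∪ visit ext loc A' β by
    rw [h']; exact Finset.subset_union_left
  induction h with
  | refl => simp
  | @step W x l r h ih =>
    rw [ih]
    have h1 : visit ext loc (.node x l r) β
        = insert (loc x) (if ext β x then visit ext loc r β else visit ext loc l β) := rfl
    rw [h1]
    split_ifs with hx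
    · ext v
      simp only [Finset.mem_union, Finset.mem_insert]
      tauto
    · ext v
      simp only [Finset.mem_union, Finset.mem_insert]
      tauto

theorem reach_eval {β : E → ZMod 2} {A A' : Dtree X} {W : Finset V}
    (h : Reach ext loc β A W A') : A.eval (ext β) = A'.eval (ext β) := by
  induction h with
  | refl => rfl
  | @step W x l r h ih =>
    rw [ih]
    have h1 : (Dtree.node x l r).eval (ext β)
        = if ext β x then r.eval (ext β) else l.eval (ext β) := rfl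
    rw [h1]
    split_ifs <;> rfl

theorem visit_card (A : Dtree X) (β : E → ZMod 2) : (visit ext loc A β).card ≤ A.depth := by
  induction A with
  | leaf b => simp [visit]
  | node x l r ihl ihr =>
    have h1 : visit ext loc (.node x l r) β
        = insert (loc x) (if ext β x then visit ext loc r β else visit ext loc l β) := rfl
    have h3 : (Dtree.node x l r).depth = max l.depth r.depth + 1 := rfl
    rw [h1, h3]
    refine (Finset.card_insert_le _ _).trans ?_
    have h4 := le_max_left l.depth r.depth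
    have h5 := le_max_right l.depth r.depth
    split_ifs <;> omega

end

section
variable {V E X : Type} [Fintype V] [Fintype E] [DecidableEq V] [DecidableEq E] (G : Gph V E)
  (v0 : V) {D : ℕ}

/-- whenever the tree has been read up to some point, less than `R` live paths touch the vertices that
were read (if none of them ends at the violated vertex) -/
def NoVis (α : Xt E D → ZMod 2) (a : V → FrC.A D) (ext : (Xt E D → ZMod 2) → X → Bool)
    (loc : X → HV V E D) (A : Dtree X) (R : ℕ) : Prop :=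
  ∀ (y : E → ZMod 2) (t : V) (W : Finset (HV V E D)) (A' : Dtree X),
    G.bd y = FrC.pt v0 + FrC.pt t → Reach ext loc (α + Pth G a y) A W A' →
    (∀ e ∈ cov G a W, G.src e ≠ t ∧ G.tgt e ≠ t) → (cov G a W).card < R

end

end FrU
end
end
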